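import Pool.Agent.Lib.MP_1eeaa7_nt.Gauge

/-!
# Surjectivity of `a ↦ a P + a' R` modulo `X ^ p`
-/

set_option autoImplicit false

namespace Pool.Agent.Lib.MP_1eeaa7_nt

open Polynomial

variable {p : ℕ} [hp : Fact p.Prime]

theorem inj_mod {P R S T U : (ZMod p)[X]} (hRU : R * U = X ^ (p - 1) - 1) (hP : P = S * R + T)
    (hS : S.natDegree < p - 1) (hTU : (T * U).natDegree < p - 1) (hS0 : S.coeff 0 ≠ 0)
    {a : (ZMod p)[X]} (ha : a.degree < p) (h : X ^ p ∣ a * P + derivative a * R) : a = 0 := by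
  have hp2 := hp.out.two_le
  have hp1 : p - 1 ≠ 0 := by omega
  have hpp : (p : ZMod p) = 0 := ZMod.natCast_self p
  -- the series `g = -P/R`
  set q : PowerSeries (ZMod p) := 1 - PowerSeries.X ^ (p - 1) with hq
  have hq0 : PowerSeries.constantCoeff q ≠ 0 := by
    rw [hq, map_sub, map_one, map_pow, PowerSeries.constantCoeff_X, zero_pow hp1, sub_zero]
    exact one_ne_zero
  set g : PowerSeries (ZMod p) := ((P * U : (ZMod p)[X]) : PowerSeries (ZMod p)) * q⁻¹ with hg
  have hgq : g * q = ((P * U : (ZMod p)[X]) : PowerSeries (ZMod p)) := by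
    rw [hg, mul_assoc, PowerSeries.inv_mul_cancel _ hq0, mul_one]
  have hRUs : (R : PowerSeries (ZMod p)) * (U : PowerSeries (ZMod p)) = -q := by
    rw [← Polynomial.coe_mul, hRU, hq]
    push_cast
    ring
  have hRg : (R : PowerSeries (ZMod p)) * g = -(P : PowerSeries (ZMod p)) := by
    have hqne : q ≠ 0 := fun h0 => hq0 (by rw [h0, map_zero])
    apply mul_right_cancel₀ hqne
    rw [mul_assoc, hgq, Polynomial.coe_mul]
    calc (R : PowerSeries (ZMod p)) * ((P : PowerSeries (ZMod p)) * (U : PowerSeries (ZMod p)))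
        = (P : PowerSeries (ZMod p)) * ((R : PowerSeries (ZMod p)) *
          (U : PowerSeries (ZMod p))) := by ring
      _ = _ := by rw [hRUs]; ring
  have hRu : IsUnit (R : PowerSeries (ZMod p)) := by
    rw [PowerSeries.isUnit_iff_constantCoeff]
    have h1 := congrArg PowerSeries.constantCoeff hRUs
    rw [map_mul, map_neg] at h1
    refine isUnit_iff_ne_zero.2 fun h0 => ?_
    rw [h0, zero_mul] at h1
    exact hq0 (neg_eq_zero.1 h1.symm)
  have hdvd : (PowerSeries.X : PowerSeries (ZMod p)) ^ p ∣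
      PowerSeries.derivative (ZMod p) (a : PowerSeries (ZMod p)) - g * a := by
    have h1 : (PowerSeries.X : PowerSeries (ZMod p)) ^ p ∣
        ((a * P + derivative a * R : (ZMod p)[X]) : PowerSeries (ZMod p)) := by
      obtain ⟨c, hc⟩ := h
      exact ⟨c, by rw [hc]; push_cast; rfl⟩
    have h2 : ((a * P + derivative a * R : (ZMod p)[X]) : PowerSeries (ZMod p)) =
        (R : PowerSeries (ZMod p)) *
          (PowerSeries.derivative (ZMod p) (a : PowerSeries (ZMod p)) - g * a) := by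
      rw [mul_sub, ← mul_assoc, hRg, PowerSeries.derivative_coe]
      push_cast
      ring
    rw [h2] at h1
    exact (hRu.dvd_mul_left).1 h1
  obtain ⟨h1, h2⟩ := gauge hdvd
  have hPU : P * U = S * X ^ (p - 1) - S + T * U := by
    rw [hP, add_mul, mul_assoc, hRU]
    ring
  have hc0 : PowerSeries.coeff 0 g = (P * U).coeff 0 := by
    have h3 := congrArg (PowerSeries.coeff 0) hgq
    rw [Polynomial.coeff_coe, hq, mul_sub, mul_one, map_sub, mul_comm g, PowerSeries.coeff_X_pow_mul',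
      if_neg (by omega), sub_zero] at h3
    exact h3
  have hc1 : PowerSeries.coeff (p - 1) g - PowerSeries.coeff 0 g = S.coeff 0 := by
    have h3 := congrArg (PowerSeries.coeff (p - 1)) hgq
    rw [Polynomial.coeff_coe, hq, mul_sub, mul_one, map_sub, mul_comm g, PowerSeries.coeff_X_pow_mul',
      if_pos le_rfl, Nat.sub_self] at h3
    rw [h3, hPU, coeff_add, coeff_sub, coeff_mul_X_pow', if_pos le_rfl, Nat.sub_self,
      coeff_eq_zero_of_natDegree_lt hS, coeff_eq_zero_of_natDegree_lt hTU]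
    ring
  have hpow : PowerSeries.coeff 0 g ^ p = PowerSeries.coeff 0 g := ZMod.pow_card _
  rw [hpow, hc1] at h1
  have ha0 : PowerSeries.constantCoeff (a : PowerSeries (ZMod p)) = 0 :=
    (mul_eq_zero.1 h1).resolve_right hS0
  have h3 := PowerSeries.X_pow_dvd_iff.1 (h2 ha0)
  ext n
  rw [coeff_zero]
  by_cases hn : n < p
  · have := h3 n hn
    rwa [Polynomial.coeff_coe] at this
  · exact coeff_eq_zero_of_degree_lt (ha.trans_le (by exact_mod_cast (not_lt.1 hn)))

theorem surj_mod {P R S T U : (ZMod p)[X]} (hRU : R * U = X ^ (p - 1) - 1) (hP : P = S * R + T)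
    (hS : S.natDegree < p - 1) (hTU : (T * U).natDegree < p - 1) (hS0 : S.coeff 0 ≠ 0)
    {b : (ZMod p)[X]} (hb : b.degree < p) :
    ∃ a c : (ZMod p)[X], a * P + derivative a * R = b + X ^ p * c := by
  have hmon : (X ^ p : (ZMod p)[X]).Monic := monic_X_pow p
  let Λ₀ : (ZMod p)[X] →ₗ[ZMod p] (ZMod p)[X] := (modByMonicHom (X ^ p)).comp
    (LinearMap.mulRight (ZMod p) P + (LinearMap.mulRight (ZMod p) R).comp derivative)
  have hΛ₀ : ∀ a, Λ₀ a = (a * P + derivative a * R) %ₘ X ^ p := fun a => rfl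
  let Λ : degreeLT (ZMod p) p →ₗ[ZMod p] degreeLT (ZMod p) p :=
    (Λ₀.domRestrict (degreeLT (ZMod p) p)).codRestrict (degreeLT (ZMod p) p) (fun a => by
      rw [mem_degreeLT]
      show (((a : (ZMod p)[X]) * P + derivative (a : (ZMod p)[X]) * R) %ₘ X ^ p).degree < p
      have := degree_modByMonic_lt ((a : (ZMod p)[X]) * P + derivative (a : (ZMod p)[X]) * R) hmon
      rwa [degree_X_pow] at this)
  have hinj : Function.Injective Λ := by
    rw [injective_iff_map_eq_zero]
    intro a ha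
    have h1 : ((a : (ZMod p)[X]) * P + derivative (a : (ZMod p)[X]) * R) %ₘ X ^ p = 0 :=
      congrArg Subtype.val ha
    have h2 : X ^ p ∣ (a : (ZMod p)[X]) * P + derivative (a : (ZMod p)[X]) * R :=
      (modByMonic_eq_zero_iff_dvd hmon).1 h1
    exact Subtype.ext (inj_mod hRU hP hS hTU hS0 (mem_degreeLT.1 a.2) h2)
  obtain ⟨a, ha⟩ := (LinearMap.injective_iff_surjective.1 hinj) ⟨b, mem_degreeLT.2 hb⟩
  have h1 : ((a : (ZMod p)[X]) * P + derivative (a : (ZMod p)[X]) * R) %ₘ X ^ p = b :=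
    congrArg Subtype.val ha
  refine ⟨a, ((a : (ZMod p)[X]) * P + derivative (a : (ZMod p)[X]) * R) /ₘ X ^ p, ?_⟩
  conv_rhs => rw [← h1]
  exact (modByMonic_add_div _ _).symm

end Pool.Agent.Lib.MP_1eeaa7_nt
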