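import Pool.Agent.Lib.MP_1eeaa7_nt.System3
import Pool.Agent.Lib.MP_1eeaa7_nt.Surj

/-!
# The companion system of `P(∂) f + x R(∂) f = 0`
-/

set_option autoImplicit false

namespace Pool.Agent.Lib.MP_1eeaa7_nt

open Finset PowerSeries

section General

variable {κ : Type*} [CommRing κ] {m : ℕ}

/-- constant vectors -/
noncomputable def cstR (v : Fin m → κ) : Fin m → κ⟦X⟧ := fun i => PowerSeries.C (v i)

theorem cstR_eq_sum (v : Fin m → κ) :
    cstR v = ∑ i, v i • cstR (Pi.single (M := fun _ => κ) i (1 : κ)) := by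
  funext j
  rw [Finset.sum_apply]
  ext n
  rw [map_sum]
  simp only [cstR, Pi.smul_apply, coeff_smul, coeff_C, smul_eq_mul]
  by_cases hn : n = 0
  · simp [hn, Pi.single_apply]
  · simp [hn]

theorem ev0_sum (s : Finset (Fin m)) (f : Fin m → (Fin m → κ⟦X⟧)) :
    ev0 (∑ i ∈ s, f i) = ∑ i ∈ s, ev0 (f i) := by
  induction s using Finset.induction_on with
  | empty => funext i; simp [ev0]
  | insert a s ha ih => rw [sum_insert ha, sum_insert ha, ev0_add, ih]

theorem ev0_d_cstR (B : Matrix (Fin m) (Fin m) κ⟦X⟧) (Q : Polynomial κ) (n : ℕ) (v : Fin m → κ) :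
    ev0 ((dE B Q ^ n) (cstR v)) = Matrix.vecMul v (mat0 B Q n) := by
  rw [cstR_eq_sum, map_sum]
  funext j
  rw [ev0_sum, Finset.sum_apply, Matrix.vecMul, dotProduct]
  refine sum_congr rfl fun i _ => ?_
  rw [map_smul, ev0_smul, Pi.smul_apply, smul_eq_mul]
  rfl

theorem decomp (w : Fin m → κ⟦X⟧) : w = cstR (ev0 w) + xE κ m (shE κ m w) := by
  funext i
  ext n
  show coeff n (w i) = coeff n (PowerSeries.C (constantCoeff (w i)) +
    X * (PowerSeries.mk fun n => coeff (n + 1) (w i)))
  rcases n with _ | n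
  · rw [map_add, coeff_zero_X_mul]; simp
  · rw [map_add, coeff_succ_X_mul, coeff_mk, coeff_C, if_neg (Nat.succ_ne_zero n), zero_add]

theorem ev0_x (w : Fin m → κ⟦X⟧) : ev0 (xE κ m w) = 0 := by
  funext i
  show constantCoeff (X * w i) = 0
  rw [map_mul, constantCoeff_X, zero_mul]

/-- `B = x A` -/
noncomputable def xA (A : Matrix (Fin m) (Fin m) κ⟦X⟧) : Matrix (Fin m) (Fin m) κ⟦X⟧ :=
  (X : κ⟦X⟧) • A

theorem xA_QB (A : Matrix (Fin m) (Fin m) κ⟦X⟧) :
    Polynomial.aeval ((xA A).map constantCoeff) (Polynomial.X : Polynomial κ) = 0 := by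
  rw [Polynomial.aeval_X]
  ext i j
  show constantCoeff (X * A i j) = 0
  rw [map_mul, constantCoeff_X, zero_mul]

/-- the operator `w ↦ w' + w A` -/
noncomputable def nab (A : Matrix (Fin m) (Fin m) κ⟦X⟧) : Module.End κ (Fin m → κ⟦X⟧) :=
  dE (xA A) Polynomial.X

theorem nab_x (A : Matrix (Fin m) (Fin m) κ⟦X⟧) :
    nab A * xE κ m = xE κ m * nab A + 1 := by
  rw [nab, d_x, x_d (xA_QB A), Polynomial.aeval_X, Polynomial.aeval_X]

theorem nab_apply (A : Matrix (Fin m) (Fin m) κ⟦X⟧) (w : Fin m → κ⟦X⟧) (i : Fin m) :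
    nab A w i = d⁄dX κ (w i) + ∑ j, w j * A j i := by
  have h1 := LinearMap.congr_fun (x_d (xA_QB A)) w
  rw [Module.End.mul_apply, Polynomial.aeval_X] at h1
  have h2 := congrFun h1 i
  have h3 : X * (nab A w i) = X * (d⁄dX κ (w i) + ∑ j, w j * A j i) := by
    refine Eq.trans h2 ?_
    show X * d⁄dX κ (w i) + ∑ j, w j * (X * A j i) = _
    rw [mul_add, mul_sum]
    congr 1
    exact sum_congr rfl fun j _ => by ring
  ext n
  have h4 := congrArg (coeff (n + 1)) h3
  rwa [coeff_succ_X_mul, coeff_succ_X_mul] at h4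

theorem aeval_nab_x (A : Matrix (Fin m) (Fin m) κ⟦X⟧) (a : Polynomial κ) :
    Polynomial.aeval (nab A) a * xE κ m = xE κ m * Polynomial.aeval (nab A) a +
      Polynomial.aeval (nab A) (Polynomial.derivative a) := by
  induction a using Polynomial.induction_on with
  | C a => rw [Polynomial.aeval_C, Polynomial.derivative_C, map_zero, add_zero,
      Algebra.commutes]
  | add p q hp hq =>
    rw [map_add, map_add, map_add, add_mul, mul_add, hp, hq]
    abel
  | monomial n a ih =>
    obtain ⟨q, hq⟩ : ∃ q : Polynomial κ, q = Polynomial.C a * Polynomial.X ^ n := ⟨_, rfl⟩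
    rw [← hq] at ih
    rw [pow_succ, ← mul_assoc, ← hq, map_mul, Polynomial.aeval_X, mul_assoc, nab_x, mul_add,
      mul_one, ← mul_assoc, ih, Polynomial.derivative_mul, Polynomial.derivative_X, mul_one,
      map_add, map_mul, Polynomial.aeval_X]
    noncomm_ring

end General

section Companion

variable {κ : Type*} [CommRing κ] {m : ℕ}

/-- the companion matrix -/
noncomputable def compA (m : ℕ) (P R : Polynomial κ) : Matrix (Fin m) (Fin m) κ⟦X⟧ :=
  Matrix.of fun i l => if (i : ℕ) + 1 = l then 1 else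
    if (i : ℕ) + 1 = m then -(PowerSeries.C (P.coeff l) + X * PowerSeries.C (R.coeff l)) else 0

/-- basis vectors with index in `ℕ` -/
noncomputable def bas (κ : Type*) [CommRing κ] (m i : ℕ) : Fin m → κ⟦X⟧ :=
  fun l => if (l : ℕ) = i then 1 else 0

theorem nab_bas (P R : Polynomial κ) {i : ℕ} (hi : i + 1 < m) :
    nab (compA m P R) (bas κ m i) = bas κ m (i + 1) := by
  funext l
  rw [nab_apply]
  have h1 : d⁄dX κ (bas κ m i l) = 0 := by
    rw [bas]
    split_ifs
    · exact Derivation.map_one_eq_zero _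
    · exact map_zero _
  rw [h1, zero_add, sum_eq_single (⟨i, by omega⟩ : Fin m)]
  · rw [bas, if_pos rfl, one_mul, compA, Matrix.of_apply, bas]
    simp only
    by_cases h : (l : ℕ) = i + 1
    · rw [if_pos h.symm, if_pos h]
    · rw [if_neg (fun h' => h h'.symm), if_neg (by omega), if_neg h]
  · intro b _ hb
    have : ¬ (b : ℕ) = i := fun h => hb (Fin.ext h)
    rw [bas, if_neg this, zero_mul]
  · intro h; exact absurd (mem_univ _) h

theorem nab_last (P R : Polynomial κ) (hm : 0 < m) :
    nab (compA m P R) (bas κ m (m - 1)) = fun l : Fin m =>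
      -(PowerSeries.C (P.coeff l) + X * PowerSeries.C (R.coeff l)) := by
  funext l
  rw [nab_apply]
  have h1 : d⁄dX κ (bas κ m (m - 1) l) = 0 := by
    rw [bas]
    split_ifs
    · exact Derivation.map_one_eq_zero _
    · exact map_zero _
  rw [h1, zero_add, sum_eq_single (⟨m - 1, by omega⟩ : Fin m)]
  · rw [bas, if_pos rfl, one_mul, compA, Matrix.of_apply]
    simp only
    have := l.2
    rw [if_neg (by omega), if_pos (by omega)]
  · intro b _ hb
    have : ¬ (b : ℕ) = m - 1 := fun h => hb (Fin.ext h)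
    rw [bas, if_neg this, zero_mul]
  · intro h; exact absurd (mem_univ _) h

theorem nab_pow_bas (P R : Polynomial κ) {i : ℕ} (hi : i < m) :
    (nab (compA m P R) ^ i) (bas κ m 0) = bas κ m i := by
  induction i with
  | zero => simp
  | succ i ih => rw [pow_succ', Module.End.mul_apply, ih (by omega), nab_bas P R hi]

theorem aeval_bas (P R a : Polynomial κ) (ha : a.natDegree < m) :
    (Polynomial.aeval (nab (compA m P R)) a) (bas κ m 0) = fun l : Fin m =>
      PowerSeries.C (a.coeff l) := by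
  rw [Polynomial.aeval_eq_sum_range' ha, LinearMap.sum_apply]
  funext l
  rw [Finset.sum_apply, sum_eq_single (l : ℕ)]
  · rw [LinearMap.smul_apply, nab_pow_bas P R l.2, Pi.smul_apply, bas, if_pos rfl]
    ext n; simp [coeff_C, coeff_one]
  · intro b hb hbl
    rw [LinearMap.smul_apply, nab_pow_bas P R (mem_range.1 hb), Pi.smul_apply, bas,
      if_neg (fun h => hbl h.symm), smul_zero]
  · intro h; exact absurd (mem_range.2 l.2) h

theorem aeval_P (P R : Polynomial κ) (hm : 0 < m) (hP : P.Monic) (hPd : P.natDegree = m)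
    (hR : R.natDegree < m) :
    (Polynomial.aeval (nab (compA m P R)) P) (bas κ m 0) =
      -(xE κ m ((Polynomial.aeval (nab (compA m P R)) R) (bas κ m 0))) := by
  rw [aeval_bas P R R hR, Polynomial.aeval_eq_sum_range, hPd, sum_range_succ, LinearMap.add_apply,
    LinearMap.sum_apply]
  have h1 : P.coeff m = 1 := by rw [← hPd]; exact hP
  have h2 : (nab (compA m P R) ^ m) (bas κ m 0) = fun l : Fin m =>
      -(PowerSeries.C (P.coeff l) + X * PowerSeries.C (R.coeff l)) := by
    obtain ⟨q, rfl⟩ : ∃ q, m = q + 1 := ⟨m - 1, by omega⟩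
    rw [pow_succ', Module.End.mul_apply, nab_pow_bas P R (by omega)]
    exact nab_last P R hm
  rw [LinearMap.smul_apply, h1, one_smul, h2]
  funext l
  rw [Pi.add_apply, Finset.sum_apply, sum_eq_single (l : ℕ)]
  · rw [LinearMap.smul_apply, nab_pow_bas P R l.2, Pi.smul_apply, bas, if_pos rfl, Pi.neg_apply]
    show P.coeff l • (1 : κ⟦X⟧) + -(PowerSeries.C (P.coeff l) + X * PowerSeries.C (R.coeff l)) =
      -(X * PowerSeries.C (R.coeff l))
    have h3 : P.coeff l • (1 : κ⟦X⟧) = PowerSeries.C (P.coeff l) := by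
      ext n; simp [coeff_C, coeff_one]
    rw [h3]
    ring
  · intro b hb hbl
    rw [LinearMap.smul_apply, nab_pow_bas P R (mem_range.1 hb), Pi.smul_apply, bas,
      if_neg (fun h => hbl h.symm), smul_zero]
  · intro h; exact absurd (mem_range.2 l.2) h

theorem ev0_lambda (P R : Polynomial κ) (hm : 0 < m) (hP : P.Monic) (hPd : P.natDegree = m)
    (hR : R.natDegree < m) (a : Polynomial κ) :
    ev0 ((Polynomial.aeval (nab (compA m P R)) (a * P + Polynomial.derivative a * R))
      (bas κ m 0)) = 0 := by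
  have h1 : (Polynomial.aeval (nab (compA m P R)) (a * P + Polynomial.derivative a * R))
      (bas κ m 0) = -(xE κ m ((Polynomial.aeval (nab (compA m P R)) a)
        ((Polynomial.aeval (nab (compA m P R)) R) (bas κ m 0)))) := by
    rw [map_add, map_mul, map_mul, LinearMap.add_apply, Module.End.mul_apply,
      Module.End.mul_apply, aeval_P P R hm hP hPd hR, map_neg]
    have h2 := LinearMap.congr_fun (aeval_nab_x (compA m P R) a)
      ((Polynomial.aeval (nab (compA m P R)) R) (bas κ m 0))
    rw [Module.End.mul_apply, LinearMap.add_apply, Module.End.mul_apply] at h2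
    rw [h2]
    abel
  rw [h1, ← map_neg, ev0_x]

end Companion

section ModP

variable {p : ℕ} [hp : Fact p.Prime] {m : ℕ}

theorem ev0_nab_pow_p (A : Matrix (Fin m) (Fin m) (ZMod p)⟦X⟧) (w : Fin m → (ZMod p)⟦X⟧) :
    ev0 ((nab A ^ p) w) = Matrix.vecMul (ev0 w) (mat0 (xA A) Polynomial.X p) := by
  have h1 : nab A ^ p * xE (ZMod p) m = xE (ZMod p) m * nab A ^ p := by
    have h2 := aeval_nab_x A (Polynomial.X ^ p)
    rw [Polynomial.derivative_X_pow, ZMod.natCast_self, map_zero, zero_mul, map_zero, add_zero,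
      map_pow, Polynomial.aeval_X] at h2
    exact h2
  conv_lhs => rw [decomp w]
  have h3 := LinearMap.congr_fun h1 (shE (ZMod p) m w)
  rw [Module.End.mul_apply, Module.End.mul_apply] at h3
  rw [map_add, ev0_add, h3, ev0_x, add_zero]
  exact ev0_d_cstR (xA A) Polynomial.X p (ev0 w)

/-- **Invertibility of the `p`-curvature at `0`.** -/
theorem isUnit_mat0 {P R S T U : Polynomial (ZMod p)} (hm : 0 < m) (hmp : m ≤ p) (hPm : P.Monic)
    (hPd : P.natDegree = m) (hR : R.natDegree < m)
    (hRU : R * U = Polynomial.X ^ (p - 1) - 1) (hP : P = S * R + T)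
    (hS : S.natDegree < p - 1) (hTU : (T * U).natDegree < p - 1) (hS0 : S.coeff 0 ≠ 0) :
    IsUnit (mat0 (xA (compA m P R)) Polynomial.X p) := by
  rw [← Matrix.vecMul_surjective_iff_isUnit]
  intro v
  set b : Polynomial (ZMod p) := ∑ i : Fin m, Polynomial.monomial i (v i) with hb
  have hbc : ∀ l : Fin m, b.coeff l = v l := by
    intro l
    rw [hb, Polynomial.finsetSum_coeff]
    simp only [Polynomial.coeff_monomial]
    rw [sum_eq_single l]
    · rw [if_pos rfl]
    · intro c _ hc
      rw [if_neg (fun h => hc (Fin.ext h))]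
    · intro h; exact absurd (mem_univ _) h
  have hbd : b.natDegree < m := by
    have : b.natDegree ≤ m - 1 := Polynomial.natDegree_sum_le_of_forall_le _ _ fun i _ => by
      refine (Polynomial.natDegree_monomial_le _).trans ?_
      have := i.2
      omega
    omega
  have hbdeg : b.degree < p := by
    refine (Polynomial.degree_le_natDegree).trans_lt ?_
    exact_mod_cast hbd.trans_le hmp
  obtain ⟨a, c, hac⟩ := surj_mod hRU hP hS hTU hS0 hbdeg
  have h1 := ev0_lambda P R hm hPm hPd hR a
  rw [hac, map_add, map_mul, map_pow, Polynomial.aeval_X, LinearMap.add_apply,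
    Module.End.mul_apply, ev0_add, ev0_nab_pow_p, aeval_bas P R b hbd] at h1
  have h2 : ev0 (fun l : Fin m => PowerSeries.C (b.coeff l)) = v := by
    funext l
    show constantCoeff (PowerSeries.C (b.coeff l)) = v l
    rw [constantCoeff_C, hbc]
  rw [h2] at h1
  refine ⟨-ev0 ((Polynomial.aeval (nab (compA m P R)) c) (bas (ZMod p) m 0)), ?_⟩
  show Matrix.vecMul (-ev0 ((Polynomial.aeval (nab (compA m P R)) c) (bas (ZMod p) m 0))) _ = v
  rw [Matrix.neg_vecMul]
  exact (eq_neg_of_add_eq_zero_left h1).symm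

end ModP

end Pool.Agent.Lib.MP_1eeaa7_nt
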