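import Pool.Agent.Lib.MP_1eeaa7_nt.Str

/-!
# Functions on `ℕ` with exponentially decaying differences

If the iterated differences of `G : ℕ → ℚ_p` decay exponentially (uniformly), then on suitable
residue classes `G` is given by a Newton series to which the Strassmann bound applies.
-/

set_option autoImplicit false

namespace Pool.Agent.Lib.MP_1eeaa7_nt

open Finset

variable {k : Type*} [NormedField k] [IsUltrametricDist k]

omit [IsUltrametricDist k] in
theorem norm_nat_le [IsUltrametricDist k] (n : ℕ) : ‖(n : k)‖ ≤ 1 :=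
  IsUltrametricDist.norm_natCast_le_one k n

theorem norm_nat_of_not_dvd {p : ℕ} (hp : p.Prime) (hpk : ‖(p : k)‖ < 1) {n : ℕ} (hn : ¬ p ∣ n) :
    ‖(n : k)‖ = 1 := by
  refine le_antisymm (norm_nat_le n) ?_
  have h1 : IsCoprime (n : ℤ) (p : ℤ) :=
    Nat.isCoprime_iff_coprime.2 ((Nat.Prime.coprime_iff_not_dvd hp).2 hn).symm
  obtain ⟨a, b, hab⟩ := h1
  have h2 : (a : k) * (n : k) + (b : k) * (p : k) = 1 := by
    have := congrArg (Int.cast : ℤ → k) hab
    push_cast at this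
    exact this
  have ha : ‖(a : k)‖ ≤ 1 := norm_int_le a
  have hb : ‖(b : k)‖ ≤ 1 := norm_int_le b
  by_contra hlt
  push Not at hlt
  have h3 : ‖(a : k) * (n : k)‖ < 1 := by
    rw [norm_mul]
    exact mul_lt_one_of_nonneg_of_lt_one_right ha (norm_nonneg _) hlt
  have h4 : ‖(b : k) * (p : k)‖ < 1 := by
    rw [norm_mul]
    exact mul_lt_one_of_nonneg_of_lt_one_right hb (norm_nonneg _) hpk
  have h5 : ‖(a : k) * (n : k) + (b : k) * (p : k)‖ < 1 :=
    (IsUltrametricDist.norm_add_le_max _ _).trans_lt (max_lt h3 h4)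
  rw [h2, norm_one] at h5
  exact lt_irrefl _ h5

theorem norm_nat_ge {p : ℕ} (hp : p.Prime) (hpk : ‖(p : k)‖ < 1) {n e : ℕ} (hn : n ≠ 0)
    (he : padicValNat p n ≤ e) : ‖(p : k)‖ ^ e ≤ ‖(n : k)‖ := by
  have hfact : Fact p.Prime := ⟨hp⟩
  obtain ⟨v, m, hm, hnv⟩ := Nat.exists_eq_pow_mul_and_not_dvd hn p hp.ne_one
  have hv : padicValNat p n = v := by
    have hm0 : m ≠ 0 := by rintro rfl; exact hm (dvd_zero _)
    rw [hnv, padicValNat.mul (pow_ne_zero _ hp.ne_zero) hm0,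
      padicValNat.prime_pow, padicValNat.eq_zero_of_not_dvd hm, add_zero]
  have h1 : ‖(n : k)‖ = ‖(p : k)‖ ^ v := by
    rw [hnv, Nat.cast_mul, norm_mul, norm_nat_of_not_dvd hp hpk hm, mul_one, Nat.cast_pow, norm_pow]
  rw [h1]
  exact pow_le_pow_of_le_one (norm_nonneg _) hpk.le (by omega)

theorem norm_nat_ge' {p : ℕ} (hp : p.Prime) (hpk : ‖(p : k)‖ < 1) {n : ℕ} (hn : n ≠ 0) :
    ‖(p : k)‖ ^ n ≤ ‖(n : k)‖ := by
  refine norm_nat_ge hp hpk hn ?_
  have hfact : Fact p.Prime := ⟨hp⟩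
  have h1 : p ^ padicValNat p n ≤ n := Nat.le_of_dvd (Nat.pos_of_ne_zero hn) pow_padicValNat_dvd
  exact (Nat.lt_pow_self hp.one_lt).le.trans h1

theorem norm_factorial_ge {p : ℕ} (hp : p.Prime) (hpk : ‖(p : k)‖ < 1) (j : ℕ) :
    ‖(p : k)‖ ^ j ≤ ‖((j.factorial : ℕ) : k)‖ := by
  have hfact : Fact p.Prime := ⟨hp⟩
  refine norm_nat_ge hp hpk (Nat.factorial_ne_zero j) ?_
  have h1 := sub_one_mul_padicValNat_factorial (p := p) j
  have h3 : 1 * padicValNat p j.factorial ≤ (p - 1) * padicValNat p j.factorial :=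
    Nat.mul_le_mul_right _ (by have := hp.two_le; omega)
  omega

omit [IsUltrametricDist k] in
/-- Uniform exponential decay of the differences, with given constants. -/
def DecayW (G : ℕ → k) (C η : ℝ) : Prop := ∀ m N, ‖((fwdDiff 1)^[m] G) N‖ ≤ C * η ^ m

omit [IsUltrametricDist k] in
/-- Uniform exponential decay of the differences. -/
def Decay (G : ℕ → k) : Prop := ∃ C η : ℝ, 0 ≤ C ∧ 0 ≤ η ∧ η < 1 ∧ DecayW G C η

theorem norm_choose_pow_le (p h j : ℕ) :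
    ‖(((p ^ h).choose j : ℕ) : k)‖ * ‖(j : k)‖ ≤ ‖(p : k)‖ ^ h := by
  rcases j with _ | i
  · rw [Nat.cast_zero, norm_zero, mul_zero]
    positivity
  by_cases hle : i + 1 ≤ p ^ h
  · obtain ⟨m, hm⟩ : ∃ m, p ^ h = m + 1 := ⟨p ^ h - 1, by omega⟩
    have h1 : (m + 1) * m.choose i = (m + 1).choose (i + 1) * (i + 1) :=
      Nat.add_one_mul_choose_eq m i
    rw [← hm] at h1
    rw [← norm_mul, ← Nat.cast_mul, ← h1, Nat.cast_mul, norm_mul, Nat.cast_pow, norm_pow]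
    exact mul_le_of_le_one_right (by positivity) (norm_nat_le _)
  · rw [Nat.choose_eq_zero_of_lt (by omega), Nat.cast_zero, norm_zero, zero_mul]
    positivity

/-- the constants for the step `p ^ h` can be made small -/
theorem exists_step [CharZero k] {p : ℕ} (hp : p.Prime) (hpk : ‖(p : k)‖ < 1) {η : ℝ} (h0 : 0 ≤ η)
    (h1 : η < 1) {ε : ℝ} (hε : 0 < ε) :
    ∃ h : ℕ, ∀ j, j ≠ 0 → ‖(((p ^ h).choose j : ℕ) : k)‖ * η ^ j ≤ ε := by
  obtain ⟨J, hJ⟩ := exists_pow_lt_of_lt_one hε h1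
  have hp0 : 0 < ‖(p : k)‖ := norm_pos_iff.2 (Nat.cast_ne_zero.2 hp.ne_zero)
  obtain ⟨h, hh⟩ := exists_pow_lt_of_lt_one (mul_pos hε (pow_pos hp0 J)) hpk
  refine ⟨h, fun j hj => ?_⟩
  rcases le_or_gt J j with hle | hlt
  · calc ‖(((p ^ h).choose j : ℕ) : k)‖ * η ^ j ≤ 1 * η ^ J := by
          refine mul_le_mul (norm_nat_le _) ?_ (pow_nonneg h0 _) zero_le_one
          exact pow_le_pow_of_le_one h0 h1.le hle
      _ ≤ ε := by rw [one_mul]; exact hJ.le
  · have h2 := norm_choose_pow_le (k := k) p h j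
    have h3 := norm_nat_ge' hp hpk hj
    have h4 : ‖(((p ^ h).choose j : ℕ) : k)‖ * ‖(p : k)‖ ^ J ≤ ε * ‖(p : k)‖ ^ J := by
      calc ‖(((p ^ h).choose j : ℕ) : k)‖ * ‖(p : k)‖ ^ J
          ≤ ‖(((p ^ h).choose j : ℕ) : k)‖ * ‖(j : k)‖ := by
            refine mul_le_mul_of_nonneg_left (le_trans ?_ h3) (norm_nonneg _)
            exact pow_le_pow_of_le_one hp0.le hpk.le hlt.le
        _ ≤ ‖(p : k)‖ ^ h := h2
        _ ≤ ε * ‖(p : k)‖ ^ J := hh.le
    have h5 := le_of_mul_le_mul_right h4 (pow_pos hp0 J)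
    calc ‖(((p ^ h).choose j : ℕ) : k)‖ * η ^ j ≤ ‖(((p ^ h).choose j : ℕ) : k)‖ * 1 :=
          mul_le_mul_of_nonneg_left (pow_le_one₀ h0 h1.le) (norm_nonneg _)
      _ ≤ ε := by rw [mul_one]; exact h5

omit [IsUltrametricDist k] in
theorem fwdDiff_big (G : ℕ → k) (q : ℕ) :
    fwdDiff q G = ∑ j ∈ Ico 1 (q + 1), ((q.choose j : ℕ) : k) • (fwdDiff 1)^[j] G := by
  funext N
  have h1 := shift_eq_sum_fwdDiff_iter 1 G q N
  rw [smul_eq_mul, mul_one, range_eq_Ico, sum_eq_sum_Ico_succ_bot (by omega)] at h1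
  simp only [Nat.choose_zero_right, one_smul, Function.iterate_zero, id_eq] at h1
  show G (N + q) - G N = _
  rw [h1, add_sub_cancel_left, Finset.sum_apply]
  refine sum_congr rfl fun j _ => ?_
  rw [Pi.smul_apply, smul_eq_mul, nsmul_eq_mul]

theorem DecayW.step {G : ℕ → k} {C η ε : ℝ} (hC : 0 ≤ C) (hη : 0 ≤ η) (hε : 0 ≤ ε)
    (hG : DecayW G C η) {q : ℕ}
    (h : ∀ j, j ≠ 0 → ‖((q.choose j : ℕ) : k)‖ * η ^ j ≤ ε) :
    DecayW (fwdDiff q G) (C * ε) η := by
  intro m N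
  rw [fwdDiff_big G q, fwdDiff_iter_finsetSum, Finset.sum_apply]
  refine IsUltrametricDist.norm_sum_le_of_forall_le_of_nonneg (by positivity) fun j hj => ?_
  rw [mem_Ico] at hj
  rw [fwdDiff_iter_const_smul, Pi.smul_apply, smul_eq_mul, norm_mul,
    ← Function.iterate_add_apply]
  calc ‖((q.choose j : ℕ) : k)‖ * ‖((fwdDiff 1)^[m + j] G) N‖
      ≤ ‖((q.choose j : ℕ) : k)‖ * (C * η ^ (m + j)) :=
        mul_le_mul_of_nonneg_left (hG _ _) (norm_nonneg _)
    _ = C * (‖((q.choose j : ℕ) : k)‖ * η ^ j) * η ^ m := by rw [pow_add]; ring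
    _ ≤ C * ε * η ^ m := by
        refine mul_le_mul_of_nonneg_right ?_ (pow_nonneg hη _)
        exact mul_le_mul_of_nonneg_left (h j (by omega)) hC

theorem DecayW.iter {G : ℕ → k} {C η ε : ℝ} (hC : 0 ≤ C) (hη : 0 ≤ η) (hε : 0 ≤ ε)
    (hG : DecayW G C η) {q : ℕ}
    (h : ∀ j, j ≠ 0 → ‖((q.choose j : ℕ) : k)‖ * η ^ j ≤ ε) (m : ℕ) :
    DecayW ((fwdDiff q)^[m] G) (C * ε ^ m) η := by
  induction m with
  | zero => simpa using hG
  | succ m ih =>
    rw [Function.iterate_succ_apply', pow_succ, ← mul_assoc]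
    exact ih.step (by positivity) hη hε h

/-- **Dichotomy**: on residue classes modulo a suitable `q`, a function with exponentially decaying
differences is identically zero or has finitely many zeros. -/
theorem Decay.dichotomy [CharZero k] {p : ℕ} (hp : p.Prime) (hpk : ‖(p : k)‖ < 1) {G : ℕ → k}
    (hG : Decay G) :
    ∃ q : ℕ, q ≠ 0 ∧ ∀ N₀, (∀ t, G (N₀ + q * t) = 0) ∨ {t | G (N₀ + q * t) = 0}.Finite := by
  obtain ⟨C, η, hC, h0, h1, hG⟩ := hG
  have hp0 : 0 < ‖(p : k)‖ := norm_pos_iff.2 (Nat.cast_ne_zero.2 hp.ne_zero)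
  set ε : ℝ := ‖(p : k)‖ / 2 with hε
  have hε0 : 0 < ε := by positivity
  obtain ⟨h, hh⟩ := exists_step hp hpk h0 h1 hε0
  have hq : p ^ h ≠ 0 := pow_ne_zero _ hp.ne_zero
  refine ⟨p ^ h, hq, fun N₀ => ?_⟩
  set d : ℕ → k := fun j => ((fwdDiff (p ^ h))^[j] G) N₀ / ((j.factorial : ℕ) : k) with hd
  have hval : ∀ t, G (N₀ + p ^ h * t) = newton d t := by
    intro t
    have h2 := shift_eq_sum_fwdDiff_iter (p ^ h) G t N₀
    rw [smul_eq_mul, mul_comm t] at h2
    rw [h2, newton]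
    refine sum_congr rfl fun j _ => ?_
    rw [nsmul_eq_mul, Nat.descFactorial_eq_factorial_mul_choose]
    have h3 : ((j.factorial : ℕ) : k) ≠ 0 := Nat.cast_ne_zero.2 (Nat.factorial_ne_zero j)
    simp only [hd]
    push_cast
    field_simp
  have hdb : ∀ j, ‖d j‖ ≤ C * (1 / 2) ^ j := by
    intro j
    have h4 := (hG.iter hC h0 hε0.le hh j) 0 N₀
    rw [Function.iterate_zero, id_eq, pow_zero, mul_one] at h4
    have h5 := norm_factorial_ge hp hpk j
    have h6 : (0 : ℝ) < ‖(p : k)‖ ^ j := by positivity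
    have h7 : 0 < ‖((j.factorial : ℕ) : k)‖ := h6.trans_le h5
    simp only [hd]
    rw [norm_div, div_le_iff₀ h7]
    calc ‖((fwdDiff (p ^ h))^[j] G) N₀‖ ≤ C * ε ^ j := h4
      _ = C * (1 / 2) ^ j * ‖(p : k)‖ ^ j := by
          rw [hε, div_pow, one_div, inv_pow]
          ring
      _ ≤ C * (1 / 2) ^ j * ‖((j.factorial : ℕ) : k)‖ :=
          mul_le_mul_of_nonneg_left h5 (by positivity)
  have hd0 : Filter.Tendsto d Filter.atTop (nhds 0) := by
    refine squeeze_zero_norm hdb ?_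
    have h8 := (tendsto_pow_atTop_nhds_zero_of_lt_one (r := (1 / 2 : ℝ)) (by norm_num)
      (by norm_num)).const_mul C
    simpa using h8
  rcases newton_dichotomy hd0 with h9 | h9
  · left
    intro t
    rw [hval, h9]
  · right
    refine h9.subset fun t ht => ?_
    have : G (N₀ + p ^ h * t) = 0 := ht
    rwa [hval] at this

end Pool.Agent.Lib.MP_1eeaa7_nt
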