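import Pool.Agent.Lib.MP_1eeaa7_nt.Decay

/-!
# Closure properties of functions with decaying differences; finite unions of progressions
-/

set_option autoImplicit false

namespace Pool.Agent.Lib.MP_1eeaa7_nt

open Finset

/-- finite unions of arithmetic progressions (difference `0` allowed) -/
def FinAP (S : Set ℕ) : Prop :=
  ∃ F : Finset (ℕ × ℕ), S = ⋃ ad ∈ F, {m : ℕ | ∃ k : ℕ, m = ad.1 + ad.2 * k}

theorem FinAP.of_classes {S : Set ℕ} {q : ℕ} (hq : q ≠ 0)
    (h : ∀ c < q, (∀ t, c + q * t ∈ S) ∨ {t | c + q * t ∈ S}.Finite) : FinAP S := by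
  classical
  have hfin : ∀ c ∈ range q, ¬ (∀ t, c + q * t ∈ S) → {t | c + q * t ∈ S}.Finite := by
    intro c hc hn
    exact (h c (mem_range.1 hc)).resolve_left hn
  refine ⟨(range q).biUnion fun c => if hall : ∀ t, c + q * t ∈ S then {(c, q)} else
    if hc : c ∈ range q then ((hfin c hc hall).toFinset).image fun t => (c + q * t, 0) else ∅, ?_⟩
  ext n
  simp only [Set.mem_iUnion, Set.mem_ofPred_eq, exists_prop, mem_biUnion]
  constructor
  · intro hn
    have hc : n % q < q := Nat.mod_lt _ (Nat.pos_of_ne_zero hq)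
    have hn' : n % q + q * (n / q) = n := Nat.mod_add_div n q
    by_cases hall : ∀ t, n % q + q * t ∈ S
    · refine ⟨(n % q, q), ⟨n % q, mem_range.2 hc, ?_⟩, n / q, hn'.symm⟩
      rw [dif_pos hall]
      exact mem_singleton_self _
    · refine ⟨(n, 0), ⟨n % q, mem_range.2 hc, ?_⟩, 0, by simp⟩
      rw [dif_neg hall, dif_pos (mem_range.2 hc), mem_image]
      refine ⟨n / q, ?_, by rw [hn']⟩
      rw [Set.Finite.mem_toFinset, Set.mem_ofPred_eq, hn']
      exact hn
  · rintro ⟨ad, ⟨c, hc, had⟩, k, hk⟩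
    by_cases hall : ∀ t, c + q * t ∈ S
    · rw [dif_pos hall, mem_singleton] at had
      rw [hk, had]
      exact hall k
    · rw [dif_neg hall, dif_pos hc, mem_image] at had
      obtain ⟨t, ht, rfl⟩ := had
      rw [Set.Finite.mem_toFinset, Set.mem_ofPred_eq] at ht
      rw [hk]
      simpa using ht

/-- If on every class modulo `q` the set is a zero set satisfying the dichotomy with its own
modulus, the union is a finite union of progressions. -/
theorem FinAP.of_classes' {S : Set ℕ} {q : ℕ} (hq : q ≠ 0)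
    (h : ∀ c < q, ∃ q' : ℕ, q' ≠ 0 ∧ ∀ N₀, (∀ t, c + q * (N₀ + q' * t) ∈ S) ∨
      {t | c + q * (N₀ + q' * t) ∈ S}.Finite) : FinAP S := by
  classical
  choose! Q hQ0 hQ using h
  set P : ℕ := ∏ c ∈ range q, Q c with hP
  have hP0 : P ≠ 0 := prod_ne_zero_iff.2 fun c hc => hQ0 c (mem_range.1 hc)
  have hQP : ∀ c < q, Q c ∣ P := fun c hc => dvd_prod_of_mem _ (mem_range.2 hc)
  refine FinAP.of_classes (q := q * P) (mul_ne_zero hq hP0) fun e _ => ?_
  have hc : e % q < q := Nat.mod_lt _ (Nat.pos_of_ne_zero hq)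
  obtain ⟨w, hw⟩ := hQP (e % q) hc
  have key : ∀ t, e + q * P * t = e % q + q * (e / q + Q (e % q) * (w * t)) := by
    intro t
    have h1 := Nat.mod_add_div e q
    calc e + q * P * t = (e % q + q * (e / q)) + q * P * t := by rw [h1]
      _ = _ := by rw [hw]; ring
  have hw0 : w ≠ 0 := fun h0 => hP0 (by rw [hw, h0, mul_zero])
  rcases hQ (e % q) hc (e / q) with h1 | h1
  · left
    intro t
    rw [key]
    exact h1 _
  · right
    refine Set.Finite.of_finite_image (f := fun t => w * t) (h1.subset ?_) ?_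
    · rintro _ ⟨t, ht, rfl⟩
      have : e + q * P * t ∈ S := ht
      rw [key] at this
      exact this
    · intro t _ t' _ htt
      exact Nat.eq_of_mul_eq_mul_left (Nat.pos_of_ne_zero hw0) htt

variable {Ω : Type*} [NormedField Ω] [IsUltrametricDist Ω]

omit [IsUltrametricDist Ω] in
theorem DecayW.mono {G : ℕ → Ω} {C C' η η' : ℝ} (h : DecayW G C η) (hC : 0 ≤ C) (hCC : C ≤ C')
    (h0 : 0 ≤ η) (hη : η ≤ η') : DecayW G C' η' := fun k N =>
  (h k N).trans (mul_le_mul hCC (pow_le_pow_left₀ h0 hη k) (pow_nonneg h0 k) (hC.trans hCC))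

theorem DecayW.add {G H : ℕ → Ω} {C η : ℝ} (hG : DecayW G C η) (hH : DecayW H C η) :
    DecayW (G + H) C η := fun k N => by
  rw [fwdDiff_iter_add, Pi.add_apply]
  exact (IsUltrametricDist.norm_add_le_max _ _).trans (max_le (hG k N) (hH k N))

theorem Decay.add {G H : ℕ → Ω} (hG : Decay G) (hH : Decay H) : Decay (G + H) := by
  obtain ⟨C, η, hC, h0, h1, hG⟩ := hG
  obtain ⟨C', η', hC', h0', h1', hH⟩ := hH
  refine ⟨max C C', max η η', le_max_of_le_left hC, le_max_of_le_left h0, max_lt h1 h1', ?_⟩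
  exact (hG.mono hC (le_max_left _ _) h0 (le_max_left _ _)).add
    (hH.mono hC' (le_max_right _ _) h0' (le_max_right _ _))

omit [IsUltrametricDist Ω] in
theorem Decay.zero : Decay (0 : ℕ → Ω) := by
  refine ⟨0, 0, le_rfl, le_rfl, zero_lt_one, fun k N => ?_⟩
  have : ((fwdDiff 1)^[k] (0 : ℕ → Ω)) = 0 := by
    induction k with
    | zero => rfl
    | succ k ih =>
      rw [Function.iterate_succ_apply', ih]
      funext N
      simp [fwdDiff]
  rw [this]
  simp

theorem Decay.sum {ι : Type*} (s : Finset ι) {G : ι → ℕ → Ω} (h : ∀ i ∈ s, Decay (G i)) :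
    Decay (∑ i ∈ s, G i) := by
  classical
  induction s using Finset.induction_on with
  | empty => rw [sum_empty]; exact Decay.zero
  | insert a s ha ih =>
    rw [sum_insert ha]
    exact (h a (mem_insert_self _ _)).add (ih fun i hi => h i (mem_insert_of_mem hi))

omit [IsUltrametricDist Ω] in
theorem Decay.const_mul {G : ℕ → Ω} (hG : Decay G) (a : Ω) : Decay (fun N => a * G N) := by
  obtain ⟨C, η, hC, h0, h1, hG⟩ := hG
  refine ⟨‖a‖ * C, η, by positivity, h0, h1, fun k N => ?_⟩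
  have : (fun N => a * G N) = a • G := rfl
  rw [this, fwdDiff_iter_const_smul, Pi.smul_apply, smul_eq_mul, norm_mul, mul_assoc]
  exact mul_le_mul_of_nonneg_left (hG k N) (norm_nonneg _)

theorem DecayW.mul_aux {η : ℝ} (h0 : 0 ≤ η) (h1 : η ≤ 1) (k : ℕ) : ∀ (G H : ℕ → Ω) (C C' : ℝ),
    0 ≤ C → 0 ≤ C' → DecayW G C η → DecayW H C' η → ∀ N, ‖((fwdDiff 1)^[k] (G * H)) N‖ ≤
      C * C' * η ^ k := by
  induction k with
  | zero =>
    intro G H C C' hC hC' hG hH N
    have h2 := hG 0 N
    have h3 := hH 0 N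
    rw [Function.iterate_zero, id_eq, pow_zero, mul_one] at h2 h3
    rw [Function.iterate_zero, id_eq, pow_zero, mul_one, Pi.mul_apply, norm_mul]
    exact mul_le_mul h2 h3 (norm_nonneg _) hC
  | succ k ih =>
    intro G H C C' hC hC' hG hH N
    have hstep : ∀ {G : ℕ → Ω} {C : ℝ}, DecayW G C η → DecayW (fwdDiff 1 G) (C * η) η := by
      intro G C hG k N
      rw [← Function.iterate_succ_apply, mul_assoc, ← pow_succ']
      exact hG (k + 1) N
    have e : fwdDiff 1 (G * H) = fwdDiff 1 G * H + G * fwdDiff 1 H + fwdDiff 1 G * fwdDiff 1 H := by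
      have := fwdDiff_smul (1 : ℕ) G H
      simpa only [smul_eq_mul] using this
    rw [Function.iterate_succ_apply, e, fwdDiff_iter_add, fwdDiff_iter_add, Pi.add_apply,
      Pi.add_apply]
    have a1 := ih (fwdDiff 1 G) H (C * η) C' (by positivity) hC' (hstep hG) hH N
    have a2 := ih G (fwdDiff 1 H) C (C' * η) hC (by positivity) hG (hstep hH) N
    have a3 := ih (fwdDiff 1 G) (fwdDiff 1 H) (C * η) (C' * η) (by positivity) (by positivity)
      (hstep hG) (hstep hH) N
    have b1 : C * η * C' * η ^ k = C * C' * η ^ (k + 1) := by rw [pow_succ]; ring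
    have b2 : C * (C' * η) * η ^ k = C * C' * η ^ (k + 1) := by rw [pow_succ]; ring
    have b3 : C * η * (C' * η) * η ^ k ≤ C * C' * η ^ (k + 1) := by
      have : C * η * (C' * η) * η ^ k = C * C' * η ^ (k + 1) * η := by rw [pow_succ]; ring
      rw [this]
      exact mul_le_of_le_one_right (by positivity) h1
    rw [b1] at a1
    rw [b2] at a2
    refine (IsUltrametricDist.norm_add_le_max _ _).trans (max_le ?_ (a3.trans b3))
    exact (IsUltrametricDist.norm_add_le_max _ _).trans (max_le a1 a2)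

theorem Decay.mul {G H : ℕ → Ω} (hG : Decay G) (hH : Decay H) : Decay (G * H) := by
  obtain ⟨C, η, hC, h0, h1, hG⟩ := hG
  obtain ⟨C', η', hC', h0', h1', hH⟩ := hH
  refine ⟨C * C', max η η', by positivity, le_max_of_le_left h0, max_lt h1 h1', fun k N => ?_⟩
  exact DecayW.mul_aux (le_max_of_le_left h0) (max_lt h1 h1').le k G H C C' hC hC'
    (hG.mono hC le_rfl h0 (le_max_left _ _)) (hH.mono hC' le_rfl h0' (le_max_right _ _)) N

/-- restriction to an arithmetic progression -/
theorem Decay.comp {G : ℕ → Ω} (hG : Decay G) (a L : ℕ) :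
    Decay (fun t => G (a + L * t)) := by
  obtain ⟨C, η, hC, h0, h1, hG⟩ := hG
  refine ⟨C, η, hC, h0, h1, fun k N => ?_⟩
  have e : ∀ (k : ℕ) (G : ℕ → Ω) (N : ℕ), ((fwdDiff 1)^[k] (fun t => G (a + L * t))) N =
      ((fwdDiff L)^[k] G) (a + L * N) := by
    intro k
    induction k with
    | zero => intro G N; rfl
    | succ k ih =>
      intro G N
      have e1 : fwdDiff 1 (fun t => G (a + L * t)) = fun t => fwdDiff L G (a + L * t) := by
        funext t
        show G (a + L * (t + 1)) - G (a + L * t) = G (a + L * t + L) - G (a + L * t)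
        rw [mul_add, mul_one, add_assoc]
      rw [Function.iterate_succ_apply, Function.iterate_succ_apply, e1, ih]
  rw [e]
  have h2 : ∀ j, j ≠ 0 → ‖((L.choose j : ℕ) : Ω)‖ * η ^ j ≤ η := by
    intro j hj
    calc ‖((L.choose j : ℕ) : Ω)‖ * η ^ j ≤ 1 * η ^ 1 := by
          refine mul_le_mul (norm_nat_le _) ?_ (pow_nonneg h0 _) zero_le_one
          exact pow_le_pow_of_le_one h0 h1.le (Nat.one_le_iff_ne_zero.2 hj)
      _ = η := by ring
  have h3 := (hG.iter hC h0 h0 h2 k) 0 (a + L * N)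
  simpa using h3

/-- powers of a principal unit -/
theorem Decay.pow {u : Ω} (hu : ‖u - 1‖ < 1) : Decay (fun t : ℕ => u ^ t) := by
  have hu1 : ‖u‖ ≤ 1 := by
    have : u = (u - 1) + 1 := by ring
    rw [this]
    refine (IsUltrametricDist.norm_add_le_max _ _).trans (max_le hu.le ?_)
    rw [norm_one]
  refine ⟨1, ‖u - 1‖, zero_le_one, norm_nonneg _, hu, fun k N => ?_⟩
  have e : ((fwdDiff 1)^[k] (fun t : ℕ => u ^ t)) = fun t => (u - 1) ^ k * u ^ t := by
    induction k with
    | zero => funext t; simp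
    | succ k ih =>
      rw [Function.iterate_succ_apply', ih]
      funext t
      simp only [fwdDiff, pow_succ]
      ring
  rw [e, norm_mul, norm_pow, norm_pow, one_mul]
  exact mul_le_of_le_one_right (by positivity) (pow_le_one₀ (norm_nonneg _) hu1)

/-- Newton series with exponentially decaying coefficients -/
theorem Decay.of_newton {c : ℕ → Ω} {C η : ℝ} (hC : 0 ≤ C) (h0 : 0 ≤ η) (h1 : η < 1)
    (hc : ∀ m, ‖c m‖ ≤ C * η ^ m) :
    Decay (fun N => ∑ m ∈ range (N + 1), ((N.choose m : ℕ) : Ω) * c m) := by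
  refine ⟨C, η, hC, h0, h1, fun k N => ?_⟩
  have e : ((fwdDiff 1)^[k] (fun N => ∑ m ∈ range (N + 1), ((N.choose m : ℕ) : Ω) * c m)) =
      fun N => ∑ m ∈ range (N + 1), ((N.choose m : ℕ) : Ω) * c (m + k) := by
    induction k with
    | zero => rfl
    | succ k ih =>
      rw [Function.iterate_succ_apply', ih]
      funext N
      simp only [fwdDiff]
      rw [sum_range_succ']
      have h2 : ∑ m ∈ range (N + 1), ((N.choose m : ℕ) : Ω) * c (m + k) =
          (∑ m ∈ range (N + 1), ((N.choose (m + 1) : ℕ) : Ω) * c (m + 1 + k)) + c (0 + k) := by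
        rw [sum_range_succ', sum_range_succ _ N]
        simp
      rw [h2]
      simp only [Nat.choose_zero_right, Nat.cast_one, one_mul]
      rw [add_sub_add_right_eq_sub, ← sum_sub_distrib]
      refine sum_congr rfl fun m _ => ?_
      rw [Nat.choose_succ_succ]
      push_cast
      rw [show m + (k + 1) = m + 1 + k by ring]
      ring
  rw [e]
  refine IsUltrametricDist.norm_sum_le_of_forall_le_of_nonneg (by positivity) fun m _ => ?_
  rw [norm_mul]
  calc ‖((N.choose m : ℕ) : Ω)‖ * ‖c (m + k)‖ ≤ 1 * (C * η ^ (m + k)) :=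
        mul_le_mul (norm_nat_le _) (hc _) (norm_nonneg _) zero_le_one
    _ ≤ C * η ^ k := by
        rw [one_mul]
        refine mul_le_mul_of_nonneg_left ?_ hC
        exact pow_le_pow_of_le_one h0 h1.le (by omega)

omit [IsUltrametricDist Ω] in
theorem fwdDiff_congr {G H : ℕ → Ω} {m N : ℕ} (h : ∀ i ≤ N + m, G i = H i) :
    ((fwdDiff 1)^[m] G) N = ((fwdDiff 1)^[m] H) N := by
  rw [fwdDiff_iter_eq_sum_shift, fwdDiff_iter_eq_sum_shift]
  refine sum_congr rfl fun i hi => ?_
  rw [mem_range] at hi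
  rw [h (N + i • 1) (by rw [smul_eq_mul]; omega)]

omit [IsUltrametricDist Ω] in
theorem fwdDiff_polynomial (P : Polynomial Ω) {m : ℕ} (h : P.natDegree < m) (N : ℕ) :
    ((fwdDiff 1)^[m] (fun N : ℕ => P.eval (N : Ω))) N = 0 := by
  have h1 := congrFun (Polynomial.fwdDiff_iter_eq_zero_of_degree_lt h) (N : Ω)
  rw [fwdDiff_iter_eq_sum_shift] at h1
  rw [fwdDiff_iter_eq_sum_shift, ← Pi.zero_apply (M := fun _ => Ω) (N : Ω), ← h1]
  refine sum_congr rfl fun i _ => ?_
  simp

theorem norm_fwdDiff_le {G : ℕ → Ω} {C : ℝ} (hC : 0 ≤ C) (h : ∀ N, ‖G N‖ ≤ C) (m N : ℕ) :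
    ‖((fwdDiff 1)^[m] G) N‖ ≤ C := by
  rw [fwdDiff_iter_eq_sum_shift]
  refine IsUltrametricDist.norm_sum_le_of_forall_le_of_nonneg hC fun i _ => ?_
  rw [zsmul_eq_mul, norm_mul]
  calc ‖((((-1) ^ (m - i) * (m.choose i : ℤ) : ℤ)) : Ω)‖ * ‖G (N + i • 1)‖ ≤ 1 * C :=
        mul_le_mul (norm_int_le _) (h _) (norm_nonneg _) zero_le_one
    _ = C := one_mul C

/-- Sums of polynomial functions of controlled degree and size. -/
theorem Decay.of_family {P : ℕ → Polynomial Ω} {L r : ℕ} {C θ : ℝ} (hC : 0 ≤ C) (h0 : 0 < θ)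
    (h1 : θ < 1) (hdeg : ∀ j, (P j).natDegree ≤ L * j + r)
    (hval : ∀ j (N : ℕ), ‖(P j).eval (N : Ω)‖ ≤ C * θ ^ (L * j))
    (hvan : ∀ j (N : ℕ), N < j → (P j).eval (N : Ω) = 0) :
    Decay (fun N : ℕ => ∑ j ∈ range (N + 1), (P j).eval (N : Ω)) := by
  refine ⟨C * (θ ^ r)⁻¹, θ, by positivity, h0.le, h1, fun m N => ?_⟩
  have e1 : ((fwdDiff 1)^[m] (fun N : ℕ => ∑ j ∈ range (N + 1), (P j).eval (N : Ω))) N =
      ((fwdDiff 1)^[m] (∑ j ∈ range (N + m + 1), fun N : ℕ => (P j).eval (N : Ω))) N := by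
    refine fwdDiff_congr fun i hi => ?_
    rw [Finset.sum_apply]
    refine sum_subset (range_subset_range.2 (by omega)) fun j _ hj => ?_
    rw [mem_range, not_lt] at hj
    exact hvan j i (by omega)
  rw [e1, fwdDiff_iter_finsetSum, Finset.sum_apply]
  refine IsUltrametricDist.norm_sum_le_of_forall_le_of_nonneg (by positivity) fun j _ => ?_
  by_cases hm : (P j).natDegree < m
  · rw [fwdDiff_polynomial (P j) hm, norm_zero]
    positivity
  · refine (norm_fwdDiff_le (by positivity) (hval j) m N).trans ?_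
    rw [mul_assoc]
    refine mul_le_mul_of_nonneg_left ?_ hC
    rw [inv_mul_eq_div, le_div_iff₀ (by positivity), ← pow_add]
    refine pow_le_pow_of_le_one h0.le h1.le ?_
    have := hdeg j
    omega

end Pool.Agent.Lib.MP_1eeaa7_nt
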