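import Mathlib

/-!
# Primes dividing polynomial values and generic `p`-adic points
-/

set_option autoImplicit false

namespace Pool.Agent.Lib.MP_1eeaa7_nt

open Polynomial

/-- A nonconstant integer polynomial has a root modulo some prime not dividing a given integer. -/
theorem exists_prime_root (f : ℤ[X]) (hf : 0 < f.natDegree) {N : ℤ} (hN : N ≠ 0) :
    ∃ p : ℕ, p.Prime ∧ ¬ (p : ℤ) ∣ N ∧ ∃ x : ℤ, (p : ℤ) ∣ f.eval x := by
  by_cases hc : f.eval 0 = 0
  · obtain ⟨p, hp, hpp⟩ := Nat.exists_infinite_primes (N.natAbs + 1)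
    refine ⟨p, hpp, fun h => ?_, 0, by rw [hc]; exact dvd_zero _⟩
    have := Nat.le_of_dvd (Int.natAbs_pos.2 hN) (Int.natCast_dvd.1 h)
    omega
  · set c := f.eval 0 with hcdef
    have hfin : ∀ d : ℤ, {y : ℤ | f.eval (c * N * y) = d}.Finite := by
      intro d
      have h1 : f - C d ≠ 0 := by
        intro h
        have h2 : f = C d := sub_eq_zero.1 h
        rw [h2, natDegree_C] at hf
        exact lt_irrefl _ hf
      refine Set.Finite.of_finite_image (f := fun y => c * N * y)
        ((f - C d).roots.toFinset.finite_toSet.subset ?_) ?_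
      · rintro _ ⟨y, hy, rfl⟩
        have hy' : f.eval (c * N * y) = d := hy
        rw [Finset.mem_coe, Multiset.mem_toFinset, mem_roots h1, IsRoot.def, eval_sub, eval_C, hy',
          sub_self]
      · intro y _ z _ h
        exact mul_left_cancel₀ (mul_ne_zero hc hN) h
    obtain ⟨y, hy⟩ := ((hfin c).union (hfin (-c))).infinite_compl.nonempty
    rw [Set.mem_compl_iff, Set.mem_union, not_or] at hy
    obtain ⟨m, hm⟩ := sub_dvd_eval_sub (c * N * y) 0 f
    rw [sub_zero] at hm
    have h3 : f.eval (c * N * y) = c * (1 + N * (y * m)) := by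
      have : f.eval (c * N * y) = c * N * y * m + f.eval 0 := by rw [← hm]; ring
      rw [this, ← hcdef]
      ring
    have h4 : (1 + N * (y * m)).natAbs ≠ 1 := by
      intro h
      rcases Int.natAbs_eq (1 + N * (y * m)) with h5 | h5
      · rw [h] at h5
        exact hy.1 (by show f.eval _ = c; rw [h3, h5]; simp)
      · rw [h] at h5
        exact hy.2 (by show f.eval _ = -c; rw [h3, h5]; simp)
    obtain ⟨P, hP, hPd⟩ := Int.exists_prime_and_dvd h4
    refine ⟨P.natAbs, Int.prime_iff_natAbs_prime.1 hP, fun h => ?_, c * N * y, ?_⟩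
    · have h5 : P ∣ N := Int.natAbs_dvd.1 h
      have h6 : P ∣ 1 := by
        have h7 := dvd_sub hPd (h5.mul_right (y * m))
        rwa [add_sub_cancel_right] at h7
      exact hP.not_isUnit (isUnit_of_dvd_one h6)
    · rw [h3]
      exact Int.natAbs_dvd.2 (hPd.mul_left c)

theorem countable_mvPolynomial (s : ℕ) : Countable (MvPolynomial (Fin s) ℤ) := by
  rw [← Cardinal.mk_le_aleph0_iff]
  refine MvPolynomial.cardinalMk_le_max.trans ?_
  simp

variable {p : ℕ} [hp : Fact p.Prime]

/-- In every residue polydisc there is a point at which none of countably many given nonzero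
polynomials vanishes. -/
theorem exists_generic_point {ι : Type*} [Countable ι] : ∀ (s : ℕ) (a : Fin s → ℤ_[p])
    (F : ι → MvPolynomial (Fin s) ℤ_[p]), (∀ k, F k ≠ 0) →
    ∃ τ : Fin s → ℤ_[p], (∀ i, ‖τ i - a i‖ < 1) ∧ ∀ k, MvPolynomial.eval τ (F k) ≠ 0 := by
  classical
  intro s
  induction s with
  | zero =>
    intro a F hF
    refine ⟨a, fun i => i.elim0, fun k h => hF k ?_⟩
    rw [MvPolynomial.eq_C_of_isEmpty (F k), MvPolynomial.eval_C] at h
    rw [MvPolynomial.eq_C_of_isEmpty (F k), h, map_zero]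
  | succ s ih =>
    intro a F hF
    have h1 : ∀ k, MvPolynomial.finSuccEquiv ℤ_[p] s (F k) ≠ 0 := fun k h =>
      hF k ((MvPolynomial.finSuccEquiv ℤ_[p] s).injective (by rw [h, map_zero]))
    obtain ⟨τ, hτ, hτ0⟩ := ih (fun i => a i.succ)
      (fun k => (MvPolynomial.finSuccEquiv ℤ_[p] s (F k)).leadingCoeff)
      (fun k => leadingCoeff_ne_zero.2 (h1 k))
    set G : ι → ℤ_[p][X] := fun k =>
      (MvPolynomial.finSuccEquiv ℤ_[p] s (F k)).map (MvPolynomial.eval τ) with hG
    have hG0 : ∀ k, G k ≠ 0 := by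
      intro k h
      have h2 : (G k).coeff (MvPolynomial.finSuccEquiv ℤ_[p] s (F k)).natDegree = 0 := by
        rw [h, coeff_zero]
      rw [hG] at h2
      simp only [coeff_map] at h2
      exact hτ0 k h2
    set bad : Set ℚ_[p] := ⋃ k, (fun x : ℤ_[p] => (x : ℚ_[p])) '' {x | (G k).IsRoot x} with hbad
    have hbadc : bad.Countable := by
      refine Set.countable_iUnion fun k => ?_
      refine Set.Countable.image ?_ _
      exact (Set.Finite.subset (G k).roots.toFinset.finite_toSet fun x hx => by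
        rw [Finset.mem_coe, Multiset.mem_toFinset, mem_roots (hG0 k)]
        exact hx).countable
    obtain ⟨y, hy1, hy2⟩ := (hbadc.dense_compl ℚ_[p]).exists_mem_open
      (Metric.isOpen_ball (x := ((a 0 : ℤ_[p]) : ℚ_[p])) (ε := 1))
      ⟨_, Metric.mem_ball_self one_pos⟩
    rw [Metric.mem_ball, dist_eq_norm] at hy2
    have hy3 : ‖y‖ ≤ 1 := by
      have : y = (y - ((a 0 : ℤ_[p]) : ℚ_[p])) + ((a 0 : ℤ_[p]) : ℚ_[p]) := by ring
      rw [this]
      refine (IsUltrametricDist.norm_add_le_max _ _).trans (max_le hy2.le ?_)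
      exact PadicInt.norm_le_one _
    refine ⟨Fin.cons ⟨y, hy3⟩ τ, fun i => ?_, fun k h => ?_⟩
    · refine Fin.cases ?_ (fun j => ?_) i
      · rw [Fin.cons_zero, ← PadicInt.padic_norm_e_of_padicInt]
        push_cast
        exact hy2
      · rw [Fin.cons_succ]
        exact hτ j
    · rw [MvPolynomial.eval_eq_eval_mv_eval'] at h
      refine hy1 (Set.mem_iUnion.2 ⟨k, ⟨y, hy3⟩, h, rfl⟩)

theorem norm_lt_one_iff_toZMod {x : ℤ_[p]} : ‖x‖ < 1 ↔ PadicInt.toZMod x = 0 := by
  rw [← PadicInt.mem_nonunits, ← IsLocalRing.mem_maximalIdeal, ← PadicInt.ker_toZMod]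
  exact RingHom.mem_ker

/-- Specialisation: an embedding of a polynomial ring over `ℤ` in some `ℤ_p` such that a given
nonzero element becomes a unit and a given separable polynomial gets a root. -/
theorem exists_embedding_mvPolynomial (s : ℕ) {u : MvPolynomial (Fin s) ℤ} (hu : u ≠ 0)
    (m : (MvPolynomial (Fin s) ℤ)[X]) (hm : 0 < m.natDegree)
    (hsep : ∃ a b : (MvPolynomial (Fin s) ℤ)[X], a * m + b * derivative m = C u) :
    ∃ p : ℕ, ∃ _ : Fact p.Prime, ∃ τ : MvPolynomial (Fin s) ℤ →+* ℤ_[p],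
      Function.Injective τ ∧ IsUnit (τ u) ∧ ∃ β : ℤ_[p], (m.map τ).eval β = 0 := by
  have hm0 : m ≠ 0 := fun h => by rw [h, natDegree_zero] at hm; exact lt_irrefl _ hm
  have hg : u * m.leadingCoeff ≠ 0 := mul_ne_zero hu (leadingCoeff_ne_zero.2 hm0)
  obtain ⟨a, ha⟩ : ∃ a : Fin s → ℤ, MvPolynomial.eval a (u * m.leadingCoeff) ≠ 0 := by
    by_contra hcon
    push Not at hcon
    exact hg (MvPolynomial.funext fun x => by rw [hcon x, map_zero])
  rw [map_mul] at ha
  have hua : MvPolynomial.eval a u ≠ 0 := left_ne_zero_of_mul ha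
  have hla : MvPolynomial.eval a m.leadingCoeff ≠ 0 := right_ne_zero_of_mul ha
  have hdeg : 0 < (m.map (MvPolynomial.eval a)).natDegree := by
    rw [natDegree_map_of_leadingCoeff_ne_zero _ hla]
    exact hm
  obtain ⟨p, hp, hpN, x, hx⟩ := exists_prime_root _ hdeg hua
  have : Fact p.Prime := ⟨hp⟩
  have hcount : Countable (MvPolynomial (Fin s) ℤ) := countable_mvPolynomial s
  have hinjC : Function.Injective (MvPolynomial.map (σ := Fin s) (Int.castRingHom ℤ_[p])) :=
    MvPolynomial.map_injective _ (RingHom.injective_int _)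
  obtain ⟨τ, hτ1, hτ2⟩ := exists_generic_point (ι := {g : MvPolynomial (Fin s) ℤ // g ≠ 0}) s
    (fun i => ((a i : ℤ) : ℤ_[p])) (fun g => MvPolynomial.map (Int.castRingHom ℤ_[p]) g.1)
    (fun g h => g.2 (hinjC (by rw [h, map_zero])))
  set T : MvPolynomial (Fin s) ℤ →+* ℤ_[p] := MvPolynomial.eval₂Hom (Int.castRingHom ℤ_[p]) τ
    with hT
  have hTinj : Function.Injective T := by
    rw [injective_iff_map_eq_zero]
    intro g hg0
    by_contra hne
    refine hτ2 ⟨g, hne⟩ ?_
    rw [MvPolynomial.eval_map]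
    exact hg0
  have hcomp : PadicInt.toZMod.comp T = (Int.castRingHom (ZMod p)).comp (MvPolynomial.eval a) := by
    refine MvPolynomial.ringHom_ext (fun r => by simp [hT]) fun i => ?_
    have h1 := norm_lt_one_iff_toZMod.1 (hτ1 i)
    rw [map_sub, sub_eq_zero] at h1
    simp only [RingHom.comp_apply, hT, MvPolynomial.eval₂Hom_X', MvPolynomial.eval_X, h1]
    simp
  have hunit : ∀ g : MvPolynomial (Fin s) ℤ, ¬ (p : ℤ) ∣ MvPolynomial.eval a g → IsUnit (T g) := by
    intro g hgp
    by_contra hnu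
    have h1 : T g ∈ nonunits ℤ_[p] := hnu
    rw [PadicInt.mem_nonunits, norm_lt_one_iff_toZMod] at h1
    have h2 := RingHom.congr_fun hcomp g
    rw [RingHom.comp_apply, RingHom.comp_apply, h1] at h2
    exact hgp ((ZMod.intCast_zmod_eq_zero_iff_dvd _ p).1 h2.symm)
  refine ⟨p, ⟨hp⟩, T, hTinj, hunit u hpN, ?_⟩
  obtain ⟨A, B, hAB⟩ := hsep
  have h1 : PadicInt.toZMod ((m.map T).eval ((x : ℤ) : ℤ_[p])) = 0 := by
    have h2 : PadicInt.toZMod ((m.map T).eval ((x : ℤ) : ℤ_[p])) =
        (m.map ((PadicInt.toZMod).comp T)).eval ((x : ℤ) : ZMod p) := by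
      rw [eval_map, Polynomial.hom_eval₂, map_intCast, eval_map]
    rw [h2, hcomp, ← Polynomial.map_map, Polynomial.eval_intCast_map]
    exact (ZMod.intCast_zmod_eq_zero_iff_dvd _ p).2 hx
  have h3 : ‖(m.map T).eval ((x : ℤ) : ℤ_[p])‖ < 1 := norm_lt_one_iff_toZMod.2 h1
  have h4 : ‖((derivative (m.map T)).eval ((x : ℤ) : ℤ_[p]))‖ = 1 := by
    have h5 := congrArg (fun g => (g.map T).eval ((x : ℤ) : ℤ_[p])) hAB
    simp only [Polynomial.map_add, Polynomial.map_mul, eval_add, eval_mul, Polynomial.map_C,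
      eval_C] at h5
    rw [derivative_map]
    have h6 : IsUnit ((m.derivative.map T).eval ((x : ℤ) : ℤ_[p])) := by
      by_contra hnu
      have h7 : (m.derivative.map T).eval ((x : ℤ) : ℤ_[p]) ∈ nonunits ℤ_[p] := hnu
      rw [PadicInt.mem_nonunits, norm_lt_one_iff_toZMod] at h7
      have h8 : PadicInt.toZMod (T u) = 0 := by
        rw [← h5, map_add, map_mul, map_mul, h1, h7, mul_zero, mul_zero, add_zero]
      exact (hunit u hpN).map PadicInt.toZMod |>.ne_zero h8
    exact PadicInt.isUnit_iff.1 h6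
  obtain ⟨z, hz, _⟩ := hensels_lemma (R := ℤ_[p]) (F := m.map T) (a := ((x : ℤ) : ℤ_[p])) (by
    rw [Polynomial.coe_aeval_eq_eval, h4]
    simpa using h3)
  exact ⟨z, by rwa [Polynomial.coe_aeval_eq_eval] at hz⟩

end Pool.Agent.Lib.MP_1eeaa7_nt
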