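import Pool.Agent.Lib.MP_1eeaa7_nt.Embed1

/-!
# Embedding finitely generated rings of characteristic zero into `ℤ_p`
-/

set_option autoImplicit false

namespace Pool.Agent.Lib.MP_1eeaa7_nt

open Polynomial

theorem embedding_of_norm_le {K : Type*} [Field K] (S : Set K) {p : ℕ} [hp : Fact p.Prime]
    (ψ : Subring.closure S →+* ℚ_[p]) (hψinj : Function.Injective ψ)
    (h : ∀ x (hx : x ∈ S), ‖ψ ⟨x, Subring.subset_closure hx⟩‖ ≤ 1) :
    ∃ φ : Subring.closure S →+* ℤ_[p], Function.Injective φ := by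
  have hψle : ∀ x (hx : x ∈ Subring.closure S), ‖ψ ⟨x, hx⟩‖ ≤ 1 := by
    intro x hx
    induction hx using Subring.closure_induction with
    | mem x hx => exact h x hx
    | zero =>
      have : ψ ⟨0, Subring.zero_mem _⟩ = 0 := map_zero ψ
      rw [this, norm_zero]
      exact zero_le_one
    | one =>
      have : ψ ⟨1, Subring.one_mem _⟩ = 1 := map_one ψ
      rw [this, norm_one]
    | add x y hx hy h1 h2 =>
      have : ψ ⟨x + y, Subring.add_mem _ hx hy⟩ = ψ ⟨x, hx⟩ + ψ ⟨y, hy⟩ :=
        map_add ψ ⟨x, hx⟩ ⟨y, hy⟩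
      rw [this]
      exact (IsUltrametricDist.norm_add_le_max _ _).trans (max_le h1 h2)
    | neg x hx h1 =>
      have : ψ ⟨-x, Subring.neg_mem _ hx⟩ = -ψ ⟨x, hx⟩ := map_neg ψ ⟨x, hx⟩
      rw [this, norm_neg]
      exact h1
    | mul x y hx hy h1 h2 =>
      have : ψ ⟨x * y, Subring.mul_mem _ hx hy⟩ = ψ ⟨x, hx⟩ * ψ ⟨y, hy⟩ :=
        map_mul ψ ⟨x, hx⟩ ⟨y, hy⟩
      rw [this, norm_mul]
      exact mul_le_one₀ h1 (norm_nonneg _) h2
  exact ⟨{ toFun := fun x => ⟨ψ x, hψle x.1 x.2⟩
           map_one' := Subtype.ext (map_one ψ)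
           map_mul' := fun x y => Subtype.ext (map_mul ψ x y)
           map_zero' := Subtype.ext (map_zero ψ)
           map_add' := fun x y => Subtype.ext (map_add ψ x y) },
    fun x y h => hψinj (congrArg Subtype.val h)⟩

/-- **Lech, Cassels**: a finitely generated subring of a field of characteristic zero embeds in
`ℤ_p` for some prime `p`. -/
theorem exists_padic_embedding {K : Type*} [Field K] [CharZero K] (S : Set K) (hS : S.Finite) :
    ∃ p : ℕ, ∃ _ : Fact p.Prime, ∃ φ : Subring.closure S →+* ℤ_[p], Function.Injective φ := by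
  classical
  set L : Subalgebra ℚ K := Algebra.adjoin ℚ S with hL
  have hLft : Algebra.FiniteType ℚ L := by
    rw [← Subalgebra.fg_iff_finiteType]
    exact ⟨hS.toFinset, by simp [hL]⟩
  obtain ⟨s, g, hginj, hgfin⟩ := exists_finite_inj_algHom_of_fg ℚ L
  have hi0 : Function.Injective (((L.val.comp g).toRingHom).comp
      (MvPolynomial.map (σ := Fin s) (Int.castRingHom ℚ))) := by
    rw [RingHom.coe_comp]
    have h1 : Function.Injective ((L.val.comp g).toRingHom) := Subtype.val_injective.comp hginj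
    exact h1.comp (MvPolynomial.map_injective _ (RingHom.injective_int _))
  set A := MvPolynomial (Fin s) ℤ with hA
  set F := FractionRing A with hF
  let i : F →+* K := IsFractionRing.lift hi0
  let _ : Algebra F K := i.toAlgebra
  have hFchar : CharZero F := by
    refine charZero_of_injective_ringHom (f := (algebraMap A F)) (IsFractionRing.injective A F)
  let j : MvPolynomial (Fin s) ℚ →+* F :=
    MvPolynomial.eval₂Hom (algebraMap ℚ F) (fun k => algebraMap A F (MvPolynomial.X k))
  have hj : i.comp j = (L.val.comp g).toRingHom := by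
    refine MvPolynomial.ringHom_ext (fun r => ?_) fun k => ?_
    · have h1 : ((i.comp j).comp MvPolynomial.C) =
        ((L.val.comp g).toRingHom.comp MvPolynomial.C) := Subsingleton.elim _ _
      exact RingHom.congr_fun h1 r
    · simp only [j, RingHom.comp_apply, MvPolynomial.eval₂Hom_X']
      rw [show i (algebraMap A F (MvPolynomial.X k)) = _ from IsFractionRing.lift_algebraMap hi0 _]
      simp
  have hint : ∀ x ∈ S, IsIntegral F x := by
    intro x hx
    have hxL : x ∈ L := Algebra.subset_adjoin hx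
    have h1 : g.toRingHom.IsIntegralElem ⟨x, hxL⟩ := RingHom.Finite.to_isIntegral hgfin _
    obtain ⟨P, hP, hP0⟩ := h1
    refine ⟨P.map j, hP.map j, ?_⟩
    rw [Polynomial.eval₂_map]
    show eval₂ (i.comp j) x P = 0
    rw [hj]
    have h2 := congrArg L.val hP0
    rw [map_zero] at h2
    rw [← h2]
    exact (Polynomial.hom_eval₂ P g.toRingHom (L.val : L →+* K) ⟨x, hxL⟩).symm
  have hfinS : Finite S := hS
  set E := IntermediateField.adjoin F S with hE
  have hfd : FiniteDimensional F E := IntermediateField.finiteDimensional_adjoin hint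
  set pb := Field.powerBasisOfFiniteOfSeparable F E with hpb
  set m₀ := minpoly F pb.gen with hm₀
  have hgen : IsIntegral F pb.gen := pb.isIntegral_gen
  obtain ⟨a, b, hab⟩ : IsCoprime m₀ (derivative m₀) := (minpoly.irreducible hgen).separable
  -- clearing denominators
  have hclear : ∀ P : F[X], ∃ d : A, d ≠ 0 ∧ ∃ Q : A[X], Q.map (algebraMap A F) =
      C (algebraMap A F d) * P := by
    intro P
    obtain ⟨d, hd, hP⟩ := IsLocalization.integerNormalization_spec (nonZeroDivisors A) P
    refine ⟨d, nonZeroDivisors.ne_zero hd, _, hP.trans ?_⟩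
    rw [Algebra.smul_def]
    rfl
  obtain ⟨dm, hdm, m, hm⟩ := hclear m₀
  obtain ⟨da, hda, a', ha'⟩ := hclear a
  obtain ⟨db, hdb, b', hb'⟩ := hclear b
  have hex : ∀ x : K, x ∈ S → ∃ P : F[X], ∀ hx : x ∈ E, (⟨x, hx⟩ : E) = aeval pb.gen P := by
    intro x hx
    have hxE : x ∈ E := IntermediateField.subset_adjoin F S hx
    obtain ⟨P, hP⟩ := pb.exists_eq_aeval' ⟨x, hxE⟩
    exact ⟨P, fun _ => hP⟩
  choose! P hP using hex
  choose dP hdP Q hQ using fun x => hclear (P x)
  set w : A := (da * db * dm) * ∏ x ∈ hS.toFinset, dP x with hw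
  have hw0 : w ≠ 0 := mul_ne_zero (mul_ne_zero (mul_ne_zero hda hdb) hdm)
    (Finset.prod_ne_zero_iff.2 fun x _ => hdP x)
  have hinjAF : Function.Injective (algebraMap A F) := IsFractionRing.injective A F
  have hmdeg : 0 < m.natDegree := by
    have h1 : (m.map (algebraMap A F)).natDegree = m₀.natDegree := by
      rw [hm, natDegree_C_mul]
      exact fun h => hdm (hinjAF (by rw [h, map_zero]))
    rw [← natDegree_map_eq_of_injective hinjAF, h1]
    exact minpoly.natDegree_pos hgen
  have hsep : ∃ a b : A[X], a * m + b * derivative m = C w := by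
    refine ⟨a' * C (db * ∏ x ∈ hS.toFinset, dP x), b' * C (da * ∏ x ∈ hS.toFinset, dP x), ?_⟩
    apply Polynomial.map_injective _ hinjAF
    have h1 : (derivative m).map (algebraMap A F) = C (algebraMap A F dm) * derivative m₀ := by
      rw [← derivative_map, hm, derivative_C_mul]
    simp only [Polynomial.map_add, Polynomial.map_mul, Polynomial.map_C, ha', hb', hm, h1, hw,
      map_mul]
    linear_combination (C (algebraMap A F da) * C (algebraMap A F db) * C (algebraMap A F dm) *
      C (algebraMap A F (∏ x ∈ hS.toFinset, dP x))) * hab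
  obtain ⟨p, hp, τ, hτ, hτw, β, hβ⟩ := exists_embedding_mvPolynomial s hw0 m hmdeg hsep
  refine ⟨p, hp, ?_⟩
  have hτ' : Function.Injective ((PadicInt.Coe.ringHom (p := p)).comp τ) := by
    rw [RingHom.coe_comp]
    exact Function.Injective.comp Subtype.val_injective hτ
  let ι : F →+* ℚ_[p] := IsFractionRing.lift hτ'
  have hι : ∀ x : A, ι (algebraMap A F x) = ((τ x : ℤ_[p]) : ℚ_[p]) :=
    fun x => IsFractionRing.lift_algebraMap hτ' x
  let _ : Algebra F ℚ_[p] := ι.toAlgebra
  have hιc : ι.comp (algebraMap A F) = (PadicInt.Coe.ringHom (p := p)).comp τ :=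
    RingHom.ext fun x => hι x
  have hev : ∀ (d : A) (Q : A[X]) (P : F[X]), Q.map (algebraMap A F) = C (algebraMap A F d) * P →
      ((τ d : ℤ_[p]) : ℚ_[p]) * aeval (β : ℚ_[p]) P = ((eval₂ τ β Q : ℤ_[p]) : ℚ_[p]) := by
    intro d Q P h
    have h1 : aeval (β : ℚ_[p]) (Q.map (algebraMap A F)) = ((eval₂ τ β Q : ℤ_[p]) : ℚ_[p]) := by
      rw [aeval_def, eval₂_map]
      show eval₂ (ι.comp (algebraMap A F)) (β : ℚ_[p]) Q = _
      rw [hιc]
      exact (Polynomial.hom_eval₂ Q τ (PadicInt.Coe.ringHom (p := p)) β).symm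
    rw [← h1, h, map_mul, aeval_C]
    congr 1
    exact (hι d).symm
  have hdvd : ∀ d : A, d ∣ w → IsUnit (τ d) := fun d hd =>
    isUnit_of_dvd_unit (map_dvd τ hd) hτw
  have hβ0 : aeval (β : ℚ_[p]) m₀ = 0 := by
    have h1 := hev dm m m₀ hm
    rw [eval₂_eq_eval_map, hβ, PadicInt.coe_zero] at h1
    refine (mul_eq_zero.1 h1).resolve_left fun h2 => ?_
    exact hdm (hτ (by rw [map_zero]; exact Subtype.ext h2))
  let Φ : E →ₐ[F] ℚ_[p] := pb.lift (β : ℚ_[p]) hβ0
  have hΦ : ∀ P : F[X], Φ (aeval pb.gen P) = aeval (β : ℚ_[p]) P := fun P => pb.lift_aeval _ hβ0 P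
  have hle : Subring.closure S ≤ E.toSubfield.toSubring :=
    Subring.closure_le.2 (IntermediateField.subset_adjoin F S)
  let ψ : Subring.closure S →+* ℚ_[p] := (Φ : E →+* ℚ_[p]).comp (Subring.inclusion hle)
  have hψinj : Function.Injective ψ := by
    have h1 : Function.Injective (⇑(Φ : E →+* ℚ_[p]) ∘ ⇑(Subring.inclusion hle)) :=
      Function.Injective.comp (RingHom.injective (Φ : E →+* ℚ_[p]))
        (Subring.inclusion_injective hle)
    exact h1
  refine embedding_of_norm_le S ψ hψinj fun x hx => ?_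
  have hxE : x ∈ E := IntermediateField.subset_adjoin F S hx
  have h1 : ψ ⟨x, Subring.subset_closure hx⟩ = aeval (β : ℚ_[p]) (P x) := by
    rw [← hΦ, ← hP x hx hxE]
    rfl
  obtain ⟨v, hv⟩ := hdvd (dP x) ((Finset.dvd_prod_of_mem dP (hS.mem_toFinset.2 hx)).mul_left _)
  have h2 := hev (dP x) (Q x) (P x) (hQ x)
  have h3 : ‖((τ (dP x) : ℤ_[p]) : ℚ_[p])‖ = 1 := by
    rw [PadicInt.padic_norm_e_of_padicInt, ← hv]
    exact PadicInt.isUnit_iff.1 v.isUnit
  rw [h1]
  have h4 := congrArg norm h2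
  rw [norm_mul, h3, one_mul] at h4
  rw [h4]
  exact PadicInt.norm_le_one _

end Pool.Agent.Lib.MP_1eeaa7_nt
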