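import Pool.Agent.Lib.MP_1eeaa7_nt.ResAlg

/-!
# Extending embeddings of a ring `B₀` to finitely generated extensions
-/

set_option autoImplicit false

namespace Pool.Agent.Lib.MP_1eeaa7_nt

open Polynomial

theorem mem_of_closure {K : Type*} [Field K] (S : Set K) {k : Type*} [Field k] (T : Subring k)
    (ψ : Subring.closure S →+* k)
    (h : ∀ x (hx : x ∈ S), ψ ⟨x, Subring.subset_closure hx⟩ ∈ T) :
    ∀ x (hx : x ∈ Subring.closure S), ψ ⟨x, hx⟩ ∈ T := by
  intro x hx
  induction hx using Subring.closure_induction with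
  | mem x hx => exact h x hx
  | zero =>
    have : ψ ⟨0, Subring.zero_mem _⟩ = 0 := map_zero ψ
    rw [this]; exact T.zero_mem
  | one =>
    have : ψ ⟨1, Subring.one_mem _⟩ = 1 := map_one ψ
    rw [this]; exact T.one_mem
  | add x y hx hy h1 h2 =>
    have : ψ ⟨x + y, Subring.add_mem _ hx hy⟩ = ψ ⟨x, hx⟩ + ψ ⟨y, hy⟩ :=
      map_add ψ ⟨x, hx⟩ ⟨y, hy⟩
    rw [this]; exact T.add_mem h1 h2
  | neg x hx h1 =>
    have : ψ ⟨-x, Subring.neg_mem _ hx⟩ = -ψ ⟨x, hx⟩ := map_neg ψ ⟨x, hx⟩
    rw [this]; exact T.neg_mem h1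
  | mul x y hx hy h1 h2 =>
    have : ψ ⟨x * y, Subring.mul_mem _ hx hy⟩ = ψ ⟨x, hx⟩ * ψ ⟨y, hy⟩ :=
      map_mul ψ ⟨x, hx⟩ ⟨y, hy⟩
    rw [this]; exact T.mul_mem h1 h2

theorem countable_mvPolynomial' (B₀ : Type) [CommRing B₀] [Countable B₀] (s : ℕ) :
    Countable (MvPolynomial (Fin s) B₀) := by
  rw [← Cardinal.mk_le_aleph0_iff]
  refine (MvPolynomial.cardinalMk_le_max (σ := Fin s) (R := B₀)).trans ?_
  have := Cardinal.mk_le_aleph0_iff.2 (inferInstance : Countable B₀)
  simp [this]

theorem exists_embedding_over {B₀ : Type} [CommRing B₀] [IsDomain B₀] [Countable B₀] {K : Type*}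
    [Field K] [CharZero K] [CharZero B₀] (i₁ : B₀ →+* K) (hi₁ : Function.Injective i₁) (S : Set K)
    (hS : S.Finite) (hBS : ∀ x, i₁ x ∈ Subring.closure S) :
    ∃ b : B₀, b ≠ 0 ∧ ∀ (p : ℕ) [hp : Fact p.Prime] (η : B₀ →+* PadicAlgCl p),
      Function.Injective η → (∀ x, η x ∈ WOs (PadicAlgCl p) p) → ‖η b‖ = 1 →
      ∃ ψ : Subring.closure S →+* PadicAlgCl p, Function.Injective ψ ∧
        (∀ x, ψ x ∈ WOs (PadicAlgCl p) p) ∧ ∀ x : B₀, ψ ⟨i₁ x, hBS x⟩ = η x := by
  classical
  set k₀ := FractionRing B₀ with hk₀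
  let i₀ : k₀ →+* K := IsFractionRing.lift hi₁
  have hi₀ : ∀ x, i₀ (algebraMap B₀ k₀ x) = i₁ x := fun x => IsFractionRing.lift_algebraMap hi₁ x
  let _ : Algebra k₀ K := i₀.toAlgebra
  have hk₀char : CharZero k₀ :=
    charZero_of_injective_ringHom (f := algebraMap B₀ k₀) (IsFractionRing.injective B₀ k₀)
  set L : Subalgebra k₀ K := Algebra.adjoin k₀ S with hL
  have hLft : Algebra.FiniteType k₀ L := by
    rw [← Subalgebra.fg_iff_finiteType]
    exact ⟨hS.toFinset, by simp [hL]⟩
  obtain ⟨s, g, hginj, hgfin⟩ := exists_finite_inj_algHom_of_fg k₀ L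
  have hi0 : Function.Injective (((L.val.comp g).toRingHom).comp
      (MvPolynomial.map (σ := Fin s) (algebraMap B₀ k₀))) := by
    rw [RingHom.coe_comp]
    have h1 : Function.Injective ((L.val.comp g).toRingHom) := Subtype.val_injective.comp hginj
    exact h1.comp (MvPolynomial.map_injective _ (IsFractionRing.injective B₀ k₀))
  set A := MvPolynomial (Fin s) B₀ with hA
  set F := FractionRing A with hF
  let i : F →+* K := IsFractionRing.lift hi0
  let _ : Algebra F K := i.toAlgebra
  have hinjAF : Function.Injective (algebraMap A F) := IsFractionRing.injective A F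
  have hAchar : CharZero A :=
    charZero_of_injective_ringHom (f := (MvPolynomial.C : B₀ →+* A)) (MvPolynomial.C_injective _ _)
  have hFchar : CharZero F := charZero_of_injective_ringHom (f := (algebraMap A F)) hinjAF
  have hBF : Function.Injective ((algebraMap A F).comp (MvPolynomial.C : B₀ →+* A)) := by
    rw [RingHom.coe_comp]
    exact hinjAF.comp (MvPolynomial.C_injective _ _)
  let j₀ : k₀ →+* F := IsFractionRing.lift hBF
  let j : MvPolynomial (Fin s) k₀ →+* F :=
    MvPolynomial.eval₂Hom j₀ (fun l => algebraMap A F (MvPolynomial.X l))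
  have hj : i.comp j = (L.val.comp g).toRingHom := by
    refine MvPolynomial.ringHom_ext' ?_ fun l => ?_
    · refine IsLocalization.ringHom_ext (nonZeroDivisors B₀) (RingHom.ext fun r => ?_)
      simp only [j, RingHom.comp_apply, MvPolynomial.eval₂Hom_C]
      rw [show j₀ (algebraMap B₀ k₀ r) = _ from IsFractionRing.lift_algebraMap hBF r,
        RingHom.comp_apply]
      rw [show i (algebraMap A F (MvPolynomial.C r)) = _ from IsFractionRing.lift_algebraMap hi0 _]
      simp
    · simp only [j, RingHom.comp_apply, MvPolynomial.eval₂Hom_X']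
      rw [show i (algebraMap A F (MvPolynomial.X l)) = _ from IsFractionRing.lift_algebraMap hi0 _]
      simp
  have hint : ∀ x ∈ S, IsIntegral F x := by
    intro x hx
    have hxL : x ∈ L := Algebra.subset_adjoin hx
    have h1 : g.toRingHom.IsIntegralElem ⟨x, hxL⟩ := RingHom.Finite.to_isIntegral hgfin _
    obtain ⟨P, hP, hP0⟩ := h1
    refine ⟨P.map j, hP.map j, ?_⟩
    rw [Polynomial.eval₂_map]
    show eval₂ (i.comp j) x P = 0
    rw [hj]
    have h2 := congrArg L.val hP0
    rw [map_zero] at h2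
    rw [← h2]
    exact (Polynomial.hom_eval₂ P g.toRingHom (L.val : L →+* K) ⟨x, hxL⟩).symm
  have hfinS : Finite S := hS
  set E := IntermediateField.adjoin F S with hE
  have hfd : FiniteDimensional F E := IntermediateField.finiteDimensional_adjoin hint
  set pb := Field.powerBasisOfFiniteOfSeparable F E with hpb
  set m₀ := minpoly F pb.gen with hm₀
  have hgen : IsIntegral F pb.gen := pb.isIntegral_gen
  have hm₀m : m₀.Monic := minpoly.monic hgen
  obtain ⟨a, b, hab⟩ : IsCoprime m₀ (derivative m₀) := (minpoly.irreducible hgen).separable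
  -- clearing denominators
  have hclear : ∀ P : F[X], ∃ d : A, d ≠ 0 ∧ ∃ Q : A[X], Q.map (algebraMap A F) =
      C (algebraMap A F d) * P := by
    intro P
    obtain ⟨d, hd, hP⟩ := IsLocalization.integerNormalization_spec (nonZeroDivisors A) P
    refine ⟨d, nonZeroDivisors.ne_zero hd, _, hP.trans ?_⟩
    rw [Algebra.smul_def]
    rfl
  obtain ⟨dm, hdm, m, hm⟩ := hclear m₀
  obtain ⟨da, hda, a', ha'⟩ := hclear a
  obtain ⟨db, hdb, b', hb'⟩ := hclear b
  have hex : ∀ x : K, x ∈ S → ∃ P : F[X], ∀ hx : x ∈ E, (⟨x, hx⟩ : E) = aeval pb.gen P := by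
    intro x hx
    have hxE : x ∈ E := IntermediateField.subset_adjoin F S hx
    obtain ⟨P, hP⟩ := pb.exists_eq_aeval' ⟨x, hxE⟩
    exact ⟨P, fun _ => hP⟩
  choose! P hP using hex
  choose dP hdP Q hQ using fun x => hclear (P x)
  set w : A := (da * db * dm) * ∏ x ∈ hS.toFinset, dP x with hw
  have hw0 : w ≠ 0 := mul_ne_zero (mul_ne_zero (mul_ne_zero hda hdb) hdm)
    (Finset.prod_ne_zero_iff.2 fun x _ => hdP x)
  have hsep : ∃ a b : A[X], a * m + b * derivative m = C w := by
    refine ⟨a' * C (db * ∏ x ∈ hS.toFinset, dP x), b' * C (da * ∏ x ∈ hS.toFinset, dP x), ?_⟩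
    apply Polynomial.map_injective _ hinjAF
    have h1 : (derivative m).map (algebraMap A F) = C (algebraMap A F dm) * derivative m₀ := by
      rw [← derivative_map, hm, derivative_C_mul]
    simp only [Polynomial.map_add, Polynomial.map_mul, Polynomial.map_C, ha', hb', hm, h1, hw,
      map_mul]
    linear_combination (C (algebraMap A F da) * C (algebraMap A F db) * C (algebraMap A F dm) *
      C (algebraMap A F (∏ x ∈ hS.toFinset, dP x))) * hab
  have hmlead : m.leadingCoeff = dm ∧ m.natDegree = m₀.natDegree := by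
    have h0 : algebraMap A F dm ≠ 0 := fun h => hdm (hinjAF (by rw [h, map_zero]))
    have h1 : (m.map (algebraMap A F)).natDegree = m₀.natDegree := by rw [hm, natDegree_C_mul h0]
    have h2 : m.natDegree = m₀.natDegree := by rw [← natDegree_map_eq_of_injective hinjAF, h1]
    refine ⟨hinjAF ?_, h2⟩
    rw [leadingCoeff, ← coeff_map, hm, coeff_C_mul, h2, hm₀m.coeff_natDegree, mul_one]
  obtain ⟨c₀, hc₀⟩ := MvPolynomial.exists_coeff_ne_zero hw0
  refine ⟨w.coeff c₀, hc₀, fun p hp η hη hηW hb => ?_⟩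
  -- the point
  have hcount : Countable A := countable_mvPolynomial' B₀ s
  have hmapinj : Function.Injective (MvPolynomial.map (σ := Fin s) η) :=
    MvPolynomial.map_injective _ hη
  obtain ⟨t, htW, ht1, ht2⟩ := exists_point (ι := {g : A // g ≠ 0}) s (MvPolynomial.map η w)
    (fun c => by rw [MvPolynomial.coeff_map]; exact WOs.norm_le (hηW _)) c₀
    (by rw [MvPolynomial.coeff_map]; exact hb) (fun g => MvPolynomial.map η g.1)
    (fun g h => g.2 (hmapinj (by rw [h, map_zero])))
  set τ : A →+* PadicAlgCl p := MvPolynomial.eval₂Hom η t with hτdef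
  have hτe : ∀ x : A, τ x = MvPolynomial.eval t (MvPolynomial.map η x) := fun x => by
    rw [MvPolynomial.eval_map]
    rfl
  have hτ : Function.Injective τ := by
    rw [injective_iff_map_eq_zero]
    intro x hx
    by_contra hne
    refine ht2 ⟨x, hne⟩ ?_
    rw [← hτe]
    exact hx
  have hτW : ∀ x : A, τ x ∈ WOs (PadicAlgCl p) p := by
    intro x
    rw [hτe, MvPolynomial.eval_eq]
    refine (WOs _ p).sum_mem fun c _ => ?_
    refine (WOs _ p).mul_mem ?_ ((WOs _ p).prod_mem fun l _ => (WOs _ p).pow_mem (htW l) _)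
    rw [MvPolynomial.coeff_map]
    exact hηW _
  have hτw : ‖τ w‖ = 1 := by rw [hτe]; exact ht1
  have hdvd : ∀ d : A, d ∣ w → ‖τ d‖ = 1 := by
    rintro d ⟨e, he⟩
    refine le_antisymm (WOs.norm_le (hτW d)) ?_
    by_contra hcon
    push Not at hcon
    have h1 : ‖τ w‖ < 1 := by
      rw [he, map_mul, norm_mul]
      exact mul_lt_one_of_nonneg_of_lt_one_left (norm_nonneg _) hcon (WOs.norm_le (hτW e))
    rw [hτw] at h1
    exact lt_irrefl _ h1
  let ι : F →+* PadicAlgCl p := IsFractionRing.lift hτ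
  have hι : ∀ x : A, ι (algebraMap A F x) = τ x := fun x => IsFractionRing.lift_algebraMap hτ x
  let _ : Algebra F (PadicAlgCl p) := ι.toAlgebra
  have hιc : ι.comp (algebraMap A F) = τ := RingHom.ext fun x => hι x
  -- a root
  have hm₀deg : (m₀.map ι).degree ≠ 0 := by
    rw [degree_map, degree_eq_natDegree hm₀m.ne_zero]
    have := minpoly.natDegree_pos hgen
    exact_mod_cast this.ne'
  obtain ⟨β, hβroot⟩ := IsAlgClosed.exists_root _ hm₀deg
  have hβ0 : aeval β m₀ = 0 := by
    rw [IsRoot.def, eval_map] at hβroot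
    exact hβroot
  have hev : ∀ (d : A) (Q : A[X]) (P : F[X]), Q.map (algebraMap A F) = C (algebraMap A F d) * P →
      τ d * aeval β P = (Q.map τ).eval β := by
    intro d Q P h
    have h1 : aeval β (Q.map (algebraMap A F)) = (Q.map τ).eval β := by
      rw [aeval_def, eval₂_map, eval_map]
      show eval₂ (ι.comp (algebraMap A F)) β Q = _
      rw [hιc]
    rw [← h1, h, map_mul, aeval_C]
    congr 1
    exact (hι d).symm
  have hmβ : (m.map τ).eval β = 0 := by rw [← hev dm m m₀ hm, hβ0, mul_zero]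
  have hdm1 : ‖τ dm‖ = 1 := hdvd dm ⟨(da * db) * ∏ x ∈ hS.toFinset, dP x, by rw [hw]; ring⟩
  have hβ1 : ‖β‖ ≤ 1 := by
    by_contra hcon
    push Not at hcon
    have hβne : β ≠ 0 := fun h => by rw [h, norm_zero] at hcon; linarith
    have h1 : (m.map τ).eval β = ∑ l ∈ Finset.range (m.natDegree + 1), τ (m.coeff l) * β ^ l := by
      rw [eval_map, eval₂_eq_sum_range]
    rw [Finset.sum_range_succ, hmβ] at h1
    have h2 : τ (m.coeff m.natDegree) * β ^ m.natDegree =
        -∑ l ∈ Finset.range m.natDegree, τ (m.coeff l) * β ^ l := by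
      linear_combination -h1
    have h3 : ‖τ (m.coeff m.natDegree) * β ^ m.natDegree‖ = ‖β‖ ^ m.natDegree := by
      have : m.coeff m.natDegree = dm := hmlead.1
      rw [this, norm_mul, hdm1, one_mul, norm_pow]
    have hpos : 0 < m.natDegree := by rw [hmlead.2]; exact minpoly.natDegree_pos hgen
    have h4 : ‖∑ l ∈ Finset.range m.natDegree, τ (m.coeff l) * β ^ l‖ ≤
        ‖β‖ ^ (m.natDegree - 1) := by
      refine IsUltrametricDist.norm_sum_le_of_forall_le_of_nonneg (by positivity) fun l hl => ?_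
      rw [Finset.mem_range] at hl
      rw [norm_mul, norm_pow]
      calc ‖τ (m.coeff l)‖ * ‖β‖ ^ l ≤ 1 * ‖β‖ ^ (m.natDegree - 1) := by
            refine mul_le_mul (WOs.norm_le (hτW _)) ?_ (by positivity) zero_le_one
            exact pow_le_pow_right₀ hcon.le (by omega)
        _ = _ := one_mul _
    rw [← norm_neg, ← h2, h3] at h4
    have h5 : ‖β‖ ^ (m.natDegree - 1) < ‖β‖ ^ m.natDegree :=
      pow_lt_pow_right₀ hcon (by omega)
    exact absurd h4 (not_le.2 h5)
  have hβW : β ∈ WOs (PadicAlgCl p) p := by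
    refine WOs.root (m := m.map τ) (fun l => by rw [coeff_map]; exact hτW _) hβ1 hmβ ?_
    obtain ⟨a₁, b₁, h1⟩ := hsep
    have h2 := congrArg (fun P : A[X] => (P.map τ).eval β) h1
    simp only [Polynomial.map_add, Polynomial.map_mul, eval_add, eval_mul, hmβ, mul_zero, zero_add,
      Polynomial.map_C, eval_C] at h2
    have hint1 : ∀ P : A[X], ‖(P.map τ).eval β‖ ≤ 1 := by
      intro P
      rw [eval_map, eval₂_eq_sum_range]
      refine IsUltrametricDist.norm_sum_le_of_forall_le_of_nonneg zero_le_one fun l _ => ?_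
      rw [norm_mul, norm_pow]
      exact mul_le_one₀ (WOs.norm_le (hτW _)) (by positivity) (pow_le_one₀ (norm_nonneg _) hβ1)
    rw [derivative_map]
    refine le_antisymm (hint1 _) ?_
    by_contra hcon
    push Not at hcon
    have h3 : ‖τ w‖ < 1 := by
      rw [← h2, norm_mul]
      exact mul_lt_one_of_nonneg_of_lt_one_right (hint1 _) (norm_nonneg _) hcon
    rw [hτw] at h3
    exact lt_irrefl _ h3
  let Φ : E →ₐ[F] PadicAlgCl p := pb.lift β hβ0
  have hΦ : ∀ P : F[X], Φ (aeval pb.gen P) = aeval β P := fun P => pb.lift_aeval _ hβ0 P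
  have hle : Subring.closure S ≤ E.toSubfield.toSubring :=
    Subring.closure_le.2 (IntermediateField.subset_adjoin F S)
  let ψ : Subring.closure S →+* PadicAlgCl p :=
    (Φ : E →+* PadicAlgCl p).comp (Subring.inclusion hle)
  have hψinj : Function.Injective ψ := by
    have h1 : Function.Injective (⇑(Φ : E →+* PadicAlgCl p) ∘ ⇑(Subring.inclusion hle)) :=
      Function.Injective.comp (RingHom.injective (Φ : E →+* PadicAlgCl p))
        (Subring.inclusion_injective hle)
    exact h1
  refine ⟨ψ, hψinj, fun x => ?_, fun x => ?_⟩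
  · refine mem_of_closure S (WOs (PadicAlgCl p) p) ψ (fun x hx => ?_) x.1 x.2
    have hxE : x ∈ E := IntermediateField.subset_adjoin F S hx
    have h1 : ψ ⟨x, Subring.subset_closure hx⟩ = aeval β (P x) := by
      rw [← hΦ, ← hP x hx hxE]
      rfl
    have hd1 : ‖τ (dP x)‖ = 1 :=
      hdvd (dP x) ((Finset.dvd_prod_of_mem dP (hS.mem_toFinset.2 hx)).mul_left _)
    have h2 := hev (dP x) (Q x) (P x) (hQ x)
    have hne : τ (dP x) ≠ 0 := fun h0 => by rw [h0, norm_zero] at hd1; exact zero_ne_one hd1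
    have h3 : aeval β (P x) = (τ (dP x))⁻¹ * ((Q x).map τ).eval β := by
      rw [← h2, inv_mul_cancel_left₀ hne]
    rw [h1, h3]
    refine (WOs _ p).mul_mem (WOs.inv (hτW _) hd1) ?_
    rw [eval_map, eval₂_eq_sum_range]
    exact (WOs _ p).sum_mem fun l _ => (WOs _ p).mul_mem (hτW _) ((WOs _ p).pow_mem hβW _)
  · have hxe : i₁ x = i (algebraMap A F (MvPolynomial.C x)) := by
      rw [show i (algebraMap A F (MvPolynomial.C x)) = _ from IsFractionRing.lift_algebraMap hi0 _]
      simp only [RingHom.comp_apply, MvPolynomial.map_C]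
      rw [← hi₀]
      simp
      rfl
    have hxE : i₁ x ∈ E := hle (hBS x)
    have h1 : (⟨i₁ x, hxE⟩ : E) = algebraMap F E (algebraMap A F (MvPolynomial.C x)) :=
      Subtype.ext hxe
    show Φ ⟨i₁ x, hxE⟩ = η x
    rw [h1, AlgHom.commutes]
    show ι (algebraMap A F (MvPolynomial.C x)) = η x
    rw [hι, hτdef, MvPolynomial.eval₂Hom_C]

end Pool.Agent.Lib.MP_1eeaa7_nt
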