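import Pool.Agent.Lib.MP_1eeaa7_nt.Growth

/-!
# Series `exp(u X^M) · G` where `G` has a larger radius of convergence
-/

set_option autoImplicit false

namespace Pool.Agent.Lib.MP_1eeaa7_nt

open PowerSeries Finset

section Alg

variable {k : Type*} [Field k] [CharZero k]

/-- `exp (u X ^ M)` -/
noncomputable def expX (u : k) (M : ℕ) : k⟦X⟧ :=
  PowerSeries.mk fun n => if M ∣ n then u ^ (n / M) / ((n / M).factorial : k) else 0

theorem d_expX (u : k) {M : ℕ} (hM : 0 < M) :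
    d⁄dX k (expX u M) = PowerSeries.C ((M : k) * u) * X ^ (M - 1) * expX u M := by
  ext n
  rw [coeff_derivative, mul_assoc, coeff_C_mul, coeff_X_pow_mul', expX, coeff_mk, coeff_mk]
  by_cases h : M ∣ n + 1
  · obtain ⟨c, hc⟩ := h
    have hc0 : 0 < c := by
      rcases Nat.eq_zero_or_pos c with rfl | h
      · omega
      · exact h
    obtain ⟨j, rfl⟩ : ∃ j, c = j + 1 := ⟨c - 1, by omega⟩
    have h1 : n + 1 = M * j + M := by rw [hc]; ring
    have h2 : M - 1 ≤ n := by omega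
    have h3 : n - (M - 1) = M * j := by omega
    rw [if_pos ⟨j + 1, hc⟩, if_pos h2, h3, if_pos (dvd_mul_right _ _), hc,
      Nat.mul_div_cancel_left _ hM, Nat.mul_div_cancel_left _ hM]
    have h4 : ((n : k) + 1) = (M : k) * ((j : k) + 1) := by
      have := congrArg (Nat.cast : ℕ → k) hc
      push_cast at this
      exact this
    rw [h4, Nat.factorial_succ]
    push_cast
    have h5 : (j : k) + 1 ≠ 0 := Nat.cast_add_one_ne_zero j
    have h6 : ((j.factorial : ℕ) : k) ≠ 0 := Nat.cast_ne_zero.2 (Nat.factorial_ne_zero j)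
    field_simp
    ring
  · rw [if_neg h, zero_mul]
    split_ifs with h1 h2
    · exfalso
      apply h
      obtain ⟨c, hc⟩ := h2
      exact ⟨c + 1, by rw [mul_add, mul_one]; omega⟩
    · rw [mul_zero]
    · rw [mul_zero]

theorem constantCoeff_expX (u : k) (M : ℕ) : constantCoeff (expX u M) = 1 := by
  rw [← coeff_zero_eq_constantCoeff_apply, expX, coeff_mk, if_pos (dvd_zero _), Nat.zero_div]
  simp

theorem expX_mul_expX_neg (u : k) {M : ℕ} (hM : 0 < M) : expX u M * expX (-u) M = 1 := by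
  refine PowerSeries.derivative.ext ?_ ?_
  · rw [Derivation.leibniz, smul_eq_mul, smul_eq_mul, d_expX u hM, d_expX (-u) hM,
      Derivation.map_one_eq_zero]
    rw [mul_neg, map_neg]
    ring
  · rw [map_mul, constantCoeff_expX, constantCoeff_expX, map_one, mul_one]

theorem coeff_expX_mul (u : k) {M : ℕ} (hM : 0 < M) (G : k⟦X⟧) (K : ℕ) {t : ℕ} (ht : t < M) :
    coeff (M * K + t) (expX u M * G) =
      ∑ m ∈ range (K + 1), u ^ m / ((m.factorial : ℕ) : k) * coeff (M * (K - m) + t) G := by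
  classical
  rw [PowerSeries.coeff_mul, Nat.sum_antidiagonal_eq_sum_range_succ_mk]
  have h1 : ∀ i ∈ range (M * K + t + 1), coeff i (expX u M) * coeff (M * K + t - i) G =
      if M ∣ i then u ^ (i / M) / (((i / M).factorial : ℕ) : k) * coeff (M * K + t - i) G
      else 0 := by
    intro i _
    rw [expX, coeff_mk]
    split_ifs
    · rfl
    · rw [zero_mul]
  rw [sum_congr rfl h1, ← sum_filter]
  have h2 : (range (M * K + t + 1)).filter (fun i => M ∣ i) =
      (range (K + 1)).image (fun m => M * m) := by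
    ext i
    rw [mem_filter, mem_image, mem_range]
    constructor
    · rintro ⟨h3, m, rfl⟩
      refine ⟨m, mem_range.2 ?_, rfl⟩
      by_contra hcon
      push Not at hcon
      have h4 : M * (K + 1) ≤ M * m := Nat.mul_le_mul_left _ hcon
      rw [mul_add, mul_one] at h4
      omega
    · rintro ⟨m, hm, rfl⟩
      rw [mem_range] at hm
      have h4 : M * m ≤ M * K := Nat.mul_le_mul_left _ (by omega)
      exact ⟨by omega, dvd_mul_right _ _⟩
  rw [h2, sum_image (fun a _ b _ h => Nat.eq_of_mul_eq_mul_left hM h)]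
  refine sum_congr rfl fun m hm => ?_
  rw [mem_range] at hm
  have h4 : M * m ≤ M * K := Nat.mul_le_mul_left _ (by omega)
  have h5 : M * K + t - M * m = M * (K - m) + t := by
    rw [Nat.mul_sub]
    omega
  rw [Nat.mul_div_cancel_left _ hM, h5]

theorem newton_expX {u : k} (hu : u ≠ 0) {M : ℕ} (hM : 0 < M) (G : k⟦X⟧) (K : ℕ) {t : ℕ}
    (ht : t < M) : ((K.factorial : ℕ) : k) * u⁻¹ ^ K * coeff (M * K + t) (expX u M * G) =
      ∑ m ∈ range (K + 1), ((K.choose m : ℕ) : k) *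
        (((m.factorial : ℕ) : k) * u⁻¹ ^ m * coeff (M * m + t) G) := by
  rw [coeff_expX_mul u hM G K ht, mul_sum, ← sum_flip]
  refine sum_congr rfl fun m hm => ?_
  rw [mem_range] at hm
  have hmK : m ≤ K := by omega
  rw [show K - (K - m) = m by omega]
  have h1 : ((K.choose m : ℕ) : k) * ((m.factorial : ℕ) : k) * (((K - m).factorial : ℕ) : k) =
      ((K.factorial : ℕ) : k) := by
    rw [← Nat.choose_mul_factorial_mul_factorial hmK]
    push_cast
    ring
  have h2 : u ^ K = u ^ (K - m) * u ^ m := by rw [← pow_add]; congr 1; omega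
  have h3 : (((K - m).factorial : ℕ) : k) ≠ 0 := Nat.cast_ne_zero.2 (Nat.factorial_ne_zero _)
  rw [← h1, inv_pow, inv_pow, h2]
  field_simp

end Alg

theorem poly_geom {x : ℝ} (h0 : 0 ≤ x) (h1 : x < 1) (M t A : ℕ) :
    ∃ D η : ℝ, 0 ≤ D ∧ 0 ≤ η ∧ η < 1 ∧ ∀ m : ℕ, ((M * m + t + 1 : ℕ) : ℝ) ^ A * x ^ m ≤ D * η ^ m := by
  set η : ℝ := Real.sqrt x with hη
  have h2 : η * η = x := Real.mul_self_sqrt h0
  have h3 : 0 ≤ η := Real.sqrt_nonneg x
  have h4 : η < 1 := by
    rw [hη, Real.sqrt_lt' one_pos]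
    simpa using h1
  have h5 : Filter.Tendsto (fun n : ℕ => (n : ℝ) ^ A * η ^ n) Filter.atTop (nhds 0) :=
    tendsto_pow_const_mul_const_pow_of_abs_lt_one A (by rw [abs_of_nonneg h3]; exact h4)
  obtain ⟨D, hD⟩ := h5.bddAbove_range
  have hD' : ∀ n : ℕ, (n : ℝ) ^ A * η ^ n ≤ D := fun n => hD ⟨n, rfl⟩
  have hD0 : 0 ≤ D := le_trans (by positivity) (hD' 0)
  -- bound `(M m + t + 1)^A η^m`
  have h6 : ∀ m : ℕ, ((M * m + t + 1 : ℕ) : ℝ) ^ A * η ^ m ≤
      ((M + t + 1 : ℕ) : ℝ) ^ A * (2 ^ A * D + 1) := by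
    intro m
    have h7 : (((M * m + t + 1 : ℕ) : ℝ)) ≤ ((M + t + 1 : ℕ) : ℝ) * ((m + 1 : ℕ) : ℝ) := by
      have : M * m + t + 1 ≤ (M + t + 1) * (m + 1) := by nlinarith
      exact_mod_cast this
    have h8 : ((m + 1 : ℕ) : ℝ) ^ A * η ^ m ≤ 2 ^ A * D + 1 := by
      rcases Nat.eq_zero_or_pos m with rfl | hm
      · simp only [zero_add, Nat.cast_one, one_pow, pow_zero, mul_one]
        have : 0 ≤ 2 ^ A * D := by positivity
        linarith
      · have h9 : ((m + 1 : ℕ) : ℝ) ≤ 2 * (m : ℝ) := by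
          have : m + 1 ≤ 2 * m := by omega
          exact_mod_cast this
        calc ((m + 1 : ℕ) : ℝ) ^ A * η ^ m ≤ (2 * (m : ℝ)) ^ A * η ^ m := by
              refine mul_le_mul_of_nonneg_right ?_ (by positivity)
              exact pow_le_pow_left₀ (by positivity) h9 A
          _ = 2 ^ A * ((m : ℝ) ^ A * η ^ m) := by rw [mul_pow]; ring
          _ ≤ 2 ^ A * D := mul_le_mul_of_nonneg_left (hD' m) (by positivity)
          _ ≤ 2 ^ A * D + 1 := by linarith
    calc ((M * m + t + 1 : ℕ) : ℝ) ^ A * η ^ m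
        ≤ (((M + t + 1 : ℕ) : ℝ) * ((m + 1 : ℕ) : ℝ)) ^ A * η ^ m := by
          refine mul_le_mul_of_nonneg_right ?_ (by positivity)
          exact pow_le_pow_left₀ (by positivity) h7 A
      _ = ((M + t + 1 : ℕ) : ℝ) ^ A * (((m + 1 : ℕ) : ℝ) ^ A * η ^ m) := by rw [mul_pow]; ring
      _ ≤ _ := mul_le_mul_of_nonneg_left h8 (by positivity)
  refine ⟨((M + t + 1 : ℕ) : ℝ) ^ A * (2 ^ A * D + 1), η, by positivity, h3, h4, fun m => ?_⟩
  have h10 : x ^ m = η ^ m * η ^ m := by rw [← mul_pow, h2]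
  rw [h10, ← mul_assoc]
  exact mul_le_mul_of_nonneg_right (h6 m) (by positivity)

variable {k : Type*} [NormedField k] [IsUltrametricDist k] [CharZero k]

/-- Twisting by `exp (u X ^ M)`. -/
theorem decay_twist {p S : ℕ} {u : k} (hu0 : u ≠ 0) (hM : 0 < p * S)
    (hun : ‖u⁻¹‖ ≤ ‖(p : k)‖) {F : k⟦X⟧} {C Θ : ℝ} {A : ℕ} (hC : 0 ≤ C) (hΘ : 1 ≤ Θ)
    (hF : ∀ m, ‖coeff m F‖ ≤ C * ((m + 1 : ℕ) : ℝ) ^ A * Θ ^ (m / p))
    (hlt : ‖(p : k)‖ * Θ ^ S < 1) {t : ℕ} (ht : t < p * S) :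
    Decay (fun K => ((K.factorial : ℕ) : k) * u⁻¹ ^ K * coeff (p * S * K + t) (expX u (p * S) * F)) := by
  have hp0 : 0 < p := Nat.pos_of_mul_pos_right hM
  obtain ⟨D, η, hD, h0, h1, h⟩ := poly_geom (x := ‖(p : k)‖ * Θ ^ S) (by positivity) hlt (p * S) t A
  refine Eq.mp (congrArg Decay ?_) (Decay.of_newton (c := fun m => ((m.factorial : ℕ) : k) * u⁻¹ ^ m *
    coeff (p * S * m + t) F) (C := C * Θ ^ (t / p) * D) (η := η) (by positivity) h0 h1 fun m => ?_)
  · funext K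
    exact (newton_expX hu0 hM F K ht).symm
  · rw [norm_mul, norm_mul, norm_pow]
    have hdiv : (p * S * m + t) / p = S * m + t / p := by
      rw [mul_assoc, Nat.mul_add_div hp0]
    calc ‖((m.factorial : ℕ) : k)‖ * ‖u⁻¹‖ ^ m * ‖coeff (p * S * m + t) F‖
        ≤ (1 * ‖(p : k)‖ ^ m) * (C * ((p * S * m + t + 1 : ℕ) : ℝ) ^ A *
            Θ ^ ((p * S * m + t) / p)) := by
          refine mul_le_mul ?_ (hF _) (norm_nonneg _) (by positivity)
          refine mul_le_mul (norm_nat_le _) ?_ (by positivity) zero_le_one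
          exact pow_le_pow_left₀ (norm_nonneg _) hun m
      _ = C * Θ ^ (t / p) * (((p * S * m + t + 1 : ℕ) : ℝ) ^ A * (‖(p : k)‖ * Θ ^ S) ^ m) := by
          rw [hdiv, pow_add, pow_mul, mul_pow]
          ring
      _ ≤ C * Θ ^ (t / p) * (D * η ^ m) := mul_le_mul_of_nonneg_left (h m) (by positivity)
      _ = C * Θ ^ (t / p) * D * η ^ m := by ring

end Pool.Agent.Lib.MP_1eeaa7_nt
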