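import Pool.Agent.Lib.MP_1eeaa7_nt.DecayOps

/-!
# The filtration argument

`x`, `δ`, `θ` act on a `k`-vector space with a lattice `Λ`, with `θ x = x (θ + 1)`,
`δ x = Q(θ + 1)`, `x δ = Q(θ)`, `δ θ = (θ + 1) δ`.  If `T = δ ^ p` satisfies `T ^ L = 1` modulo the
first step of the natural filtration, then `T ^ L - 1` shifts the filtration.
-/

set_option autoImplicit false

namespace Pool.Agent.Lib.MP_1eeaa7_nt

open Finset Polynomial

section Semi

variable {k E : Type*} [CommRing k] [Ring E] [Algebra k E]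

theorem semiconj_aeval {s u v : E} (h : SemiconjBy s u v) (P : k[X]) :
    SemiconjBy s (aeval u P) (aeval v P) := by
  induction P using Polynomial.induction_on' with
  | add P Q hP hQ =>
    rw [map_add, map_add]
    exact hP.add_right hQ
  | monomial n a =>
    rw [aeval_monomial, aeval_monomial]
    exact (Algebra.commute_algebraMap_right a s).semiconjBy.mul_right (h.pow_right n)

/-- the product `Q(X + 1) ⋯ Q(X + b)` -/
noncomputable def prodQ (Q : k[X]) (b : ℕ) : k[X] := ∏ j ∈ range b, Q.comp (X + C ((j : k) + 1))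

theorem prodQ_succ (Q : k[X]) (b : ℕ) : prodQ Q (b + 1) = prodQ Q b * Q.comp (X + C ((b : k) + 1)) :=
  prod_range_succ _ _

variable {x δ θ : E} {Q : k[X]}

theorem semiconj_x_pow (r1 : θ * x = x * (θ + 1)) (b : ℕ) :
    SemiconjBy (x ^ b) (θ + algebraMap k E b) θ := by
  induction b with
  | zero => simp [SemiconjBy]
  | succ b ih =>
    have h1 : SemiconjBy x (θ + 1) θ := r1.symm
    have h2 : SemiconjBy x (θ + algebraMap k E ((b + 1 : ℕ) : k)) (θ + algebraMap k E (b : k)) := by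
      have h3 : θ + algebraMap k E ((b + 1 : ℕ) : k) = (θ + 1) + algebraMap k E (b : k) := by
        push_cast
        abel
      rw [h3]
      exact h1.add_right (Algebra.commute_algebraMap_right (b : k) x).semiconjBy
    rw [pow_succ]
    exact ih.mul_left h2

theorem semiconj_d_pow (r3 : δ * θ = (θ + 1) * δ) (b : ℕ) :
    SemiconjBy (δ ^ b) (θ - algebraMap k E b) θ := by
  induction b with
  | zero => simp [SemiconjBy]
  | succ b ih =>
    have h1 : SemiconjBy δ (θ - 1) θ := by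
      rw [SemiconjBy, mul_sub, mul_one, r3]
      noncomm_ring
    have h2 : SemiconjBy δ (θ - algebraMap k E ((b + 1 : ℕ) : k)) (θ - algebraMap k E (b : k)) := by
      have h3 : θ - algebraMap k E ((b + 1 : ℕ) : k) = (θ - 1) - algebraMap k E (b : k) := by
        push_cast
        abel
      rw [h3]
      exact h1.sub_right (Algebra.commute_algebraMap_right (b : k) δ).semiconjBy
    rw [pow_succ]
    exact ih.mul_left h2

theorem d_pow_mul_x_pow (r1 : θ * x = x * (θ + 1)) (r2 : δ * x = aeval (θ + 1) Q) (b : ℕ) :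
    δ ^ b * x ^ b = aeval θ (prodQ Q b) := by
  induction b with
  | zero => simp [prodQ]
  | succ b ih =>
    have h1 : aeval (θ + 1) Q * x ^ b = x ^ b * aeval θ (Q.comp (X + C ((b : k) + 1))) := by
      have h2 : SemiconjBy (x ^ b) (θ + 1 + algebraMap k E (b : k)) (θ + 1) := by
        have h3 := semiconj_x_pow (k := k) r1 b
        have h4 : SemiconjBy (x ^ b) (1 : E) 1 := SemiconjBy.one_right _
        have h5 := h3.add_right h4
        rwa [show θ + algebraMap k E (b : k) + 1 = θ + 1 + algebraMap k E (b : k) by abel] at h5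
      have h3 := semiconj_aeval h2 Q
      rw [aeval_comp]
      have h4 : aeval θ (X + C ((b : k) + 1)) = θ + 1 + algebraMap k E (b : k) := by
        rw [map_add, aeval_X, aeval_C, map_add, map_one]
        abel
      rw [h4]
      exact h3.eq.symm
    rw [pow_succ, pow_succ', ← mul_assoc, mul_assoc (δ ^ b), r2, mul_assoc, h1, ← mul_assoc, ih,
      prodQ_succ, map_mul]

theorem prodQ_shift (Q : k[X]) (b c : ℕ) :
    (prodQ Q (b + 1)).comp (X - C ((b + 1 + c : ℕ) : k)) =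
      (prodQ Q b).comp (X - C ((b + c : ℕ) : k)) * Q.comp (X - C ((b + c : ℕ) : k)) := by
  rw [prodQ, prodQ, prod_range_succ', mul_comp, Polynomial.prod_comp, Polynomial.prod_comp,
    comp_assoc]
  congr 1
  · refine prod_congr rfl fun j _ => ?_
    rw [comp_assoc, comp_assoc]
    congr 1
    simp only [add_comp, X_comp, C_comp]
    push_cast
    rw [← sub_eq_zero]
    simp only [C_add, C_1]
    ring
  · congr 1
    simp only [add_comp, X_comp, C_comp]
    push_cast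
    simp only [C_add, C_1, C_0]
    ring

theorem x_pow_mul_d_pow (r2' : x * δ = aeval θ Q) (r3 : δ * θ = (θ + 1) * δ) (b c : ℕ) :
    x ^ b * δ ^ (b + c) = δ ^ c * aeval θ ((prodQ Q b).comp (X - C ((b + c : ℕ) : k))) := by
  induction b generalizing c with
  | zero => simp [prodQ]
  | succ b ih =>
    have h1 : x ^ (b + 1) * δ ^ (b + 1 + c) = x ^ b * (aeval θ Q * δ ^ (b + c)) := by
      rw [pow_succ, show b + 1 + c = (b + c) + 1 by ring, pow_succ' δ, mul_assoc, ← mul_assoc x, r2']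
    have h2 : aeval θ Q * δ ^ (b + c) = δ ^ (b + c) * aeval θ (Q.comp (X - C ((b + c : ℕ) : k))) := by
      have h3 := semiconj_aeval (semiconj_d_pow (k := k) r3 (b + c)) Q
      rw [aeval_comp, map_sub, aeval_X, aeval_C]
      exact h3.eq.symm
    rw [h1, h2, ← mul_assoc, ih, mul_assoc, ← map_mul, prodQ_shift]

/-- the commutator of `δ ^ p` with `x ^ b`, `b ≤ p` -/
theorem comm_low (r1 : θ * x = x * (θ + 1)) (r2 : δ * x = aeval (θ + 1) Q)
    (r2' : x * δ = aeval θ Q) (r3 : δ * θ = (θ + 1) * δ) {b p : ℕ} (hb : b ≤ p) :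
    δ ^ p * x ^ b - x ^ b * δ ^ p =
      δ ^ (p - b) * (aeval θ (prodQ Q b) - aeval (θ - algebraMap k E (p : k)) (prodQ Q b)) := by
  have h1 : δ ^ p * x ^ b = δ ^ (p - b) * aeval θ (prodQ Q b) := by
    rw [← d_pow_mul_x_pow r1 r2, ← mul_assoc, ← pow_add, Nat.sub_add_cancel hb]
  have h2 := x_pow_mul_d_pow r2' r3 b (p - b)
  rw [Nat.add_sub_cancel' hb, aeval_comp, map_sub, aeval_X, aeval_C] at h2
  rw [h1, h2, mul_sub]

end Semi

section Int1

variable {k : Type*} [NormedField k] [IsUltrametricDist k]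

omit [IsUltrametricDist k] in
/-- polynomials with integral coefficients -/
def Int1 (P : k[X]) : Prop := ∀ n, ‖P.coeff n‖ ≤ 1

theorem Int1.sum {ι : Type*} (s : Finset ι) {P : ι → k[X]} (h : ∀ i ∈ s, Int1 (P i)) :
    Int1 (∑ i ∈ s, P i) := fun n => by
  rw [finsetSum_coeff]
  exact IsUltrametricDist.norm_sum_le_of_forall_le_of_nonneg zero_le_one fun i hi => h i hi n

theorem Int1.mul {P R : k[X]} (hP : Int1 P) (hR : Int1 R) : Int1 (P * R) := fun n => by
  rw [coeff_mul]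
  refine IsUltrametricDist.norm_sum_le_of_forall_le_of_nonneg zero_le_one fun x _ => ?_
  rw [norm_mul]
  exact mul_le_one₀ (hP _) (norm_nonneg _) (hR _)

omit [IsUltrametricDist k] in
theorem Int1.C {a : k} (ha : ‖a‖ ≤ 1) : Int1 (C a) := fun n => by
  rw [coeff_C]
  split_ifs
  · exact ha
  · rw [norm_zero]; exact zero_le_one

theorem Int1.pow {P : k[X]} (hP : Int1 P) (n : ℕ) : Int1 (P ^ n) := by
  induction n with
  | zero =>
    rw [pow_zero, ← C_1]
    exact Int1.C norm_one.le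
  | succ n ih =>
    rw [pow_succ]
    exact ih.mul hP

theorem Int1.comp {P R : k[X]} (hP : Int1 P) (hR : Int1 R) : Int1 (P.comp R) := by
  rw [Polynomial.comp, eval₂_eq_sum_range]
  exact Int1.sum _ fun i _ => (Int1.C (hP i)).mul (hR.pow i)

theorem Int1.X_add_C {a : k} (ha : ‖a‖ ≤ 1) : Int1 (X + Polynomial.C a) := fun n => by
  rw [coeff_add]
  refine (IsUltrametricDist.norm_add_le_max _ _).trans (max_le ?_ (Int1.C ha n))
  rw [coeff_X]
  split_ifs
  · exact norm_one.le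
  · rw [norm_zero]; exact zero_le_one

theorem Int1.prodQ {Q : k[X]} (hQ : Int1 Q) (b : ℕ) : Int1 (prodQ Q b) := by
  induction b with
  | zero =>
    rw [Pool.Agent.Lib.MP_1eeaa7_nt.prodQ, range_zero, prod_empty, ← C_1]
    exact Int1.C norm_one.le
  | succ b ih =>
    rw [prodQ_succ]
    refine ih.mul (hQ.comp (Int1.X_add_C ?_))
    have : ((b : k) + 1) = ((b + 1 : ℕ) : k) := by push_cast; rfl
    rw [this]
    exact norm_nat_le _

end Int1

section Filtration

variable {k : Type*} [NormedField k] {M : Type*} [AddCommGroup M] [Module k M]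

/-- the filtration -/
def Fil (Λ : AddSubgroup M) (x : Module.End k M) (p : ℕ) (ε : ℝ) (n : ℕ) : AddSubgroup M :=
  AddSubgroup.closure {m | ∃ c b : ℕ, ∃ a : k, ∃ w ∈ Λ, n ≤ c * (p + 1) + b ∧ ‖a‖ ≤ ε ^ c ∧
    m = a • (x ^ b) w}

variable {Λ : AddSubgroup M} {x δ θ : Module.End k M} {p : ℕ} {ε : ℝ} {Q : k[X]}

theorem mem_Fil {n c b : ℕ} {a : k} {w : M} (hw : w ∈ Λ) (hn : n ≤ c * (p + 1) + b)
    (ha : ‖a‖ ≤ ε ^ c) : a • (x ^ b) w ∈ Fil Λ x p ε n :=
  AddSubgroup.subset_closure ⟨c, b, a, w, hw, hn, ha, rfl⟩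

theorem Fil_anti {n n' : ℕ} (h : n ≤ n') : Fil Λ x p ε n' ≤ Fil Λ x p ε n := by
  refine (AddSubgroup.closure_le _).2 ?_
  rintro _ ⟨c, b, a, w, hw, hn, ha, rfl⟩
  exact mem_Fil hw (h.trans hn) ha

theorem Fil_map (f : M →+ M) (G : AddSubgroup M) {n : ℕ}
    (h : ∀ (c b : ℕ) (a : k) (w : M), w ∈ Λ → n ≤ c * (p + 1) + b → ‖a‖ ≤ ε ^ c →
      f (a • (x ^ b) w) ∈ G) : ∀ m ∈ Fil Λ x p ε n, f m ∈ G := by
  intro m hm
  have h1 : Fil Λ x p ε n ≤ G.comap f := by
    refine (AddSubgroup.closure_le _).2 ?_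
    rintro _ ⟨c, b, a, w, hw, hn, ha, rfl⟩
    exact h c b a w hw hn ha
  exact h1 hm

theorem Fil_smul (h0 : 0 ≤ ε) {c' : ℕ} {a' : k} (ha' : ‖a'‖ ≤ ε ^ c') {n : ℕ} :
    ∀ m ∈ Fil Λ x p ε n, a' • m ∈ Fil Λ x p ε (n + c' * (p + 1)) := by
  refine Fil_map (DistribSMul.toAddMonoidHom M a') _ fun c b a w hw hn ha => ?_
  show a' • (a • (x ^ b) w) ∈ _
  rw [smul_smul]
  refine mem_Fil (c := c' + c) hw (by rw [add_mul]; omega) ?_
  rw [norm_mul, pow_add]
  exact mul_le_mul ha' ha (norm_nonneg _) (pow_nonneg h0 _)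

theorem Fil_x_pow (b' : ℕ) {n : ℕ} :
    ∀ m ∈ Fil Λ x p ε n, (x ^ b') m ∈ Fil Λ x p ε (n + b') := by
  refine Fil_map ((x ^ b').toAddMonoidHom) _ fun c b a w hw hn ha => ?_
  show (x ^ b') (a • (x ^ b) w) ∈ _
  rw [map_smul, ← Module.End.mul_apply, ← pow_add]
  exact mem_Fil hw (by omega) ha

/-- The data for the filtration argument. -/
structure Setup (Λ : AddSubgroup M) (x δ θ : Module.End k M) (p : ℕ) (ε : ℝ) (Q : k[X]) :
    Prop where
  h0 : 0 < ε
  h1 : ε < 1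
  hp : ‖(p : k)‖ ≤ ε
  hpos : p ≠ 0
  smul : ∀ a : k, ‖a‖ ≤ 1 → ∀ w ∈ Λ, a • w ∈ Λ
  mx : ∀ w ∈ Λ, x w ∈ Λ
  md : ∀ w ∈ Λ, δ w ∈ Λ
  mt : ∀ w ∈ Λ, θ w ∈ Λ
  r1 : θ * x = x * (θ + 1)
  r2 : δ * x = aeval (θ + 1) Q
  r2' : x * δ = aeval θ Q
  r3 : δ * θ = (θ + 1) * δ
  hQ : ∀ n, ‖Q.coeff n‖ ≤ 1

namespace Setup

variable (S : Setup Λ x δ θ p ε Q)

include S

omit S in
theorem pow_mem {f : Module.End k M} (hf : ∀ w ∈ Λ, f w ∈ Λ) (n : ℕ) : ∀ w ∈ Λ, (f ^ n) w ∈ Λ := by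
  induction n with
  | zero => intro w hw; simpa using hw
  | succ n ih =>
    intro w hw
    rw [pow_succ, Module.End.mul_apply]
    exact ih _ (hf w hw)

theorem aeval_mem {f : Module.End k M} (hf : ∀ w ∈ Λ, f w ∈ Λ) {P : k[X]}
    (hP : ∀ n, ‖P.coeff n‖ ≤ 1) : ∀ w ∈ Λ, (aeval f P) w ∈ Λ := by
  intro w hw
  rw [aeval_eq_sum_range, LinearMap.sum_apply]
  refine AddSubgroup.sum_mem _ fun i _ => ?_
  rw [LinearMap.smul_apply]
  exact S.smul _ (hP i) _ (pow_mem hf i w hw)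

/-- differences of `P` at `f` and at `f - p` -/
theorem aeval_sub_mem {f : Module.End k M} (hf : ∀ w ∈ Λ, f w ∈ Λ) {P : k[X]}
    (hP : ∀ n, ‖P.coeff n‖ ≤ 1) (hpk : ‖(p : k)‖ ≤ 1) : ∀ w ∈ Λ, ∃ v ∈ Λ,
      (aeval f P - aeval (f - algebraMap k _ (p : k)) P) w = (p : k) • v := by
  intro w hw
  set g : Module.End k M := f - algebraMap k _ (p : k) with hg
  have hgm : ∀ w ∈ Λ, g w ∈ Λ := by
    intro w hw
    rw [hg, LinearMap.sub_apply]
    exact Λ.sub_mem (hf w hw) (S.smul _ hpk w hw)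
  have hcomm : Commute f g := by
    rw [hg]
    exact (Commute.refl f).sub_right (Algebra.commute_algebraMap_right _ _)
  have hmon : ∀ n : ℕ, ∃ v ∈ Λ, (f ^ n - g ^ n) w = (p : k) • v := by
    intro n
    refine ⟨∑ i ∈ range n, (f ^ i * g ^ (n - 1 - i)) w, Λ.sum_mem fun i _ => ?_, ?_⟩
    · rw [Module.End.mul_apply]
      exact pow_mem hf i _ (pow_mem hgm _ w hw)
    · have h1 := hcomm.mul_geom_sum₂ n
      rw [← h1, hg, sub_sub_cancel, Module.End.mul_apply, LinearMap.sum_apply]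
      rfl
  choose v hv hv' using hmon
  refine ⟨∑ n ∈ range (P.natDegree + 1), P.coeff n • v n, Λ.sum_mem fun n _ =>
    S.smul _ (hP n) _ (hv n), ?_⟩
  rw [aeval_eq_sum_range, aeval_eq_sum_range, ← sum_sub_distrib, LinearMap.sum_apply, smul_sum]
  refine sum_congr rfl fun n _ => ?_
  rw [← smul_sub, LinearMap.smul_apply, hv', smul_comm]

theorem natCast_le : ‖(p : k)‖ ≤ 1 := S.hp.trans S.h1.le

theorem x_pow_mem (b : ℕ) : ∀ w ∈ Λ, (x ^ b) w ∈ Λ := pow_mem S.mx b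

/-- **(H1)** `δ ^ p` commutes with `x ^ b` up to the next step -/
theorem T_x_pow [IsUltrametricDist k] (b : ℕ) : ∀ w ∈ Λ,
    (δ ^ p) ((x ^ b) w) - (x ^ b) ((δ ^ p) w) ∈ Fil Λ x p ε (b + 1) := by
  induction b using Nat.strong_induction_on with
  | _ b ih =>
    intro w hw
    rcases Nat.lt_or_ge p b with hb | hb
    · obtain ⟨b', rfl⟩ : ∃ b', b = p + b' := ⟨b - p, by omega⟩
      have hA : Int1 (prodQ Q p) := Int1.prodQ S.hQ p
      have h1 := comm_low S.r1 S.r2 S.r2' S.r3 (le_refl p)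
      rw [Nat.sub_self, pow_zero, one_mul] at h1
      -- first part
      have h2 : (δ ^ p) ((x ^ (p + b')) w) = (x ^ p) ((δ ^ p) ((x ^ b') w)) +
          (aeval θ (prodQ Q p) - aeval (θ - algebraMap k _ (p : k)) (prodQ Q p))
            ((x ^ b') w) := by
        have h3 := LinearMap.congr_fun h1 ((x ^ b') w)
        rw [LinearMap.sub_apply, Module.End.mul_apply, Module.End.mul_apply, sub_eq_iff_eq_add] at h3
        rw [pow_add, Module.End.mul_apply, h3]
        abel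
      have h4 : (aeval θ (prodQ Q p) - aeval (θ - algebraMap k _ (p : k)) (prodQ Q p))
          ((x ^ b') w) = (x ^ b') ((aeval (θ + algebraMap k _ (b' : k)) (prodQ Q p) -
            aeval (θ + algebraMap k _ (b' : k) - algebraMap k _ (p : k)) (prodQ Q p)) w) := by
        have h5 := semiconj_aeval (semiconj_x_pow (k := k) S.r1 b') (prodQ Q p)
        have h6 : SemiconjBy (x ^ b') (θ + algebraMap k _ (b' : k) - algebraMap k _ (p : k))
            (θ - algebraMap k _ (p : k)) := (semiconj_x_pow (k := k) S.r1 b').sub_right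
              (Algebra.commute_algebraMap_right (p : k) (x ^ b')).semiconjBy
        have h7 := semiconj_aeval h6 (prodQ Q p)
        have h8 := LinearMap.congr_fun (h5.sub_right h7).eq w
        rw [Module.End.mul_apply, Module.End.mul_apply] at h8
        exact h8.symm
      have hm : ∀ w ∈ Λ, (θ + algebraMap k (Module.End k M) (b' : k)) w ∈ Λ := by
        intro w hw
        rw [LinearMap.add_apply]
        exact Λ.add_mem (S.mt w hw) (S.smul _ (norm_nat_le b') w hw)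
      obtain ⟨v, hv, hv'⟩ := S.aeval_sub_mem hm hA S.natCast_le w hw
      rw [h2, h4, hv', pow_add, Module.End.mul_apply, add_sub_right_comm, ← map_sub, map_smul]
      refine AddSubgroup.add_mem _ ?_ ?_
      · have h9 := Fil_x_pow p _ (ih b' (by have := S.hpos; omega) w hw)
        rwa [show b' + 1 + p = p + b' + 1 by ring] at h9
      · exact mem_Fil (c := 1) hv (by omega) (by rw [pow_one]; exact S.hp)
    · have h1 := comm_low S.r1 S.r2 S.r2' S.r3 hb
      have h3 := LinearMap.congr_fun h1 w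
      rw [LinearMap.sub_apply, Module.End.mul_apply, Module.End.mul_apply, Module.End.mul_apply] at h3
      obtain ⟨v, hv, hv'⟩ := S.aeval_sub_mem S.mt (Int1.prodQ S.hQ b) S.natCast_le w hw
      rw [h3, hv', map_smul]
      have h4 := mem_Fil (x := x) (p := p) (ε := ε) (n := b + 1) (c := 1) (b := 0)
        (a := (p : k)) (pow_mem S.md (p - b) v hv) (by omega) (by rw [pow_one]; exact S.hp)
      simpa using h4

theorem T_Fil [IsUltrametricDist k] {n : ℕ} :
    ∀ m ∈ Fil Λ x p ε n, (δ ^ p) m ∈ Fil Λ x p ε n := by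
  refine Fil_map ((δ ^ p).toAddMonoidHom) _ fun c b a w hw hn ha => ?_
  show (δ ^ p) (a • (x ^ b) w) ∈ _
  rw [map_smul]
  have h1 := Fil_smul S.h0.le ha _ (S.T_x_pow b w hw)
  rw [smul_sub] at h1
  have h2 : a • (x ^ b) ((δ ^ p) w) ∈ Fil Λ x p ε n := mem_Fil (pow_mem S.md p w hw) hn ha
  have h3 := AddSubgroup.add_mem _ (Fil_anti (by omega) h1) h2
  rwa [sub_add_cancel] at h3

theorem TL_x_pow [IsUltrametricDist k] (L b : ℕ) : ∀ w ∈ Λ,
    (δ ^ (p * L)) ((x ^ b) w) - (x ^ b) ((δ ^ (p * L)) w) ∈ Fil Λ x p ε (b + 1) := by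
  induction L with
  | zero =>
    intro w hw
    simp only [mul_zero, pow_zero, Module.End.one_apply, sub_self]
    exact AddSubgroup.zero_mem _
  | succ L ih =>
    intro w hw
    have e : δ ^ (p * (L + 1)) = δ ^ p * δ ^ (p * L) := by rw [← pow_add]; congr 1; ring
    rw [e, Module.End.mul_apply, Module.End.mul_apply]
    have h1 := S.T_Fil _ (ih w hw)
    rw [map_sub] at h1
    have h2 := S.T_x_pow b _ (pow_mem S.md (p * L) w hw)
    have h3 := AddSubgroup.add_mem _ h1 h2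
    rwa [sub_add_sub_cancel] at h3

/-- `δ ^ (p L) - 1` shifts the filtration -/
theorem X_Fil [IsUltrametricDist k] {L : ℕ}
    (H2 : ∀ w ∈ Λ, (δ ^ (p * L)) w - w ∈ Fil Λ x p ε 1) {n : ℕ} :
    ∀ m ∈ Fil Λ x p ε n, (δ ^ (p * L) - 1) m ∈ Fil Λ x p ε (n + 1) := by
  refine Fil_map ((δ ^ (p * L) - 1 : Module.End k M).toAddMonoidHom) _ fun c b a w hw hn ha => ?_
  show (δ ^ (p * L) - 1 : Module.End k M) (a • (x ^ b) w) ∈ _
  rw [map_smul, LinearMap.sub_apply, Module.End.one_apply]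
  have h1 := S.TL_x_pow L b w hw
  have h2 := Fil_x_pow b _ (H2 w hw)
  rw [map_sub] at h2
  have h3 := AddSubgroup.add_mem _ h1 (by rwa [add_comm 1 b] at h2)
  rw [sub_add_sub_cancel] at h3
  exact Fil_anti (by omega) (Fil_smul S.h0.le ha _ h3)

theorem X_pow_Fil [IsUltrametricDist k] {L : ℕ}
    (H2 : ∀ w ∈ Λ, (δ ^ (p * L)) w - w ∈ Fil Λ x p ε 1) {n : ℕ} (j : ℕ) :
    ∀ m ∈ Fil Λ x p ε n, ((δ ^ (p * L) - 1) ^ j) m ∈ Fil Λ x p ε (n + j) := by
  induction j with
  | zero => intro m hm; simpa using hm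
  | succ j ih =>
    intro m hm
    rw [pow_succ', Module.End.mul_apply, ← add_assoc]
    exact S.X_Fil H2 _ (ih m hm)

/-- `δ` lowers the filtration by at most one -/
theorem d_Fil [IsUltrametricDist k] {n : ℕ} :
    ∀ m ∈ Fil Λ x p ε n, δ m ∈ Fil Λ x p ε (n - 1) := by
  refine Fil_map δ.toAddMonoidHom _ fun c b a w hw hn ha => ?_
  show δ (a • (x ^ b) w) ∈ _
  rw [map_smul]
  rcases b with _ | b
  · have h1 := mem_Fil (x := x) (p := p) (ε := ε) (n := n - 1) (c := c) (b := 0) (S.md w hw)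
      (by omega) ha
    simpa using h1
  · have h1 : SemiconjBy (x ^ b) (θ + 1 + algebraMap k _ (b : k)) (θ + 1) := by
      have h3 := semiconj_x_pow (k := k) S.r1 b
      have h4 : SemiconjBy (x ^ b) (1 : Module.End k M) 1 := SemiconjBy.one_right _
      have h5 := h3.add_right h4
      rwa [show θ + algebraMap k _ (b : k) + 1 = θ + 1 + algebraMap k _ (b : k) by abel] at h5
    have h2 := LinearMap.congr_fun (semiconj_aeval h1 Q).eq w
    have h3 : δ ((x ^ (b + 1)) w) = (x ^ b) ((aeval (θ + 1 + algebraMap k _ (b : k)) Q) w) := by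
      rw [pow_succ', Module.End.mul_apply, ← Module.End.mul_apply, S.r2]
      rw [Module.End.mul_apply, Module.End.mul_apply] at h2
      exact h2.symm
    rw [h3]
    refine mem_Fil (S.aeval_mem (f := θ + 1 + algebraMap k _ (b : k)) ?_ S.hQ w hw) (by omega) ha
    intro w hw
    rw [LinearMap.add_apply, LinearMap.add_apply]
    exact Λ.add_mem (Λ.add_mem (S.mt w hw) hw) (S.smul _ (norm_nat_le b) w hw)

theorem d_pow_Fil [IsUltrametricDist k] (c : ℕ) {n : ℕ} :
    ∀ m ∈ Fil Λ x p ε n, (δ ^ c) m ∈ Fil Λ x p ε (n - c) := by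
  induction c generalizing n with
  | zero => intro m hm; simpa using hm
  | succ c ih =>
    intro m hm
    rw [pow_succ, Module.End.mul_apply]
    have := ih _ (S.d_Fil m hm)
    rwa [Nat.sub_sub, add_comm 1 c] at this

/-- A functional killing the image of `x` is small on deep steps of the filtration. -/
theorem norm_le_of_mem_Fil [IsUltrametricDist k] {θ₀ : ℝ} (hθ0 : 0 < θ₀) (hθ1 : θ₀ ≤ 1)
    (hθ : θ₀ ^ (p + 1) = ε) {ℓ : M →ₗ[k] k} (hℓ : ∀ w ∈ Λ, ‖ℓ w‖ ≤ 1) (hx : ∀ w, ℓ (x w) = 0)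
    {n : ℕ} : ∀ m ∈ Fil Λ x p ε n, ‖ℓ m‖ ≤ θ₀ ^ n := by
  let G : AddSubgroup k :=
    { carrier := {a | ‖a‖ ≤ θ₀ ^ n}
      zero_mem' := by
        show ‖(0 : k)‖ ≤ θ₀ ^ n
        rw [norm_zero]; positivity
      add_mem' := fun {a b} ha hb => (IsUltrametricDist.norm_add_le_max a b).trans (max_le ha hb)
      neg_mem' := fun {a} ha => by
        show ‖-a‖ ≤ θ₀ ^ n
        rw [norm_neg]; exact ha }
  intro m hm
  have h1 : Fil Λ x p ε n ≤ G.comap ℓ.toAddMonoidHom := by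
    refine (AddSubgroup.closure_le _).2 ?_
    rintro _ ⟨c, b, a, w, hw, hn, ha, rfl⟩
    show ‖ℓ (a • (x ^ b) w)‖ ≤ θ₀ ^ n
    rw [map_smul, smul_eq_mul, norm_mul]
    rcases b with _ | b
    · calc ‖a‖ * ‖ℓ ((x ^ 0) w)‖ ≤ ε ^ c * 1 := by
            refine mul_le_mul ha (hℓ _ ?_) (norm_nonneg _) (pow_nonneg S.h0.le _)
            simpa using hw
        _ = θ₀ ^ (c * (p + 1)) := by rw [mul_one, ← hθ, ← pow_mul, mul_comm]
        _ ≤ θ₀ ^ n := pow_le_pow_of_le_one hθ0.le hθ1 (by omega)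
    · rw [pow_succ', Module.End.mul_apply, hx, norm_zero, mul_zero]
      positivity
  exact h1 hm

/-- `ℓ (δ ^ n (x ^ J w)) = 0` for `n < J` -/
theorem ell_d_x {ℓ : M →ₗ[k] k} (hx : ∀ w, ℓ (x w) = 0) {n J : ℕ} (h : n < J) (w : M) :
    ℓ ((δ ^ n) ((x ^ J) w)) = 0 := by
  obtain ⟨i, rfl⟩ : ∃ i, J = n + (i + 1) := ⟨J - n - 1, by omega⟩
  have h1 := LinearMap.congr_fun (d_pow_mul_x_pow S.r1 S.r2 n) ((x ^ (i + 1)) w)
  rw [Module.End.mul_apply] at h1
  rw [pow_add, Module.End.mul_apply, h1]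
  have h2 := LinearMap.congr_fun (semiconj_aeval (semiconj_x_pow (k := k) S.r1 (i + 1))
    (prodQ Q n)).eq w
  rw [Module.End.mul_apply, Module.End.mul_apply] at h2
  rw [← h2, pow_succ', Module.End.mul_apply, hx]

/-- **Main abstract result**: decay of the differences of `t ↦ ℓ (δ ^ (c + p L t) g)`. -/
theorem decay [IsUltrametricDist k] {L : ℕ} (H2 : ∀ w ∈ Λ, (δ ^ (p * L)) w - w ∈ Fil Λ x p ε 1)
    {ℓ : M →ₗ[k] k} (hℓ : ∀ w ∈ Λ, ‖ℓ w‖ ≤ 1) (hx : ∀ w, ℓ (x w) = 0) {g : M} {a : ℕ → k}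
    {w : ℕ → M} (hw : ∀ j, w j ∈ Λ) {C : ℝ} (hC : 0 ≤ C) {A : ℕ}
    (ha : ∀ j, ‖a j‖ ≤ C * ((j + 1 : ℕ) : ℝ) ^ A)
    (hg : ∀ J : ℕ, ∃ g', g = ∑ j ∈ range J, a j • (x ^ j) (w j) + (x ^ J) g') (c : ℕ) :
    Decay (fun t => ℓ ((δ ^ (c + p * L * t)) g)) := by
  set θ₀ : ℝ := ε ^ (((p + 1 : ℕ) : ℝ)⁻¹) with hθ₀
  have hθp : θ₀ ^ (p + 1) = ε := Real.rpow_inv_natCast_pow S.h0.le (Nat.succ_ne_zero p)
  have hθ0 : 0 < θ₀ := Real.rpow_pos_of_pos S.h0 _
  have hθ1 : θ₀ < 1 := Real.rpow_lt_one S.h0.le S.h1 (by positivity)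
  set T : Module.End k M := δ ^ (p * L) with hT
  have hTadd : T = (T - 1) + 1 := by abel
  -- expansion
  have hexp : ∀ t, ℓ ((δ ^ (c + p * L * t)) g) =
      ∑ m ∈ range (t + 1), ((t.choose m : ℕ) : k) * ℓ (((T - 1) ^ m) ((δ ^ c) g)) := by
    intro t
    have h1 : δ ^ (c + p * L * t) = T ^ t * δ ^ c := by
      rw [hT, ← pow_mul, ← pow_add, add_comm]
    have h2 : T ^ t = ∑ m ∈ range (t + 1), (T - 1) ^ m * ((t.choose m : ℕ) : Module.End k M) := by
      conv_lhs => rw [hTadd]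
      rw [(Commute.one_right (T - 1)).add_pow]
      refine sum_congr rfl fun m _ => ?_
      rw [one_pow, mul_one]
    rw [h1, Module.End.mul_apply, h2, LinearMap.sum_apply, map_sum]
    refine sum_congr rfl fun m _ => ?_
    rw [Module.End.mul_apply, Module.End.natCast_apply, map_nsmul, map_nsmul, nsmul_eq_mul]
  -- growth constant
  have h2 : Filter.Tendsto (fun n : ℕ => (n : ℝ) ^ A * θ₀ ^ n) Filter.atTop (nhds 0) :=
    tendsto_pow_const_mul_const_pow_of_abs_lt_one A (by rw [abs_of_pos hθ0]; exact hθ1)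
  obtain ⟨D, hD⟩ := h2.bddAbove_range
  have hD' : ∀ n : ℕ, (n : ℝ) ^ A * θ₀ ^ n ≤ D := fun n => hD ⟨n, rfl⟩
  have hD0 : 0 ≤ D := le_trans (by positivity) (hD' 0)
  have hc : ∀ m, ‖ℓ (((T - 1) ^ m) ((δ ^ c) g))‖ ≤ (C * D * (θ₀ ^ (c + 1))⁻¹) * θ₀ ^ m := by
    intro m
    obtain ⟨g', hg'⟩ := hg (c + p * L * m + 1)
    -- the tail contributes zero
    have htail : ℓ (((T - 1) ^ m) ((δ ^ c) ((x ^ (c + p * L * m + 1)) g'))) = 0 := by
      have h3 : (T - 1) ^ m = ∑ i ∈ range (m + 1), T ^ i * ((-1) ^ (m - i) *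
          ((m.choose i : ℕ) : Module.End k M)) := by
        rw [sub_eq_add_neg, ((Commute.neg_one_right T)).add_pow]
        exact sum_congr rfl fun i _ => mul_assoc _ _ _
      rw [h3, LinearMap.sum_apply, map_sum]
      refine sum_eq_zero fun i hi => ?_
      rw [mem_range] at hi
      have h4 : (-1 : Module.End k M) ^ (m - i) * ((m.choose i : ℕ) : Module.End k M) =
          algebraMap k _ ((-1) ^ (m - i) * ((m.choose i : ℕ) : k)) := by
        simp
      rw [h4, Module.End.mul_apply, Module.algebraMap_end_apply, map_smul, map_smul,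
        ← Module.End.mul_apply, hT, ← pow_mul, ← pow_add, S.ell_d_x hx, smul_zero]
      have : p * L * i ≤ p * L * m := Nat.mul_le_mul_left _ (by omega)
      omega
    rw [hg', map_add, map_add, map_add, htail, add_zero, map_sum, map_sum, map_sum]
    refine IsUltrametricDist.norm_sum_le_of_forall_le_of_nonneg (by positivity) fun j _ => ?_
    rw [map_smul, map_smul, map_smul, smul_eq_mul, norm_mul]
    have h5 : (x ^ j) (w j) ∈ Fil Λ x p ε j := by
      have := mem_Fil (x := x) (p := p) (ε := ε) (n := j) (c := 0) (b := j) (a := (1 : k)) (hw j)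
        (by omega) (by simp)
      simpa using this
    have h6 := S.norm_le_of_mem_Fil hθ0 hθ1.le hθp hℓ hx _
      (S.X_pow_Fil H2 m _ (S.d_pow_Fil c _ h5))
    have h7 : θ₀ ^ (j - c + m) ≤ θ₀ ^ (j + 1) * (θ₀ ^ (c + 1))⁻¹ * θ₀ ^ m := by
      rw [← div_eq_mul_inv, div_mul_eq_mul_div, le_div_iff₀ (by positivity), ← pow_add, ← pow_add]
      exact pow_le_pow_of_le_one hθ0.le hθ1.le (by omega)
    calc ‖a j‖ * ‖ℓ (((T - 1) ^ m) ((δ ^ c) ((x ^ j) (w j))))‖
        ≤ (C * ((j + 1 : ℕ) : ℝ) ^ A) * (θ₀ ^ (j + 1) * (θ₀ ^ (c + 1))⁻¹ * θ₀ ^ m) :=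
          mul_le_mul (ha j) (h6.trans h7) (norm_nonneg _) (by positivity)
      _ = C * (((j + 1 : ℕ) : ℝ) ^ A * θ₀ ^ (j + 1)) * (θ₀ ^ (c + 1))⁻¹ * θ₀ ^ m := by ring
      _ ≤ C * D * (θ₀ ^ (c + 1))⁻¹ * θ₀ ^ m := by
          refine mul_le_mul_of_nonneg_right ?_ (by positivity)
          refine mul_le_mul_of_nonneg_right ?_ (by positivity)
          exact mul_le_mul_of_nonneg_left (hD' (j + 1)) hC
  refine Eq.mp (congrArg Decay ?_) (Decay.of_newton (by positivity) hθ0.le hθ1 hc)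
  funext t
  exact (hexp t).symm

end Setup

end Filtration

end Pool.Agent.Lib.MP_1eeaa7_nt
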