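import Mathlib

/-!
# First order equations modulo `x ^ p`

If `a' = g a` modulo `x ^ p` in characteristic `p`, then `a(0) (g_{p-1} - g_0 ^ p) = 0`.
-/

set_option autoImplicit false

namespace Pool.Agent.Lib.MP_1eeaa7_nt

open Finset PowerSeries

variable {p : ℕ} [hp : Fact p.Prime]

theorem nat_ne_zero_of_lt {n : ℕ} (h0 : 0 < n) (h : n < p) : (n : ZMod p) ≠ 0 := by
  rw [Ne, ZMod.natCast_eq_zero_iff]
  exact fun hd => absurd (Nat.le_of_dvd h0 hd) (by omega)

theorem fact_ne_zero {j : ℕ} (h : j < p) : (j.factorial : ZMod p) ≠ 0 := by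
  rw [Ne, ZMod.natCast_eq_zero_iff, hp.out.dvd_factorial]
  omega

/-- the gauge exponent -/
noncomputable def gG (g : (ZMod p)⟦X⟧) : (ZMod p)⟦X⟧ :=
  -∑ i ∈ Ico 1 (p - 1), C (coeff i g * ((i + 1 : ℕ) : ZMod p)⁻¹) * X ^ (i + 1)

/-- truncated exponential -/
noncomputable def gE (G : (ZMod p)⟦X⟧) : (ZMod p)⟦X⟧ :=
  ∑ j ∈ range p, C ((j.factorial : ZMod p)⁻¹) * G ^ j

theorem X_sq_dvd_gG (g : (ZMod p)⟦X⟧) : X ^ 2 ∣ gG g := by
  rw [gG, dvd_neg]
  refine dvd_sum fun i hi => Dvd.dvd.mul_left (pow_dvd_pow _ ?_) _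
  rw [mem_Ico] at hi
  omega

theorem coeff_dgG (g : (ZMod p)⟦X⟧) {n : ℕ} (hn : n < p) :
    coeff n (g + d⁄dX (ZMod p) (gG g)) =
      if n = 0 then coeff 0 g else if n = p - 1 then coeff (p - 1) g else 0 := by
  rw [map_add, coeff_derivative, gG, map_neg, map_sum]
  have h1 : ∑ i ∈ Ico 1 (p - 1), coeff (n + 1) (C (coeff i g * ((i + 1 : ℕ) : ZMod p)⁻¹) *
      X ^ (i + 1)) = if n ∈ Ico 1 (p - 1) then coeff n g * ((n + 1 : ℕ) : ZMod p)⁻¹ else 0 := by
    simp only [coeff_C_mul, coeff_X_pow, mul_ite, mul_one, mul_zero, Nat.add_right_cancel_iff]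
    rw [sum_ite_eq]
  rw [h1]
  simp only [mem_Ico]
  by_cases h0 : n = 0
  · subst h0; simp
  · by_cases h2 : n = p - 1
    · subst h2
      rw [if_neg (by omega), if_neg h0, if_pos rfl]
      simp
    · rw [if_pos (by omega), if_neg h0, if_neg h2]
      have h3 : ((n + 1 : ℕ) : ZMod p) ≠ 0 := nat_ne_zero_of_lt (by omega) (by omega)
      have h4 : ((n : ZMod p) + 1) = ((n + 1 : ℕ) : ZMod p) := by push_cast; rfl
      rw [h4, neg_mul, mul_assoc, inv_mul_cancel₀ h3, mul_one, add_neg_cancel]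

theorem derivative_gE (G : (ZMod p)⟦X⟧) :
    d⁄dX (ZMod p) (gE G) = d⁄dX (ZMod p) G * (gE G - C (((p - 1).factorial : ZMod p)⁻¹) *
      G ^ (p - 1)) := by
  obtain ⟨q, hq⟩ : ∃ q, p = q + 1 := ⟨p - 1, by have := hp.out.pos; omega⟩
  have h1 : gE G - C (((p - 1).factorial : ZMod p)⁻¹) * G ^ (p - 1) =
      ∑ k ∈ range (p - 1), C ((k.factorial : ZMod p)⁻¹) * G ^ k := by
    have : range p = range (p - 1 + 1) := by congr 1; have := hp.out.pos; omega
    rw [gE, this, sum_range_succ, add_sub_cancel_right]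
  have h0 : gE G = ∑ k ∈ range (p - 1 + 1), C ((k.factorial : ZMod p)⁻¹) * G ^ k := by
    have : range p = range (p - 1 + 1) := by congr 1; have := hp.out.pos; omega
    rw [gE, this]
  rw [h1, h0, map_sum, sum_range_succ', mul_sum]
  have h2 : d⁄dX (ZMod p) (C (((0 : ℕ).factorial : ZMod p)⁻¹) * G ^ 0) = 0 := by
    rw [pow_zero, mul_one]
    exact Derivation.map_algebraMap _ _
  rw [h2, add_zero]
  refine sum_congr rfl fun k hk => ?_
  rw [mem_range] at hk
  rw [Derivation.leibniz, Derivation.leibniz_pow]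
  have h3 : d⁄dX (ZMod p) (C (((k + 1).factorial : ZMod p)⁻¹)) = 0 :=
    Derivation.map_algebraMap _ _
  rw [h3, smul_zero, add_zero, Nat.add_sub_cancel]
  simp only [smul_eq_mul, nsmul_eq_mul]
  have h4 : (C (((k + 1).factorial : ZMod p)⁻¹) : (ZMod p)⟦X⟧) * ((k + 1 : ℕ) : (ZMod p)⟦X⟧) =
      C ((k.factorial : ZMod p)⁻¹) := by
    have h5 : (((k + 1 : ℕ) : (ZMod p)⟦X⟧)) = C ((k + 1 : ℕ) : ZMod p) := by simp
    rw [h5, ← map_mul]
    congr 1
    have h6 : ((k + 1 : ℕ) : ZMod p) ≠ 0 := nat_ne_zero_of_lt (by omega) (by omega)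
    have h7 : (k.factorial : ZMod p) ≠ 0 := fact_ne_zero (by omega)
    rw [Nat.factorial_succ, Nat.cast_mul]
    field_simp
  rw [← mul_assoc, ← mul_assoc, h4]
  ring

theorem constantCoeff_gE {G : (ZMod p)⟦X⟧} (hG : constantCoeff G = 0) :
    constantCoeff (gE G) = 1 := by
  have h0 : gE G = ∑ k ∈ range (p - 1 + 1), C ((k.factorial : ZMod p)⁻¹) * G ^ k := by
    have : range p = range (p - 1 + 1) := by congr 1; have := hp.out.pos; omega
    rw [gE, this]
  rw [h0, map_sum, sum_range_succ', sum_eq_zero]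
  · simp
  · intro k _
    rw [map_mul, map_pow, hG, zero_pow (Nat.succ_ne_zero k), mul_zero]

/-- **Gauge lemma.** -/
theorem gauge {a g : (ZMod p)⟦X⟧} (h : X ^ p ∣ d⁄dX (ZMod p) a - g * a) :
    constantCoeff a * (coeff (p - 1) g - coeff 0 g ^ p) = 0 ∧
      (constantCoeff a = 0 → X ^ p ∣ a) := by
  have hp0 := hp.out.two_le
  set G := gG g with hG
  set E := gE G with hE
  have hG2 : X ^ 2 ∣ G := X_sq_dvd_gG g
  have hG0 : constantCoeff G = 0 := X_dvd_iff.1 ((dvd_pow_self X two_ne_zero).trans hG2)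
  have hE0 : constantCoeff E = 1 := constantCoeff_gE hG0
  have hdG : X ∣ d⁄dX (ZMod p) G := by
    obtain ⟨G', hG'⟩ := hG2
    rw [hG', Derivation.leibniz, Derivation.leibniz_pow, derivative_X]
    simp only [smul_eq_mul, nsmul_eq_mul]
    exact dvd_add (Dvd.dvd.mul_right (dvd_pow_self X two_ne_zero) _)
      (Dvd.dvd.mul_left (Dvd.dvd.mul_left (by simp) _) _)
  have hEd : X ^ p ∣ d⁄dX (ZMod p) E - d⁄dX (ZMod p) G * E := by
    rw [hE, derivative_gE, mul_sub, sub_sub_cancel_left, dvd_neg]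
    have h1 : X * (X ^ 2) ^ (p - 1) ∣ d⁄dX (ZMod p) G * G ^ (p - 1) :=
      mul_dvd_mul hdG (pow_dvd_pow_of_dvd hG2 _)
    rw [← pow_mul, ← pow_succ'] at h1
    have h2 : X ^ p ∣ d⁄dX (ZMod p) G * G ^ (p - 1) := (pow_dvd_pow X (by omega)).trans h1
    have h3 : d⁄dX (ZMod p) G * (C (((p - 1).factorial : ZMod p)⁻¹) * G ^ (p - 1)) =
        C (((p - 1).factorial : ZMod p)⁻¹) * (d⁄dX (ZMod p) G * G ^ (p - 1)) := by ring
    rw [h3]
    exact h2.mul_left _
  set b := a * E with hb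
  have hbd : X ^ p ∣ d⁄dX (ZMod p) b - (g + d⁄dX (ZMod p) G) * b := by
    have e : d⁄dX (ZMod p) b - (g + d⁄dX (ZMod p) G) * b =
        (d⁄dX (ZMod p) a - g * a) * E + a * (d⁄dX (ZMod p) E - d⁄dX (ZMod p) G * E) := by
      rw [hb, Derivation.leibniz, smul_eq_mul, smul_eq_mul]
      ring
    rw [e]
    exact dvd_add (h.mul_right _) (hEd.mul_left _)
  have hb0 : constantCoeff b = constantCoeff a := by rw [hb, map_mul, hE0, mul_one]
  have hrec : ∀ n, n < p → coeff (n + 1) b * ((n : ZMod p) + 1) = coeff 0 g * coeff n b +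
      if n = p - 1 then coeff (p - 1) g * coeff 0 b else 0 := by
    intro n hn
    have h1 := X_pow_dvd_iff.1 hbd n hn
    rw [map_sub, coeff_derivative, sub_eq_zero] at h1
    rw [h1, coeff_mul, Nat.sum_antidiagonal_eq_sum_range_succ (fun i j =>
      coeff i (g + d⁄dX (ZMod p) G) * coeff j b)]
    have h2 : ∀ i ∈ range (n + 1), coeff i (g + d⁄dX (ZMod p) G) * coeff (n - i) b =
        (if i = 0 then coeff 0 g * coeff n b else 0) +
          if i = p - 1 then coeff (p - 1) g * coeff (n - i) b else 0 := by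
      intro i hi
      rw [mem_range] at hi
      rw [hG, coeff_dgG g (by omega)]
      by_cases h0 : i = 0
      · subst h0
        rw [if_pos rfl, if_pos rfl, if_neg (by omega), add_zero, Nat.sub_zero]
      · rw [if_neg h0, if_neg h0, zero_add]
        split_ifs <;> simp
    rw [sum_congr rfl h2, sum_add_distrib, sum_ite_eq', if_pos (mem_range.2 (by omega)),
      sum_ite_eq']
    congr 1
    by_cases hnp : n = p - 1
    · rw [if_pos (mem_range.2 (by omega)), if_pos hnp, hnp, Nat.sub_self]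
    · rw [if_neg (by rw [mem_range]; omega), if_neg hnp]
  have hfac : ∀ n, n < p → (n.factorial : ZMod p) * coeff n b = coeff 0 g ^ n * coeff 0 b := by
    intro n
    induction n with
    | zero => intro _; simp
    | succ n ih =>
      intro hn
      have h1 := hrec n (by omega)
      rw [if_neg (by omega), add_zero] at h1
      have h2 := ih (by omega)
      rw [Nat.factorial_succ, Nat.cast_mul]
      push_cast
      calc ((n : ZMod p) + 1) * (n.factorial : ZMod p) * coeff (n + 1) b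
          = (n.factorial : ZMod p) * (coeff (n + 1) b * ((n : ZMod p) + 1)) := by ring
        _ = coeff 0 g * ((n.factorial : ZMod p) * coeff n b) := by rw [h1]; ring
        _ = coeff 0 g ^ (n + 1) * coeff 0 b := by rw [h2]; ring
  constructor
  · have h1 := hrec (p - 1) (by omega)
    rw [if_pos rfl] at h1
    have h2 : (((p - 1 : ℕ) : ZMod p)) + 1 = 0 := by
      have : (((p - 1 : ℕ) : ZMod p)) + 1 = ((p - 1 + 1 : ℕ) : ZMod p) := by push_cast; rfl
      rw [this, Nat.sub_add_cancel (by omega), ZMod.natCast_self]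
    rw [h2, mul_zero] at h1
    have h3 := hfac (p - 1) (by omega)
    have h4 : ((p - 1).factorial : ZMod p) = -1 := ZMod.wilsons_lemma p
    rw [h4] at h3
    have h5 : coeff 0 b = constantCoeff a := by
      rw [coeff_zero_eq_constantCoeff_apply, hb0]
    rw [h5] at h1 h3
    have h6 : coeff 0 g ^ p = coeff 0 g ^ (p - 1) * coeff 0 g := by
      rw [← pow_succ, Nat.sub_add_cancel (by omega)]
    rw [h6]
    linear_combination -h1 + coeff 0 g * h3
  · intro ha
    have h5 : coeff 0 b = 0 := by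
      rw [coeff_zero_eq_constantCoeff_apply, hb0, ha]
    have h1 : X ^ p ∣ b := by
      rw [X_pow_dvd_iff]
      intro n hn
      have h2 := hfac n hn
      rw [h5, mul_zero] at h2
      exact (mul_eq_zero.1 h2).resolve_left (fact_ne_zero hn)
    have hEu : IsUnit E := isUnit_iff_constantCoeff.2 (by rw [hE0]; exact isUnit_one)
    rw [hb] at h1
    exact (hEu.dvd_mul_right).1 h1

end Pool.Agent.Lib.MP_1eeaa7_nt
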