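import Mathlib

/-!
# The `p`-th power of `∂ + ρ` in characteristic `p` (Jacobson's formula)
-/

set_option autoImplicit false

namespace Pool.Agent.Lib.MP_1eeaa7_nt

open PowerSeries Finset

variable {A : Type*} [CommRing A]

/-- `jac ρ n (j + 1)` is the coefficient of `t ^ j` in `(∂ + t ρ) ^ n 1`. -/
noncomputable def jac (ρ : A⟦X⟧) : ℕ → ℕ → A⟦X⟧
  | 0, j => if j = 1 then 1 else 0
  | _ + 1, 0 => 0
  | n + 1, j + 1 => d⁄dX A (jac ρ n (j + 1)) + ρ * jac ρ n j

theorem jac_zero_left (ρ : A⟦X⟧) (j : ℕ) : jac ρ 0 j = if j = 1 then 1 else 0 := by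
  rw [jac]

theorem jac_zero (ρ : A⟦X⟧) (n : ℕ) : jac ρ n 0 = 0 := by
  cases n with
  | zero => rw [jac_zero_left]; simp
  | succ n => rw [jac]

theorem jac_succ (ρ : A⟦X⟧) (n j : ℕ) :
    jac ρ (n + 1) (j + 1) = d⁄dX A (jac ρ n (j + 1)) + ρ * jac ρ n j := by
  rw [jac]

theorem jac_gt (ρ : A⟦X⟧) : ∀ n j : ℕ, n + 1 < j → jac ρ n j = 0 := by
  intro n
  induction n with
  | zero =>
    intro j hj
    rw [jac_zero_left, if_neg (by omega)]
  | succ n ih =>
    intro j hj
    obtain ⟨j, rfl⟩ : ∃ i, j = i + 1 := ⟨j - 1, by omega⟩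
    rw [jac_succ, ih _ (by omega), ih _ (by omega), map_zero, mul_zero, add_zero]

theorem jac_top (ρ : A⟦X⟧) (n : ℕ) : jac ρ n (n + 1) = ρ ^ n := by
  induction n with
  | zero => rw [jac_zero_left]; simp
  | succ n ih => rw [jac_succ, jac_gt ρ n _ (by omega), map_zero, zero_add, ih, pow_succ']

theorem jac_one (ρ : A⟦X⟧) : ∀ n : ℕ, 0 < n → jac ρ n 1 = 0 := by
  intro n hn
  induction n with
  | zero => omega
  | succ n ih =>
    rw [jac_succ, jac_zero, mul_zero, add_zero]
    rcases Nat.eq_zero_or_pos n with rfl | h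
    · rw [jac_zero_left, if_pos rfl]
      exact Derivation.map_one_eq_zero _
    · rw [ih h, map_zero]

theorem d_natCast_mul (n : ℕ) (f : A⟦X⟧) : d⁄dX A ((n : A⟦X⟧) * f) = (n : A⟦X⟧) * d⁄dX A f := by
  rw [← nsmul_eq_mul, map_nsmul, nsmul_eq_mul]

theorem jac_main (ρ : A⟦X⟧) : ∀ n j : ℕ, (j : A⟦X⟧) * jac ρ n (j + 1) =
    ∑ i ∈ range n, ((n.choose (i + 1) : ℕ) : A⟦X⟧) * ((⇑(d⁄dX A))^[i] ρ * jac ρ (n - 1 - i) j) := by
  intro n
  induction n with
  | zero =>
    intro j
    rw [jac_zero_left, range_zero, sum_empty]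
    rcases j with _ | j
    · simp
    · rw [if_neg (by omega), mul_zero]
  | succ n ih =>
    intro j
    rcases j with _ | j
    · rw [Nat.cast_zero, zero_mul]
      symm
      refine sum_eq_zero fun i _ => ?_
      rw [jac_zero, mul_zero, mul_zero]
    · have h1 := ih (j + 1)
      have h2 := ih j
      have h3 := congrArg (d⁄dX A) h1
      rw [d_natCast_mul, map_sum] at h3
      have h4 : ∀ i ∈ range n, d⁄dX A (((n.choose (i + 1) : ℕ) : A⟦X⟧) *
          ((⇑(d⁄dX A))^[i] ρ * jac ρ (n - 1 - i) (j + 1))) =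
          ((n.choose (i + 1) : ℕ) : A⟦X⟧) * ((⇑(d⁄dX A))^[i + 1] ρ *
            jac ρ (n - (i + 1)) (j + 1)) +
          ((n.choose (i + 1) : ℕ) : A⟦X⟧) * ((⇑(d⁄dX A))^[i] ρ *
            d⁄dX A (jac ρ (n - 1 - i) (j + 1))) := by
        intro i _
        rw [d_natCast_mul, Derivation.leibniz, Function.iterate_succ_apply', smul_eq_mul,
          smul_eq_mul, show n - (i + 1) = n - 1 - i by omega]
        ring
      rw [sum_congr rfl h4, sum_add_distrib] at h3
      have h5 : ∀ i ∈ range n, ((n.choose (i + 1) : ℕ) : A⟦X⟧) * ((⇑(d⁄dX A))^[i] ρ *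
          jac ρ (n - i) (j + 1)) =
          ((n.choose (i + 1) : ℕ) : A⟦X⟧) * ((⇑(d⁄dX A))^[i] ρ *
            d⁄dX A (jac ρ (n - 1 - i) (j + 1))) +
          ρ * (((n.choose (i + 1) : ℕ) : A⟦X⟧) * ((⇑(d⁄dX A))^[i] ρ *
            jac ρ (n - 1 - i) j)) := by
        intro i hi
        rw [mem_range] at hi
        have : n - i = n - 1 - i + 1 := by omega
        rw [this, jac_succ]
        ring
      have h6 : ∑ i ∈ range (n + 1), (((n + 1).choose (i + 1) : ℕ) : A⟦X⟧) *
          ((⇑(d⁄dX A))^[i] ρ * jac ρ (n + 1 - 1 - i) (j + 1)) =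
          ∑ i ∈ range (n + 1), ((n.choose i : ℕ) : A⟦X⟧) *
            ((⇑(d⁄dX A))^[i] ρ * jac ρ (n - i) (j + 1)) +
          ∑ i ∈ range (n + 1), ((n.choose (i + 1) : ℕ) : A⟦X⟧) *
            ((⇑(d⁄dX A))^[i] ρ * jac ρ (n - i) (j + 1)) := by
        rw [← sum_add_distrib]
        refine sum_congr rfl fun i _ => ?_
        rw [Nat.choose_succ_succ, Nat.add_sub_cancel]
        push_cast
        ring
      rw [h6, sum_range_succ' _ n, sum_range_succ _ n, Nat.choose_succ_self, sum_congr rfl h5,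
        sum_add_distrib, ← mul_sum, ← h2, jac_succ, mul_add, h3]
      simp only [Nat.cast_zero, zero_mul, add_zero, Nat.choose_zero_right, Nat.cast_one, one_mul,
        Function.iterate_zero, id_eq, Nat.sub_zero]
      push_cast
      ring

/-- the operator `∂ + ρ` -/
noncomputable def tw (ρ f : A⟦X⟧) : A⟦X⟧ := d⁄dX A f + ρ * f

theorem tw_iter_one (ρ : A⟦X⟧) (n : ℕ) :
    (tw ρ)^[n] 1 = ∑ j ∈ range (n + 1), jac ρ n (j + 1) := by
  induction n with
  | zero => simp [jac_zero_left]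
  | succ n ih =>
    rw [Function.iterate_succ_apply', ih, tw, map_sum, mul_sum]
    have h1 : ∑ j ∈ range (n + 1 + 1), jac ρ (n + 1) (j + 1) =
        ∑ j ∈ range (n + 1 + 1), d⁄dX A (jac ρ n (j + 1)) +
          ∑ j ∈ range (n + 1 + 1), ρ * jac ρ n j := by
      rw [← sum_add_distrib]
      exact sum_congr rfl fun j _ => jac_succ _ _ _
    rw [h1, sum_range_succ _ (n + 1), jac_gt ρ n (n + 1 + 1) (by omega), map_zero, add_zero,
      sum_range_succ' _ (n + 1), jac_zero, mul_zero, add_zero]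

variable {p : ℕ} [hp : Fact p.Prime] [CharP A p]

theorem isUnit_natCast_of_lt {j : ℕ} (h0 : 0 < j) (h : j < p) : IsUnit (j : A) := by
  have h1 : IsCoprime (j : ℤ) (p : ℤ) :=
    Nat.isCoprime_iff_coprime.2 (Nat.coprime_of_lt_prime (by omega) h hp.out).symm
  obtain ⟨a, b, hab⟩ := h1
  refine IsUnit.of_mul_eq_one (a : A) ?_
  have := congrArg (Int.cast : ℤ → A) hab
  push_cast at this
  have hp0 : (p : A) = 0 := CharP.cast_eq_zero A p
  rw [hp0, mul_zero, add_zero] at this
  rw [mul_comm]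
  exact this

/-- **Jacobson's formula** -/
theorem tw_p (ρ : A⟦X⟧) : (tw ρ)^[p] 1 = (⇑(d⁄dX A))^[p - 1] ρ + ρ ^ p := by
  have hp2 := hp.out.two_le
  have key : ∀ j : ℕ, (j : A⟦X⟧) * jac ρ p (j + 1) = (⇑(d⁄dX A))^[p - 1] ρ * jac ρ 0 j := by
    intro j
    rw [jac_main, sum_eq_single (p - 1)]
    · rw [show p - 1 + 1 = p by omega, Nat.choose_self, Nat.sub_self, Nat.cast_one, one_mul]
    · intro i hi hne
      rw [mem_range] at hi
      have h1 : p ∣ p.choose (i + 1) := hp.out.dvd_choose_self (by omega) (by omega)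
      have h2 : ((p.choose (i + 1) : ℕ) : A⟦X⟧) = 0 := by
        rw [← map_natCast (PowerSeries.C (R := A)), (CharP.cast_eq_zero_iff A p _).2 h1, map_zero]
      rw [h2, zero_mul]
    · intro h
      rw [mem_range] at h
      omega
  have hmid : ∀ j ∈ range (p + 1), j ≠ 1 → j ≠ p → jac ρ p (j + 1) = 0 := by
    intro j hj h1 h2
    rw [mem_range] at hj
    rcases Nat.eq_zero_or_pos j with rfl | h0
    · exact jac_one ρ p (by omega)
    · have h3 := key j
      rw [jac_zero_left, if_neg h1, mul_zero] at h3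
      have h4 : IsUnit ((j : ℕ) : A⟦X⟧) := by
        have h5 : IsUnit (j : A) := isUnit_natCast_of_lt (p := p) h0 (by omega)
        have h6 := h5.map (PowerSeries.C (R := A))
        rwa [map_natCast] at h6
      exact (h4.mul_right_eq_zero).1 h3
  rw [tw_iter_one]
  have h1mem : 1 ∈ range (p + 1) := mem_range.2 (by omega)
  have hpmem : p ∈ (range (p + 1)).erase 1 := mem_erase.2 ⟨by omega, mem_range.2 (by omega)⟩
  rw [← add_sum_erase _ _ h1mem, ← add_sum_erase _ _ hpmem, jac_top]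
  have h0 : ∑ j ∈ ((range (p + 1)).erase 1).erase p, jac ρ p (j + 1) = 0 := by
    refine sum_eq_zero fun j hj => ?_
    rw [mem_erase, mem_erase] at hj
    exact hmid j hj.2.2 hj.2.1 hj.1
  have h1 := key 1
  rw [Nat.cast_one, one_mul, jac_zero_left, if_pos rfl, mul_one] at h1
  rw [h0, add_zero, h1]

theorem coeff_d_iter (f : A⟦X⟧) (i : ℕ) : ∀ n, coeff n ((⇑(d⁄dX A))^[i] f) =
    (((n + i).descFactorial i : ℕ) : A) * coeff (n + i) f := by
  induction i with
  | zero => intro n; simp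
  | succ i ih =>
    intro n
    rw [Function.iterate_succ_apply', PowerSeries.coeff_derivative, ih (n + 1),
      show n + (i + 1) = n + 1 + i by ring, Nat.descFactorial_succ]
    rw [show n + 1 + i - i = n + 1 by omega]
    push_cast
    ring

/-- coefficients of the `p`-th power in characteristic `p` -/
theorem coeff_pow_char (f : A⟦X⟧) (n : ℕ) :
    coeff n (f ^ p) = if p ∣ n then (coeff (n / p) f) ^ p else 0 := by
  have hfc : ExpChar A p := ExpChar.prime hp.out
  have hcc : CharP A⟦X⟧ p := by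
    refine ⟨fun x => ?_⟩
    rw [← map_natCast (PowerSeries.C (R := A)), ← CharP.cast_eq_zero_iff A p]
    constructor
    · intro h
      have := congrArg (constantCoeff (R := A)) h
      simpa using this
    · intro h
      rw [h, map_zero]
  have hexp : ExpChar A⟦X⟧ p := ExpChar.prime hp.out
  obtain ⟨g, hg⟩ : ∃ g : A⟦X⟧, f = ((trunc (n + 1) f : Polynomial A) : A⟦X⟧) + X ^ (n + 1) * g := by
    refine ⟨PowerSeries.mk fun i => coeff (i + (n + 1)) f, ?_⟩
    ext i
    rw [map_add, Polynomial.coeff_coe, coeff_trunc, coeff_X_pow_mul']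
    split_ifs with h1 h2 h3
    · omega
    · rw [add_zero]
    · rw [coeff_mk, zero_add, Nat.sub_add_cancel (by omega)]
    · omega
  have h1 : f ^ p = (((trunc (n + 1) f : Polynomial A) : A⟦X⟧)) ^ p +
      X ^ (n + 1) * (X ^ ((n + 1) * (p - 1)) * g ^ p) := by
    conv_lhs => rw [hg]
    rw [add_pow_char, mul_pow, ← pow_mul, ← mul_assoc, ← pow_add]
    congr 3
    have := hp.out.two_le
    obtain ⟨q, rfl⟩ : ∃ q, p = q + 1 := ⟨p - 1, by omega⟩
    rw [Nat.add_sub_cancel]
    ring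
  rw [h1, map_add, coeff_X_pow_mul', if_neg (by omega), add_zero]
  have h2 : (((trunc (n + 1) f : Polynomial A) : A⟦X⟧)) ^ p =
      ∑ i ∈ range (n + 1), PowerSeries.monomial (i * p) ((coeff i f) ^ p) := by
    have h3 : ((trunc (n + 1) f : Polynomial A) : A⟦X⟧) =
        ∑ i ∈ range (n + 1), PowerSeries.monomial i (coeff i f) := by
      ext i
      rw [Polynomial.coeff_coe, coeff_trunc, map_sum]
      simp only [PowerSeries.coeff_monomial]
      rw [sum_ite_eq]
      simp only [mem_range]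
    rw [h3, sum_pow_char]
    refine sum_congr rfl fun i _ => ?_
    rw [PowerSeries.monomial_pow, mul_comm p i]
  rw [h2, map_sum]
  simp only [PowerSeries.coeff_monomial]
  split_ifs with h3
  · obtain ⟨m, rfl⟩ := h3
    rw [Nat.mul_div_cancel_left _ hp.out.pos, sum_eq_single m]
    · rw [if_pos (by ring)]
    · intro i _ hi
      rw [if_neg]
      intro h4
      exact hi (Nat.eq_of_mul_eq_mul_right hp.out.pos (by linarith))
    · intro h4
      exfalso
      apply h4
      rw [mem_range]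
      have := Nat.le_mul_of_pos_left m hp.out.pos
      omega
  · refine sum_eq_zero fun i _ => ?_
    rw [if_neg]
    rintro rfl
    exact h3 (Dvd.intro_left i rfl)

end Pool.Agent.Lib.MP_1eeaa7_nt
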