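import Pool.Agent.Lib.MP_1eeaa7_nt.HypDecay
import Pool.Agent.Lib.MP_1eeaa7_nt.Jac

/-!
# Growth of solutions of `G' = ρ G` when the `p`-curvature vanishes to high order
-/

set_option autoImplicit false

namespace Pool.Agent.Lib.MP_1eeaa7_nt

open PowerSeries Finset

section Alg

variable {A : Type*} [CommRing A]

theorem d_iter_eq (ρ G : A⟦X⟧) (hG : d⁄dX A G = ρ * G) (n : ℕ) :
    (⇑(d⁄dX A))^[n] G = (tw ρ)^[n] 1 * G := by
  induction n with
  | zero => simp
  | succ n ih =>
    rw [Function.iterate_succ_apply', ih, Function.iterate_succ_apply', tw, Derivation.leibniz,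
      smul_eq_mul, smul_eq_mul, hG]
    ring

theorem map_tw {A' : Type*} [CommRing A'] (φ : A →+* A') (ρ f : A⟦X⟧) :
    PowerSeries.map φ (tw ρ f) = tw (PowerSeries.map φ ρ) (PowerSeries.map φ f) := by
  rw [tw, tw, map_add, map_mul]
  congr 1
  ext n
  rw [coeff_map, coeff_derivative, coeff_derivative, coeff_map, map_mul]
  simp

theorem map_tw_iter {A' : Type*} [CommRing A'] (φ : A →+* A') (ρ : A⟦X⟧) (n : ℕ) :
    PowerSeries.map φ ((tw ρ)^[n] 1) = (tw (PowerSeries.map φ ρ))^[n] 1 := by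
  induction n with
  | zero => simp
  | succ n ih => rw [Function.iterate_succ_apply', Function.iterate_succ_apply', map_tw, ih]

variable {p : ℕ} [hp : Fact p.Prime] [CharP A p]

theorem coeff_tw_p (ρ : A⟦X⟧) (i : ℕ) :
    coeff i ((tw ρ)^[p] 1) =
      if p ∣ i then (coeff (i / p) ρ) ^ p - coeff (i + (p - 1)) ρ else 0 := by
  have hp2 := hp.out.two_le
  have hp0 : (p : A) = 0 := CharP.cast_eq_zero A p
  rw [tw_p, map_add, coeff_pow_char, coeff_d_iter, Nat.descFactorial_eq_prod_range]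
  split_ifs with h
  · have h1 : ((∏ j ∈ range (p - 1), (i + (p - 1) - j) : ℕ) : A) = -1 := by
      have h2 : ((∏ j ∈ range (p - 1), (i + (p - 1) - j) : ℕ) : A) =
          ((∏ j ∈ range (p - 1), (p - 1 - j) : ℕ) : A) := by
        rw [Nat.cast_prod, Nat.cast_prod]
        refine prod_congr rfl fun j hj => ?_
        rw [mem_range] at hj
        obtain ⟨m, rfl⟩ := h
        rw [show p * m + (p - 1) - j = p * m + (p - 1 - j) by omega]
        push_cast
        rw [hp0, zero_mul, zero_add]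
      rw [h2, ← Nat.descFactorial_eq_prod_range, Nat.descFactorial_self]
      have h3 : ((p - 1).factorial : ZMod p) = -1 := ZMod.wilsons_lemma p
      have h4 := congrArg (ZMod.castHom (dvd_refl p) A) h3
      rw [map_natCast, map_neg, map_one] at h4
      exact h4
    rw [h1]
    ring
  · have h1 : p ∣ ∏ j ∈ range (p - 1), (i + (p - 1) - j) := by
      have h2 : i % p ≠ 0 := fun h0 => h (Nat.dvd_of_mod_eq_zero h0)
      have h3 : i % p < p := Nat.mod_lt _ (by omega)
      refine (?_ : p ∣ i + (p - 1) - (i % p - 1)).trans (dvd_prod_of_mem _ ?_)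
      · have h4 : i + (p - 1) - (i % p - 1) = p * (i / p + 1) := by
          have h5 := Nat.div_add_mod i p
          rw [mul_add, mul_one]
          omega
        rw [h4]
        exact dvd_mul_right _ _
      · rw [mem_range]; omega
    rw [(CharP.cast_eq_zero_iff A p _).2 h1, zero_mul, zero_add]

end Alg

variable {k : Type*} [NormedField k] [IsUltrametricDist k]

theorem norm_descFactorial {p : ℕ} (hp : p.Prime) (hpk : ‖(p : k)‖ < 1) (n : ℕ) :
    ‖(((n + p).descFactorial p : ℕ) : k)‖ = ‖(p : k)‖ * ‖(((n + p) / p : ℕ) : k)‖ := by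
  have hp2 := hp.two_le
  rw [Nat.descFactorial_eq_prod_range, Nat.cast_prod, norm_prod]
  have h3 : n % p < p := Nat.mod_lt _ (by omega)
  have h5 := Nat.div_add_mod n p
  rw [← mul_prod_erase _ _ (mem_range.2 h3)]
  have h1 : n + p - n % p = p * ((n + p) / p) := by
    rw [Nat.add_div_right _ (by omega), Nat.mul_succ]
    omega
  have h2 : ∏ j ∈ (range p).erase (n % p), ‖((n + p - j : ℕ) : k)‖ = 1 := by
    refine prod_eq_one fun j hj => ?_
    rw [mem_erase, mem_range] at hj
    refine norm_nat_of_not_dvd hp hpk fun hd => ?_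
    obtain ⟨c, hc⟩ := hd
    have h6 : n + p = p * c + j := by omega
    have h7 : (n + p) % p = j := by
      rw [h6, Nat.mul_add_mod, Nat.mod_eq_of_lt hj.2]
    rw [Nat.add_mod_right] at h7
    exact hj.1 h7.symm
  rw [h1, h2, mul_one, Nat.cast_mul, norm_mul]

theorem norm_small_coeff {p : ℕ} (hp : p.Prime) (hpk : ‖(p : k)‖ < 1) {ρ G : k⟦X⟧}
    (hρ : ∀ n, ‖coeff n ρ‖ ≤ 1) (hG : d⁄dX k G = ρ * G) (hG0 : ‖coeff 0 G‖ ≤ 1) :
    ∀ m < p, ‖coeff m G‖ ≤ 1 := by
  intro m
  induction m using Nat.strong_induction_on with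
  | _ m ih =>
    intro hm
    rcases m with _ | m
    · exact hG0
    · have h1 := congrArg (coeff m) hG
      rw [coeff_derivative, PowerSeries.coeff_mul] at h1
      have h2 : ‖((m : k) + 1)‖ = 1 := by
        have := norm_nat_of_not_dvd hp hpk (n := m + 1)
          (fun hd => by have := Nat.le_of_dvd (by omega) hd; omega)
        push_cast at this
        exact this
      have h3 : ‖coeff (m + 1) G‖ = ‖coeff (m + 1) G * ((m : k) + 1)‖ := by
        rw [norm_mul, h2, mul_one]
      rw [h3, h1]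
      refine IsUltrametricDist.norm_sum_le_of_forall_le_of_nonneg zero_le_one fun x hx => ?_
      rw [HasAntidiagonal.mem_antidiagonal] at hx
      rw [norm_mul]
      exact mul_le_one₀ (hρ _) (norm_nonneg _) (ih x.2 (by omega) (by omega))

theorem growth {p : ℕ} (hp : p.Prime) (hpk : ‖(p : k)‖ < 1) {ρ G B : k⟦X⟧}
    (hρ : ∀ n, ‖coeff n ρ‖ ≤ 1) (hG : d⁄dX k G = ρ * G) (hG0 : ‖coeff 0 G‖ ≤ 1)
    (hB : (⇑(d⁄dX k))^[p] G = B * G) (hB1 : ∀ n, ‖coeff n B‖ ≤ 1) {S : ℕ}
    (hBS : ∀ n < p * S, ‖coeff n B‖ ≤ ‖(p : k)‖) (hp0 : 0 < ‖(p : k)‖) {θ : ℝ} (hθ : 1 ≤ θ)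
    (hθS : 1 ≤ ‖(p : k)‖ * θ ^ (S + 1)) :
    ∀ m, ‖coeff m G‖ * ‖(((m / p).factorial : ℕ) : k)‖ ≤ θ ^ (m / p) := by
  intro m
  induction m using Nat.strong_induction_on with
  | _ m ih =>
    rcases lt_or_ge m p with hm | hm
    · rw [Nat.div_eq_of_lt hm, Nat.factorial_zero, Nat.cast_one, norm_one, mul_one, pow_zero]
      exact norm_small_coeff hp hpk hρ hG hG0 m hm
    · obtain ⟨n, rfl⟩ : ∃ n, m = n + p := ⟨m - p, by omega⟩
      have hmn : (n + p) / p = n / p + 1 := Nat.add_div_right _ hp.pos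
      have h1 := congrArg (coeff n) hB
      rw [coeff_d_iter, PowerSeries.coeff_mul] at h1
      have h2 := norm_descFactorial (k := k) hp hpk n
      have hθ0 : 0 < θ := lt_of_lt_of_le zero_lt_one hθ
      have key : ‖(p : k)‖ * (‖coeff (n + p) G‖ * ‖((((n + p) / p).factorial : ℕ) : k)‖) ≤
          ‖(p : k)‖ * θ ^ ((n + p) / p) := by
        have h3 : ‖(p : k)‖ * (‖coeff (n + p) G‖ * ‖((((n + p) / p).factorial : ℕ) : k)‖) =
            ‖(((n + p).descFactorial p : ℕ) : k) * coeff (n + p) G‖ *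
              ‖(((n / p).factorial : ℕ) : k)‖ := by
          rw [norm_mul, h2, hmn, Nat.factorial_succ, Nat.cast_mul, norm_mul]
          ring
        rw [h3, h1, ← norm_mul, sum_mul]
        refine IsUltrametricDist.norm_sum_le_of_forall_le_of_nonneg (by positivity) fun x hx => ?_
        rw [HasAntidiagonal.mem_antidiagonal] at hx
        rw [norm_mul, norm_mul]
        have hx2 : x.2 / p ≤ n / p := Nat.div_le_div_right (by omega)
        have h4 : ‖(((n / p).factorial : ℕ) : k)‖ ≤ ‖(((x.2 / p).factorial : ℕ) : k)‖ := by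
          obtain ⟨c, hc⟩ := Nat.factorial_dvd_factorial hx2
          rw [hc, Nat.cast_mul, norm_mul]
          exact mul_le_of_le_one_right (norm_nonneg _) (norm_nat_le _)
        have h5 : ‖coeff x.2 G‖ * ‖(((n / p).factorial : ℕ) : k)‖ ≤ θ ^ (x.2 / p) :=
          (mul_le_mul_of_nonneg_left h4 (norm_nonneg _)).trans (ih x.2 (by have := hp.pos; omega))
        rw [mul_assoc]
        rcases lt_or_ge x.1 (p * S) with h6 | h6
        · refine mul_le_mul (hBS _ h6) (h5.trans ?_) (by positivity) hp0.le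
          exact pow_le_pow_right₀ hθ (by omega)
        · have h7 : x.2 / p + (S + 1) ≤ (n + p) / p := by
            rw [hmn]
            have h8 : x.2 + p * S ≤ n := by omega
            have h9 : (x.2 + p * S) / p ≤ n / p := Nat.div_le_div_right h8
            rw [Nat.add_mul_div_left _ _ hp.pos] at h9
            omega
          calc ‖coeff x.1 B‖ * (‖coeff x.2 G‖ * ‖(((n / p).factorial : ℕ) : k)‖)
              ≤ 1 * θ ^ (x.2 / p) := mul_le_mul (hB1 _) h5 (by positivity) zero_le_one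
            _ ≤ (‖(p : k)‖ * θ ^ (S + 1)) * θ ^ (x.2 / p) :=
                mul_le_mul_of_nonneg_right hθS (by positivity)
            _ = ‖(p : k)‖ * θ ^ (x.2 / p + (S + 1)) := by rw [pow_add]; ring
            _ ≤ ‖(p : k)‖ * θ ^ ((n + p) / p) :=
                mul_le_mul_of_nonneg_left (pow_le_pow_right₀ hθ h7) hp0.le
      exact le_of_mul_le_mul_left key hp0

end Pool.Agent.Lib.MP_1eeaa7_nt
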