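import Pool.Agent.Lib.MP_1eeaa7_nt.HypDecay

/-!
# Coefficients of `F(A) * B`
-/

set_option autoImplicit false

namespace Pool.Agent.Lib.MP_1eeaa7_nt

open Finset PowerSeries

variable {K : Type*} [Field K]

/-- the series `∑ P(n) x^n / (n! q(1) ⋯ q(n))` -/
noncomputable def hyp (P q : Polynomial K) : K⟦X⟧ :=
  PowerSeries.mk fun n => P.eval (n : K) *
    ((n.factorial : K) * ∏ l ∈ range n, q.eval ((l : K) + 1))⁻¹

theorem coeff_subst_mul {A : K⟦X⟧} (hA : constantCoeff A = 0) (F B : K⟦X⟧) (n : ℕ) :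
    coeff n (F.subst A * B) = ∑ k ∈ range (n + 1), coeff k F * coeff n (A ^ k * B) := by
  have hvan : ∀ a k : ℕ, a < k → coeff a (A ^ k) = 0 := by
    intro a k hak
    obtain ⟨A', hA'⟩ := X_dvd_iff.2 hA
    rw [hA', mul_pow, coeff_X_pow_mul', if_neg (by omega)]
  have h1 : ∀ a ≤ n, coeff a (F.subst A) = ∑ k ∈ range (n + 1), coeff k F * coeff a (A ^ k) := by
    intro a ha
    rw [coeff_subst' (HasSubst.of_constantCoeff_zero' hA)]
    rw [finsum_eq_sum_of_support_subset _ (s := range (n + 1))]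
    · rfl
    · intro k hk
      rw [Function.mem_support] at hk
      rw [mem_coe, mem_range]
      by_contra hlt
      push Not at hlt
      exact hk (by rw [hvan a k (by omega), smul_zero])
  rw [coeff_mul]
  calc ∑ x ∈ antidiagonal n, coeff x.1 (F.subst A) * coeff x.2 B
      = ∑ x ∈ antidiagonal n, ∑ k ∈ range (n + 1),
          coeff k F * (coeff x.1 (A ^ k) * coeff x.2 B) := by
        refine sum_congr rfl fun x hx => ?_
        rw [HasAntidiagonal.mem_antidiagonal] at hx
        rw [h1 x.1 (by omega), sum_mul]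
        exact sum_congr rfl fun k _ => mul_assoc _ _ _
    _ = _ := by
        rw [sum_comm]
        refine sum_congr rfl fun k _ => ?_
        rw [coeff_mul, mul_sum]

theorem prod_split (q : Polynomial K) {N j : ℕ} (h : j ≤ N) :
    (∏ l ∈ range (N - j), q.eval ((l : K) + 1)) * ∏ l ∈ range j, q.eval ((N : K) - l) =
      ∏ l ∈ range N, q.eval ((l : K) + 1) := by
  induction j with
  | zero => simp
  | succ j ih =>
    rw [← ih (by omega), prod_range_succ _ j, show N - j = (N - (j + 1)) + 1 by omega,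
      prod_range_succ]
    have h1 : (((N - (j + 1) : ℕ) : K)) + 1 = (N : K) - j := by
      rw [Nat.cast_sub h]
      push_cast
      ring
    rw [h1]
    ring

theorem coeff_hyp_subst_mul [CharZero K] {P q : Polynomial K} (hq : ∀ n : ℕ, q.eval ((n : K) + 1) ≠ 0)
    {V B : K⟦X⟧} {s : ℕ} (hs : s ≠ 0) {r : ℕ} (hr : r < s) (N : ℕ) :
    ((N.factorial : K) * ∏ l ∈ range N, q.eval ((l : K) + 1)) *
      coeff (s * N + r) ((hyp P q).subst (X ^ s * V) * B) = Sval P q s r V B N := by
  have hA : constantCoeff (X ^ s * V) = 0 := by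
    rw [map_mul, map_pow, constantCoeff_X, zero_pow hs, zero_mul]
  rw [coeff_subst_mul hA]
  have h1 : ∑ k ∈ range (s * N + r + 1), coeff k (hyp P q) *
      coeff (s * N + r) ((X ^ s * V) ^ k * B) = ∑ k ∈ range (N + 1), coeff k (hyp P q) *
      coeff (s * N + r) ((X ^ s * V) ^ k * B) := by
    symm
    refine sum_subset (range_subset_range.2 ?_) fun k _ hk => ?_
    · have : N ≤ s * N := Nat.le_mul_of_pos_left N (Nat.pos_of_ne_zero hs)
      omega
    · rw [mem_range, not_lt] at hk
      rw [mul_pow, ← pow_mul, mul_assoc, coeff_X_pow_mul', if_neg, mul_zero]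
      have h2 : s * (N + 1) ≤ s * k := Nat.mul_le_mul_left s hk
      rw [mul_add, mul_one] at h2
      omega
  rw [h1, mul_sum, Sval, ← sum_range_reflect]
  refine sum_congr rfl fun j hj => ?_
  rw [mem_range] at hj
  have hj' : N + 1 - 1 - j = N - j := by omega
  rw [hj', mul_pow, ← pow_mul, mul_assoc (X ^ (s * (N - j)) : K⟦X⟧), coeff_X_pow_mul',
    if_pos (by nlinarith [Nat.sub_le N j])]
  have h4 : s * N + r - s * (N - j) = s * j + r := by
    have h5 : s * N = s * (N - j) + s * j := by rw [← mul_add]; congr 1; omega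
    omega
  rw [h4, hyp, coeff_mk, ← mul_assoc]
  congr 1
  have h6 : ((N - j).factorial : K) ≠ 0 := Nat.cast_ne_zero.2 (Nat.factorial_ne_zero _)
  have h7 : (N - j).factorial * N.descFactorial j = N.factorial :=
    Nat.factorial_mul_descFactorial (by omega)
  have h8 : ∏ l ∈ range (N - j), q.eval ((l : K) + 1) ≠ 0 := prod_ne_zero_iff.2 fun l _ => hq l
  have h9 : ((N - j : ℕ) : K) = (N : K) - j := Nat.cast_sub (by omega)
  rw [← h7, ← prod_split q (show j ≤ N by omega), Nat.cast_mul, h9]
  field_simp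

end Pool.Agent.Lib.MP_1eeaa7_nt
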