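import Pool.Agent.Lib.MP_1eeaa7_nt.DecayOps

/-!
# The numerators of the coefficients of `F(A) * B` have decaying differences
-/

set_option autoImplicit false

namespace Pool.Agent.Lib.MP_1eeaa7_nt

open Finset

section Defs

variable {R : Type*} [CommRing R]

/-- the numerator of the coefficient of index `s N + r` -/
noncomputable def Sval (P q : Polynomial R) (s r : ℕ) (V B : PowerSeries R) (N : ℕ) : R :=
  ∑ j ∈ range (N + 1), (N.descFactorial j : R) * (P.eval ((N : R) - j) *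
    ∏ l ∈ range j, q.eval ((N : R) - l)) * PowerSeries.coeff (s * j + r) (V ^ (N - j) * B)

theorem Sval_map {R' : Type*} [CommRing R'] (φ : R →+* R') (P q : Polynomial R) (s r : ℕ)
    (V B : PowerSeries R) (N : ℕ) :
    φ (Sval P q s r V B N) =
      Sval (P.map φ) (q.map φ) s r (PowerSeries.map φ V) (PowerSeries.map φ B) N := by
  have h1 : ∀ (q : Polynomial R) (l : ℕ), φ (q.eval ((N : R) - l)) =
      (q.map φ).eval ((N : R') - l) := fun q l => by
    rw [Polynomial.eval_map, ← map_natCast φ N, ← map_natCast φ l, ← map_sub,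
      Polynomial.eval₂_at_apply]
  simp only [Sval, map_sum, map_mul, map_natCast, map_prod, h1]
  refine sum_congr rfl fun j _ => ?_
  rw [← map_pow, ← map_mul, PowerSeries.coeff_map]

end Defs

theorem desc_choose (N i j : ℕ) :
    N.descFactorial j * (N - j).choose i = N.choose (i + j) * (i + j).descFactorial j := by
  rw [Nat.descFactorial_eq_factorial_mul_choose, Nat.descFactorial_eq_factorial_mul_choose]
  have h1 := Nat.choose_mul (n := N) (k := i + j) (s := j) (by omega)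
  rw [Nat.add_sub_cancel] at h1
  calc j.factorial * N.choose j * (N - j).choose i
      = j.factorial * (N.choose j * (N - j).choose i) := by ring
    _ = j.factorial * (N.choose (i + j) * (i + j).choose j) := by rw [← h1]
    _ = _ := by ring

variable {k : Type*} [NormedField k] [IsUltrametricDist k]

theorem norm_factorial_le {p : ℕ} (hp : p.Prime) (j : ℕ) :
    ‖((j.factorial : ℕ) : k)‖ ≤ ‖(p : k)‖ ^ (j / p) := by
  have h1 : p ^ (j / p) ∣ j.factorial := by
    rw [hp.pow_dvd_factorial_iff (b := Nat.log p j + 2) (by omega)]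
    have h1 : j / p = j / p ^ 1 := by rw [pow_one]
    rw [h1]
    exact single_le_sum (f := fun i => j / p ^ i) (fun _ _ => Nat.zero_le _)
      (mem_Ico.2 ⟨le_rfl, by omega⟩)
  obtain ⟨m, hm⟩ := h1
  rw [hm, Nat.cast_mul, norm_mul, Nat.cast_pow, norm_pow]
  exact mul_le_of_le_one_right (by positivity) (norm_nat_le _)

theorem factorial_decay [CharZero k] {p : ℕ} (hp : p.Prime) (hpk : ‖(p : k)‖ < 1) (L : ℕ)
    (hL : L ≠ 0) : ∃ C θ : ℝ, 0 ≤ C ∧ 0 < θ ∧ θ < 1 ∧
      ∀ j : ℕ, ‖((j.factorial : ℕ) : k)‖ ≤ C * θ ^ (L * j) := by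
  have hp0 : 0 < ‖(p : k)‖ := norm_pos_iff.2 (Nat.cast_ne_zero.2 hp.ne_zero)
  have hLp : L * p ≠ 0 := mul_ne_zero hL hp.ne_zero
  set θ : ℝ := ‖(p : k)‖ ^ (((L * p : ℕ) : ℝ)⁻¹) with hθ
  have h1 : θ ^ (L * p) = ‖(p : k)‖ := Real.rpow_inv_natCast_pow hp0.le hLp
  have h2 : 0 < θ := Real.rpow_pos_of_pos hp0 _
  have h3 : θ < 1 := by
    refine Real.rpow_lt_one hp0.le hpk ?_
    have : (0 : ℝ) < ((L * p : ℕ) : ℝ) := Nat.cast_pos.2 (Nat.pos_of_ne_zero hLp)
    positivity
  refine ⟨‖(p : k)‖⁻¹, θ, by positivity, h2, h3, fun j => (norm_factorial_le hp j).trans ?_⟩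
  have h4 : L * j = L * p * (j / p) + L * (j % p) := by
    conv_lhs => rw [← Nat.div_add_mod j p]
    ring
  rw [h4, pow_add, pow_mul, h1]
  have h5 : ‖(p : k)‖ ≤ θ ^ (L * (j % p)) := by
    rw [← h1]
    exact pow_le_pow_of_le_one h2.le h3.le
      (Nat.mul_le_mul_left _ (Nat.mod_lt _ hp.pos).le)
  calc ‖(p : k)‖ ^ (j / p) = ‖(p : k)‖⁻¹ * (‖(p : k)‖ ^ (j / p) * ‖(p : k)‖) := by
        field_simp
    _ ≤ ‖(p : k)‖⁻¹ * (‖(p : k)‖ ^ (j / p) * θ ^ (L * (j % p))) := by
        refine mul_le_mul_of_nonneg_left ?_ (by positivity)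
        exact mul_le_mul_of_nonneg_left h5 (by positivity)

theorem factorial_decay' [CharZero k] {p : ℕ} (hp : p.Prime) (hpk : ‖(p : k)‖ < 1) (L : ℕ)
    (hL : L ≠ 0) (s r a : ℕ) : ∃ C θ : ℝ, 0 ≤ C ∧ 0 < θ ∧ θ < 1 ∧
      ∀ j : ℕ, ‖((j.factorial : ℕ) : k)‖ * ((s * j + r + 1 : ℕ) : ℝ) ^ a ≤ C * θ ^ (L * j) := by
  obtain ⟨C, θ, hC, h0, h1, h⟩ := factorial_decay (k := k) hp hpk (2 * L) (by omega)
  have h2 : Filter.Tendsto (fun n : ℕ => (n : ℝ) ^ a * θ ^ n) Filter.atTop (nhds 0) :=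
    tendsto_pow_const_mul_const_pow_of_abs_lt_one a (by rw [abs_of_pos h0]; exact h1)
  obtain ⟨D, hD⟩ := h2.bddAbove_range
  have hD' : ∀ n : ℕ, (n : ℝ) ^ a * θ ^ n ≤ D := fun n => hD ⟨n, rfl⟩
  have hD0 : 0 ≤ D := le_trans (by positivity) (hD' 0)
  refine ⟨C * ((s + r + 1 : ℕ) : ℝ) ^ a * D * θ⁻¹, θ, by positivity, h0, h1, fun j => ?_⟩
  have h3 : (((s * j + r + 1 : ℕ) : ℝ)) ≤ ((s + r + 1 : ℕ) : ℝ) * ((j + 1 : ℕ) : ℝ) := by
    have : s * j + r + 1 ≤ (s + r + 1) * (j + 1) := by nlinarith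
    exact_mod_cast this
  have h4 : ((j + 1 : ℕ) : ℝ) ^ a * θ ^ (L * j) ≤ D * θ⁻¹ := by
    have h5 := hD' (j + 1)
    rw [pow_succ θ j, ← mul_assoc] at h5
    have h6 : θ ^ (L * j) ≤ θ ^ j :=
      pow_le_pow_of_le_one h0.le h1.le (Nat.le_mul_of_pos_left j (Nat.pos_of_ne_zero hL))
    rw [← div_eq_mul_inv, le_div_iff₀ h0]
    refine le_trans ?_ h5
    refine mul_le_mul_of_nonneg_right ?_ h0.le
    exact mul_le_mul_of_nonneg_left h6 (by positivity)
  calc ‖((j.factorial : ℕ) : k)‖ * ((s * j + r + 1 : ℕ) : ℝ) ^ a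
      ≤ (C * θ ^ (2 * L * j)) * (((s + r + 1 : ℕ) : ℝ) * ((j + 1 : ℕ) : ℝ)) ^ a := by
        refine mul_le_mul (h j) (pow_le_pow_left₀ (by positivity) h3 a) (by positivity)
          (by positivity)
    _ = C * ((s + r + 1 : ℕ) : ℝ) ^ a * (((j + 1 : ℕ) : ℝ) ^ a * θ ^ (L * j)) * θ ^ (L * j) := by
        rw [mul_pow, show 2 * L * j = L * j + L * j by ring, pow_add]
        ring
    _ ≤ C * ((s + r + 1 : ℕ) : ℝ) ^ a * (D * θ⁻¹) * θ ^ (L * j) := by
        refine mul_le_mul_of_nonneg_right ?_ (by positivity)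
        exact mul_le_mul_of_nonneg_left h4 (by positivity)
    _ = _ := by ring

/-- the binomial coefficient polynomial -/
noncomputable def binP (m : ℕ) : Polynomial k :=
  Polynomial.C ((m.factorial : k)⁻¹) * descPochhammer k m

omit [IsUltrametricDist k] in
theorem binP_eval [CharZero k] (m N : ℕ) : (binP m : Polynomial k).eval (N : k) =
    ((N.choose m : ℕ) : k) := by
  rw [binP, Polynomial.eval_mul, Polynomial.eval_C, descPochhammer_eval_eq_descFactorial,
    Nat.descFactorial_eq_factorial_mul_choose, Nat.cast_mul, ← mul_assoc,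
    inv_mul_cancel₀ (Nat.cast_ne_zero.2 (Nat.factorial_ne_zero m)), one_mul]

omit [IsUltrametricDist k] in
theorem binP_natDegree (m : ℕ) : (binP m : Polynomial k).natDegree ≤ m := by
  refine (Polynomial.natDegree_C_mul_le _ _).trans ?_
  rw [descPochhammer_natDegree]

/-- the part of the numerator coming from `(N)_j` -/
noncomputable def famP (P q : Polynomial k) (s r : ℕ) (u : k) (W B : PowerSeries k) (j : ℕ) :
    Polynomial k :=
  ∑ i ∈ range (s * j + r + 1), binP (i + j) * (P.comp (Polynomial.X - Polynomial.C (j : k)) *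
    ∏ l ∈ range j, q.comp (Polynomial.X - Polynomial.C (l : k))) * Polynomial.C ((((i + j).descFactorial j : ℕ) : k) * (u ^ j *
      PowerSeries.coeff (s * j + r - i) (W ^ i * B)))

omit [IsUltrametricDist k] in
theorem famP_natDegree (P q : Polynomial k) (s r : ℕ) (u : k) (W B : PowerSeries k) (j : ℕ) :
    (famP P q s r u W B j).natDegree ≤ (s + 1 + q.natDegree) * j + (r + P.natDegree) := by
  refine Polynomial.natDegree_sum_le_of_forall_le _ _ fun i hi => ?_
  rw [mem_range] at hi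
  refine (Polynomial.natDegree_mul_C_le _ _).trans ?_
  refine Polynomial.natDegree_mul_le.trans ?_
  have h1 : (∏ l ∈ range j, q.comp (Polynomial.X - Polynomial.C (l : k))).natDegree ≤
      j * q.natDegree := by
    refine (Polynomial.natDegree_prod_le _ _).trans ?_
    refine (sum_le_card_nsmul _ _ q.natDegree fun l _ => ?_).trans (by simp)
    refine Polynomial.natDegree_comp_le.trans ?_
    rw [Polynomial.natDegree_X_sub_C, mul_one]
  have h2 := binP_natDegree (k := k) (i + j)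
  have h4 : (P.comp (Polynomial.X - Polynomial.C (j : k))).natDegree ≤ P.natDegree := by
    refine Polynomial.natDegree_comp_le.trans ?_
    rw [Polynomial.natDegree_X_sub_C, mul_one]
  have h5 : (P.comp (Polynomial.X - Polynomial.C (j : k)) *
      ∏ l ∈ range j, q.comp (Polynomial.X - Polynomial.C (l : k))).natDegree ≤
      P.natDegree + j * q.natDegree := Polynomial.natDegree_mul_le.trans (by omega)
  have h3 : (s + 1 + q.natDegree) * j + (r + P.natDegree) =
      s * j + j + j * q.natDegree + r + P.natDegree := by ring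
  rw [h3]
  omega

theorem norm_eval_int_le {q : Polynomial k} (hq : ∀ n, ‖q.coeff n‖ ≤ 1) {x : k} (hx : ‖x‖ ≤ 1) :
    ‖q.eval x‖ ≤ 1 := by
  rw [Polynomial.eval_eq_sum_range]
  refine IsUltrametricDist.norm_sum_le_of_forall_le_of_nonneg zero_le_one fun i _ => ?_
  rw [norm_mul, norm_pow]
  exact mul_le_one₀ (hq i) (by positivity) (pow_le_one₀ (norm_nonneg _) hx)

theorem norm_coeff_mul_le {W B : PowerSeries k} {C : ℝ} {a : ℕ} (hC : 0 ≤ C)
    (hW : ∀ n, ‖PowerSeries.coeff n W‖ ≤ 1)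
    (hB : ∀ n, ‖PowerSeries.coeff n B‖ ≤ C * ((n + 1 : ℕ) : ℝ) ^ a) (n : ℕ) :
    ‖PowerSeries.coeff n (W * B)‖ ≤ C * ((n + 1 : ℕ) : ℝ) ^ a := by
  rw [PowerSeries.coeff_mul]
  refine IsUltrametricDist.norm_sum_le_of_forall_le_of_nonneg (by positivity) fun x hx => ?_
  rw [HasAntidiagonal.mem_antidiagonal] at hx
  rw [norm_mul]
  calc ‖PowerSeries.coeff x.1 W‖ * ‖PowerSeries.coeff x.2 B‖
      ≤ 1 * (C * ((x.2 + 1 : ℕ) : ℝ) ^ a) :=
        mul_le_mul (hW _) (hB _) (norm_nonneg _) zero_le_one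
    _ ≤ C * ((n + 1 : ℕ) : ℝ) ^ a := by
        rw [one_mul]
        refine mul_le_mul_of_nonneg_left (pow_le_pow_left₀ (by positivity) ?_ a) hC
        exact_mod_cast (by omega : x.2 + 1 ≤ n + 1)

theorem norm_coeff_pow_mul_le {W B : PowerSeries k} {C : ℝ} {a : ℕ} (hC : 0 ≤ C)
    (hW : ∀ n, ‖PowerSeries.coeff n W‖ ≤ 1)
    (hB : ∀ n, ‖PowerSeries.coeff n B‖ ≤ C * ((n + 1 : ℕ) : ℝ) ^ a) (i : ℕ) :
    ∀ n, ‖PowerSeries.coeff n (W ^ i * B)‖ ≤ C * ((n + 1 : ℕ) : ℝ) ^ a := by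
  induction i with
  | zero => simpa using hB
  | succ i ih =>
    intro n
    rw [pow_succ', mul_assoc]
    exact norm_coeff_mul_le hC hW ih n

theorem famP_norm_le {P q : Polynomial k} (hP : ∀ n, ‖P.coeff n‖ ≤ 1) (hq : ∀ n, ‖q.coeff n‖ ≤ 1)
    [CharZero k] {s r : ℕ} {u : k}
    (hu : ‖u‖ ≤ 1) {W B : PowerSeries k} {C : ℝ} {a : ℕ} (hC : 0 ≤ C)
    (hW : ∀ n, ‖PowerSeries.coeff n W‖ ≤ 1)
    (hB : ∀ n, ‖PowerSeries.coeff n B‖ ≤ C * ((n + 1 : ℕ) : ℝ) ^ a) (j N : ℕ) :
    ‖(famP P q s r u W B j).eval (N : k)‖ ≤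
      C * (‖((j.factorial : ℕ) : k)‖ * ((s * j + r + 1 : ℕ) : ℝ) ^ a) := by
  rw [famP, Polynomial.eval_finsetSum]
  refine IsUltrametricDist.norm_sum_le_of_forall_le_of_nonneg (by positivity) fun i hi => ?_
  rw [mem_range] at hi
  rw [Polynomial.eval_mul, Polynomial.eval_mul, Polynomial.eval_mul, binP_eval,
    Polynomial.eval_prod, Polynomial.eval_C, norm_mul, norm_mul]
  have h0 : ∀ (q : Polynomial k) (_ : ∀ n, ‖q.coeff n‖ ≤ 1) (l : ℕ),
      ‖(q.comp (Polynomial.X - Polynomial.C (l : k))).eval (N : k)‖ ≤ 1 := by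
    intro q hq l
    rw [Polynomial.eval_comp]
    refine norm_eval_int_le hq ?_
    rw [Polynomial.eval_sub, Polynomial.eval_X, Polynomial.eval_C]
    have : ((N : k) - (l : k)) = (((N : ℤ) - (l : ℤ) : ℤ) : k) := by push_cast; rfl
    rw [this]
    exact norm_int_le _
  have h1 : ‖(P.comp (Polynomial.X - Polynomial.C (j : k))).eval (N : k) *
      ∏ l ∈ range j, (q.comp (Polynomial.X - Polynomial.C (l : k))).eval (N : k)‖ ≤ 1 := by
    rw [norm_mul, norm_prod]
    exact mul_le_one₀ (h0 P hP j) (prod_nonneg fun _ _ => norm_nonneg _)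
      (prod_le_one (fun _ _ => norm_nonneg _) fun l _ => h0 q hq l)
  have h2 : ‖(((i + j).descFactorial j : ℕ) : k)‖ ≤ ‖((j.factorial : ℕ) : k)‖ := by
    rw [Nat.descFactorial_eq_factorial_mul_choose, Nat.cast_mul, norm_mul]
    exact mul_le_of_le_one_right (norm_nonneg _) (norm_nat_le _)
  have h3 : ‖u ^ j * PowerSeries.coeff (s * j + r - i) (W ^ i * B)‖ ≤
      C * ((s * j + r + 1 : ℕ) : ℝ) ^ a := by
    rw [norm_mul, norm_pow]
    calc ‖u‖ ^ j * ‖PowerSeries.coeff (s * j + r - i) (W ^ i * B)‖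
        ≤ 1 * (C * ((s * j + r - i + 1 : ℕ) : ℝ) ^ a) :=
          mul_le_mul (pow_le_one₀ (norm_nonneg _) hu) (norm_coeff_pow_mul_le hC hW hB i _)
            (norm_nonneg _) zero_le_one
      _ ≤ _ := by
          rw [one_mul]
          refine mul_le_mul_of_nonneg_left (pow_le_pow_left₀ (by positivity) ?_ a) hC
          exact_mod_cast (by omega : s * j + r - i + 1 ≤ s * j + r + 1)
  calc ‖((N.choose (i + j) : ℕ) : k)‖ *
        ‖(P.comp (Polynomial.X - Polynomial.C (j : k))).eval (N : k) *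
          ∏ l ∈ range j, (q.comp (Polynomial.X - Polynomial.C (l : k))).eval (N : k)‖ *
        ‖(((i + j).descFactorial j : ℕ) : k) * (u ^ j *
          PowerSeries.coeff (s * j + r - i) (W ^ i * B))‖
      ≤ (1 * 1) * (‖((j.factorial : ℕ) : k)‖ * (C * ((s * j + r + 1 : ℕ) : ℝ) ^ a)) := by
        rw [norm_mul (((i + j).descFactorial j : ℕ) : k)]
        refine mul_le_mul (mul_le_mul (norm_nat_le _) h1 (norm_nonneg _) zero_le_one)
          (mul_le_mul h2 h3 (norm_nonneg _) (norm_nonneg _)) (by positivity) (by norm_num)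
    _ = _ := by ring

omit [IsUltrametricDist k] in
theorem coeff_pow_mul {W B : PowerSeries k} (n t : ℕ) :
    PowerSeries.coeff n ((PowerSeries.X * W + 1) ^ t * B) = ∑ i ∈ range (n + 1),
      ((t.choose i : ℕ) : k) * PowerSeries.coeff (n - i) (W ^ i * B) := by
  have h1 : (PowerSeries.X * W + 1) ^ t * B = ∑ i ∈ range (t + 1),
      PowerSeries.C (((t.choose i : ℕ) : k)) * (PowerSeries.X ^ i * (W ^ i * B)) := by
    rw [add_pow, sum_mul]
    refine sum_congr rfl fun i _ => ?_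
    have : (((t.choose i : ℕ) : PowerSeries k)) = PowerSeries.C (((t.choose i : ℕ) : k)) := by simp
    rw [one_pow, mul_one, mul_pow, this]
    ring
  rw [h1, map_sum]
  set g : ℕ → k := fun i => ((t.choose i : ℕ) : k) *
    (if i ≤ n then PowerSeries.coeff (n - i) (W ^ i * B) else 0) with hg
  have h2 : ∑ i ∈ range (t + 1), PowerSeries.coeff n
      (PowerSeries.C (((t.choose i : ℕ) : k)) * (PowerSeries.X ^ i * (W ^ i * B))) =
      ∑ i ∈ range (t + 1), g i := by
    refine sum_congr rfl fun i _ => ?_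
    rw [PowerSeries.coeff_C_mul, PowerSeries.coeff_X_pow_mul']
  have h3 : ∑ i ∈ range (n + 1), ((t.choose i : ℕ) : k) *
      PowerSeries.coeff (n - i) (W ^ i * B) = ∑ i ∈ range (n + 1), g i := by
    refine sum_congr rfl fun i hi => ?_
    rw [mem_range] at hi
    simp only [hg]
    rw [if_pos (by omega)]
  rw [h2, h3]
  have h4 : ∑ i ∈ range (t + 1), g i = ∑ i ∈ range (max t n + 1), g i := by
    refine sum_subset (range_subset_range.2 (by omega)) fun i _ hi => ?_
    rw [mem_range, not_lt] at hi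
    simp only [hg]
    rw [Nat.choose_eq_zero_of_lt (by omega), Nat.cast_zero, zero_mul]
  have h5 : ∑ i ∈ range (n + 1), g i = ∑ i ∈ range (max t n + 1), g i := by
    refine sum_subset (range_subset_range.2 (by omega)) fun i _ hi => ?_
    rw [mem_range, not_lt] at hi
    simp only [hg]
    rw [if_neg (by omega), mul_zero]
  rw [h4, h5]

omit [IsUltrametricDist k] in
theorem Sval_eq_sum [CharZero k] {P q : Polynomial k} {s r : ℕ} {u ρ : k} (hu : u * ρ = 1)
    (V W B : PowerSeries k) (hV : V = PowerSeries.C ρ * (PowerSeries.X * W + 1)) (N : ℕ) :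
    u ^ N * Sval P q s r V B N = ∑ j ∈ range (N + 1), (famP P q s r u W B j).eval (N : k) := by
  rw [Sval, mul_sum]
  refine sum_congr rfl fun j hj => ?_
  rw [mem_range] at hj
  have h4 : u ^ N * ρ ^ (N - j) = u ^ j := by
    have : N = j + (N - j) := by omega
    conv_lhs => rw [this, pow_add]
    rw [Nat.add_sub_cancel_left, mul_assoc, ← mul_pow, hu, one_pow, mul_one]
  have h5 : PowerSeries.coeff (s * j + r) (V ^ (N - j) * B) = ρ ^ (N - j) *
      ∑ i ∈ range (s * j + r + 1), (((N - j).choose i : ℕ) : k) *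
        PowerSeries.coeff (s * j + r - i) (W ^ i * B) := by
    rw [hV, mul_pow, ← map_pow, mul_assoc, PowerSeries.coeff_C_mul, coeff_pow_mul]
  rw [h5, famP, Polynomial.eval_finsetSum]
  rw [show u ^ N * ((N.descFactorial j : k) * (P.eval ((N : k) - j) *
      ∏ l ∈ range j, q.eval ((N : k) - l)) * (ρ ^ (N - j) * ∑ i ∈ range (s * j + r + 1), (((N - j).choose i : ℕ) : k) *
        PowerSeries.coeff (s * j + r - i) (W ^ i * B))) =
      ((u ^ N * ρ ^ (N - j)) * ((N.descFactorial j : k) * (P.eval ((N : k) - j) *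
        ∏ l ∈ range j, q.eval ((N : k) - l)))) *
      ∑ i ∈ range (s * j + r + 1), (((N - j).choose i : ℕ) : k) *
        PowerSeries.coeff (s * j + r - i) (W ^ i * B) by ring, h4, mul_sum]
  refine sum_congr rfl fun i _ => ?_
  rw [Polynomial.eval_mul, Polynomial.eval_mul, Polynomial.eval_mul, binP_eval,
    Polynomial.eval_prod, Polynomial.eval_C]
  have h8 : (P.comp (Polynomial.X - Polynomial.C (j : k))).eval (N : k) =
      P.eval ((N : k) - j) := by
    rw [Polynomial.eval_comp, Polynomial.eval_sub, Polynomial.eval_X, Polynomial.eval_C]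
  have h6 : ∀ l ∈ range j, (q.comp (Polynomial.X - Polynomial.C (l : k))).eval (N : k) =
      q.eval ((N : k) - l) := fun l _ => by
    rw [Polynomial.eval_comp, Polynomial.eval_sub, Polynomial.eval_X, Polynomial.eval_C]
  rw [prod_congr rfl h6, h8]
  have h7 : (N.descFactorial j : k) * (((N - j).choose i : ℕ) : k) =
      ((N.choose (i + j) : ℕ) : k) * (((i + j).descFactorial j : ℕ) : k) := by
    rw [← Nat.cast_mul, ← Nat.cast_mul, desc_choose]
  calc u ^ j * ((N.descFactorial j : k) * (P.eval ((N : k) - j) *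
        ∏ l ∈ range j, q.eval ((N : k) - l))) *
        ((((N - j).choose i : ℕ) : k) * PowerSeries.coeff (s * j + r - i) (W ^ i * B))
      = ((N.descFactorial j : k) * (((N - j).choose i : ℕ) : k)) *
        (P.eval ((N : k) - j) * ∏ l ∈ range j, q.eval ((N : k) - l)) * (u ^ j *
          PowerSeries.coeff (s * j + r - i) (W ^ i * B)) := by ring
    _ = _ := by rw [h7]; ring

/-- Decay of the numerators -/
theorem Decay.Sval [CharZero k] {p : ℕ} (hp : p.Prime) (hpk : ‖(p : k)‖ < 1)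
    {P q : Polynomial k} (hP : ∀ n, ‖P.coeff n‖ ≤ 1) (hq : ∀ n, ‖q.coeff n‖ ≤ 1) {s r : ℕ} {u ρ : k} (hu : u * ρ = 1) (hρ : ‖ρ‖ = 1)
    (V B : PowerSeries k) (hV : PowerSeries.coeff 0 V = ρ)
    (hV1 : ∀ n, ‖PowerSeries.coeff n V‖ ≤ 1) {C : ℝ} {a : ℕ} (hC : 0 ≤ C)
    (hB : ∀ n, ‖PowerSeries.coeff n B‖ ≤ C * ((n + 1 : ℕ) : ℝ) ^ a) :
    Decay (fun N => u ^ N * Sval P q s r V B N) := by
  have hu1 : ‖u‖ = 1 := by
    have h1 := congrArg norm hu
    rwa [norm_mul, hρ, mul_one, norm_one] at h1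
  set W : PowerSeries k := PowerSeries.C u * PowerSeries.mk fun n => PowerSeries.coeff (n + 1) V
    with hW
  have hW1 : ∀ n, ‖PowerSeries.coeff n W‖ ≤ 1 := by
    intro n
    rw [hW, PowerSeries.coeff_C_mul, PowerSeries.coeff_mk, norm_mul, hu1, one_mul]
    exact hV1 _
  have h1 : V = PowerSeries.C ρ * (PowerSeries.X * W + 1) := by
    have h2 : V = PowerSeries.X * (PowerSeries.mk fun n => PowerSeries.coeff (n + 1) V) +
        PowerSeries.C ρ := by
      ext n
      rcases n with _ | n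
      · simp [← hV]
      · rw [map_add, PowerSeries.coeff_succ_X_mul, PowerSeries.coeff_mk, PowerSeries.coeff_C,
          if_neg (Nat.succ_ne_zero n), add_zero]
    have h3 : (PowerSeries.C ρ : PowerSeries k) * PowerSeries.C u = 1 := by
      rw [← map_mul, mul_comm, hu, map_one]
    rw [hW]
    conv_lhs => rw [h2]
    rw [mul_add, mul_one, mul_left_comm, ← mul_assoc (PowerSeries.C ρ : PowerSeries k), h3, one_mul]
  obtain ⟨D, θ, hD, h0, hθ1, h⟩ := factorial_decay' (k := k) hp hpk (s + 1 + q.natDegree)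
    (by omega) s r a
  have h4 := Decay.of_family (P := famP P q s r u W B) (L := s + 1 + q.natDegree)
    (r := r + P.natDegree) (C := C * D) (by positivity) h0 hθ1 (famP_natDegree P q s r u W B) (fun j N => ?_)
    (fun j N hN => ?_)
  · refine Eq.mp (congrArg Decay ?_) h4
    funext N
    exact (Sval_eq_sum hu V W B h1 N).symm
  · refine (famP_norm_le hP hq hu1.le hC hW1 hB j N).trans ?_
    rw [mul_assoc]
    exact mul_le_mul_of_nonneg_left (h j) hC
  · rw [famP, Polynomial.eval_finsetSum]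
    refine sum_eq_zero fun i _ => ?_
    rw [Polynomial.eval_mul, Polynomial.eval_mul, binP_eval, Nat.choose_eq_zero_of_lt (by omega),
      Nat.cast_zero, zero_mul, zero_mul]

/-- the ultrametric side of the theorem on sums -/
theorem decay_hyp_sum [CharZero k] {p : ℕ} (hp : p.Prime) (hpk : ‖(p : k)‖ < 1) {q : Polynomial k}
    (hq : ∀ n, ‖q.coeff n‖ ≤ 1) {ι : Type*} (T : Finset ι) (P : ι → Polynomial k)
    (hP : ∀ i ∈ T, ∀ n, ‖(P i).coeff n‖ ≤ 1) (V B : ι → PowerSeries k) (s r c : ℕ)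
    {L : ℕ} (hρ : ∀ i ∈ T, ‖PowerSeries.coeff 0 (V i)‖ = 1)
    (hρ1 : ∀ i ∈ T, ‖PowerSeries.coeff 0 (V i) ^ L - 1‖ < 1)
    (hV1 : ∀ i ∈ T, ∀ n, ‖PowerSeries.coeff n (V i)‖ ≤ 1) {C : ℝ} {a : ℕ} (hC : 0 ≤ C)
    (hB : ∀ i ∈ T, ∀ n, ‖PowerSeries.coeff n (B i)‖ ≤ C * ((n + 1 : ℕ) : ℝ) ^ a) :
    Decay (fun t => ∑ i ∈ T, Sval (P i) q s r (V i) (B i) (c + L * t)) := by
  have h1 : ∀ i ∈ T, Decay (fun t => Sval (P i) q s r (V i) (B i) (c + L * t)) := by
    intro i hi
    set ρ : k := PowerSeries.coeff 0 (V i) with hρdef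
    have hρ0 : ρ ≠ 0 := by
      intro h
      have := hρ i hi
      rw [← hρdef, h, norm_zero] at this
      exact zero_ne_one this
    have hu : ρ⁻¹ * ρ = 1 := inv_mul_cancel₀ hρ0
    have h2 := (Decay.Sval hp hpk (hP i hi) hq (s := s) (r := r) hu (hρ i hi) (V i) (B i) rfl (hV1 i hi) hC
      (hB i hi)).comp c L
    have h3 := Decay.pow (hρ1 i hi)
    have h4 := ((h3.mul h2).const_mul (ρ ^ c))
    refine Eq.mp (congrArg Decay ?_) h4
    funext t
    simp only [Pi.mul_apply]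
    have h5 : ρ ^ c * ((ρ ^ L) ^ t * (ρ⁻¹ ^ (c + L * t))) = 1 := by
      rw [← pow_mul, ← mul_assoc, ← pow_add, ← mul_pow, mul_inv_cancel₀ hρ0, one_pow]
    calc ρ ^ c * ((ρ ^ L) ^ t * (ρ⁻¹ ^ (c + L * t) * Sval (P i) q s r (V i) (B i) (c + L * t)))
        = (ρ ^ c * ((ρ ^ L) ^ t * (ρ⁻¹ ^ (c + L * t)))) * Sval (P i) q s r (V i) (B i) (c + L * t) := by
          ring
      _ = _ := by rw [h5, one_mul]
  have h2 := Decay.sum T h1
  refine Eq.mp (congrArg Decay ?_) h2
  funext t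
  rw [Finset.sum_apply]

end Pool.Agent.Lib.MP_1eeaa7_nt
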