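import Pool.Agent.Lib.MP_1eeaa7_nt.HypCoeff
import Pool.Agent.Lib.MP_1eeaa7_nt.Embed2

/-!
# Zero sets for sums `∑ F(A_i) * B_i`
-/

set_option autoImplicit false

namespace Pool.Agent.Lib.MP_1eeaa7_nt

open Finset PowerSeries

theorem finAP_hyp_of_embedding {K₀ K k : Type*} [Field K₀] [Field K] [CharZero K] [NormedField k]
    [IsUltrametricDist k] [CharZero k] {p : ℕ} (hp : p.Prime) (hpk : ‖(p : k)‖ < 1)
    (j : K₀ →+* K) (Φ : K₀ →+* k) {q : Polynomial K₀}
    (hq0 : ∀ n : ℕ, (q.map j).eval ((n : K) + 1) ≠ 0) (hq : ∀ n, ‖Φ (q.coeff n)‖ ≤ 1)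
    {ι : Type*} (T : Finset ι) (P : ι → Polynomial K₀)
    (hP : ∀ i ∈ T, ∀ n, ‖Φ ((P i).coeff n)‖ ≤ 1)
    (V B : ι → K₀⟦X⟧) {s : ℕ} (hs : s ≠ 0) {L : ℕ} (hL : L ≠ 0)
    (hρ : ∀ i ∈ T, ‖Φ (coeff 0 (V i))‖ = 1) (hρ1 : ∀ i ∈ T, ‖Φ (coeff 0 (V i)) ^ L - 1‖ < 1)
    (hV1 : ∀ i ∈ T, ∀ n, ‖Φ (coeff n (V i))‖ ≤ 1) {C : ℝ} {a : ℕ} (hC : 0 ≤ C)
    (hB : ∀ i ∈ T, ∀ n, ‖Φ (coeff n (B i))‖ ≤ C * ((n + 1 : ℕ) : ℝ) ^ a) :
    FinAP {n | coeff n (∑ i ∈ T, (hyp ((P i).map j) (q.map j)).subst (X ^ s * PowerSeries.map j (V i)) *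
      PowerSeries.map j (B i)) = 0} := by
  have key : ∀ {r : ℕ}, r < s → ∀ N, coeff (s * N + r) (∑ i ∈ T, (hyp ((P i).map j) (q.map j)).subst
      (X ^ s * PowerSeries.map j (V i)) * PowerSeries.map j (B i)) = 0 ↔
      ∑ i ∈ T, Sval ((P i).map Φ) (q.map Φ) s r (PowerSeries.map Φ (V i)) (PowerSeries.map Φ (B i)) N = 0 := by
    intro r hr N
    have h1 : ((N.factorial : K) * ∏ l ∈ range N, (q.map j).eval ((l : K) + 1)) *
        coeff (s * N + r) (∑ i ∈ T, (hyp ((P i).map j) (q.map j)).subst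
          (X ^ s * PowerSeries.map j (V i)) * PowerSeries.map j (B i)) =
        j (∑ i ∈ T, Sval (P i) q s r (V i) (B i) N) := by
      rw [map_sum, map_sum, mul_sum]
      refine sum_congr rfl fun i _ => ?_
      rw [coeff_hyp_subst_mul hq0 hs hr N, Sval_map]
    have h2 : ((N.factorial : K) * ∏ l ∈ range N, (q.map j).eval ((l : K) + 1)) ≠ 0 :=
      mul_ne_zero (Nat.cast_ne_zero.2 (Nat.factorial_ne_zero N))
        (prod_ne_zero_iff.2 fun l _ => hq0 l)
    have h3 : ∑ i ∈ T, Sval ((P i).map Φ) (q.map Φ) s r (PowerSeries.map Φ (V i)) (PowerSeries.map Φ (B i)) N =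
        Φ (∑ i ∈ T, Sval (P i) q s r (V i) (B i) N) := by
      rw [map_sum]
      exact sum_congr rfl fun i _ => (Sval_map Φ (P i) q s r (V i) (B i) N).symm
    rw [h3, map_eq_zero_iff Φ Φ.injective]
    constructor
    · intro h
      rw [h, mul_zero] at h1
      exact (map_eq_zero_iff j j.injective).1 h1.symm
    · intro h
      rw [h, map_zero] at h1
      exact (mul_eq_zero.1 h1).resolve_left h2
  refine FinAP.of_classes' (q := s * L) (mul_ne_zero hs hL) fun c _ => ?_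
  have hr : c % s < s := Nat.mod_lt _ (Nat.pos_of_ne_zero hs)
  obtain ⟨q', hq', hd⟩ := (decay_hyp_sum hp hpk (q := q.map Φ)
    (fun n => by rw [Polynomial.coeff_map]; exact hq n) T (fun i => (P i).map Φ)
    (fun i hi n => by rw [Polynomial.coeff_map]; exact hP i hi n)
    (fun i => PowerSeries.map Φ (V i)) (fun i => PowerSeries.map Φ (B i)) s (c % s) (c / s) (L := L)
    (fun i hi => by rw [coeff_map]; exact hρ i hi) (fun i hi => by rw [coeff_map]; exact hρ1 i hi)
    (fun i hi n => by rw [coeff_map]; exact hV1 i hi n) hC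
    (fun i hi n => by rw [coeff_map]; exact hB i hi n)).dichotomy hp hpk
  refine ⟨q', hq', fun N₀ => ?_⟩
  have hidx : ∀ t, c + s * L * (N₀ + q' * t) = s * (c / s + L * (N₀ + q' * t)) + c % s := by
    intro t
    conv_lhs => rw [← Nat.div_add_mod c s]
    ring
  rcases hd N₀ with h | h
  · refine Or.inl fun t => ?_
    show coeff (c + s * L * (N₀ + q' * t)) _ = 0
    rw [hidx t]
    exact (key hr _).2 (h t)
  · refine Or.inr (h.subset fun t ht => ?_)
    rw [Set.mem_ofPred_eq, Set.mem_ofPred_eq, hidx t] at ht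
    exact (key hr _).1 ht

theorem norm_unit_pow_sub_one {p : ℕ} [hp : Fact p.Prime] {x : ℚ_[p]} (h : ‖x‖ = 1) :
    ‖x ^ (p - 1) - 1‖ < 1 := by
  set ρ : ℤ_[p] := ⟨x, h.le⟩ with hρ
  have hunit : IsUnit ρ := PadicInt.isUnit_iff.2 h
  have h1 : PadicInt.toZMod (ρ ^ (p - 1) - 1) = 0 := by
    rw [map_sub, map_pow, map_one, ZMod.pow_card_sub_one_eq_one, sub_self]
    exact (hunit.map PadicInt.toZMod).ne_zero
  have h2 : ‖ρ ^ (p - 1) - 1‖ < 1 := norm_lt_one_iff_toZMod.2 h1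
  rw [← PadicInt.padic_norm_e_of_padicInt] at h2
  exact h2

/-- The fraction field of a finitely generated subring of `ℂ`, with its two embeddings. -/
theorem exists_fraction_embedding {K : Type*} [Field K] [CharZero K] (S : Set K) (hS : S.Finite) :
    ∃ p : ℕ, ∃ _ : Fact p.Prime, ∃ Φ : FractionRing (Subring.closure S) →+* ℚ_[p],
      ∃ j : FractionRing (Subring.closure S) →+* K,
        (∀ x : Subring.closure S, ‖Φ (algebraMap _ _ x)‖ ≤ 1) ∧
        ∀ x : Subring.closure S, j (algebraMap _ _ x) = (x : K) := by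
  obtain ⟨p, hp, φ, hφ⟩ := exists_padic_embedding S hS
  have hφ' : Function.Injective ((PadicInt.Coe.ringHom (p := p)).comp φ) := by
    rw [RingHom.coe_comp]
    exact Function.Injective.comp Subtype.val_injective hφ
  have hj : Function.Injective (Subring.closure S).subtype := Subtype.val_injective
  refine ⟨p, hp, IsFractionRing.lift hφ', IsFractionRing.lift hj, fun x => ?_, fun x => ?_⟩
  · rw [IsFractionRing.lift_algebraMap]
    exact PadicInt.norm_le_one _
  · rw [IsFractionRing.lift_algebraMap]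
    rfl

/-- a series whose coefficients have denominators with small prime powers -/
theorem norm_le_of_denominator {p : ℕ} [hp : Fact p.Prime] {x : ℚ_[p]} {d M : ℕ} (hd : d ≠ 0)
    (hM : ∀ e : ℕ, p ^ e ∣ d → p ^ e ≤ M) (h : ‖(d : ℚ_[p]) * x‖ ≤ 1) : ‖x‖ ≤ (M : ℝ) := by
  have h1 : ((M : ℝ))⁻¹ ≤ ‖(d : ℚ_[p])‖ := by
    have h0 : (d : ℚ_[p]) ≠ 0 := Nat.cast_ne_zero.2 hd
    rw [Padic.norm_eq_zpow_neg_valuation h0, Padic.valuation_natCast, zpow_neg, zpow_natCast]
    have h2 : (0 : ℝ) < (p : ℝ) ^ padicValNat p d := pow_pos (Nat.cast_pos.2 hp.out.pos) _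
    exact inv_anti₀ h2 (by exact_mod_cast hM _ pow_padicValNat_dvd)
  have hM0 : (0 : ℝ) < M := by
    have := hM 0 (by simp)
    rw [pow_zero] at this
    exact Nat.cast_pos.2 this
  rw [norm_mul] at h
  have h3 : ((M : ℝ))⁻¹ * ‖x‖ ≤ 1 :=
    (mul_le_mul_of_nonneg_right h1 (norm_nonneg _)).trans h
  rwa [inv_mul_le_iff₀ hM0, mul_one] at h3

/-- **Theorem on sums of hypergeometric functions.** -/
theorem finAP_hyp {K : Type*} [Field K] [CharZero K] (S : Set K) (hS : S.Finite)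
    {q : Polynomial K} (hq : ∀ n : ℕ, q.eval ((n : K) + 1) ≠ 0) {ι : Type*} (T : Finset ι)
    {s : ℕ} (hs : s ≠ 0) (a : ℕ) (P : ι → Polynomial K) (A B : ι → K⟦X⟧)
    (hA : ∀ i ∈ T, ∀ n, coeff n (A i) ∈ Subring.closure S)
    (hA0 : ∀ i ∈ T, ∀ n < s, coeff n (A i) = 0) (hAs : ∀ i ∈ T, coeff s (A i) ≠ 0)
    (hB : ∀ i ∈ T, ∀ n, ∃ d : ℕ, d ≠ 0 ∧ (∀ p e : ℕ, p.Prime → p ^ e ∣ d → p ^ e ≤ (n + 1) ^ a) ∧
      (d : K) * coeff n (B i) ∈ Subring.closure S) :
    FinAP {n | coeff n (∑ i ∈ T, (hyp (P i) q).subst (A i) * B i) = 0} := by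
  classical
  set S' : Set K := S ∪ ((T.image fun i => (coeff s (A i))⁻¹ : Finset K) : Set K) ∪
    ((((insert none (T.image some)).biUnion fun o : Option ι =>
      (range (((o.elim q P).natDegree + 1))).image fun n => (o.elim q P).coeff n) : Finset K) :
        Set K) with hS'
  have hS'f : S'.Finite := (hS.union (Finset.finite_toSet _)).union (Finset.finite_toSet _)
  have hSS : Subring.closure S ≤ Subring.closure S' :=
    Subring.closure_mono fun x hx => Or.inl (Or.inl hx)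
  obtain ⟨p, hp, Φ, j, hΦ, hj⟩ := exists_fraction_embedding S' hS'f
  have hpk : ‖(p : ℚ_[p])‖ < 1 := by
    rw [Padic.norm_p]
    exact inv_lt_one_of_one_lt₀ (by exact_mod_cast hp.out.one_lt)
  set K₀ := FractionRing (Subring.closure S')
  have hK₀ : CharZero K₀ := ⟨fun a b h => by
    have := congrArg j h
    rw [map_natCast, map_natCast] at this
    exact Nat.cast_injective this⟩
  -- lifting elements
  have hlift : ∀ x ∈ Subring.closure S', ∃ y : K₀, j y = x ∧ ‖Φ y‖ ≤ 1 := fun x hx =>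
    ⟨algebraMap _ _ (⟨x, hx⟩ : Subring.closure S'), hj _, hΦ _⟩
  have hliftA : ∀ i ∈ T, ∀ n, ∃ y : K₀, j y = coeff n (A i) ∧ ‖Φ y‖ ≤ 1 := fun i hi n =>
    hlift _ (hSS (hA i hi n))
  choose! Av hAv hAv1 using hliftA
  have hliftB : ∀ i ∈ T, ∀ n, ∃ y : K₀, j y = coeff n (B i) ∧
      ‖Φ y‖ ≤ 1 * ((n + 1 : ℕ) : ℝ) ^ a := by
    intro i hi n
    obtain ⟨d, hd, hd1, hd2⟩ := hB i hi n
    obtain ⟨y, hy, hy1⟩ := hlift _ (hSS hd2)
    have hdK : (d : K) ≠ 0 := Nat.cast_ne_zero.2 hd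
    have hdK0 : (d : K₀) ≠ 0 := Nat.cast_ne_zero.2 hd
    refine ⟨y / d, ?_, ?_⟩
    · rw [map_div₀, map_natCast, hy]
      field_simp
    · rw [one_mul]
      have h1 := norm_le_of_denominator (p := p) (x := Φ (y / d)) (M := (n + 1) ^ a) hd
        (fun e he => hd1 p e hp.out he) (by
          rw [← map_natCast Φ, ← map_mul, mul_div_cancel₀ _ hdK0]
          exact hy1)
      exact_mod_cast h1
  choose! Bv hBv hBv1 using hliftB
  have hliftq : ∀ o : Option ι, o ∈ insert none (T.image some) → ∃ Q : Polynomial K₀,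
      Q.map j = o.elim q P ∧ ∀ n, ‖Φ (Q.coeff n)‖ ≤ 1 := by
    intro o ho
    have h1 : ∀ n, ∃ y : K₀, j y = (o.elim q P).coeff n ∧ ‖Φ y‖ ≤ 1 := by
      intro n
      by_cases hn : n < (o.elim q P).natDegree + 1
      · refine hlift _ (Subring.subset_closure (Or.inr ?_))
        rw [mem_coe, mem_biUnion]
        exact ⟨o, ho, mem_image.2 ⟨n, mem_range.2 hn, rfl⟩⟩
      · exact ⟨0, by rw [map_zero, Polynomial.coeff_eq_zero_of_natDegree_lt (by omega)],
          by rw [map_zero, norm_zero]; exact zero_le_one⟩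
    choose qv hqv hqv1 using h1
    refine ⟨∑ n ∈ range ((o.elim q P).natDegree + 1), Polynomial.monomial n (qv n), ?_⟩
    have hc : ∀ n, (∑ n ∈ range ((o.elim q P).natDegree + 1),
        Polynomial.monomial n (qv n)).coeff n =
        if n < (o.elim q P).natDegree + 1 then qv n else 0 := by
      intro n
      rw [Polynomial.finsetSum_coeff]
      simp only [Polynomial.coeff_monomial]
      rw [sum_ite_eq']
      simp
    constructor
    · ext n
      rw [Polynomial.coeff_map, hc]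
      split_ifs with h
      · exact hqv n
      · rw [map_zero, Polynomial.coeff_eq_zero_of_natDegree_lt (by omega)]
    · intro n
      rw [hc]
      split_ifs
      · exact hqv1 n
      · rw [map_zero, norm_zero]; exact zero_le_one
  choose! Q hQ hQ1 using hliftq
  have hq₀q : (Q none).map j = q := hQ none (mem_insert_self _ _)
  have hsome : ∀ i ∈ T, some i ∈ insert none (T.image some) := fun i hi =>
    mem_insert_of_mem (mem_image_of_mem _ hi)
  set V₀ : ι → K₀⟦X⟧ := fun i => PowerSeries.mk fun n => Av i (n + s) with hV₀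
  set B₀ : ι → K₀⟦X⟧ := fun i => PowerSeries.mk fun n => Bv i n with hB₀
  have hVA : ∀ i ∈ T, X ^ s * PowerSeries.map j (V₀ i) = A i := by
    intro i hi
    ext n
    rw [coeff_X_pow_mul']
    split_ifs with h
    · rw [coeff_map, hV₀, coeff_mk, hAv i hi, Nat.sub_add_cancel h]
    · rw [hA0 i hi n (by omega)]
  have hBB : ∀ i ∈ T, PowerSeries.map j (B₀ i) = B i := by
    intro i hi
    ext n
    rw [coeff_map, hB₀, coeff_mk, hBv i hi]
  have hnorm1 : ∀ i ∈ T, ‖Φ (coeff 0 (V₀ i))‖ = 1 := by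
    intro i hi
    rw [hV₀, coeff_mk, zero_add]
    obtain ⟨y, hy, hy1⟩ := hlift (coeff s (A i))⁻¹ (Subring.subset_closure (Or.inl (Or.inr (by
      rw [mem_coe, mem_image]
      exact ⟨i, hi, rfl⟩))))
    have h1 : Av i s * y = 1 := by
      apply j.injective
      rw [map_mul, hAv i hi, hy, map_one, mul_inv_cancel₀ (hAs i hi)]
    have h2 := congrArg (fun z => ‖Φ z‖) h1
    simp only [map_mul, norm_mul, map_one, norm_one] at h2
    refine le_antisymm (hAv1 i hi s) ?_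
    rw [← h2]
    exact mul_le_of_le_one_right (norm_nonneg _) hy1
  have hp1 : p - 1 ≠ 0 := by have := hp.out.two_le; omega
  have main := finAP_hyp_of_embedding hp.out hpk j Φ (q := Q none) (by rw [hq₀q]; exact hq)
    (hQ1 none (mem_insert_self _ _)) T (fun i => Q (some i)) (fun i hi => hQ1 _ (hsome i hi))
    V₀ B₀ hs (L := p - 1) hp1 hnorm1
    (fun i hi => norm_unit_pow_sub_one (hnorm1 i hi))
    (fun i hi n => by rw [hV₀, coeff_mk]; exact hAv1 i hi _) zero_le_one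
    (fun i hi n => by rw [hB₀, coeff_mk]; exact hBv1 i hi n)
  rw [hq₀q] at main
  have e : ∑ i ∈ T, (hyp ((Q (some i)).map j) q).subst (X ^ s * PowerSeries.map j (V₀ i)) *
      PowerSeries.map j (B₀ i) = ∑ i ∈ T, (hyp (P i) q).subst (A i) * B i :=
    sum_congr rfl fun i hi => by
      have hPi : (Q (some i)).map j = P i := hQ (some i) (hsome i hi)
      rw [hVA i hi, hBB i hi, hPi]
  rwa [e] at main

end Pool.Agent.Lib.MP_1eeaa7_nt
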