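import Pool.Agent.Lib.MP_1eeaa7_nt.System3

/-!
# The criterion for systems `x Y' = B Y`
-/

set_option autoImplicit false

namespace Pool.Agent.Lib.MP_1eeaa7_nt

open Finset PowerSeries

theorem FinAP.of_classes_inter {q : ℕ} (hq : q ≠ 0) {ι : Type*} (T : Finset ι) (P : ι → Set ℕ)
    (h : ∀ c < q, ∀ i ∈ T, ∃ q' : ℕ, q' ≠ 0 ∧ ∀ N₀, (∀ t, c + q * (N₀ + q' * t) ∈ P i) ∨
      {t | c + q * (N₀ + q' * t) ∈ P i}.Finite) : FinAP {n | ∀ i ∈ T, n ∈ P i} := by
  classical
  refine FinAP.of_classes' hq fun c hc => ?_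
  have h' := h c hc
  choose! Q hQ0 hQ using h'
  refine ⟨∏ i ∈ T, Q i, prod_ne_zero_iff.2 hQ0, fun N₀ => ?_⟩
  by_cases hall : ∀ i ∈ T, ∀ t, c + q * (N₀ + Q i * t) ∈ P i
  · left
    intro t i hi
    obtain ⟨w, hw⟩ := dvd_prod_of_mem Q hi
    rw [hw, mul_assoc]
    exact hall i hi (w * t)
  · right
    push Not at hall
    obtain ⟨i, hi, t₀, ht₀⟩ := hall
    have hfin := (hQ i hi N₀).resolve_left fun hh => ht₀ (hh t₀)
    obtain ⟨w, hw⟩ := dvd_prod_of_mem Q hi
    have hw0 : w ≠ 0 := by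
      rintro rfl
      rw [mul_zero] at hw
      exact prod_ne_zero_iff.2 hQ0 hw
    refine Set.Finite.of_finite_image (f := fun t => w * t) (hfin.subset ?_) ?_
    · rintro _ ⟨t, ht, rfl⟩
      have h1 := ht i hi
      rw [hw, mul_assoc] at h1
      exact h1
    · intro t _ t' _ htt
      exact Nat.eq_of_mul_eq_mul_left (Nat.pos_of_ne_zero hw0) htt

theorem exists_bound {α : Type*} (s : Finset α) (f : α → ℝ) (a : ℝ) (ha : a < 1)
    (h : ∀ x ∈ s, f x < 1) : ∃ ε : ℝ, a ≤ ε ∧ ε < 1 ∧ ∀ x ∈ s, f x ≤ ε := by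
  classical
  induction s using Finset.induction_on with
  | empty => exact ⟨a, le_rfl, ha, fun x hx => absurd hx (notMem_empty x)⟩
  | insert b s hb ih =>
    obtain ⟨ε, h1, h2, h3⟩ := ih fun x hx => h x (mem_insert_of_mem hx)
    refine ⟨max ε (f b), le_max_of_le_left h1, max_lt h2 (h b (mem_insert_self _ _)), ?_⟩
    intro x hx
    rcases mem_insert.1 hx with rfl | hx
    · exact le_max_right _ _
    · exact (h3 x hx).trans (le_max_left _ _)

theorem finAP_system {K₀ K k : Type*} [Field K₀] [Field K] [CharZero K] [NormedField k]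
    [IsUltrametricDist k] [CharZero k] {p : ℕ} (hp : p.Prime) (hpk : ‖(p : k)‖ < 1)
    (j : K₀ →+* K) (Φ : K₀ →+* k) {m : ℕ} {B : Matrix (Fin m) (Fin m) K₀⟦X⟧} {Q : Polynomial K₀}
    {g : Fin m → K₀⟦X⟧} {Y : Fin m → K⟦X⟧}
    (hY : ∀ i, X * d⁄dX K (Y i) = ∑ l, PowerSeries.map j (B i l) * Y l)
    (hQB : Polynomial.aeval (B.map constantCoeff) Q = 0)
    (hQ0 : ∀ n : ℕ, Q.eval ((n : K₀) + 1) ≠ 0) (hQ : ∀ n, ‖Φ (Q.coeff n)‖ ≤ 1)
    (hB : ∀ i l n, ‖Φ (coeff n (B i l))‖ ≤ 1) {L : ℕ} (hL0 : L ≠ 0)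
    (hL : ∀ i l, ‖Φ (((mat0 B Q p) ^ L - 1) i l)‖ < 1) {C : ℝ} (hC : 0 ≤ C) {A : ℕ}
    (hg : ∀ i n, ‖Φ (coeff n (g i))‖ ≤ C * ((n + 1 : ℕ) : ℝ) ^ A) :
    FinAP {n | coeff n (∑ i, PowerSeries.map j (g i) * Y i) = 0} := by
  classical
  have hp0 : 0 < ‖(p : k)‖ := norm_pos_iff.2 (Nat.cast_ne_zero.2 hp.ne_zero)
  obtain ⟨ε, hε1, hε2, hε3⟩ := exists_bound (Finset.univ : Finset (Fin m × Fin m))
    (fun x => ‖Φ (((mat0 B Q p) ^ L - 1) x.1 x.2)‖) ‖(p : k)‖ hpk (fun x _ => hL x.1 x.2)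
  -- data over `K`
  set BK : Matrix (Fin m) (Fin m) K⟦X⟧ := B.map (PowerSeries.map j) with hBK
  set gK : Fin m → K⟦X⟧ := mapV j g with hgK
  have hYK : ∀ i, X * d⁄dX K (Y i) = ∑ l, BK i l * Y l := hY
  have hQBK : Polynomial.aeval (BK.map constantCoeff) (Q.map j) = 0 := by
    rw [hBK, map_constantCoeff_map, aeval_map_matrix, hQB]
    ext i l; simp
  -- data over `k`
  set Bk : Matrix (Fin m) (Fin m) k⟦X⟧ := B.map (PowerSeries.map Φ) with hBk
  set gk : Fin m → k⟦X⟧ := mapV Φ g with hgk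
  have hQBk : Polynomial.aeval (Bk.map constantCoeff) (Q.map Φ) = 0 := by
    rw [hBk, map_constantCoeff_map, aeval_map_matrix, hQB]
    ext i l; simp
  set β : ℕ → Fin m → K₀ := fun n i => ev0 ((dE B Q ^ n) g) i with hβ
  set η : Fin m → K := fun i => constantCoeff (Y i) with hη
  have hzero : ∀ n, coeff n (∑ i, PowerSeries.map j (g i) * Y i) = 0 ↔
      ∑ i, j (β n i) * η i = 0 := by
    intro n
    have h1 := coeff_pair_d_pow hYK hQBK n gK 0
    have h2 : coeff 0 (pair ((dE BK (Q.map j) ^ n) gK) Y) = ∑ i, j (β n i) * η i := by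
      rw [hgK, hBK, ← mapV_d_pow, pair, map_sum]
      refine sum_congr rfl fun i _ => ?_
      rw [coeff_zero_eq_constantCoeff_apply, map_mul, ← ev0_mapV j]
      rfl
    rw [h2, zero_add] at h1
    have h3 : ∏ l ∈ range n, (Q.map j).eval (((0 + l : ℕ) : K) + 1) ≠ 0 := by
      refine prod_ne_zero_iff.2 fun l _ h => hQ0 l ?_
      rw [zero_add] at h
      apply j.injective
      rw [map_zero, ← h, Polynomial.eval_map, ← map_natCast j l, ← map_one j, ← map_add,
        Polynomial.eval₂_at_apply]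
    rw [h1]
    constructor
    · intro h
      have h4 : coeff n (pair gK Y) = 0 := h
      rw [h4, mul_zero]
    · intro h
      exact (mul_eq_zero.1 h).resolve_left h3
  -- linear algebra over `K₀`
  let _ : Algebra K₀ K := j.toAlgebra
  let b := Module.Basis.ofVectorSpace K₀ K
  set T : Finset _ := Finset.univ.biUnion fun i => (b.repr (η i)).support with hT
  have hset : {n | coeff n (∑ i, PowerSeries.map j (g i) * Y i) = 0} =
      {n | ∀ c ∈ T, n ∈ {n | ∑ i, β n i * (b.repr (η i)) c = 0}} := by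
    ext n
    rw [Set.mem_ofPred_eq, hzero, Set.mem_ofPred_eq]
    have h1 : ∑ i, j (β n i) * η i = ∑ i, β n i • η i :=
      sum_congr rfl fun i _ => (Algebra.smul_def _ _).symm
    rw [h1, ← b.repr.map_eq_zero_iff, map_sum]
    constructor
    · intro h c _
      have h2 := congrArg (fun z => z c) h
      simp only [Finsupp.coe_finsetSum, Finset.sum_apply, Finsupp.coe_zero, Pi.zero_apply,
        map_smul, Finsupp.coe_smul, Pi.smul_apply, smul_eq_mul] at h2
      exact h2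
    · intro h
      ext c
      simp only [Finsupp.coe_finsetSum, Finset.sum_apply, Finsupp.coe_zero, Pi.zero_apply,
        map_smul, Finsupp.coe_smul, Pi.smul_apply, smul_eq_mul]
      by_cases hc : c ∈ T
      · exact h c hc
      · refine sum_eq_zero fun i _ => ?_
        have : (b.repr (η i)) c = 0 := by
          by_contra hne
          exact hc (mem_biUnion.2 ⟨i, mem_univ _, Finsupp.mem_support_iff.2 hne⟩)
        rw [this, mul_zero]
  rw [hset]
  have hpL : p * L ≠ 0 := mul_ne_zero hp.ne_zero hL0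
  refine FinAP.of_classes_inter hpL T _ fun c _ e _ => ?_
  have hdec : ∀ i, Decay (fun t => Φ (β (c + p * L * t) i)) := by
    intro i
    have h1 := decay_system (B := Bk) (Q := Q.map Φ) (g := gk)
      (fun i l n => by rw [hBk, Matrix.map_apply, coeff_map]; exact hB i l n)
      (fun n => by rw [Polynomial.coeff_map]; exact hQ n) hQBk hp.ne_zero (hp0.trans_le hε1) hε2
      hε1 (L := L) (fun i l => by
        rw [hBk, mat0_map]
        have h2 : ((mat0 B Q p).map Φ) ^ L - 1 = ((mat0 B Q p) ^ L - 1).map Φ := by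
          have h3 := map_pow (Φ.mapMatrix (m := Fin m)) (mat0 B Q p) L
          have h4 := map_sub (Φ.mapMatrix (m := Fin m)) ((mat0 B Q p) ^ L) 1
          have h5 := map_one (Φ.mapMatrix (m := Fin m))
          simp only [RingHom.mapMatrix_apply] at h3 h4 h5
          rw [h4, h3, h5]
        rw [h2]
        exact hε3 (i, l) (mem_univ _)) hC
      (fun i n => by
        show ‖coeff n (PowerSeries.map Φ (g i))‖ ≤ _
        rw [coeff_map]; exact hg i n) c i
    refine Eq.mp (congrArg Decay ?_) h1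
    funext t
    rw [hgk, hBk, ← mapV_d_pow, ev0_mapV]
  have hdec2 : Decay (fun t => Φ (∑ i, β (c + p * L * t) i * (b.repr (η i)) e)) := by
    have h1 := Decay.sum Finset.univ (fun i _ => (hdec i).const_mul (Φ ((b.repr (η i)) e)))
    refine Eq.mp (congrArg Decay ?_) h1
    funext t
    rw [Finset.sum_apply, map_sum]
    exact sum_congr rfl fun i _ => by rw [map_mul, mul_comm]
  obtain ⟨q', hq', hd⟩ := hdec2.dichotomy hp hpk
  refine ⟨q', hq', fun N₀ => ?_⟩
  rcases hd N₀ with h | h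
  · exact Or.inl fun t => (map_eq_zero_iff Φ Φ.injective).1 (h t)
  · exact Or.inr (h.subset fun t ht => (map_eq_zero_iff Φ Φ.injective).2 ht)

end Pool.Agent.Lib.MP_1eeaa7_nt
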