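import Pool.Agent.Lib.MP_1eeaa7_nt.Comp
import Pool.Agent.Lib.MP_1eeaa7_nt.SystemMain
import Pool.Agent.Lib.MP_1eeaa7_nt.HypMain

/-!
# Equations of Laplace type
-/

set_option autoImplicit false

namespace Pool.Agent.Lib.MP_1eeaa7_nt

open Finset PowerSeries

/-- The fraction field of a finitely generated subring, with its embeddings; version keeping the
embedding of the ring in `ℤ_p`. -/
theorem exists_fraction_embedding' {K : Type*} [Field K] [CharZero K] (S : Set K) (hS : S.Finite) :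
    ∃ p : ℕ, ∃ _ : Fact p.Prime, ∃ φ : Subring.closure S →+* ℤ_[p],
      ∃ Φ : FractionRing (Subring.closure S) →+* ℚ_[p],
      ∃ j : FractionRing (Subring.closure S) →+* K,
        (∀ x : Subring.closure S, Φ (algebraMap _ _ x) = (φ x : ℚ_[p])) ∧
        ∀ x : Subring.closure S, j (algebraMap _ _ x) = (x : K) := by
  obtain ⟨p, hp, φ, hφ⟩ := exists_padic_embedding S hS
  have hφ' : Function.Injective ((PadicInt.Coe.ringHom (p := p)).comp φ) := by
    rw [RingHom.coe_comp]
    exact Function.Injective.comp Subtype.val_injective hφ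
  have hj : Function.Injective (Subring.closure S).subtype := Subtype.val_injective
  refine ⟨p, hp, φ, IsFractionRing.lift hφ', IsFractionRing.lift hj, fun x => ?_, fun x => ?_⟩
  · rw [IsFractionRing.lift_algebraMap]
    rfl
  · rw [IsFractionRing.lift_algebraMap]
    rfl

theorem exists_fraction_embedding'' {K : Type*} [Field K] [CharZero K] (S : Set K)
    (hS : S.Finite) :
    ∃ R₀ : Subring K, R₀ = Subring.closure S ∧ ∃ p : ℕ, ∃ _ : Fact p.Prime, ∃ φ : R₀ →+* ℤ_[p],
      ∃ Φ : FractionRing R₀ →+* ℚ_[p], ∃ j : FractionRing R₀ →+* K,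
        (∀ x : R₀, Φ (algebraMap _ _ x) = (φ x : ℚ_[p])) ∧
        ∀ x : R₀, j (algebraMap _ _ x) = (x : K) :=
  ⟨_, rfl, exists_fraction_embedding' S hS⟩

theorem exists_lift_poly {K : Type*} [Field K] (R₀ : Subring K) {P : Polynomial K}
    (h : ∀ n, P.coeff n ∈ R₀) : ∃ P₀ : Polynomial R₀, P₀.map R₀.subtype = P := by
  have h1 : P ∈ Polynomial.lifts R₀.subtype :=
    (Polynomial.lifts_iff_coeff_lifts P).2 fun n => ⟨⟨P.coeff n, h n⟩, rfl⟩
  exact (Polynomial.mem_lifts P).1 h1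

section Companion

variable {κ κ' : Type*} [CommRing κ] [CommRing κ'] (φ : κ →+* κ') (m : ℕ)

theorem compA_map (P R : Polynomial κ) (i l : Fin m) :
    PowerSeries.map φ (xA (compA m P R) i l) = xA (compA m (P.map φ) (R.map φ)) i l := by
  show PowerSeries.map φ (X * compA m P R i l) = X * compA m (P.map φ) (R.map φ) i l
  rw [map_mul, map_X, compA, compA, Matrix.of_apply, Matrix.of_apply]
  congr 1
  split_ifs
  · exact map_one _
  · rw [map_neg, map_add, map_mul, map_X, map_C, map_C, Polynomial.coeff_map,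
      Polynomial.coeff_map]
  · exact map_zero _

theorem xA_compA_map (P R : Polynomial κ) :
    (xA (compA m P R)).map (PowerSeries.map φ) = xA (compA m (P.map φ) (R.map φ)) := by
  ext1 i l
  exact compA_map φ m P R i l

end Companion

/-- the companion system of the equation -/
theorem companion_system {K : Type*} [Field K] {P R : Polynomial K} {m : ℕ} (hPm : P.Monic)
    (hPd : P.natDegree = m) (hR : R.natDegree < m) {f : K⟦X⟧}
    (hf : ∑ i ∈ range (m + 1), (PowerSeries.C (P.coeff i) + X * PowerSeries.C (R.coeff i)) *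
      (⇑(d⁄dX K))^[i] f = 0) (i : Fin m) :
    X * d⁄dX K ((⇑(d⁄dX K))^[(i : ℕ)] f) =
      ∑ l : Fin m, xA (compA m P R) i l * (⇑(d⁄dX K))^[(l : ℕ)] f := by
  have h0 : ∀ l : Fin m, xA (compA m P R) i l = X * compA m P R i l := fun l => rfl
  simp only [h0, mul_assoc]
  rw [← mul_sum]
  congr 1
  rw [← Function.iterate_succ_apply' (⇑(d⁄dX K)), Nat.succ_eq_add_one]
  by_cases hi : (i : ℕ) + 1 = m
  · rw [sum_range_succ] at hf
    have h1 : P.coeff m = 1 := by rw [← hPd]; exact hPm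
    have h2 : R.coeff m = 0 := Polynomial.coeff_eq_zero_of_natDegree_lt hR
    rw [h1, h2, map_one, map_zero, mul_zero, add_zero, one_mul] at hf
    rw [hi, eq_neg_of_add_eq_zero_right hf, ← sum_neg_distrib, Finset.sum_range]
    refine sum_congr rfl fun l _ => ?_
    have hl := l.2
    rw [compA, Matrix.of_apply, if_neg (by omega), if_pos hi]
    ring
  · have hi2 := i.2
    rw [sum_eq_single (⟨(i : ℕ) + 1, by omega⟩ : Fin m)]
    · rw [compA, Matrix.of_apply, if_pos rfl, one_mul]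
    · intro b _ hb
      have : ¬ (i : ℕ) + 1 = b := fun h => hb (Fin.ext h.symm)
      rw [compA, Matrix.of_apply, if_neg this, if_neg hi, zero_mul]
    · intro h; exact absurd (mem_univ _) h

/-- the arithmetic of the reduction modulo `p` -/
theorem isUnit_reduction {p : ℕ} [hp : Fact p.Prime] {m : ℕ} (hm : 0 < m) (hmp : m + 1 < p)
    {P R S T : Polynomial (ZMod p)} (hPm : P.Monic) (hPd : P.natDegree = m)
    (hRm : R.natDegree < m) (hP : P = S * R + T) {c : ZMod p} (hc : c ≠ 0) {Z : Type*}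
    (W : Finset Z) (α : Z → ZMod p) (hα0 : ∀ z ∈ W, α z ≠ 0)
    (hα : ∀ z ∈ W, ∀ z' ∈ W, z ≠ z' → α z ≠ α z')
    (hR : R = Polynomial.C c * ∏ z ∈ W, (Polynomial.X - Polynomial.C (α z)))
    (hT : T.degree < (W.card : ℕ)) (hS : S.natDegree ≤ m) (hS0 : S.coeff 0 ≠ 0) :
    IsUnit (mat0 (xA (compA m P R)) Polynomial.X p) := by
  classical
  have hp1 : p - 1 ≠ 0 := by omega
  have hdvd : ∏ z ∈ W, (Polynomial.X - Polynomial.C (α z)) ∣
      (Polynomial.X ^ (p - 1) - 1 : Polynomial (ZMod p)) := by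
    refine Finset.prod_dvd_of_coprime (fun z hz z' hz' hne => ?_) fun z hz => ?_
    · refine Polynomial.isCoprime_X_sub_C_of_isUnit_sub ?_
      exact (sub_ne_zero.2 (hα z hz z' hz' hne)).isUnit
    · rw [Polynomial.dvd_iff_isRoot, Polynomial.IsRoot.def, Polynomial.eval_sub,
        Polynomial.eval_pow, Polynomial.eval_X, Polynomial.eval_one,
        ZMod.pow_card_sub_one_eq_one (hα0 z hz), sub_self]
  obtain ⟨V, hV⟩ := hdvd
  have hcard : (∏ z ∈ W, (Polynomial.X - Polynomial.C (α z))).natDegree = W.card :=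
    Polynomial.natDegree_finsetProd_X_sub_C_eq_card _ _
  have hmonW : (∏ z ∈ W, (Polynomial.X - Polynomial.C (α z))).Monic :=
    Polynomial.monic_prod_of_monic _ _ fun z _ => Polynomial.monic_X_sub_C _
  have hXp : (Polynomial.X ^ (p - 1) - 1 : Polynomial (ZMod p)).natDegree = p - 1 := by
    rw [← Polynomial.C_1]
    exact Polynomial.natDegree_X_pow_sub_C
  have hV0 : V ≠ 0 := by
    rintro rfl
    rw [mul_zero] at hV
    rw [hV, Polynomial.natDegree_zero] at hXp
    exact hp1 hXp.symm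
  have hVd : W.card + V.natDegree = p - 1 := by
    rw [← hXp, hV, hmonW.natDegree_mul' hV0, hcard]
  refine isUnit_mat0 (U := Polynomial.C c⁻¹ * V) (T := T) (S := S) hm (by omega) hPm hPd hRm ?_ hP
    (by omega) ?_ hS0
  · rw [hR, hV]
    calc Polynomial.C c * (∏ z ∈ W, (Polynomial.X - Polynomial.C (α z))) *
          (Polynomial.C c⁻¹ * V) = (Polynomial.C c * Polynomial.C c⁻¹) *
          ((∏ z ∈ W, (Polynomial.X - Polynomial.C (α z))) * V) := by ring
      _ = _ := by rw [← Polynomial.C_mul, mul_inv_cancel₀ hc, Polynomial.C_1, one_mul]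
  · by_cases hT0 : T = 0
    · rw [hT0, zero_mul, Polynomial.natDegree_zero]; omega
    · have h1 : T.natDegree < W.card := by
        rw [Polynomial.degree_eq_natDegree hT0] at hT
        exact_mod_cast hT
      have h2 : (T * (Polynomial.C c⁻¹ * V)).natDegree ≤ T.natDegree + V.natDegree := by
        refine Polynomial.natDegree_mul_le.trans ?_
        have := Polynomial.natDegree_C_mul_le c⁻¹ V
        omega
      omega

/-- **Theorem for equations of Laplace type.** -/
theorem finAP_laplace (S : Set ℂ) (hS : S.Finite) (a : ℕ) {P R : Polynomial ℂ} {m : ℕ}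
    (hPm : P.Monic) (hPd : P.natDegree = m) (hRm : R.degree < m) (hsep : R.Separable)
    (hR0 : R.eval 0 ≠ 0) (hPR : (P / R).eval 0 ≠ 0) {f : ℂ⟦X⟧}
    (hf : ∑ i ∈ range (m + 1), (PowerSeries.C (P.coeff i) + X * PowerSeries.C (R.coeff i)) *
      (⇑(d⁄dX ℂ))^[i] f = 0) {g : Fin m → ℂ⟦X⟧}
    (hg : ∀ i n, ∃ d : ℕ, d ≠ 0 ∧ (∀ p e : ℕ, p.Prime → p ^ e ∣ d → p ^ e ≤ (n + 1) ^ a) ∧
      (d : ℂ) * coeff n (g i) ∈ Subring.closure S) :
    FinAP {n | coeff n (∑ i : Fin m, g i * (⇑(d⁄dX ℂ))^[(i : ℕ)] f) = 0} := by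
  classical
  have hRne : R ≠ 0 := hsep.ne_zero
  have hRm' : R.natDegree < m := by
    rw [Polynomial.degree_eq_natDegree hRne] at hRm
    exact_mod_cast hRm
  have hm : 0 < m := by omega
  set Z : Finset ℂ := R.roots.toFinset with hZ
  have hRprod : R = Polynomial.C R.leadingCoeff * ∏ z ∈ Z, (Polynomial.X - Polynomial.C z) := by
    have h1 := (IsAlgClosed.splits R).eq_prod_roots
    have h2 : Z.val = R.roots := by
      rw [hZ, Multiset.toFinset_val]
      exact (Polynomial.nodup_roots hsep).dedup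
    rw [Finset.prod, h2]
    exact h1
  have hZ0 : ∀ z ∈ Z, z ≠ 0 := by
    rintro z hz rfl
    rw [hZ, Multiset.mem_toFinset, Polynomial.mem_roots hRne] at hz
    exact hR0 hz
  set F : Finset ℂ := P.coeffs ∪ R.coeffs ∪ (P / R).coeffs ∪ (P % R).coeffs ∪
    {R.leadingCoeff⁻¹, ((P / R).coeff 0)⁻¹, (((m + 1).factorial : ℕ) : ℂ)⁻¹} ∪ Z ∪
    Z.image (fun z => z⁻¹) ∪ (Z ×ˢ Z).image (fun x => (x.1 - x.2)⁻¹) with hF
  obtain ⟨R₀, hR₀, p, hp, φ, Φ, j, hΦ, hj⟩ := exists_fraction_embedding'' (S ∪ (F : Set ℂ))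
    (hS.union (Finset.finite_toSet _))
  have hFR : ∀ z ∈ F, z ∈ R₀ := fun z hz => by
    rw [hR₀]; exact Subring.subset_closure (Or.inr hz)
  have hSR : Subring.closure S ≤ R₀ := by
    rw [hR₀]; exact Subring.closure_mono fun x hx => Or.inl hx
  have hcoef : ∀ {P' : Polynomial ℂ}, P'.coeffs ⊆ F → ∀ n, P'.coeff n ∈ R₀ := by
    intro P' hP' n
    by_cases h : P'.coeff n = 0
    · rw [h]; exact R₀.zero_mem
    · exact hFR _ (hP' (Polynomial.coeff_mem_coeffs h))
  have hsub1 : P.coeffs ⊆ F := fun z hz => by simp only [hF, mem_union]; tauto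
  have hsub2 : R.coeffs ⊆ F := fun z hz => by simp only [hF, mem_union]; tauto
  have hsub3 : (P / R).coeffs ⊆ F := fun z hz => by simp only [hF, mem_union]; tauto
  have hsub4 : (P % R).coeffs ⊆ F := fun z hz => by simp only [hF, mem_union]; tauto
  obtain ⟨P₀, hP₀⟩ := exists_lift_poly R₀ (hcoef hsub1)
  obtain ⟨Q₀, hQ₀⟩ := exists_lift_poly R₀ (hcoef hsub2)
  obtain ⟨S₀, hS₀⟩ := exists_lift_poly R₀ (hcoef hsub3)
  obtain ⟨T₀, hT₀⟩ := exists_lift_poly R₀ (hcoef hsub4)
  have hinj : Function.Injective (Polynomial.map R₀.subtype) :=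
    Polynomial.map_injective _ Subtype.val_injective
  have hinj0 : Function.Injective R₀.subtype := Subtype.val_injective
  -- the residue map
  set ρ : R₀ →+* ZMod p := (PadicInt.toZMod (p := p)).comp φ with hρ
  have hunit : ∀ (x : R₀), (x : ℂ)⁻¹ ∈ R₀ → (x : ℂ) ≠ 0 → ρ x ≠ 0 := by
    intro x hx hx0 h
    have h1 : x * ⟨(x : ℂ)⁻¹, hx⟩ = 1 := Subtype.ext (mul_inv_cancel₀ hx0)
    have h2 := congrArg ρ h1
    rw [map_mul, h, zero_mul, map_one] at h2
    exact zero_ne_one h2
  have hmem1 : R.leadingCoeff⁻¹ ∈ F := by simp [hF]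
  have hmem2 : ((P / R).coeff 0)⁻¹ ∈ F := by simp [hF]
  have hmem3 : (((m + 1).factorial : ℕ) : ℂ)⁻¹ ∈ F := by simp [hF]
  have hZF : ∀ z ∈ Z, z ∈ F := fun z hz => by simp only [hF, mem_union]; tauto
  have hZF' : ∀ z ∈ Z, z⁻¹ ∈ F := fun z hz => by
    have : z⁻¹ ∈ Z.image (fun z => z⁻¹) := mem_image_of_mem _ hz
    simp only [hF, mem_union]; tauto
  have hZF2 : ∀ z ∈ Z, ∀ z' ∈ Z, (z - z')⁻¹ ∈ F := fun z hz z' hz' => by
    have : (z - z')⁻¹ ∈ (Z ×ˢ Z).image (fun x => (x.1 - x.2)⁻¹) :=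
      mem_image.2 ⟨(z, z'), mem_product.2 ⟨hz, hz'⟩, rfl⟩
    simp only [hF, mem_union]; tauto
  -- the prime is large
  have hpm : m + 1 < p := by
    by_contra hle
    push Not at hle
    have h1 : ρ (((m + 1).factorial : ℕ) : R₀) ≠ 0 := by
      refine hunit _ ?_ ?_
      · rw [Subring.coe_natCast]; exact hFR _ hmem3
      · rw [Subring.coe_natCast]; exact Nat.cast_ne_zero.2 (Nat.factorial_ne_zero _)
    apply h1
    rw [map_natCast, ZMod.natCast_eq_zero_iff]
    exact (hp.out.dvd_factorial).2 hle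
  -- reductions
  have hPm₀ : P₀.Monic := by
    refine Polynomial.monic_of_injective hinj0 ?_
    rw [hP₀]; exact hPm
  have hPd₀ : P₀.natDegree = m := by
    rw [← hPd, ← hP₀, Polynomial.natDegree_map_eq_of_injective hinj0]
  have hQm₀ : Q₀.natDegree < m := by
    rw [← Polynomial.natDegree_map_eq_of_injective hinj0, hQ₀]; exact hRm'
  have hP₀eq : P₀ = S₀ * Q₀ + T₀ := by
    apply hinj
    rw [Polynomial.map_add, Polynomial.map_mul, hP₀, hS₀, hQ₀, hT₀, mul_comm]
    exact (EuclideanDomain.div_add_mod P R).symm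
  have hM : IsUnit (mat0 (xA (compA m (P₀.map ρ) (Q₀.map ρ))) Polynomial.X p) := by
    refine isUnit_reduction (S := S₀.map ρ) (T := T₀.map ρ) hm hpm (hPm₀.map ρ) ?_ ?_ ?_
      (c := ρ ⟨R.leadingCoeff, hcoef hsub2 _⟩) ?_ Z.attach
      (fun z => ρ ⟨z.1, hFR _ (hZF z.1 z.2)⟩) ?_ ?_ ?_ ?_ ?_ ?_
    · rw [hPm₀.natDegree_map ρ, hPd₀]
    · exact (Polynomial.natDegree_map_le).trans_lt hQm₀
    · rw [hP₀eq, Polynomial.map_add, Polynomial.map_mul]
    · exact hunit _ (hFR _ hmem1) (Polynomial.leadingCoeff_ne_zero.2 hRne)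
    · intro z _
      exact hunit _ (hFR _ (hZF' z.1 z.2)) (hZ0 z.1 z.2)
    · intro z _ z' _ hne h
      have h1 := hunit ((⟨z.1, hFR _ (hZF z.1 z.2)⟩ : R₀) - ⟨z'.1, hFR _ (hZF z'.1 z'.2)⟩)
        (hFR _ (hZF2 z.1 z.2 z'.1 z'.2)) (sub_ne_zero.2 fun h => hne (Subtype.ext h))
      rw [map_sub, sub_ne_zero] at h1
      exact h1 h
    · have h1 : Q₀ = Polynomial.C (⟨R.leadingCoeff, hcoef hsub2 _⟩ : R₀) *
          ∏ z ∈ Z.attach, (Polynomial.X - Polynomial.C (⟨z.1, hFR _ (hZF z.1 z.2)⟩ : R₀)) := by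
        apply hinj
        rw [hQ₀, Polynomial.map_mul, Polynomial.map_prod, Polynomial.map_C]
        simp only [Polynomial.map_sub, Polynomial.map_X, Polynomial.map_C]
        conv_lhs => rw [hRprod]
        congr 1
        exact (Finset.prod_attach Z (fun z => Polynomial.X - Polynomial.C z)).symm
      rw [h1, Polynomial.map_mul, Polynomial.map_prod, Polynomial.map_C]
      simp only [Polynomial.map_sub, Polynomial.map_X, Polynomial.map_C]
    · rw [Finset.card_attach]
      have h1 : T₀.degree < (Z.card : ℕ) := by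
        rw [← Polynomial.degree_map_eq_of_injective hinj0, hT₀]
        refine (Polynomial.degree_mod_lt P hRne).trans_le ?_
        rw [Polynomial.degree_eq_natDegree hRne]
        have h2 : R.natDegree = Z.card := by
          conv_lhs => rw [hRprod]
          rw [Polynomial.natDegree_C_mul (Polynomial.leadingCoeff_ne_zero.2 hRne),
            Polynomial.natDegree_finsetProd_X_sub_C_eq_card]
        rw [h2]
      exact (Polynomial.degree_map_le).trans_lt h1
    · refine (Polynomial.natDegree_map_le).trans ?_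
      rw [← Polynomial.natDegree_map_eq_of_injective hinj0, hS₀, ← hPd]
      exact Polynomial.natDegree_le_natDegree (Polynomial.degree_div_le P R)
    · rw [Polynomial.coeff_map]
      have h1 : ((S₀.coeff 0 : R₀) : ℂ) = (P / R).coeff 0 := by
        rw [← hS₀, Polynomial.coeff_map]; rfl
      refine hunit _ (by rw [h1]; exact hFR _ hmem2) ?_
      rw [h1, Polynomial.coeff_zero_eq_eval_zero]
      exact hPR
  obtain ⟨L, hL0, hL⟩ : ∃ L : ℕ, 0 < L ∧
      (mat0 (xA (compA m (P₀.map ρ) (Q₀.map ρ))) Polynomial.X p) ^ L = 1 := by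
    obtain ⟨u, hu⟩ := hM
    obtain ⟨L, hL0, hL⟩ := (isOfFinOrder_iff_pow_eq_one (x := u)).1 (isOfFinOrder_of_finite u)
    refine ⟨L, hL0, ?_⟩
    rw [← hu, ← Units.val_pow_eq_pow_val, hL, Units.val_one]
  have hpk : ‖(p : ℚ_[p])‖ < 1 := by
    rw [Padic.norm_p]
    exact inv_lt_one_of_one_lt₀ (by exact_mod_cast hp.out.one_lt)
  set K₀ := FractionRing R₀ with hK₀def
  have hK₀ : CharZero K₀ := ⟨fun a b h => by
    have := congrArg j h
    rw [map_natCast, map_natCast] at this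
    exact Nat.cast_injective this⟩
  set ι : R₀ →+* K₀ := algebraMap R₀ K₀ with hι
  have hjι : j.comp ι = R₀.subtype := RingHom.ext hj
  have hΦι : ∀ x : R₀, ‖Φ (ι x)‖ ≤ 1 := fun x => by rw [hΦ]; exact PadicInt.norm_le_one _
  have hΦρ : ∀ x : R₀, ρ x = 0 → ‖Φ (ι x)‖ < 1 := fun x hx => by
    rw [hΦ, PadicInt.padic_norm_e_of_padicInt]
    exact norm_lt_one_iff_toZMod.2 hx
  set B₀ : Matrix (Fin m) (Fin m) R₀⟦X⟧ := xA (compA m P₀ Q₀) with hB₀
  set B : Matrix (Fin m) (Fin m) K₀⟦X⟧ := B₀.map (PowerSeries.map ι) with hB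
  have hXmap : (Polynomial.X : Polynomial R₀).map ι = Polynomial.X := Polynomial.map_X ι
  -- lifting `g`
  have hliftg : ∀ i n, ∃ y : K₀, j y = coeff n (g i) ∧
      ‖Φ y‖ ≤ 1 * ((n + 1 : ℕ) : ℝ) ^ a := by
    intro i n
    obtain ⟨d, hd, hd1, hd2⟩ := hg i n
    have hdK : (d : ℂ) ≠ 0 := Nat.cast_ne_zero.2 hd
    have hdK0 : (d : K₀) ≠ 0 := Nat.cast_ne_zero.2 hd
    refine ⟨ι ⟨_, hSR hd2⟩ / d, ?_, ?_⟩
    · rw [map_div₀, map_natCast, hj]
      field_simp
    · rw [one_mul]
      have h1 := norm_le_of_denominator (p := p) (x := Φ (ι ⟨_, hSR hd2⟩ / d))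
        (M := (n + 1) ^ a) hd
        (fun e he => hd1 p e hp.out he) (by
          rw [← map_natCast Φ, ← map_mul, mul_div_cancel₀ _ hdK0]
          exact hΦι _)
      exact_mod_cast h1
  choose gv hgv hgv1 using hliftg
  set g₀ : Fin m → K₀⟦X⟧ := fun i => PowerSeries.mk fun n => gv i n with hg₀
  have hgg : ∀ i, PowerSeries.map j (g₀ i) = g i := by
    intro i
    ext n
    rw [coeff_map, hg₀, coeff_mk, hgv]
  have main := finAP_system hp.out hpk j Φ (B := B) (Q := Polynomial.X) (g := g₀)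
    (Y := fun i : Fin m => (⇑(d⁄dX ℂ))^[(i : ℕ)] f) ?_ ?_ ?_ ?_ ?_ (L := L) (by omega) ?_
    zero_le_one (A := a) (fun i n => by rw [hg₀, coeff_mk]; exact hgv1 i n)
  · simp only [hgg] at main
    exact main
  · intro i
    rw [companion_system hPm hPd hRm' hf i]
    refine sum_congr rfl fun l _ => ?_
    congr 1
    have h1 : PowerSeries.map j (B i l) = PowerSeries.map (j.comp ι) (B₀ i l) := by
      rw [hB, Matrix.map_apply]
      ext n
      simp only [coeff_map, RingHom.comp_apply]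
    rw [h1, hjι, hB₀, compA_map, hP₀, hQ₀]
  · rw [hB, hB₀, xA_compA_map]
    exact xA_QB _
  · intro n
    rw [Polynomial.eval_X]
    exact_mod_cast Nat.succ_ne_zero n
  · intro n
    rw [Polynomial.coeff_X]
    split_ifs
    · rw [map_one, norm_one]
    · rw [map_zero, norm_zero]; exact zero_le_one
  · intro i l n
    rw [hB, Matrix.map_apply, coeff_map]
    exact hΦι _
  · intro i l
    have h1 : mat0 B Polynomial.X p = (mat0 B₀ Polynomial.X p).map ι := by
      rw [← mat0_map, hXmap]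
    have h2 : (mat0 B₀ Polynomial.X p).map ρ =
        mat0 (xA (compA m (P₀.map ρ) (Q₀.map ρ))) Polynomial.X p := by
      rw [← mat0_map, hB₀, xA_compA_map, Polynomial.map_X]
    have h3 : ∀ {κ : Type} [CommRing κ] (ψ : R₀ →+* κ),
        ((mat0 B₀ Polynomial.X p).map ψ) ^ L - 1 = ((mat0 B₀ Polynomial.X p) ^ L - 1).map ψ := by
      intro κ _ ψ
      have h3 := map_pow (ψ.mapMatrix (m := Fin m)) (mat0 B₀ Polynomial.X p) L
      have h4 := map_sub (ψ.mapMatrix (m := Fin m)) ((mat0 B₀ Polynomial.X p) ^ L) 1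
      have h5 := map_one (ψ.mapMatrix (m := Fin m))
      simp only [RingHom.mapMatrix_apply] at h3 h4 h5
      rw [h4, h3, h5]
    rw [h1, h3 ι, Matrix.map_apply]
    refine hΦρ _ ?_
    have h4 := h3 ρ
    rw [h2, hL, sub_self] at h4
    have h5 := congrFun (congrFun h4 i) l
    rw [Matrix.map_apply] at h5
    exact h5.symm

end Pool.Agent.Lib.MP_1eeaa7_nt
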