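import Mathlib

/-!
# An irreducible integer polynomial of degree at least two does not split modulo all large primes

Only the linear growth of the number of ideals of norm at most `x` of a number field is used.
-/

set_option autoImplicit false

namespace Pool.Agent.Lib.MP_1eeaa7_nt

open Finset NumberField

section Count

variable {K : Type*} [Field K] [NumberField K]

/-- an ideal of norm `k` -/
noncomputable def idealOf (P : ℕ → Ideal (𝓞 K)) (k : ℕ) : Ideal (𝓞 K) :=
  (k.primeFactorsList.map P).prod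

theorem absNorm_idealOf {P : ℕ → Ideal (𝓞 K)} {N₁ : ℕ}
    (hP : ∀ p, p.Prime → N₁ < p → Ideal.absNorm (P p) = p) {k : ℕ} (hk : k ≠ 0)
    (hk' : ∀ q, q.Prime → q ∣ k → N₁ < q) : Ideal.absNorm (idealOf P k) = k := by
  rw [idealOf, map_list_prod, List.map_map]
  have h1 : k.primeFactorsList.map (⇑Ideal.absNorm ∘ P) = k.primeFactorsList.map id := by
    refine List.map_congr_left fun q hq => ?_
    rw [Function.comp_apply, hP q (Nat.prime_of_mem_primeFactorsList hq)
      (hk' q (Nat.prime_of_mem_primeFactorsList hq) (Nat.dvd_of_mem_primeFactorsList hq)), id]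
  rw [h1, List.map_id, Nat.prod_primeFactorsList hk]

theorem isPrime_of_absNorm {I : Ideal (𝓞 K)} {p : ℕ} (hp : p.Prime) (h : Ideal.absNorm I = p) :
    I.IsPrime :=
  Ideal.isPrime_of_irreducible_absNorm (by rw [h]; exact hp)

theorem ne_bot_of_absNorm {I : Ideal (𝓞 K)} {p : ℕ} (hp : p.Prime) (h : Ideal.absNorm I = p) :
    I ≠ ⊥ := by
  rintro rfl
  rw [Ideal.absNorm_bot] at h
  exact hp.ne_zero h.symm

theorem eq_of_dvd {I J : Ideal (𝓞 K)} {p q : ℕ} (hp : p.Prime) (hq : q.Prime)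
    (hI : Ideal.absNorm I = p) (hJ : Ideal.absNorm J = q) (h : I ∣ J) : I = J := by
  have h1 : J ≤ I := Ideal.le_of_dvd h
  have h2 := (isPrime_of_absNorm hq hJ).isMaximal (ne_bot_of_absNorm hq hJ)
  exact (h2.eq_of_le (isPrime_of_absNorm hp hI).ne_top h1).symm

theorem no_two_ideals {P P' : ℕ → Ideal (𝓞 K)} {N₁ : ℕ}
    (hP : ∀ p, p.Prime → N₁ < p → Ideal.absNorm (P p) = p)
    (hP' : ∀ p, p.Prime → N₁ < p → Ideal.absNorm (P' p) = p)
    (hne : ∀ p, p.Prime → N₁ < p → P' p ≠ P p) : False := by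
  classical
  set W : ℕ := N₁.factorial with hW
  have hW0 : 0 < W := Nat.factorial_pos _
  have hgood : ∀ i q : ℕ, q.Prime → q ∣ 1 + W * i → N₁ < q := by
    intro i q hq hd
    by_contra hle
    push Not at hle
    have h1 : q ∣ W * i := (Nat.dvd_factorial hq.pos hle).mul_right i
    have h2 : q ∣ 1 := (Nat.dvd_add_left h1).1 hd
    exact hq.one_lt.ne' (Nat.dvd_one.1 h2)
  have hnorm : ∀ i, Ideal.absNorm (idealOf P (1 + W * i)) = 1 + W * i := fun i =>
    absNorm_idealOf hP (by omega) (hgood i)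
  -- the key injectivity
  have hinj : ∀ p p' i i' : ℕ, p.Prime → N₁ < p → p'.Prime → N₁ < p' →
      idealOf P (1 + W * i) * P' p = idealOf P (1 + W * i') * P' p' → p = p' ∧ i = i' := by
    intro p p' i i' hp hpN hp' hpN' h
    have h1 : P' p ∣ idealOf P (1 + W * i') * P' p' := by
      rw [← h]; exact dvd_mul_left _ _
    have hprime : Prime (P' p) :=
      Ideal.prime_of_isPrime (ne_bot_of_absNorm hp (hP' p hp hpN))
        (isPrime_of_absNorm hp (hP' p hp hpN))
    have h2 : P' p ∣ P' p' := by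
      refine (hprime.dvd_or_dvd h1).resolve_left fun h3 => ?_
      rw [idealOf] at h3
      obtain ⟨J, hJ, hd⟩ := (Prime.dvd_prod_iff hprime).1 h3
      obtain ⟨q, hq, rfl⟩ := List.mem_map.1 hJ
      have hqp := Nat.prime_of_mem_primeFactorsList hq
      have hqN := hgood i' q hqp (Nat.dvd_of_mem_primeFactorsList hq)
      have h4 := eq_of_dvd hp hqp (hP' p hp hpN) (hP q hqp hqN) hd
      have h5 : p = q := by
        rw [← hP' p hp hpN, h4, hP q hqp hqN]
      subst h5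
      exact hne p hp hpN h4
    have h3 := eq_of_dvd hp hp' (hP' p hp hpN) (hP' p' hp' hpN') h2
    have h4 : p = p' := by rw [← hP' p hp hpN, h3, hP' p' hp' hpN']
    subst h4
    have h5 := mul_right_cancel₀ (ne_bot_of_absNorm hp (hP' p hp hpN)) h
    have h6 := congrArg Ideal.absNorm h5
    rw [hnorm, hnorm] at h6
    refine ⟨rfl, ?_⟩
    have h7 : W * i = W * i' := by omega
    exact Nat.eq_of_mul_eq_mul_left hW0 h7
  -- counting
  have hcount : ∀ (T : Finset ℕ) (s : ℝ), 0 ≤ s → (∀ p ∈ T, p.Prime ∧ N₁ < p) →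
      ∑ p ∈ T, ⌊s / (p * W)⌋₊ ≤ Nat.card {I : Ideal (𝓞 K) // Ideal.absNorm I ≤ s} := by
    intro T s hs hT
    have hfin : Finite {I : Ideal (𝓞 K) // Ideal.absNorm I ≤ s} := by
      have h1 : {I : Ideal (𝓞 K) | Ideal.absNorm I ≤ ⌊s⌋₊}.Finite :=
        Ideal.finite_setOfPred_absNorm_le _
      refine Set.Finite.subset h1 fun I hI => ?_
      exact (Nat.le_floor_iff hs).2 hI
    have hle : ∀ p ∈ T, ∀ i : ℕ, i < ⌊s / (p * W)⌋₊ →
        (Ideal.absNorm (idealOf P (1 + W * i) * P' p) : ℝ) ≤ s := by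
      intro p hp i hi
      rw [map_mul, hnorm, hP' p (hT p hp).1 (hT p hp).2]
      have hpos : (0 : ℝ) < p * W := by
        have := (hT p hp).1.pos
        positivity
      have h1 : ((i + 1 : ℕ) : ℝ) ≤ s / (p * W) := by
        have h2 : i + 1 ≤ ⌊s / (p * W)⌋₊ := hi
        exact (Nat.cast_le.2 h2).trans (Nat.floor_le (by positivity))
      rw [le_div_iff₀ hpos] at h1
      refine le_trans ?_ h1
      have h3 : (1 + W * i) * p ≤ (i + 1) * (p * W) := by
        calc (1 + W * i) * p ≤ (W * (i + 1)) * p := Nat.mul_le_mul_right _ (by nlinarith)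
          _ = _ := by ring
      exact_mod_cast h3
    let f : (Σ p : T, Fin ⌊s / ((p : ℕ) * W)⌋₊) → {I : Ideal (𝓞 K) // (Ideal.absNorm I : ℝ) ≤ s} :=
      fun x => ⟨idealOf P (1 + W * x.2) * P' x.1, hle x.1 x.1.2 x.2 x.2.2⟩
    have hf : Function.Injective f := by
      rintro ⟨⟨p, hp⟩, ⟨i, hi⟩⟩ ⟨⟨p', hp'⟩, ⟨i', hi'⟩⟩ h
      have h1 := congrArg Subtype.val h
      obtain ⟨rfl, rfl⟩ := hinj p p' i i' (hT p hp).1 (hT p hp).2 (hT p' hp').1 (hT p' hp').2 h1
      rfl
    have h2 := Nat.card_le_card_of_injective f hf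
    rw [Nat.card_eq_fintype_card, Fintype.card_sigma] at h2
    simp only [Fintype.card_fin] at h2
    rwa [Finset.sum_coe_sort T (fun p => ⌊s / ((p : ℕ) * W)⌋₊)] at h2
  -- the contradiction
  have hlim := NumberField.Ideal.tendsto_norm_le_div_atTop K
  set c := (2 ^ InfinitePlace.nrRealPlaces K * (2 * Real.pi) ^ InfinitePlace.nrComplexPlaces K *
    Units.regulator K * classNumber K) / (Units.torsionOrder K * Real.sqrt |discr K|) with hc
  have hev := hlim.eventually_le_const (lt_add_one c)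
  obtain ⟨s₀, hs₀⟩ := Filter.eventually_atTop.1 hev
  have hsum : ∀ T : Finset ℕ, (∀ p ∈ T, p.Prime ∧ N₁ < p) →
      ∑ p ∈ T, (1 : ℝ) / p ≤ W * (c + 2) := by
    intro T hT
    set s : ℝ := max (max s₀ 1) T.card with hs
    have hs1 : 1 ≤ s := (le_max_right _ _).trans (le_max_left _ _)
    have hs2 : s₀ ≤ s := (le_max_left _ _).trans (le_max_left _ _)
    have hs3 : (T.card : ℝ) ≤ s := le_max_right _ _
    have h1 := hs₀ s hs2
    have hs0 : 0 < s := by linarith
    rw [div_le_iff₀ hs0] at h1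
    have h2 : ((∑ p ∈ T, ⌊s / (p * W)⌋₊ : ℕ) : ℝ) ≤ (c + 1) * s :=
      (Nat.cast_le.2 (hcount T s hs0.le hT)).trans h1
    have h3 : ∑ p ∈ T, (s / (p * W) - 1) ≤ ((∑ p ∈ T, ⌊s / (p * W)⌋₊ : ℕ) : ℝ) := by
      rw [Nat.cast_sum]
      refine sum_le_sum fun p _ => ?_
      have := Nat.lt_floor_add_one (s / ((p : ℝ) * W))
      linarith
    rw [sum_sub_distrib, sum_const, nsmul_eq_mul, mul_one] at h3
    have h4 : ∑ p ∈ T, s / ((p : ℝ) * W) ≤ (c + 2) * s := by linarith
    have hWr : (0 : ℝ) < W := by exact_mod_cast hW0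
    have h5 : ∑ p ∈ T, s / ((p : ℝ) * W) = s * ((∑ p ∈ T, (1 : ℝ) / p) / W) := by
      rw [sum_div, mul_sum]
      refine sum_congr rfl fun p _ => ?_
      rw [div_div, mul_one_div]
    rw [h5, mul_comm (c + 2)] at h4
    have h6 := le_of_mul_le_mul_left h4 hs0
    rwa [div_le_iff₀ hWr, mul_comm] at h6
  refine not_summable_one_div_on_primes (summable_of_sum_le
    (c := W * (c + 2) + ∑ n ∈ range (N₁ + 1), (1 : ℝ) / n) ?_ ?_)
  · intro n
    refine Set.indicator_nonneg (fun n _ => ?_) n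
    positivity
  · intro u
    rw [← sum_filter_add_sum_filter_not u (fun p => p.Prime ∧ N₁ < p)]
    refine add_le_add ?_ ?_
    · refine le_trans (le_of_eq ?_) (hsum (u.filter fun p => p.Prime ∧ N₁ < p) fun p hp =>
        (mem_filter.1 hp).2)
      refine sum_congr rfl fun p hp => ?_
      rw [Set.indicator_of_mem]
      exact (mem_filter.1 hp).2.1
    · calc ∑ x ∈ u with ¬(Nat.Prime x ∧ N₁ < x), Set.indicator {p : ℕ | p.Prime}
            (fun n : ℕ => (1 : ℝ) / n) x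
          ≤ ∑ x ∈ (u.filter fun x => ¬(Nat.Prime x ∧ N₁ < x)).filter (fun x => x ∈ range (N₁ + 1)),
              (1 : ℝ) / x := by
            rw [sum_filter (s := u.filter fun x => ¬(Nat.Prime x ∧ N₁ < x))]
            refine sum_le_sum fun x hx => ?_
            rw [mem_filter] at hx
            by_cases hxp : x.Prime
            · have hxN : x ≤ N₁ := by
                by_contra hcon
                exact hx.2 ⟨hxp, by omega⟩
              rw [Set.indicator_of_mem (by exact hxp), if_pos (mem_range.2 (by omega))]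
            · rw [Set.indicator_of_notMem (by exact hxp)]
              split_ifs
              · positivity
              · exact le_rfl
        _ ≤ ∑ n ∈ range (N₁ + 1), (1 : ℝ) / n := by
            refine sum_le_sum_of_subset_of_nonneg ?_ fun _ _ _ => by positivity
            intro x hx
            exact (mem_filter.1 hx).2

end Count

section Roots

open Polynomial

/-- the ideal `(p, x - a)` -/
theorem absNorm_root_ideal {K : Type*} [Field K] [NumberField K] {x : 𝓞 K} {m : ℤ[X]}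
    (hx : ∀ g : ℤ[X], aeval x g = 0 → m ∣ g) {c : ℤ}
    (hc : ∀ y : 𝓞 K, ∃ g : ℤ[X], (c : 𝓞 K) * y = aeval x g)
    {p : ℕ} (hp : p.Prime) (hpc : ¬ (p : ℤ) ∣ c) {a : ℤ} (ha : (p : ℤ) ∣ m.eval a) :
    Ideal.absNorm (Ideal.span {(p : 𝓞 K), x - (a : 𝓞 K)}) = p := by
  set I : Ideal (𝓞 K) := Ideal.span {(p : 𝓞 K), x - (a : 𝓞 K)} with hI
  have hpI : (p : 𝓞 K) ∈ I := Ideal.subset_span (by simp)
  have hxI : x - (a : 𝓞 K) ∈ I := Ideal.subset_span (by simp)
  have hev : ∀ g : ℤ[X], aeval x g - ((g.eval a : ℤ) : 𝓞 K) ∈ I := by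
    intro g
    have h1 : (X - C a) ∣ g - C (g.eval a) := dvd_iff_isRoot.2 (by simp)
    obtain ⟨q, hq⟩ := h1
    have h2 : aeval x g - ((g.eval a : ℤ) : 𝓞 K) = aeval x (g - C (g.eval a)) := by
      rw [map_sub, aeval_C]
      rfl
    rw [h2, hq, map_mul, map_sub, aeval_X, aeval_C]
    exact I.mul_mem_right _ hxI
  have hne : I ≠ ⊤ := by
    intro h
    have h1 : (1 : 𝓞 K) ∈ I := by rw [h]; trivial
    rw [hI, Ideal.mem_span_pair] at h1
    obtain ⟨u, v, huv⟩ := h1
    obtain ⟨g, hg⟩ := hc u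
    obtain ⟨k, hk⟩ := hc v
    have h2 : aeval x (C c - (C (p : ℤ) * g + (X - C a) * k)) = 0 := by
      simp only [map_sub, map_add, map_mul, aeval_C, aeval_X, ← hg, ← hk]
      have h3 : (algebraMap ℤ (𝓞 K)) c = (c : 𝓞 K) := rfl
      have h4 : (algebraMap ℤ (𝓞 K)) a = (a : 𝓞 K) := rfl
      have h5 : (algebraMap ℤ (𝓞 K)) (p : ℤ) = (p : 𝓞 K) := by simp
      rw [h3, h4, h5]
      linear_combination -(c : 𝓞 K) * huv
    obtain ⟨l, hl⟩ := hx _ h2
    have h3 := congrArg (eval a) hl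
    simp only [eval_sub, eval_add, eval_mul, eval_C, eval_X, sub_self, zero_mul, add_zero] at h3
    apply hpc
    have h4 : c = p * g.eval a + m.eval a * l.eval a := by linarith
    rw [h4]
    exact dvd_add (dvd_mul_right _ _) (ha.mul_right _)
  have hnt : Nontrivial (𝓞 K ⧸ I) := Ideal.Quotient.nontrivial_iff.2 hne
  have hch : CharP (𝓞 K ⧸ I) p := by
    rw [CharP.charP_iff_prime_eq_zero hp, ← map_natCast (Ideal.Quotient.mk I)]
    exact Ideal.Quotient.eq_zero_iff_mem.2 hpI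
  have hfact : Fact p.Prime := ⟨hp⟩
  let ψ : ZMod p →+* 𝓞 K ⧸ I := ZMod.castHom (dvd_refl p) _
  have hψ : Function.Bijective ψ := by
    refine ⟨ψ.injective, fun y => ?_⟩
    obtain ⟨y, rfl⟩ := Ideal.Quotient.mk_surjective y
    obtain ⟨g, hg⟩ := hc y
    have hcp : IsCoprime c (p : ℤ) :=
      ((Nat.prime_iff_prime_int.1 hp).coprime_iff_not_dvd.2 hpc).symm
    obtain ⟨u, v, huv⟩ := hcp
    refine ⟨((u * g.eval a : ℤ) : ZMod p), ?_⟩
    rw [map_intCast, ← map_intCast (Ideal.Quotient.mk I)]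
    refine (Ideal.Quotient.eq.2 ?_).symm
    have h1 := I.mul_mem_left (u : 𝓞 K) (hev g)
    rw [← hg] at h1
    have h2 : (u : 𝓞 K) * c + v * p = 1 := by
      have := congrArg (Int.cast : ℤ → 𝓞 K) huv
      push_cast at this
      exact this
    have h3 : y - ((u * g.eval a : ℤ) : 𝓞 K) =
        (u : 𝓞 K) * ((c : 𝓞 K) * y - ((g.eval a : ℤ) : 𝓞 K)) + (v * y) * p := by
      push_cast
      linear_combination -y * h2
    rw [h3]
    exact I.add_mem h1 (I.mul_mem_left _ hpI)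
  rw [Ideal.absNorm_apply, Submodule.cardQuot_apply, ← Nat.card_congr (Equiv.ofBijective ψ hψ),
    Nat.card_eq_fintype_card, ZMod.card]

theorem exists_prime_few_roots {m : ℤ[X]} (hm : m.Monic) (hirr : Irreducible m)
    (N₀ : ℕ) :
    ∃ p : ℕ, p.Prime ∧ N₀ < p ∧
      ∀ a b : ℤ, (p : ℤ) ∣ m.eval a → (p : ℤ) ∣ m.eval b → (p : ℤ) ∣ a - b := by
  by_contra hcon
  push Not at hcon
  set mQ : ℚ[X] := m.map (Int.castRingHom ℚ) with hmQ
  have hirrQ : Irreducible mQ := (hm.irreducible_iff_irreducible_map_fraction_map (K := ℚ)).1 hirr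
  have hfact : Fact (Irreducible mQ) := ⟨hirrQ⟩
  have hmQ0 : mQ ≠ 0 := hirrQ.ne_zero
  have hfd : FiniteDimensional ℚ (AdjoinRoot mQ) := (AdjoinRoot.powerBasis hmQ0).finite
  have hnf : NumberField (AdjoinRoot mQ) := { to_charZero := inferInstance, to_finiteDimensional := hfd }
  have hroot : IsIntegral ℤ (AdjoinRoot.root mQ) := by
    refine ⟨m, hm, ?_⟩
    have h1 := AdjoinRoot.eval₂_root mQ
    rw [hmQ, eval₂_map] at h1
    have h2 : (AdjoinRoot.of mQ).comp (Int.castRingHom ℚ) = algebraMap ℤ (AdjoinRoot mQ) :=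
      RingHom.ext_int _ _
    rw [h2] at h1
    exact h1
  let x : 𝓞 (AdjoinRoot mQ) := ⟨AdjoinRoot.root mQ, hroot⟩
  have hxv : ∀ g : ℤ[X], ((aeval x g : 𝓞 (AdjoinRoot mQ)) : AdjoinRoot mQ) =
      aeval (AdjoinRoot.root mQ) g := by
    intro g
    exact (aeval_algebraMap_apply (AdjoinRoot mQ) x g).symm
  have hx : ∀ g : ℤ[X], aeval x g = 0 → m ∣ g := by
    intro g hg
    have h1 := hxv g
    rw [hg] at h1
    have h2 : AdjoinRoot.mk mQ (g.map (Int.castRingHom ℚ)) = 0 := by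
      rw [← AdjoinRoot.aeval_eq, aeval_def, eval₂_map]
      have h3 : ∀ ψ : ℤ →+* AdjoinRoot mQ, eval₂ ψ (AdjoinRoot.root mQ) g = 0 := fun ψ => by
        rw [Subsingleton.elim ψ (algebraMap ℤ (AdjoinRoot mQ))]
        exact h1.symm
      exact h3 _
    rw [AdjoinRoot.mk_eq_zero] at h2
    exact (Polynomial.map_dvd_map (Int.castRingHom ℚ) (RingHom.injective_int _) hm).1 h2
  set B := AdjoinRoot.powerBasis hmQ0 with hB
  have hgen : B.gen = AdjoinRoot.root mQ := AdjoinRoot.powerBasis_gen hmQ0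
  have hdisc : IsIntegral ℤ (Algebra.discr ℚ B.basis) := by
    refine Algebra.discr_isIntegral ℚ fun i => ?_
    rw [B.basis_eq_pow, hgen]
    exact hroot.pow _
  obtain ⟨c, hcd⟩ := IsIntegrallyClosed.isIntegral_iff.1 hdisc
  have hc0 : c ≠ 0 := by
    rintro rfl
    rw [map_zero] at hcd
    exact Algebra.discr_not_zero_of_basis ℚ B.basis hcd.symm
  have hc : ∀ y : 𝓞 (AdjoinRoot mQ), ∃ g : ℤ[X], (c : 𝓞 (AdjoinRoot mQ)) * y = aeval x g := by
    intro y
    have h1 : Algebra.discr ℚ B.basis • (y : AdjoinRoot mQ) ∈ Algebra.adjoin ℤ {B.gen} :=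
      Algebra.discr_mul_isIntegral_mem_adjoin (R := ℤ) ℚ (B := B) (by rw [hgen]; exact hroot)
      (RingOfIntegers.isIntegral_coe y)
    rw [hgen, Algebra.adjoin_singleton_eq_range_aeval] at h1
    obtain ⟨g, hg⟩ := h1
    refine ⟨g, ?_⟩
    apply RingOfIntegers.ext
    rw [hxv]
    refine Eq.trans ?_ hg.symm
    rw [← hcd, Algebra.smul_def]
    push_cast
    congr 1
  choose! a b h using hcon
  refine no_two_ideals (K := AdjoinRoot mQ) (N₁ := max N₀ c.natAbs)
    (P := fun p => Ideal.span {(p : 𝓞 (AdjoinRoot mQ)), x - (a p : 𝓞 (AdjoinRoot mQ))})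
    (P' := fun p => Ideal.span {(p : 𝓞 (AdjoinRoot mQ)), x - (b p : 𝓞 (AdjoinRoot mQ))})
    ?_ ?_ ?_
  · intro p hp hpN
    have hpc : ¬ (p : ℤ) ∣ c := fun hd => by
      have := Nat.le_of_dvd (Int.natAbs_pos.2 hc0) (Int.natCast_dvd.1 hd)
      have := le_max_right N₀ c.natAbs
      omega
    exact absNorm_root_ideal hx hc hp hpc (h p hp ((le_max_left _ _).trans_lt hpN)).1
  · intro p hp hpN
    have hpc : ¬ (p : ℤ) ∣ c := fun hd => by
      have := Nat.le_of_dvd (Int.natAbs_pos.2 hc0) (Int.natCast_dvd.1 hd)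
      have := le_max_right N₀ c.natAbs
      omega
    exact absNorm_root_ideal hx hc hp hpc (h p hp ((le_max_left _ _).trans_lt hpN)).2.1
  · intro p hp hpN heq
    have hpc : ¬ (p : ℤ) ∣ c := fun hd => by
      have := Nat.le_of_dvd (Int.natAbs_pos.2 hc0) (Int.natCast_dvd.1 hd)
      have := le_max_right N₀ c.natAbs
      omega
    have hpn := h p hp ((le_max_left _ _).trans_lt hpN)
    have hnorm := absNorm_root_ideal hx hc hp hpc hpn.1
    set I : Ideal (𝓞 (AdjoinRoot mQ)) := Ideal.span {(p : 𝓞 (AdjoinRoot mQ)), x - (a p : 𝓞 (AdjoinRoot mQ))} with hI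
    have h1 : x - (a p : 𝓞 (AdjoinRoot mQ)) ∈ I := Ideal.subset_span (by simp)
    have h2 : x - (b p : 𝓞 (AdjoinRoot mQ)) ∈ I := by
      have h3 : x - (b p : 𝓞 (AdjoinRoot mQ)) ∈
        Ideal.span {(p : 𝓞 (AdjoinRoot mQ)), x - (b p : 𝓞 (AdjoinRoot mQ))} :=
        Ideal.subset_span (by simp)
      rw [show (Ideal.span {(p : 𝓞 (AdjoinRoot mQ)), x - (b p : 𝓞 (AdjoinRoot mQ))}) = I from heq] at h3
      exact h3
    have h3 : ((a p - b p : ℤ) : 𝓞 (AdjoinRoot mQ)) ∈ I := by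
      have := I.sub_mem h2 h1
      push_cast
      convert this using 1
      ring
    have hpI : (p : 𝓞 (AdjoinRoot mQ)) ∈ I := Ideal.subset_span (by simp)
    obtain ⟨u, v, huv⟩ : IsCoprime (a p - b p) (p : ℤ) :=
      ((Nat.prime_iff_prime_int.1 hp).coprime_iff_not_dvd.2 hpn.2.2).symm
    have h4 : (1 : 𝓞 (AdjoinRoot mQ)) ∈ I := by
      have h5 : (1 : 𝓞 (AdjoinRoot mQ)) = (u : 𝓞 (AdjoinRoot mQ)) * ((a p - b p : ℤ) : 𝓞 (AdjoinRoot mQ)) +
          (v : 𝓞 (AdjoinRoot mQ)) * (p : 𝓞 (AdjoinRoot mQ)) := by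
        have := congrArg (Int.cast : ℤ → 𝓞 (AdjoinRoot mQ)) huv
        push_cast at this
        push_cast
        exact this.symm
      rw [h5]
      exact I.add_mem (I.mul_mem_left _ h3) (I.mul_mem_left _ hpI)
    have h5 : I = ⊤ := (Ideal.eq_top_iff_one I).2 h4
    rw [h5, Ideal.absNorm_top] at hnorm
    exact hp.one_lt.ne hnorm

end Roots

end Pool.Agent.Lib.MP_1eeaa7_nt
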