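import Pool.Agent.Lib.MP_1eeaa7_nt.OrderLocal

/-!
# Solutions of `D f' = N f` with simple poles and rational residues are algebraic
-/

set_option autoImplicit false

namespace Pool.Agent.Lib.MP_1eeaa7_nt

open PowerSeries Finset

theorem isAlgebraic_of_pow_mul {f : ℂ⟦X⟧} {M : ℕ} (hM : 0 < M) {V U : Polynomial ℂ} (hV : V ≠ 0)
    (h : f ^ M * (V : ℂ⟦X⟧) = U) : IsAlgebraic (Polynomial ℂ) f := by
  refine ⟨Polynomial.C V * Polynomial.X ^ M - Polynomial.C U, ?_, ?_⟩
  · intro h0
    have h1 := congrArg (fun P : Polynomial (Polynomial ℂ) => P.coeff M) h0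
    simp only [Polynomial.coeff_sub, Polynomial.coeff_C_mul, Polynomial.coeff_X_pow_self, mul_one,
      Polynomial.coeff_zero, Polynomial.coeff_C, if_neg hM.ne', sub_zero] at h1
    exact hV h1
  · have h1 : ∀ P : Polynomial ℂ, algebraMap (Polynomial ℂ) ℂ⟦X⟧ P = (P : ℂ⟦X⟧) := fun P => rfl
    simp only [map_sub, map_mul, map_pow, Polynomial.aeval_C, Polynomial.aeval_X]
    rw [h1, h1, ← h]
    ring

/-- logarithmic derivative of a product of powers of linear factors -/
theorem prod_derivative {ι : Type*} [DecidableEq ι] (s : Finset ι) (z : ι → ℂ) (n : ι → ℕ)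
    {D : Polynomial ℂ} (hD : D = ∏ i ∈ s, (Polynomial.X - Polynomial.C (z i))) :
    D * Polynomial.derivative (∏ i ∈ s, (Polynomial.X - Polynomial.C (z i)) ^ n i) =
      (∑ i ∈ s, Polynomial.C (n i : ℂ) * ∏ l ∈ s.erase i, (Polynomial.X - Polynomial.C (z l))) *
        ∏ i ∈ s, (Polynomial.X - Polynomial.C (z i)) ^ n i := by
  rw [Polynomial.derivative_prod_finset, mul_sum, sum_mul]
  refine sum_congr rfl fun i hi => ?_
  have h1 : D = (Polynomial.X - Polynomial.C (z i)) *
      ∏ l ∈ s.erase i, (Polynomial.X - Polynomial.C (z l)) := by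
    rw [hD]
    exact (mul_prod_erase s (fun l => Polynomial.X - Polynomial.C (z l)) hi).symm
  have h2 : ∏ l ∈ s, (Polynomial.X - Polynomial.C (z l)) ^ n l =
      (Polynomial.X - Polynomial.C (z i)) ^ n i *
        ∏ l ∈ s.erase i, (Polynomial.X - Polynomial.C (z l)) ^ n l :=
    (mul_prod_erase s (fun l => (Polynomial.X - Polynomial.C (z l)) ^ n l) hi).symm
  have h3 : (Polynomial.X - Polynomial.C (z i)) * Polynomial.derivative
      ((Polynomial.X - Polynomial.C (z i)) ^ n i) =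
      Polynomial.C (n i : ℂ) * (Polynomial.X - Polynomial.C (z i)) ^ n i := by
    rw [Polynomial.derivative_X_sub_C_pow]
    rcases Nat.eq_zero_or_pos (n i) with h0 | h0
    · rw [h0]; simp
    · obtain ⟨m, hm⟩ : ∃ m, n i = m + 1 := ⟨n i - 1, by omega⟩
      rw [hm, Nat.add_sub_cancel]
      simp only [map_natCast]
      ring
  rw [h1, h2]
  linear_combination (∏ l ∈ s.erase i, (Polynomial.X - Polynomial.C (z l))) *
    (∏ l ∈ s.erase i, (Polynomial.X - Polynomial.C (z l)) ^ n l) * h3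

/-- Simple poles and rational residues: the solution is algebraic. -/
theorem pow_mul_of_rational_residues {D N : Polynomial ℂ} (hD : Squarefree D)
    (hD0 : D.eval 0 ≠ 0) (hdeg : N.degree < D.degree)
    (hres : ∀ α : ℂ, D.eval α = 0 → ∃ q : ℚ, N.eval α = q * D.derivative.eval α) {f : ℂ⟦X⟧}
    (hf : (D : ℂ⟦X⟧) * d⁄dX ℂ f = N * f) :
    ∃ M : ℕ, 0 < M ∧ ∃ V U : Polynomial ℂ, V ≠ 0 ∧ f ^ M * (V : ℂ⟦X⟧) = U := by
  classical
  have hDne : D ≠ 0 := hD.ne_zero
  set Z : Finset ℂ := D.roots.toFinset with hZ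
  have hsep : D.roots.Nodup := by
    refine Multiset.nodup_iff_count_le_one.2 fun a => ?_
    rw [Polynomial.count_roots]
    by_contra hcon
    push Not at hcon
    have h1 : (Polynomial.X - Polynomial.C a) ^ 2 ∣ D :=
      (pow_dvd_pow _ hcon).trans (Polynomial.pow_rootMultiplicity_dvd D a)
    have h2 := hD (Polynomial.X - Polynomial.C a) (by rwa [← sq])
    exact Polynomial.not_isUnit_X_sub_C a h2
  have hDprod : D = Polynomial.C D.leadingCoeff * ∏ z ∈ Z, (Polynomial.X - Polynomial.C z) := by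
    have h1 := (IsAlgClosed.splits D).eq_prod_roots
    have h2 : Z.val = D.roots := by
      rw [hZ, Multiset.toFinset_val]
      exact hsep.dedup
    rw [Finset.prod, h2]
    exact h1
  set E : Polynomial ℂ := ∏ z ∈ Z, (Polynomial.X - Polynomial.C z) with hE
  have hlc : D.leadingCoeff ≠ 0 := Polynomial.leadingCoeff_ne_zero.2 hDne
  have hrootZ : ∀ z ∈ Z, D.eval z = 0 := by
    intro z hz
    rw [hZ, Multiset.mem_toFinset, Polynomial.mem_roots hDne] at hz
    exact hz
  choose! q hq using hres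
  -- common denominator
  set M : ℕ := ∏ z ∈ Z, (q z).den with hM
  have hM0 : 0 < M := prod_pos fun z _ => (q z).den_pos
  have hMq : ∀ z ∈ Z, ∃ n : ℤ, (M : ℚ) * q z = n := by
    intro z hz
    refine ⟨(∏ l ∈ Z.erase z, (q l).den : ℕ) * (q z).num, ?_⟩
    rw [hM, ← mul_prod_erase Z _ hz]
    push_cast
    have := Rat.mul_den_eq_num (q z)
    linear_combination (∏ l ∈ Z.erase z, ((q l).den : ℚ)) * this
  choose! n hn using hMq
  set pos : ℂ → ℕ := fun z => (n z).toNat with hpos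
  set neg : ℂ → ℕ := fun z => (-n z).toNat with hneg
  have hpn : ∀ z, ((pos z : ℂ)) - (neg z : ℂ) = (n z : ℂ) := by
    intro z
    have h1 : ((n z).toNat : ℤ) - ((-n z).toNat : ℤ) = n z := by omega
    have h2 := congrArg (Int.cast : ℤ → ℂ) h1
    push_cast at h2
    exact h2
  set U : Polynomial ℂ := ∏ z ∈ Z, (Polynomial.X - Polynomial.C z) ^ pos z with hU
  set V : Polynomial ℂ := ∏ z ∈ Z, (Polynomial.X - Polynomial.C z) ^ neg z with hV
  have hU0 : U ≠ 0 := prod_ne_zero_iff.2 fun z _ => pow_ne_zero _ (Polynomial.X_sub_C_ne_zero z)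
  have hV0 : V ≠ 0 := prod_ne_zero_iff.2 fun z _ => pow_ne_zero _ (Polynomial.X_sub_C_ne_zero z)
  have hdU := prod_derivative Z (fun z => z) pos hE
  have hdV := prod_derivative Z (fun z => z) neg hE
  rw [← hU] at hdU
  rw [← hV] at hdV
  set Sp : Polynomial ℂ :=
    ∑ z ∈ Z, Polynomial.C (pos z : ℂ) * ∏ l ∈ Z.erase z, (Polynomial.X - Polynomial.C l) with hSp
  set Sn : Polynomial ℂ :=
    ∑ z ∈ Z, Polynomial.C (neg z : ℂ) * ∏ l ∈ Z.erase z, (Polynomial.X - Polynomial.C l) with hSn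
  have hkey : Polynomial.C (M : ℂ) * N = Polynomial.C D.leadingCoeff * (Sp - Sn) := by
    have hZcard : D.degree = (Z.card : ℕ) := by
      rw [Polynomial.degree_eq_natDegree hDne]
      congr 1
      conv_lhs => rw [hDprod]
      rw [Polynomial.natDegree_C_mul hlc, hE, Polynomial.natDegree_finsetProd_X_sub_C_eq_card]
    have hPdeg : ∀ z ∈ Z, ∏ l ∈ Z.erase z, (Polynomial.X - Polynomial.C l) ∈
        Polynomial.degreeLT ℂ Z.card := by
      intro z hz
      rw [Polynomial.mem_degreeLT, Polynomial.degree_prod]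
      simp only [Polynomial.degree_X_sub_C, sum_const, nsmul_eq_mul, mul_one, card_erase_of_mem hz]
      have : 0 < Z.card := card_pos.2 ⟨z, hz⟩
      exact_mod_cast Nat.sub_lt this one_pos
    have hSdeg : ∀ m : ℂ → ℕ, ∑ z ∈ Z, Polynomial.C (m z : ℂ) *
        ∏ l ∈ Z.erase z, (Polynomial.X - Polynomial.C l) ∈ Polynomial.degreeLT ℂ Z.card := by
      intro m
      refine Submodule.sum_mem _ fun z hz => ?_
      rw [← Polynomial.smul_eq_C_mul]
      exact Submodule.smul_mem _ _ (hPdeg z hz)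
    refine Polynomial.eq_of_degrees_lt_of_eval_finset_eq Z ?_ ?_ ?_
    · rw [← hZcard]
      refine lt_of_le_of_lt ?_ hdeg
      rw [← Polynomial.smul_eq_C_mul]
      exact Polynomial.degree_smul_le _ _
    · rw [← Polynomial.mem_degreeLT, ← Polynomial.smul_eq_C_mul]
      exact Submodule.smul_mem _ _ (Submodule.sub_mem _ (hSdeg pos) (hSdeg neg))
    · intro z hz
      have hSev : ∀ m : ℂ → ℕ, (∑ a ∈ Z, Polynomial.C (m a : ℂ) *
          ∏ l ∈ Z.erase a, (Polynomial.X - Polynomial.C l)).eval z =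
          (m z : ℂ) * (∏ l ∈ Z.erase z, (Polynomial.X - Polynomial.C l)).eval z := by
        intro m
        rw [Polynomial.eval_finsetSum, sum_eq_single z]
        · rw [Polynomial.eval_mul, Polynomial.eval_C]
        · intro a ha hne
          rw [Polynomial.eval_mul, Polynomial.eval_prod, prod_eq_zero (i := z)
            (mem_erase.2 ⟨hne.symm, hz⟩) (by simp), mul_zero]
        · intro h; exact absurd hz h
      have hD' : D.derivative.eval z = D.leadingCoeff *
          (∏ l ∈ Z.erase z, (Polynomial.X - Polynomial.C l)).eval z := by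
        have h1 : D = (Polynomial.X - Polynomial.C z) * (Polynomial.C D.leadingCoeff *
            ∏ l ∈ Z.erase z, (Polynomial.X - Polynomial.C l)) := by
          conv_lhs => rw [hDprod, hE, ← mul_prod_erase Z _ hz]
          ring
        have h2 := congrArg (fun P : Polynomial ℂ => P.derivative.eval z) h1
        simp only [Polynomial.derivative_mul, Polynomial.derivative_sub, Polynomial.derivative_X,
          Polynomial.derivative_C, sub_zero, one_mul, Polynomial.eval_add, Polynomial.eval_mul,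
          Polynomial.eval_sub, Polynomial.eval_X, Polynomial.eval_C, sub_self, zero_mul,
          add_zero] at h2
        exact h2
      have h3 := hq z (hrootZ z hz)
      have h4 := congrArg (Rat.cast : ℚ → ℂ) (hn z hz)
      push_cast at h4
      have h5 := hpn z
      rw [Polynomial.eval_mul, Polynomial.eval_mul, Polynomial.eval_sub, Polynomial.eval_C,
        Polynomial.eval_C, hSp, hSn, hSev, hSev, h3, hD']
      linear_combination (D.leadingCoeff *
        (∏ l ∈ Z.erase z, (Polynomial.X - Polynomial.C l)).eval z) * (h4 - h5)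
  -- the ODE for `f^M V`
  set W : ℂ⟦X⟧ := f ^ M * (V : ℂ⟦X⟧) with hW
  set T : Polynomial ℂ := Polynomial.C D.leadingCoeff * Sp with hT
  have hdc : ∀ P : Polynomial ℂ, d⁄dX ℂ (P : ℂ⟦X⟧) =
      ((Polynomial.derivative P : Polynomial ℂ) : ℂ⟦X⟧) := fun P => by
    ext n
    rw [coeff_derivative, Polynomial.coeff_coe, Polynomial.coeff_coe, Polynomial.coeff_derivative]
  have hU1 : (D : ℂ⟦X⟧) * d⁄dX ℂ (U : ℂ⟦X⟧) = (T : ℂ⟦X⟧) * (U : ℂ⟦X⟧) := by
    rw [hdc, ← Polynomial.coe_mul, ← Polynomial.coe_mul]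
    congr 1
    rw [hT, mul_assoc, ← hdU]
    conv_lhs => rw [hDprod]
    ring
  have hV1 : (D : ℂ⟦X⟧) * d⁄dX ℂ (V : ℂ⟦X⟧) =
      ((Polynomial.C D.leadingCoeff * Sn : Polynomial ℂ) : ℂ⟦X⟧) * (V : ℂ⟦X⟧) := by
    rw [hdc, ← Polynomial.coe_mul, ← Polynomial.coe_mul]
    congr 1
    rw [mul_assoc, ← hdV]
    conv_lhs => rw [hDprod]
    ring
  have hkey' := congrArg (fun P : Polynomial ℂ => (P : ℂ⟦X⟧)) hkey
  simp only [Polynomial.coe_mul, Polynomial.coe_C, Polynomial.coe_sub] at hkey'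
  have hW1 : (D : ℂ⟦X⟧) * d⁄dX ℂ W = (T : ℂ⟦X⟧) * W := by
    obtain ⟨m, hm⟩ : ∃ m, M = m + 1 := ⟨M - 1, by omega⟩
    rw [hW, Derivation.leibniz, Derivation.leibniz_pow, smul_eq_mul, smul_eq_mul, nsmul_eq_mul,
      smul_eq_mul, hT]
    have hMm : (M : ℂ⟦X⟧) = PowerSeries.C (M : ℂ) := by rw [map_natCast]
    simp only [Polynomial.coe_mul, Polynomial.coe_C] at hV1 ⊢
    rw [hMm, hm, Nat.add_sub_cancel, ← hm]
    have hfM : f ^ M = f ^ m * f := by rw [hm, pow_succ]
    rw [hfM]
    linear_combination (f ^ m * f) * hV1 + (PowerSeries.C (M : ℂ) * f ^ m * (V : ℂ⟦X⟧)) * hf +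
      (f ^ m * f * (V : ℂ⟦X⟧)) * hkey'
  -- uniqueness
  have hDu : IsUnit (D : ℂ⟦X⟧) := by
    rw [PowerSeries.isUnit_iff_constantCoeff, ← coeff_zero_eq_constantCoeff_apply,
      Polynomial.coeff_coe, Polynomial.coeff_zero_eq_eval_zero]
    exact (isUnit_iff_ne_zero).2 hD0
  obtain ⟨I, hI⟩ := hDu.exists_left_inv
  have hU0' : coeff 0 (U : ℂ⟦X⟧) ≠ 0 := by
    rw [Polynomial.coeff_coe, Polynomial.coeff_zero_eq_eval_zero, hU, Polynomial.eval_prod]
    refine prod_ne_zero_iff.2 fun z hz => ?_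
    rw [Polynomial.eval_pow]
    refine pow_ne_zero _ ?_
    rw [Polynomial.eval_sub, Polynomial.eval_X, Polynomial.eval_C, zero_sub, neg_ne_zero]
    rintro rfl
    exact hD0 (hrootZ 0 hz)
  set c : ℂ := coeff 0 W / coeff 0 (U : ℂ⟦X⟧) with hc
  have hfin : W = PowerSeries.C c * (U : ℂ⟦X⟧) := by
    refine solution_unique (r := I * (T : ℂ⟦X⟧)) ?_ ?_ ?_
    · rw [mul_assoc, ← hW1, ← mul_assoc, hI, one_mul]
    · rw [Derivation.leibniz, smul_eq_mul, smul_eq_mul, derivative_C, mul_zero, add_zero]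
      linear_combination (PowerSeries.C c * d⁄dX ℂ (U : ℂ⟦X⟧)) * (-hI) +
        (I * PowerSeries.C c) * hU1
    · rw [coeff_C_mul, hc, div_mul_cancel₀ _ hU0']
  refine ⟨M, hM0, V, Polynomial.C c * U, hV0, ?_⟩
  rw [← hW, hfin, Polynomial.coe_mul, Polynomial.coe_C]

end Pool.Agent.Lib.MP_1eeaa7_nt
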