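import Pool.Agent.Lib.MP_1eeaa7_nt.ExpTwist

/-!
# First order equations: the local theorem
-/

set_option autoImplicit false

namespace Pool.Agent.Lib.MP_1eeaa7_nt

open PowerSeries Finset

theorem exists_root_of_inv {x : ℝ} (h0 : 0 < x) (h1 : x < 1) {n : ℕ} (hn : n ≠ 0) :
    ∃ θ : ℝ, 1 ≤ θ ∧ x * θ ^ n = 1 := by
  refine ⟨x⁻¹ ^ ((n : ℝ)⁻¹), ?_, ?_⟩
  · exact Real.one_le_rpow ((one_le_inv₀ h0).2 h1.le) (by positivity)
  · rw [Real.rpow_inv_natCast_pow (by positivity) hn, mul_inv_cancel₀ h0.ne']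

section
variable {k : Type*} [NormedField k] [IsUltrametricDist k]

theorem norm_factorial_pow_ge {p : ℕ} (hp : p.Prime) (hpk : ‖(p : k)‖ < 1) (n : ℕ) :
    ‖(p : k)‖ ^ n ≤ ‖((n.factorial : ℕ) : k)‖ ^ (p - 1) := by
  have hfact : Fact p.Prime := ⟨hp⟩
  have h1 := sub_one_mul_padicValNat_factorial (p := p) n
  have h2 := norm_nat_ge (k := k) hp hpk (Nat.factorial_ne_zero n) (le_refl (padicValNat p n.factorial))
  calc ‖(p : k)‖ ^ n ≤ ‖(p : k)‖ ^ ((p - 1) * padicValNat p n.factorial) :=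
        pow_le_pow_of_le_one (norm_nonneg _) hpk.le (by rw [h1]; omega)
    _ = (‖(p : k)‖ ^ padicValNat p n.factorial) ^ (p - 1) := by rw [mul_comm, pow_mul]
    _ ≤ _ := pow_le_pow_left₀ (by positivity) h2 _

end

variable {R₀ κ k : Type*} [CommRing R₀] [CommRing κ] [NormedField k] [IsUltrametricDist k]
  [CharZero k] {p : ℕ} [hp : Fact p.Prime] [CharP κ p]

theorem finAP_local (hpk : ‖(p : k)‖ < 1) (π : R₀ →+* κ) (Φ : R₀ →+* k) (hΦ : ∀ x, ‖Φ x‖ ≤ 1)
    (hπ0 : ∀ x, π x = 0 → ‖Φ x‖ ≤ ‖(p : k)‖) (hπ1 : ∀ x, π x ≠ 0 → ‖Φ x‖ = 1) (r : R₀⟦X⟧) {s : ℕ}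
    (hs : ∀ n < s, π (coeff (p * n + (p - 1)) r) = π (coeff n r) ^ p)
    (hs' : π (coeff (p * s + (p - 1)) r) ≠ π (coeff s r) ^ p) (hsp : (s + 1) * (s + 2) + 1 < p)
    {F : k⟦X⟧} (hF : d⁄dX k F = PowerSeries.map Φ r * F) (hF0 : ‖coeff 0 F‖ ≤ 1) {h : k⟦X⟧}
    {C : ℝ} {A : ℕ} (hC : 0 ≤ C) (hh : ∀ n, ‖coeff n h‖ ≤ C * ((n + 1 : ℕ) : ℝ) ^ A) :
    FinAP {n | coeff n (h * F) = 0} := by
  have hp2 := hp.out.two_le
  have hp0 : 0 < ‖(p : k)‖ := norm_pos_iff.2 (Nat.cast_ne_zero.2 hp.out.ne_zero)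
  set w : R₀ := coeff (p * s + (p - 1)) r - coeff s r ^ p with hw
  have hwn : ‖Φ w‖ = 1 := by
    refine hπ1 _ fun h0 => hs' ?_
    rw [hw, map_sub, map_pow, sub_eq_zero] at h0
    exact h0
  set M : ℕ := p * (s + 1) with hM
  have hM1 : M - 1 = p * s + (p - 1) := by rw [hM, mul_add, mul_one]; omega
  have hM0 : 0 < M := by rw [hM]; positivity
  have hMk : (M : k) ≠ 0 := Nat.cast_ne_zero.2 hM0.ne'
  have hw0 : Φ w ≠ 0 := fun h0 => by rw [h0, norm_zero] at hwn; exact zero_ne_one hwn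
  set u : k := Φ w / M with hu
  have hu0 : u ≠ 0 := div_ne_zero hw0 hMk
  have hun : ‖u⁻¹‖ ≤ ‖(p : k)‖ := by
    rw [hu, inv_div, norm_div, hwn, div_one, hM, Nat.cast_mul, norm_mul]
    exact mul_le_of_le_one_right (norm_nonneg _) (norm_nat_le _)
  set ρ : R₀⟦X⟧ := r - PowerSeries.C w * X ^ (p * s + (p - 1)) with hρ
  have hρc : ∀ m, coeff m ρ = coeff m r - if m = p * s + (p - 1) then w else 0 := by
    intro m
    rw [hρ, map_sub, coeff_C_mul, coeff_X_pow, mul_ite, mul_one, mul_zero]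
  set G : k⟦X⟧ := F * expX (-u) M with hG
  have hρm : PowerSeries.map Φ ρ = PowerSeries.map Φ r - PowerSeries.C (Φ w) * X ^ (M - 1) := by
    rw [hρ, map_sub, map_mul, PowerSeries.map_C, map_pow, PowerSeries.map_X, hM1]
  have hMu : (M : k) * -u = -Φ w := by
    rw [hu, mul_neg, mul_div_cancel₀ _ hMk]
  have hGd : d⁄dX k G = PowerSeries.map Φ ρ * G := by
    rw [hG, Derivation.leibniz, smul_eq_mul, smul_eq_mul, hF, d_expX (-u) hM0, hρm, hMu, map_neg]
    ring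
  have hFG : F = expX u M * G := by
    rw [hG, mul_comm F, ← mul_assoc, expX_mul_expX_neg u hM0, one_mul]
  set B : R₀⟦X⟧ := (tw ρ)^[p] 1 with hB
  have hBS : ∀ n < p * (s + 1), ‖coeff n (PowerSeries.map Φ B)‖ ≤ ‖(p : k)‖ := by
    intro n hn
    rw [coeff_map]
    refine hπ0 _ ?_
    rw [← coeff_map, hB, map_tw_iter, coeff_tw_p]
    split_ifs with hd
    · obtain ⟨m, rfl⟩ := hd
      have hms : m < s + 1 := lt_of_mul_lt_mul_left hn (Nat.zero_le p)
      rw [Nat.mul_div_cancel_left _ hp.out.pos, coeff_map, coeff_map, hρc, hρc]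
      have h1 : m ≠ p * s + (p - 1) := by
        have : s ≤ p * s := Nat.le_mul_of_pos_left s hp.out.pos
        omega
      rw [if_neg h1, sub_zero]
      rcases Nat.lt_succ_iff_lt_or_eq.1 hms with h2 | h2
      · have h3 : p * m + (p - 1) ≠ p * s + (p - 1) := by
          intro h3
          have h4 : p * m = p * s := by omega
          exact h2.ne (Nat.eq_of_mul_eq_mul_left hp.out.pos h4)
        rw [if_neg h3, sub_zero, hs m h2, sub_self]
      · rw [h2, if_pos rfl, hw, sub_sub_cancel, map_pow, sub_self]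
    · rfl
  have hG0 : ‖coeff 0 G‖ ≤ 1 := by
    rw [hG, coeff_zero_eq_constantCoeff_apply, map_mul, constantCoeff_expX, mul_one,
      ← coeff_zero_eq_constantCoeff_apply]
    exact hF0
  obtain ⟨θ, hθ1, hθ⟩ := exists_root_of_inv hp0 hpk (n := s + 1 + 1) (by omega)
  obtain ⟨τ, hτ1, hτ⟩ := exists_root_of_inv hp0 hpk (n := p - 1) (by omega)
  have hgrow := growth hp.out hpk (ρ := PowerSeries.map Φ ρ) (G := G)
    (B := PowerSeries.map Φ B) (fun n => by rw [coeff_map]; exact hΦ _) hGd hG0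
    (by rw [d_iter_eq _ _ hGd, hB, map_tw_iter]) (fun n => by rw [coeff_map]; exact hΦ _)
    (S := s + 1) hBS hp0 hθ1 hθ.ge
  set Θ : ℝ := θ * τ with hΘdef
  have hΘ1 : 1 ≤ Θ := one_le_mul_of_one_le_of_one_le hθ1 hτ1
  have hτn : ∀ n : ℕ, 1 ≤ ‖((n.factorial : ℕ) : k)‖ * τ ^ n := by
    intro n
    have h1 := norm_factorial_pow_ge (k := k) hp.out hpk n
    have h2 : 1 ≤ (‖((n.factorial : ℕ) : k)‖ * τ ^ n) ^ (p - 1) := by
      rw [mul_pow, ← pow_mul, mul_comm n, pow_mul]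
      calc (1 : ℝ) = (‖(p : k)‖ * τ ^ (p - 1)) ^ n := by rw [hτ, one_pow]
        _ = ‖(p : k)‖ ^ n * (τ ^ (p - 1)) ^ n := mul_pow _ _ _
        _ ≤ _ := mul_le_mul_of_nonneg_right h1 (by positivity)
    by_contra hlt
    push Not at hlt
    have h3 := pow_lt_one₀ (by positivity) hlt (n := p - 1) (by omega)
    linarith
  have hGm : ∀ m, ‖coeff m G‖ ≤ Θ ^ (m / p) := by
    intro m
    calc ‖coeff m G‖ ≤ ‖coeff m G‖ * (‖(((m / p).factorial : ℕ) : k)‖ * τ ^ (m / p)) :=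
          le_mul_of_one_le_right (norm_nonneg _) (hτn _)
      _ = ‖coeff m G‖ * ‖(((m / p).factorial : ℕ) : k)‖ * τ ^ (m / p) := by ring
      _ ≤ θ ^ (m / p) * τ ^ (m / p) := mul_le_mul_of_nonneg_right (hgrow m) (by positivity)
      _ = Θ ^ (m / p) := by rw [hΘdef, mul_pow]
  have hlt : ‖(p : k)‖ * Θ ^ (s + 1) < 1 := by
    by_contra hcon
    push Not at hcon
    have h1 : 1 ≤ (‖(p : k)‖ * Θ ^ (s + 1)) ^ ((s + 1 + 1) * (p - 1)) := one_le_pow₀ hcon
    have h2 : (‖(p : k)‖ * Θ ^ (s + 1)) ^ ((s + 1 + 1) * (p - 1)) *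
        ‖(p : k)‖ ^ ((s + 1) * (p - 1) + (s + 1) * (s + 2)) =
        ‖(p : k)‖ ^ ((s + 1 + 1) * (p - 1)) * ((‖(p : k)‖ * θ ^ (s + 1 + 1)) ^ ((s + 1) * (p - 1)) *
          (‖(p : k)‖ * τ ^ (p - 1)) ^ ((s + 1) * (s + 2))) := by
      rw [hΘdef]
      ring
    rw [hθ, hτ, one_pow, one_pow, mul_one, mul_one] at h2
    have h3 : ‖(p : k)‖ ^ ((s + 1) * (p - 1) + (s + 1) * (s + 2)) ≤
        ‖(p : k)‖ ^ ((s + 1 + 1) * (p - 1)) := by
      rw [← h2]
      exact le_mul_of_one_le_left (by positivity) h1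
    have h4 : ‖(p : k)‖ ^ ((s + 1 + 1) * (p - 1)) <
        ‖(p : k)‖ ^ ((s + 1) * (p - 1) + (s + 1) * (s + 2)) := by
      refine pow_lt_pow_right_of_lt_one₀ hp0 hpk ?_
      have h5 : (s + 1) * (s + 2) < p - 1 := by omega
      calc (s + 1) * (p - 1) + (s + 1) * (s + 2) < (s + 1) * (p - 1) + (p - 1) := by omega
        _ = (s + 1 + 1) * (p - 1) := by ring
    exact absurd h3 (not_le.2 h4)
  have hGh : ∀ m, ‖coeff m (G * h)‖ ≤ C * ((m + 1 : ℕ) : ℝ) ^ A * Θ ^ (m / p) := by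
    intro m
    rw [PowerSeries.coeff_mul]
    refine IsUltrametricDist.norm_sum_le_of_forall_le_of_nonneg (by positivity) fun x hx => ?_
    rw [HasAntidiagonal.mem_antidiagonal] at hx
    rw [norm_mul, mul_comm]
    refine mul_le_mul ((hh x.2).trans ?_) ((hGm x.1).trans ?_) (norm_nonneg _) (by positivity)
    · refine mul_le_mul_of_nonneg_left (pow_le_pow_left₀ (by positivity) ?_ A) hC
      exact_mod_cast (by omega : x.2 + 1 ≤ m + 1)
    · exact pow_le_pow_right₀ hΘ1 (Nat.div_le_div_right (by omega))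
  have hhF : h * F = expX u M * (G * h) := by rw [hFG]; ring
  refine FinAP.of_classes' (q := M) hM0.ne' fun t ht => ?_
  have hdec := decay_twist hu0 hM0 hun hC hΘ1 hGh hlt ht
  obtain ⟨q', hq', hd⟩ := hdec.dichotomy hp.out hpk
  refine ⟨q', hq', fun N₀ => ?_⟩
  have key : ∀ K : ℕ, (((K.factorial : ℕ) : k) * u⁻¹ ^ K *
      coeff (M * K + t) (expX u M * (G * h)) = 0 ↔ coeff (t + M * K) (h * F) = 0) := by
    intro K
    rw [hhF, add_comm t, mul_eq_zero, or_iff_right]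
    exact mul_ne_zero (Nat.cast_ne_zero.2 (Nat.factorial_ne_zero _))
      (pow_ne_zero _ (inv_ne_zero hu0))
  rcases hd N₀ with h1 | h1
  · exact Or.inl fun t' => (key _).1 (h1 t')
  · exact Or.inr (h1.subset fun t' ht' => (key _).2 ht')

section Solve

variable {L : Type*} [Field L] [CharZero L]

omit [CharZero L] in
/-- coefficients of the solution of `F' = r F`, `F(0) = 1` -/
noncomputable def solC (c : ℕ → L) : ℕ → L
  | 0 => 1
  | n + 1 => (∑ i : Fin (n + 1), c (n - i.1) * solC c i.1) / ((n : L) + 1)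

theorem exists_solution (r : L⟦X⟧) : ∃ F : L⟦X⟧, d⁄dX L F = r * F ∧ coeff 0 F = 1 := by
  refine ⟨PowerSeries.mk (solC fun n => coeff n r), ?_, by rw [coeff_mk, solC]⟩
  ext n
  rw [coeff_derivative, coeff_mk, solC, div_mul_cancel₀ _ (Nat.cast_add_one_ne_zero n), PowerSeries.coeff_mul,
    Nat.sum_antidiagonal_eq_sum_range_succ_mk, Finset.sum_range]
  refine Eq.trans ?_ (Equiv.sum_comp Fin.revPerm _)
  refine sum_congr rfl fun i _ => ?_
  rw [coeff_mk, Fin.revPerm_apply, Fin.val_rev]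
  have := i.2
  rw [show n + 1 - (i.1 + 1) = n - i.1 by omega, show n - (n - i.1) = i.1 by omega]

theorem solution_unique {r F G : L⟦X⟧} (hF : d⁄dX L F = r * F) (hG : d⁄dX L G = r * G)
    (h0 : coeff 0 F = coeff 0 G) : F = G := by
  ext n
  induction n using Nat.strong_induction_on with
  | _ n ih =>
    rcases n with _ | n
    · exact h0
    · have h1 := congrArg (coeff n) hF
      have h2 := congrArg (coeff n) hG
      rw [coeff_derivative, PowerSeries.coeff_mul] at h1 h2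
      have h3 : ∑ x ∈ antidiagonal n, coeff x.1 r * coeff x.2 F =
          ∑ x ∈ antidiagonal n, coeff x.1 r * coeff x.2 G := by
        refine sum_congr rfl fun x hx => ?_
        rw [HasAntidiagonal.mem_antidiagonal] at hx
        rw [ih x.2 (by omega)]
      rw [h3, ← h2] at h1
      exact mul_right_cancel₀ (Nat.cast_add_one_ne_zero n) h1

end Solve

theorem d_map {A A' : Type*} [CommRing A] [CommRing A'] (φ : A →+* A') (f : A⟦X⟧) :
    d⁄dX A' (PowerSeries.map φ f) = PowerSeries.map φ (d⁄dX A f) := by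
  ext n
  rw [coeff_map, coeff_derivative, coeff_derivative, coeff_map, map_mul]
  simp

/-- the local theorem transported to a field `K` -/
theorem finAP_orderOne {K₀ K : Type*} [Field K₀] [Field K] [CharZero K] [CharZero K₀]
    (hpk : ‖(p : k)‖ < 1) (ι : R₀ →+* K₀) (j : K₀ →+* K) (Φ : K₀ →+* k) (π : R₀ →+* κ)
    (hΦ : ∀ x, ‖Φ (ι x)‖ ≤ 1)
    (hπ0 : ∀ x, π x = 0 → ‖Φ (ι x)‖ ≤ ‖(p : k)‖) (hπ1 : ∀ x, π x ≠ 0 → ‖Φ (ι x)‖ = 1)
    (r : R₀⟦X⟧) {s : ℕ}
    (hs : ∀ n < s, π (coeff (p * n + (p - 1)) r) = π (coeff n r) ^ p)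
    (hs' : π (coeff (p * s + (p - 1)) r) ≠ π (coeff s r) ^ p) (hsp : (s + 1) * (s + 2) + 1 < p)
    {f : K⟦X⟧} (hf : d⁄dX K f = PowerSeries.map (j.comp ι) r * f) (hf0 : coeff 0 f ≠ 0)
    {g : K₀⟦X⟧} {C : ℝ} {A : ℕ} (hC : 0 ≤ C)
    (hg : ∀ n, ‖Φ (coeff n g)‖ ≤ C * ((n + 1 : ℕ) : ℝ) ^ A) :
    FinAP {n | coeff n (PowerSeries.map j g * f) = 0} := by
  obtain ⟨F, hF, hF0⟩ := exists_solution (PowerSeries.map ι r)
  have hfF : f = PowerSeries.C (coeff 0 f) * PowerSeries.map j F := by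
    refine solution_unique hf ?_ ?_
    · rw [Derivation.leibniz, smul_eq_mul, smul_eq_mul, derivative_C, mul_zero, add_zero, d_map, hF,
        map_mul]
      have h1 : PowerSeries.map j (PowerSeries.map ι r) = PowerSeries.map (j.comp ι) r := by
        ext n
        simp only [coeff_map, RingHom.comp_apply]
      rw [h1]
      ring
    · rw [coeff_C_mul, coeff_map, hF0, map_one, mul_one]
  have h1 := finAP_local (F := PowerSeries.map Φ F) (h := PowerSeries.map Φ g) hpk π (Φ.comp ι)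
    hΦ hπ0 hπ1 r hs hs' hsp (by
      rw [d_map, hF, map_mul]
      rfl) (by rw [coeff_map, hF0, map_one, norm_one]) hC
    (fun n => by rw [coeff_map]; exact hg n)
  refine Eq.mp (congrArg FinAP ?_) h1
  ext n
  rw [Set.mem_ofPred_eq, Set.mem_ofPred_eq, ← map_mul, coeff_map, map_eq_zero_iff Φ Φ.injective]
  rw [hfF, mul_left_comm, coeff_C_mul, ← map_mul, coeff_map, mul_eq_zero, or_iff_right hf0,
    map_eq_zero_iff j j.injective]

end Pool.Agent.Lib.MP_1eeaa7_nt
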