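import Pool.Agent.Lib.MP_1eeaa7_nt.Growth

/-!
# Nonvanishing of the `p`-curvature of a first order equation with rational coefficients
-/

set_option autoImplicit false

namespace Pool.Agent.Lib.MP_1eeaa7_nt

open Polynomial Finset

variable {κ : Type*} [CommRing κ]

/-- numerator of the `p`-curvature of `D y' = N y` -/
noncomputable def pnum (p : ℕ) (D N : κ[X]) : κ[X] := derivative^[p - 1] (D ^ (p - 1) * N) + N ^ p

theorem eval_iter_derivative (α : κ) (n : ℕ) : ∀ H : κ[X],
    (derivative^[n] ((X - C α) ^ n * H)).eval α = (n.factorial : κ) * H.eval α := by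
  induction n with
  | zero => intro H; simp
  | succ n ih =>
    intro H
    rw [Function.iterate_succ_apply]
    have h1 : derivative ((X - C α) ^ (n + 1) * H) =
        (X - C α) ^ n * (C ((n : κ) + 1) * H + (X - C α) * derivative H) := by
      rw [derivative_mul, derivative_pow, derivative_sub, derivative_X, derivative_C, sub_zero,
        mul_one, Nat.add_sub_cancel]
      push_cast
      ring
    rw [h1, ih]
    simp only [eval_add, eval_mul, eval_C, eval_sub, eval_X, sub_self, zero_mul, add_zero,
      Nat.factorial_succ]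
    push_cast
    ring

variable {p : ℕ} [hp : Fact p.Prime] [CharP κ p]

theorem natCast_wilson : ((p - 1).factorial : κ) = -1 := by
  have h3 : ((p - 1).factorial : ZMod p) = -1 := ZMod.wilsons_lemma p
  have h4 := congrArg (ZMod.castHom (dvd_refl p) κ) h3
  rw [map_natCast, map_neg, map_one] at h4
  exact h4

omit hp in
theorem d_pow_mul (D f : PowerSeries κ) (n : ℕ) :
    (⇑(PowerSeries.derivative κ))^[n] (D ^ p * f) =
      D ^ p * (⇑(PowerSeries.derivative κ))^[n] f := by
  induction n with
  | zero => rfl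
  | succ n ih =>
    rw [Function.iterate_succ_apply', ih, Function.iterate_succ_apply', Derivation.leibniz,
      Derivation.leibniz_pow, smul_eq_mul, smul_eq_mul]
    have h1 : (p : PowerSeries κ) = 0 := by
      rw [← map_natCast (PowerSeries.C (R := κ)), CharP.cast_eq_zero, map_zero]
    rw [nsmul_eq_mul, h1, zero_mul, mul_zero, add_zero]

omit hp [CharP κ p] in
theorem coe_iter_derivative (n : ℕ) (f : κ[X]) :
    ((derivative^[n] f : κ[X]) : PowerSeries κ) =
      (⇑(PowerSeries.derivative κ))^[n] (f : PowerSeries κ) := by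
  induction n with
  | zero => rfl
  | succ n ih =>
    rw [Function.iterate_succ_apply', Function.iterate_succ_apply', ← ih,
      PowerSeries.derivative_coe]

theorem pnum_coe {D N : κ[X]} {r : PowerSeries κ} (hr : (D : PowerSeries κ) * r = N) :
    (pnum p D N : PowerSeries κ) = (D : PowerSeries κ) ^ p * (tw r)^[p] 1 := by
  rw [tw_p, mul_add, ← mul_pow, hr, ← d_pow_mul, pnum, Polynomial.coe_add, Polynomial.coe_pow,
    coe_iter_derivative]
  congr 2
  rw [Polynomial.coe_mul, Polynomial.coe_pow, ← hr, ← mul_assoc]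
  congr 1
  have := hp.out.two_le
  rw [← pow_succ]
  congr 1
  omega

omit [CharP κ p] in
theorem natDegree_pnum_le {D N : κ[X]} {d : ℕ} (hD : D.natDegree ≤ d) (hN : N.natDegree ≤ d) :
    (pnum p D N).natDegree ≤ p * d := by
  have hp2 := hp.out.two_le
  refine (natDegree_add_le _ _).trans (max_le ?_ ?_)
  · refine (natDegree_iterate_derivative _ _).trans ?_
    refine (Nat.sub_le _ _).trans ?_
    refine natDegree_mul_le.trans ?_
    have h1 : (D ^ (p - 1)).natDegree ≤ (p - 1) * d :=
      natDegree_pow_le.trans (Nat.mul_le_mul_left _ hD)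
    calc (D ^ (p - 1)).natDegree + N.natDegree ≤ (p - 1) * d + d := Nat.add_le_add h1 hN
      _ = (p - 1 + 1) * d := by ring
      _ = p * d := by rw [show p - 1 + 1 = p by omega]
  · exact natDegree_pow_le.trans (Nat.mul_le_mul_left _ hN)

/-- If the `p`-curvature vanishes to high order then it vanishes. -/
theorem pnum_eq_zero {D N : κ[X]} {r : PowerSeries κ} (hr : (D : PowerSeries κ) * r = N) {d : ℕ}
    (hD : D.natDegree ≤ d) (hN : N.natDegree ≤ d)
    (hall : ∀ n ≤ d, PowerSeries.coeff (p * n + (p - 1)) r = PowerSeries.coeff n r ^ p) :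
    pnum p D N = 0 := by
  have hp2 := hp.out.two_le
  have h1 : ∀ i < p * (d + 1), PowerSeries.coeff i ((tw r)^[p] 1) = 0 := by
    intro i hi
    rw [coeff_tw_p]
    split_ifs with h
    · obtain ⟨m, rfl⟩ := h
      have hm : m < d + 1 := lt_of_mul_lt_mul_left hi (Nat.zero_le p)
      rw [Nat.mul_div_cancel_left _ hp.out.pos, hall m (by omega), sub_self]
    · rfl
  ext i
  rw [coeff_zero]
  rcases lt_or_ge i (p * (d + 1)) with hi | hi
  · rw [← coeff_coe, pnum_coe hr, PowerSeries.coeff_mul]
    refine sum_eq_zero fun x hx => ?_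
    rw [HasAntidiagonal.mem_antidiagonal] at hx
    rw [h1 x.2 (by omega), mul_zero]
  · refine coeff_eq_zero_of_natDegree_lt ((natDegree_pnum_le hD hN).trans_lt ?_)
    refine lt_of_lt_of_le ?_ hi
    rw [mul_add]
    omega

variable [IsDomain κ]

omit [CharP κ p] in
/-- pole of the coefficient at infinity -/
theorem pnum_ne_zero_of_degree {D N : κ[X]} (hN : N ≠ 0) (hD : D ≠ 0)
    (hDN : D.natDegree ≤ N.natDegree) : pnum p D N ≠ 0 := by
  have hp2 := hp.out.two_le
  intro h
  have h1 : N ^ p = -derivative^[p - 1] (D ^ (p - 1) * N) := by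
    rw [pnum] at h
    exact eq_neg_of_add_eq_zero_right h
  have h2 : (N ^ p).degree = (derivative^[p - 1] (D ^ (p - 1) * N)).degree := by
    rw [h1, degree_neg]
  have hX : D ^ (p - 1) * N ≠ 0 := mul_ne_zero (pow_ne_zero _ hD) hN
  have h3 : (derivative^[p - 1] (D ^ (p - 1) * N)).degree < (D ^ (p - 1) * N).degree := by
    have h4 : ∀ n : ℕ, (derivative^[n + 1] (D ^ (p - 1) * N)).degree < (D ^ (p - 1) * N).degree := by
      intro n
      induction n with
      | zero =>
        rw [Function.iterate_one]
        exact degree_derivative_lt hX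
      | succ n ih =>
        rw [Function.iterate_succ_apply']
        exact (degree_derivative_le).trans_lt ih
    have h5 := h4 (p - 2)
    rwa [show p - 2 + 1 = p - 1 by omega] at h5
  have h4 : (D ^ (p - 1) * N).degree ≤ (N ^ p).degree := by
    rw [degree_eq_natDegree hX, degree_eq_natDegree (pow_ne_zero _ hN),
      natDegree_mul (pow_ne_zero _ hD) hN, natDegree_pow, natDegree_pow]
    have : (p - 1) * D.natDegree + N.natDegree ≤ p * N.natDegree := by
      calc (p - 1) * D.natDegree + N.natDegree ≤ (p - 1) * N.natDegree + N.natDegree :=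
            Nat.add_le_add_right (Nat.mul_le_mul_left _ hDN) _
        _ = (p - 1 + 1) * N.natDegree := by ring
        _ = p * N.natDegree := by rw [show p - 1 + 1 = p by omega]
    exact_mod_cast this
  rw [h2] at h4
  exact absurd h4 (not_le.2 h3)

omit [CharP κ p] in
/-- multiple poles -/
theorem pnum_ne_zero_of_sq {D N : κ[X]} {α : κ} (hD : (X - C α) ^ 2 ∣ D) (hN : N.eval α ≠ 0) :
    pnum p D N ≠ 0 := by
  have hp2 := hp.out.two_le
  intro h
  obtain ⟨E, rfl⟩ := hD
  have h1 := congrArg (eval α) h
  have h2 : ((X - C α) ^ 2 * E) ^ (p - 1) * N =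
      (X - C α) ^ (p - 1) * ((X - C α) ^ (p - 1) * (E ^ (p - 1) * N)) := by
    rw [mul_pow, ← pow_mul, mul_comm 2, mul_two, pow_add]
    ring
  rw [pnum, eval_add, eval_pow, eval_zero, h2, eval_iter_derivative, eval_mul, eval_pow, eval_sub,
    eval_X, eval_C, sub_self, zero_pow (by omega), zero_mul, mul_zero, zero_add] at h1
  exact hN (pow_eq_zero_iff hp.out.ne_zero |>.1 h1)

/-- simple poles with residue outside the prime field -/
theorem pnum_ne_zero_of_residue {D N E : κ[X]} {α : κ} (hD : D = (X - C α) * E)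
    (hres : N.eval α ^ p ≠ E.eval α ^ (p - 1) * N.eval α) : pnum p D N ≠ 0 := by
  intro h
  have h1 := congrArg (eval α) h
  have h2 : D ^ (p - 1) * N = (X - C α) ^ (p - 1) * (E ^ (p - 1) * N) := by
    rw [hD, mul_pow, mul_assoc]
  rw [pnum, eval_add, eval_pow, eval_zero, h2, eval_iter_derivative, natCast_wilson, eval_mul,
    eval_pow] at h1
  exact hres (by linear_combination h1)

end Pool.Agent.Lib.MP_1eeaa7_nt
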