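import Pool.Agent.Lib.MP_1eeaa7_nt.PlaceTr

/-!
# Places at which an irrational algebraic number has residue outside the prime field
-/

set_option autoImplicit false

namespace Pool.Agent.Lib.MP_1eeaa7_nt

open Polynomial

/-- Bezout relation over `ℤ` -/
theorem exists_bezout {m g : ℤ[X]} (hm : m.Monic) (hirr : Irreducible m) (hg : ¬ m ∣ g) :
    ∃ u v : ℤ[X], ∃ N : ℤ, N ≠ 0 ∧ u * g + v * m = C N := by
  have hirrQ : Irreducible (m.map (Int.castRingHom ℚ)) :=
    (hm.irreducible_iff_irreducible_map_fraction_map (K := ℚ)).1 hirr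
  have hcop : IsCoprime (g.map (Int.castRingHom ℚ)) (m.map (Int.castRingHom ℚ)) := by
    refine IsCoprime.symm ((hirrQ.coprime_iff_not_dvd).2 fun h => hg ?_)
    exact (Polynomial.map_dvd_map (Int.castRingHom ℚ) (RingHom.injective_int _) hm).1 h
  obtain ⟨a, b, hab⟩ := hcop
  have hclear : ∀ P : ℚ[X], ∃ d : ℤ, d ≠ 0 ∧ ∃ Q : ℤ[X], Q.map (Int.castRingHom ℚ) =
      C (d : ℚ) * P := by
    intro P
    obtain ⟨d, hd, hP⟩ := IsLocalization.integerNormalization_spec (nonZeroDivisors ℤ) P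
    refine ⟨d, nonZeroDivisors.ne_zero hd, _, hP.trans ?_⟩
    rw [Algebra.smul_def]
    rfl
  obtain ⟨d, hd, u, hu⟩ := hclear a
  obtain ⟨e, he, v, hv⟩ := hclear b
  refine ⟨C e * u, C d * v, d * e, mul_ne_zero hd he, ?_⟩
  apply Polynomial.map_injective _ (RingHom.injective_int (Int.castRingHom ℚ))
  simp only [Polynomial.map_add, Polynomial.map_mul, Polynomial.map_C, hu, hv]
  simp only [eq_intCast, map_mul]
  linear_combination (C (d : ℚ) * C (e : ℚ)) * hab

theorem norm_root_le {k : Type*} [NormedField k] [IsUltrametricDist k] {P : k[X]}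
    (hP : ∀ i, ‖P.coeff i‖ ≤ 1) (hm : P.Monic) {β : k} (h0 : P.eval β = 0) : ‖β‖ ≤ 1 := by
  by_contra hcon
  push Not at hcon
  have hpos : 0 < P.natDegree := by
    by_contra h
    have h1 : P.natDegree = 0 := by omega
    rw [eq_one_of_monic_natDegree_zero hm h1, eval_one] at h0
    exact one_ne_zero h0
  have h1 : P.eval β = ∑ l ∈ Finset.range (P.natDegree + 1), P.coeff l * β ^ l :=
    eval_eq_sum_range β
  rw [Finset.sum_range_succ, h0, hm.coeff_natDegree, one_mul] at h1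
  have h2 : β ^ P.natDegree = -∑ l ∈ Finset.range P.natDegree, P.coeff l * β ^ l := by
    linear_combination -h1
  have h4 : ‖∑ l ∈ Finset.range P.natDegree, P.coeff l * β ^ l‖ ≤ ‖β‖ ^ (P.natDegree - 1) := by
    refine IsUltrametricDist.norm_sum_le_of_forall_le_of_nonneg (by positivity) fun l hl => ?_
    rw [Finset.mem_range] at hl
    rw [norm_mul, norm_pow]
    calc ‖P.coeff l‖ * ‖β‖ ^ l ≤ 1 * ‖β‖ ^ (P.natDegree - 1) := by
          refine mul_le_mul (hP _) ?_ (by positivity) zero_le_one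
          exact pow_le_pow_right₀ hcon.le (by omega)
      _ = _ := one_mul _
  rw [← norm_neg, ← h2, norm_pow] at h4
  have h5 : ‖β‖ ^ (P.natDegree - 1) < ‖β‖ ^ P.natDegree := pow_lt_pow_right₀ hcon (by omega)
  exact absurd h4 (not_le.2 h5)

theorem prod_X_sub_C_ZMod (p : ℕ) [hp : Fact p.Prime] :
    ∏ a : ZMod p, (X - C a) = (X ^ p - X : (ZMod p)[X]) := by
  have h1 : (X ^ p - X : (ZMod p)[X]).Monic := by
    refine monic_X_pow_sub ?_
    rw [degree_X]
    exact_mod_cast hp.out.one_lt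
  have h2 : (X ^ p - X : (ZMod p)[X]).roots = Finset.univ.val := by
    have := FiniteField.roots_X_pow_card_sub_X (ZMod p)
    rwa [ZMod.card] at this
  have h3 : (X ^ p - X : (ZMod p)[X]).natDegree = p := by
    rw [natDegree_sub_eq_left_of_natDegree_lt]
    · exact natDegree_X_pow p
    · rw [natDegree_X, natDegree_X_pow]; exact hp.out.one_lt
  have h4 := prod_multiset_X_sub_C_of_monic_of_roots_card_eq h1 (by
    rw [h2, h3]
    show (Finset.univ : Finset (ZMod p)).card = p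
    rw [Finset.card_univ, ZMod.card])
  rw [h2] at h4
  exact h4

/-- an element whose residue is fixed by Frobenius is close to an integer -/
theorem exists_int_close {p : ℕ} [hp : Fact p.Prime] {x : PadicAlgCl p} (hx : ‖x‖ ≤ 1)
    (h : ‖x ^ p - x‖ < 1) : ∃ a : ℤ, ‖x - a‖ < 1 := by
  set O := Ok (PadicAlgCl p)
  set κ := IsLocalRing.ResidueField O
  have hch : CharP κ p := by
    rw [CharP.charP_iff_prime_eq_zero hp.out, ← map_natCast (IsLocalRing.residue O)]
    rw [IsLocalRing.residue_eq_zero_iff, IsLocalRing.mem_maximalIdeal, mem_nonunits_Ok]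
    push_cast
    exact norm_p_AlgCl_lt
  set y : κ := IsLocalRing.residue O ⟨x, hx⟩ with hy
  have hyp : y ^ p - y = 0 := by
    rw [hy, ← map_pow, ← map_sub, IsLocalRing.residue_eq_zero_iff, IsLocalRing.mem_maximalIdeal,
      mem_nonunits_Ok]
    push_cast
    exact h
  have h1 := congrArg (fun P : (ZMod p)[X] => eval₂ (ZMod.castHom (dvd_refl p) κ) y P)
    (prod_X_sub_C_ZMod p)
  simp only [eval₂_finsetProd, eval₂_sub, eval₂_X, eval₂_C, eval₂_pow] at h1
  rw [hyp, Finset.prod_eq_zero_iff] at h1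
  obtain ⟨a, _, ha⟩ := h1
  obtain ⟨b, rfl⟩ := ZMod.intCast_surjective a
  refine ⟨b, ?_⟩
  rw [map_intCast, hy, ← map_intCast (IsLocalRing.residue O), ← map_sub,
    IsLocalRing.residue_eq_zero_iff, IsLocalRing.mem_maximalIdeal, mem_nonunits_Ok] at ha
  push_cast at ha
  exact ha

theorem int_dvd_of_norm_lt {p : ℕ} [hp : Fact p.Prime] {n : ℤ} (h : ‖(n : PadicAlgCl p)‖ < 1) :
    (p : ℤ) ∣ n := by
  by_contra hn
  rw [norm_int_of_not_dvd hn] at h
  exact lt_irrefl _ h

/-- two roots in the same residue class are equal -/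
theorem root_unique {k : Type*} [NormedField k] [IsUltrametricDist k] {P : k[X]}
    (hP : ∀ i, ‖P.coeff i‖ ≤ 1) {x y : k} (hx : ‖x‖ ≤ 1) (hy : ‖y‖ ≤ 1) (hx0 : P.eval x = 0)
    (hy0 : P.eval y = 0) (hd : ‖P.derivative.eval x‖ = 1) (hxy : ‖y - x‖ < 1) : y = x := by
  obtain ⟨P₀, hP₀⟩ := exists_lift_poly' (Ok k) (P := P) hP
  have hev : ∀ (Q : (Ok k)[X]) (z : Ok k), ((Q.eval z : Ok k) : k) =
      (Q.map (Ok k).subtype).eval (z : k) := by
    intro Q z
    rw [eval_map]
    exact hom_eval₂ Q (RingHom.id _) (Ok k).subtype z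
  obtain ⟨c, hc⟩ := P₀.binomExpansion ⟨x, hx⟩ (⟨y, hy⟩ - ⟨x, hx⟩)
  rw [add_sub_cancel] at hc
  have h1 := congrArg Subtype.val hc
  push_cast at h1
  rw [hev, hev, hev, hP₀, ← derivative_map, hP₀] at h1
  simp only [hx0, hy0, zero_add] at h1
  by_contra hne
  have h2 : (y - x) * (P.derivative.eval x + (c : k) * (y - x)) = 0 := by
    linear_combination -h1
  have h3 := (mul_eq_zero.1 h2).resolve_left (sub_ne_zero.2 hne)
  have h4 : P.derivative.eval x = -((c : k) * (y - x)) := eq_neg_of_add_eq_zero_left h3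
  rw [h4, norm_neg, norm_mul] at hd
  have h5 : ‖(c : k)‖ * ‖y - x‖ < 1 :=
    mul_lt_one_of_nonneg_of_lt_one_right c.2 (norm_nonneg _) hxy
  linarith

/-- a root with residue outside the prime field -/
theorem exists_good_root {m : ℤ[X]} (hm : m.Monic) (hdeg : 2 ≤ m.natDegree) {p : ℕ}
    [hp : Fact p.Prime] {u v : ℤ[X]} {N : ℤ} (hN : ¬ (p : ℤ) ∣ N)
    (hsep : u * derivative m + v * m = C N)
    (hfew : ∀ a b : ℤ, (p : ℤ) ∣ m.eval a → (p : ℤ) ∣ m.eval b → (p : ℤ) ∣ a - b) :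
    ∃ β : PadicAlgCl p, (m.map (Int.castRingHom _)).eval β = 0 ∧ β ∈ WOs (PadicAlgCl p) p ∧
      ‖β ^ p - β‖ = 1 := by
  set P : (PadicAlgCl p)[X] := m.map (Int.castRingHom _) with hP
  have hPc : ∀ i, ‖P.coeff i‖ ≤ 1 := fun i => by rw [hP, coeff_map]; exact norm_int_le' _
  have hPm : P.Monic := hm.map _
  have hPdeg : P.natDegree = m.natDegree := hm.natDegree_map _
  have hroot : ∀ β, P.eval β = 0 → ‖β‖ ≤ 1 := fun β h => norm_root_le hPc hPm h
  have hder : ∀ β, P.eval β = 0 → ‖P.derivative.eval β‖ = 1 := by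
    intro β hβ
    have hβ1 := hroot β hβ
    have h1 := congrArg (fun Q : ℤ[X] => (Q.map (Int.castRingHom (PadicAlgCl p))).eval β) hsep
    simp only [Polynomial.map_add, Polynomial.map_mul, eval_add, eval_mul, Polynomial.map_C,
      eval_C] at h1
    rw [← hP, hβ, mul_zero, add_zero, ← derivative_map, ← hP] at h1
    have h2 : ∀ Q : ℤ[X], ‖(Q.map (Int.castRingHom (PadicAlgCl p))).eval β‖ ≤ 1 := by
      intro Q
      rw [eval_map, eval₂_eq_sum_range]
      refine IsUltrametricDist.norm_sum_le_of_forall_le_of_nonneg zero_le_one fun l _ => ?_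
      rw [norm_mul, norm_pow]
      exact mul_le_one₀ (norm_int_le' _) (by positivity) (pow_le_one₀ (norm_nonneg _) hβ1)
    refine le_antisymm ?_ ?_
    · rw [hP, derivative_map]; exact h2 _
    · by_contra hcon
      push Not at hcon
      have h3 : ‖(N : PadicAlgCl p)‖ < 1 := by
        have h4 : (Int.castRingHom (PadicAlgCl p)) N = (N : PadicAlgCl p) := rfl
        rw [h4] at h1
        rw [← h1, norm_mul]
        exact mul_lt_one_of_nonneg_of_lt_one_right (h2 u) (norm_nonneg _) hcon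
      rw [norm_int_of_not_dvd hN] at h3
      exact lt_irrefl _ h3
  have hW : ∀ β, P.eval β = 0 → β ∈ WOs (PadicAlgCl p) p := fun β hβ =>
    WOs.root (m := P) (fun i => by rw [hP, coeff_map]; exact _root_.intCast_mem _ _) (hroot β hβ) hβ
      (hder β hβ)
  by_contra hcon
  push Not at hcon
  have hclose : ∀ β, P.eval β = 0 → ∃ a : ℤ, ‖β - a‖ < 1 := by
    intro β hβ
    refine exists_int_close (hroot β hβ) (lt_of_le_of_ne ?_ (hcon β hβ (hW β hβ)))
    exact WOs.norm_le ((WOs _ p).sub_mem ((WOs _ p).pow_mem (hW β hβ) p) (hW β hβ))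
  have hdvd : ∀ β, P.eval β = 0 → ∀ a : ℤ, ‖β - a‖ < 1 → (p : ℤ) ∣ m.eval a := by
    intro β hβ a ha
    refine int_dvd_of_norm_lt ?_
    have h1 := eval_sub_eval_le hPc (norm_int_le' (p := p) a) (hroot β hβ)
    rw [hβ, sub_zero, hP, eval_intCast_map, norm_sub_rev] at h1
    exact h1.trans_lt ha
  -- two distinct roots
  obtain ⟨β₁, h1⟩ := IsAlgClosed.exists_root P (by
    rw [degree_eq_natDegree hPm.ne_zero, hPdeg]
    have : m.natDegree ≠ 0 := by omega
    exact_mod_cast this)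
  obtain ⟨Q, hQ⟩ := dvd_iff_isRoot.2 h1
  have hQ0 : Q ≠ 0 := fun h => hPm.ne_zero (by rw [hQ, h, mul_zero])
  have hQdeg : 1 ≤ Q.natDegree := by
    have h2 : P.natDegree = 1 + Q.natDegree := by
      conv_lhs => rw [hQ]
      rw [natDegree_mul (X_sub_C_ne_zero _) hQ0, natDegree_X_sub_C]
    omega
  obtain ⟨β₂, h2⟩ := IsAlgClosed.exists_root Q (by
    rw [degree_eq_natDegree hQ0]
    have : Q.natDegree ≠ 0 := by omega
    exact_mod_cast this)
  have hβ₁ : P.eval β₁ = 0 := h1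
  have hβ₂ : P.eval β₂ = 0 := by rw [hQ, eval_mul, h2.eq_zero, mul_zero]
  have hne : β₂ ≠ β₁ := by
    rintro rfl
    have h3 := hder β₂ hβ₂
    have h4 : P.derivative.eval β₂ = 0 := by
      rw [hQ, derivative_mul, eval_add, eval_mul, eval_mul, h2.eq_zero, eval_sub, eval_X, eval_C,
        sub_self, zero_mul, mul_zero, add_zero]
    rw [h4, norm_zero] at h3
    exact zero_ne_one h3
  obtain ⟨a₁, ha₁⟩ := hclose β₁ hβ₁
  obtain ⟨a₂, ha₂⟩ := hclose β₂ hβ₂
  have h3 := hfew a₂ a₁ (hdvd β₂ hβ₂ a₂ ha₂) (hdvd β₁ hβ₁ a₁ ha₁)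
  have h4 : ‖β₂ - β₁‖ < 1 := by
    have h5 : β₂ - β₁ = ((β₂ - a₂) + ((a₂ - a₁ : ℤ) : PadicAlgCl p)) + -(β₁ - a₁) := by
      push_cast; ring
    rw [h5]
    refine (IsUltrametricDist.norm_add_le_max _ _).trans_lt (max_lt ?_ (by rwa [norm_neg]))
    exact (IsUltrametricDist.norm_add_le_max _ _).trans_lt (max_lt ha₂ (norm_int_dvd h3))
  exact hne (root_unique hPc (hroot β₁ hβ₁) (hroot β₂ hβ₂) hβ₁ hβ₂ (hder β₁ hβ₁) h4)

theorem exists_place_integral {K : Type} [Field K] [CharZero K] (S : Set K) (hS : S.Finite)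
    {μ : K} (hμS : μ ∈ Subring.closure S) (hint : IsIntegral ℤ μ) (hirrat : ∀ n : ℤ, μ ≠ n)
    (N₀ : ℕ) :
    ∃ p : ℕ, ∃ _ : Fact p.Prime, N₀ < p ∧ ∃ ψ : Subring.closure S →+* PadicAlgCl p,
      Function.Injective ψ ∧ (∀ x, ψ x ∈ WOs (PadicAlgCl p) p) ∧
        ‖ψ ⟨μ, hμS⟩ ^ p - ψ ⟨μ, hμS⟩‖ = 1 := by
  have hcount := intPoly_countable
  set m := minpoly ℤ μ with hmdef
  have hm : m.Monic := minpoly.monic hint
  have hirr : Irreducible m := minpoly.irreducible hint
  have hroot : eval₂ (Int.castRingHom K) μ m = 0 := minpoly.aeval ℤ μ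
  have hdvd : ∀ g : ℤ[X], eval₂ (Int.castRingHom K) μ g = 0 → m ∣ g := fun g hg =>
    minpoly.isIntegrallyClosed_dvd hint hg
  have hdeg : 2 ≤ m.natDegree := by
    have h1 : 0 < m.natDegree := minpoly.natDegree_pos hint
    by_contra hcon
    have h2 : m.natDegree = 1 := by omega
    have h3 : m = X + C (m.coeff 0) := hm.eq_X_add_C h2
    rw [h3, eval₂_add, eval₂_X, eval₂_C] at hroot
    refine hirrat (-m.coeff 0) ?_
    push_cast
    exact eq_neg_of_add_eq_zero_left hroot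
  set i₁ : AdjoinRoot m →+* K := AdjoinRoot.lift (Int.castRingHom K) μ hroot with hi₁
  have hi₁mk : ∀ g : ℤ[X], i₁ (AdjoinRoot.mk m g) = eval₂ (Int.castRingHom K) μ g := fun g => by
    rw [hi₁, AdjoinRoot.lift_mk]
  have hinj : Function.Injective i₁ := by
    rw [injective_iff_map_eq_zero]
    intro y hy
    obtain ⟨g, rfl⟩ := AdjoinRoot.mk_surjective y
    rw [hi₁mk] at hy
    exact AdjoinRoot.mk_eq_zero.2 (hdvd g hy)
  have hdom : IsDomain (AdjoinRoot m) := hinj.isDomain i₁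
  have hcz : CharZero (AdjoinRoot m) := by
    refine ⟨fun a b h => ?_⟩
    have h1 := congrArg i₁ h
    rw [map_natCast, map_natCast] at h1
    exact Nat.cast_injective h1
  have hcb : Countable (AdjoinRoot m) := (AdjoinRoot.mk_surjective (g := m)).countable
  have hBS : ∀ x, i₁ x ∈ Subring.closure S := by
    intro x
    obtain ⟨g, rfl⟩ := AdjoinRoot.mk_surjective x
    rw [hi₁mk, eval₂_eq_sum_range]
    exact Subring.sum_mem _ fun l _ => Subring.mul_mem _ (_root_.intCast_mem _ _)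
      (Subring.pow_mem _ hμS _)
  obtain ⟨b, hb0, hb⟩ := exists_embedding_over i₁ hinj S hS hBS
  obtain ⟨g, rfl⟩ := AdjoinRoot.mk_surjective b
  obtain ⟨u, v, N, hN0, hN⟩ := exists_bezout hm hirr (g := g) fun h =>
    hb0 (AdjoinRoot.mk_eq_zero.2 h)
  have hsepdvd : ¬ m ∣ derivative m := by
    intro h
    have h1 : derivative m ≠ 0 := fun h0 => by
      have h2 := Polynomial.derivative_eq_zero.1 h0
      omega
    have h2 := natDegree_le_of_dvd h h1
    have h3 := natDegree_derivative_lt (p := m) (by omega)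
    omega
  obtain ⟨u', v', N', hN0', hN'⟩ := exists_bezout hm hirr hsepdvd
  obtain ⟨p, hp, hpN, hfew⟩ := exists_prime_few_roots hm hirr (max N₀ (max N.natAbs N'.natAbs))
  have hfact : Fact p.Prime := ⟨hp⟩
  have hle1 : N₀ ≤ max N₀ (max N.natAbs N'.natAbs) := le_max_left _ _
  have hle2 : N.natAbs ≤ max N₀ (max N.natAbs N'.natAbs) := (le_max_left _ _).trans (le_max_right _ _)
  have hle3 : N'.natAbs ≤ max N₀ (max N.natAbs N'.natAbs) := (le_max_right _ _).trans (le_max_right _ _)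
  have hpN1 : ¬ (p : ℤ) ∣ N := fun h => by
    have h1 := Nat.le_of_dvd (Int.natAbs_pos.2 hN0) (Int.natCast_dvd.1 h)
    omega
  have hpN2 : ¬ (p : ℤ) ∣ N' := fun h => by
    have h1 := Nat.le_of_dvd (Int.natAbs_pos.2 hN0') (Int.natCast_dvd.1 h)
    omega
  obtain ⟨β, hβ0, hβW, hβ1⟩ := exists_good_root hm hdeg hpN2 hN' hfew
  rw [eval_map] at hβ0
  set η : AdjoinRoot m →+* PadicAlgCl p := AdjoinRoot.lift (Int.castRingHom _) β hβ0 with hη
  have hηmk : ∀ g : ℤ[X], η (AdjoinRoot.mk m g) = eval₂ (Int.castRingHom _) β g := fun g => by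
    rw [hη, AdjoinRoot.lift_mk]
  have hηW : ∀ x, η x ∈ WOs (PadicAlgCl p) p := by
    intro x
    obtain ⟨g, rfl⟩ := AdjoinRoot.mk_surjective x
    rw [hηmk, eval₂_eq_sum_range]
    exact Subring.sum_mem _ fun l _ => Subring.mul_mem _ (_root_.intCast_mem _ _)
      (Subring.pow_mem _ hβW _)
  have hηbez : ∀ {f a b : ℤ[X]} {n : ℤ}, a * f + b * m = C n →
      eval₂ (Int.castRingHom (PadicAlgCl p)) β a * eval₂ (Int.castRingHom _) β f = n := by
    intro f a b n h
    have h1 := congrArg (eval₂ (Int.castRingHom (PadicAlgCl p)) β) h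
    rw [eval₂_add, eval₂_mul, eval₂_mul, hβ0, mul_zero, add_zero, eval₂_C] at h1
    exact h1
  have hηinj : Function.Injective η := by
    rw [injective_iff_map_eq_zero]
    intro y hy
    obtain ⟨f, rfl⟩ := AdjoinRoot.mk_surjective y
    by_contra hne
    obtain ⟨a, c, n, hn0, hn⟩ := exists_bezout hm hirr (g := f) fun h =>
      hne (AdjoinRoot.mk_eq_zero.2 h)
    have h1 := hηbez hn
    rw [hηmk] at hy
    rw [hy, mul_zero] at h1
    exact hn0 (Int.cast_eq_zero.1 h1.symm)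
  have hηb : ‖η (AdjoinRoot.mk m g)‖ = 1 := by
    have h1 := hηbez hN
    have h2 := congrArg norm h1
    rw [norm_mul, norm_int_of_not_dvd hpN1] at h2
    refine le_antisymm (WOs.norm_le (hηW _)) ?_
    by_contra hcon
    push Not at hcon
    rw [hηmk] at hcon
    have h3 : ‖eval₂ (Int.castRingHom (PadicAlgCl p)) β u‖ ≤ 1 := by
      have := WOs.norm_le (hηW (AdjoinRoot.mk m u))
      rwa [hηmk] at this
    have := mul_lt_one_of_nonneg_of_lt_one_right h3 (norm_nonneg _) hcon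
    linarith
  obtain ⟨ψ, hψ1, hψ2, hψ3⟩ := hb p η hηinj hηW hηb
  refine ⟨p, hfact, by omega, ψ, hψ1, hψ2, ?_⟩
  have h7 : ψ ⟨μ, hμS⟩ = β := by
    have h8 := hψ3 (AdjoinRoot.root m)
    have h10 : i₁ (AdjoinRoot.root m) = μ := by rw [hi₁, AdjoinRoot.lift_root]
    have h9 : (⟨i₁ (AdjoinRoot.root m), hBS _⟩ : Subring.closure S) = ⟨μ, hμS⟩ := Subtype.ext h10
    have h11 : η (AdjoinRoot.root m) = β := by rw [hη, AdjoinRoot.lift_root]
    rw [h9, h11] at h8
    exact h8
  rw [h7]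
  exact hβ1

/-- **Main embedding theorem**: an irrational element can be given a residue outside `𝔽_p`. -/
theorem exists_place {K : Type} [Field K] [CharZero K] (S : Set K) (hS : S.Finite)
    {lam : K} (hlS : lam ∈ Subring.closure S) (hirrat : ∀ q : ℚ, lam ≠ q) (N₀ : ℕ) :
    ∃ p : ℕ, ∃ _ : Fact p.Prime, N₀ < p ∧ ∃ ψ : Subring.closure S →+* PadicAlgCl p,
      Function.Injective ψ ∧ (∀ x, ψ x ∈ WOs (PadicAlgCl p) p) ∧
        ‖ψ ⟨lam, hlS⟩ ^ p - ψ ⟨lam, hlS⟩‖ = 1 := by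
  by_cases htr : ∀ g : ℤ[X], eval₂ (Int.castRingHom K) lam g = 0 → g = 0
  · exact exists_place_transcendental S hS hlS htr N₀
  · push Not at htr
    obtain ⟨g, hg, hg0⟩ := htr
    have halg : IsAlgebraic ℤ lam := ⟨g, hg0, hg⟩
    obtain ⟨c, hc0, hc⟩ := halg.exists_integral_multiple
    rw [zsmul_eq_mul] at hc
    have hμS : (c : K) * lam ∈ Subring.closure S :=
      Subring.mul_mem _ (_root_.intCast_mem _ _) hlS
    have hcK : (c : K) ≠ 0 := Int.cast_ne_zero.2 hc0
    obtain ⟨p, hp, hpN, ψ, hψ1, hψ2, hψ3⟩ := exists_place_integral S hS hμS hc (fun n hn => by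
      refine hirrat (n / c) ?_
      push_cast
      rw [eq_div_iff hcK, mul_comm]
      exact hn) N₀
    refine ⟨p, hp, hpN, ψ, hψ1, hψ2, ?_⟩
    set t := ψ ⟨lam, hlS⟩ with ht
    have h1 : ψ ⟨(c : K) * lam, hμS⟩ = (c : PadicAlgCl p) * t := by
      have h2 : (⟨(c : K) * lam, hμS⟩ : Subring.closure S) =
          (c : Subring.closure S) * ⟨lam, hlS⟩ := Subtype.ext (by push_cast; rfl)
      rw [h2, map_mul, map_intCast]
    rw [h1] at hψ3
    have ht1 : ‖t‖ ≤ 1 := WOs.norm_le (hψ2 _)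
    have ht2 : ‖t ^ p - t‖ ≤ 1 := WOs.norm_le
      ((WOs _ p).sub_mem ((WOs _ p).pow_mem (hψ2 _) p) (hψ2 _))
    refine le_antisymm ht2 ?_
    by_contra hcon
    push Not at hcon
    have h3 : ((c : PadicAlgCl p) * t) ^ p - (c : PadicAlgCl p) * t =
        (c : PadicAlgCl p) ^ p * (t ^ p - t) + ((c ^ p - c : ℤ) : PadicAlgCl p) * t := by
      push_cast; ring
    have h4 : (p : ℤ) ∣ c ^ p - c := by
      have h5 : ((c ^ p - c : ℤ) : ZMod p) = 0 := by
        push_cast
        rw [ZMod.pow_card, sub_self]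
      exact (ZMod.intCast_zmod_eq_zero_iff_dvd _ p).1 h5
    have h6 : ‖((c : PadicAlgCl p) * t) ^ p - (c : PadicAlgCl p) * t‖ < 1 := by
      rw [h3]
      refine (IsUltrametricDist.norm_add_le_max _ _).trans_lt (max_lt ?_ ?_)
      · rw [norm_mul, norm_pow]
        exact mul_lt_one_of_nonneg_of_lt_one_right (pow_le_one₀ (norm_nonneg _) (norm_int_le' c))
          (norm_nonneg _) hcon
      · rw [norm_mul]
        exact mul_lt_one_of_nonneg_of_lt_one_left (norm_nonneg _) (norm_int_dvd h4) ht1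
    rw [hψ3] at h6
    exact lt_irrefl _ h6

end Pool.Agent.Lib.MP_1eeaa7_nt
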