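import Pool.Agent.Lib.MP_1eeaa7_nt.OrderLocal
import Pool.Agent.Lib.MP_1eeaa7_nt.PcurvPoly
import Pool.Agent.Lib.MP_1eeaa7_nt.PlaceAlg

/-!
# First order equations with a good place
-/

set_option autoImplicit false

namespace Pool.Agent.Lib.MP_1eeaa7_nt

open PowerSeries Finset

theorem norm_le_of_denominator' {k : Type*} [NormedField k] [IsUltrametricDist k] [CharZero k]
    {p : ℕ} [hp : Fact p.Prime] (hpk : ‖(p : k)‖ = (p : ℝ)⁻¹) {x : k} {d M : ℕ} (hd : d ≠ 0)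
    (hM : ∀ e : ℕ, p ^ e ∣ d → p ^ e ≤ M) (hx : ‖(d : k) * x‖ ≤ 1) : ‖x‖ ≤ M := by
  have hp1 : ‖(p : k)‖ < 1 := by
    rw [hpk]
    exact inv_lt_one_of_one_lt₀ (by exact_mod_cast hp.out.one_lt)
  have h1 := hM (padicValNat p d) pow_padicValNat_dvd
  have h2 := norm_nat_ge (k := k) hp.out hp1 hd (le_refl (padicValNat p d))
  rw [hpk, inv_pow] at h2
  have hpos : (0 : ℝ) < (p : ℝ) ^ padicValNat p d := by
    have := hp.out.pos
    positivity
  have h3 : ‖(d : k)‖ * ‖x‖ ≤ 1 := by rw [← norm_mul]; exact hx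
  have h4 : ((p : ℝ) ^ padicValNat p d)⁻¹ * ‖x‖ ≤ 1 :=
    (mul_le_mul_of_nonneg_right h2 (norm_nonneg _)).trans h3
  rw [inv_mul_le_iff₀ hpos, mul_one] at h4
  refine h4.trans ?_
  exact_mod_cast h1

theorem map_coe_poly {A B : Type*} [CommRing A] [CommRing B] (φ : A →+* B) (P : Polynomial A) :
    PowerSeries.map φ (P : A⟦X⟧) = ((P.map φ : Polynomial B) : B⟦X⟧) := by
  ext n
  rw [coeff_map, Polynomial.coeff_coe, Polynomial.coeff_coe, Polynomial.coeff_map]

theorem orderOne_of_place {K : Type*} [Field K] [CharZero K] {R₀ : Subring K} {κ k : Type*}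
    [CommRing κ] [IsDomain κ] [NormedField k] [IsUltrametricDist k] [CharZero k] {p : ℕ}
    [hp : Fact p.Prime] [CharP κ p] (hpk : ‖(p : k)‖ = (p : ℝ)⁻¹) (Φ : FractionRing R₀ →+* k)
    (j : FractionRing R₀ →+* K) (hj : ∀ x : R₀, j (algebraMap R₀ _ x) = x) (π : R₀ →+* κ)
    (hΦ : ∀ x : R₀, ‖Φ (algebraMap R₀ _ x)‖ ≤ 1)
    (hπ0 : ∀ x : R₀, π x = 0 → ‖Φ (algebraMap R₀ _ x)‖ ≤ ‖(p : k)‖)
    (hπ1 : ∀ x : R₀, π x ≠ 0 → ‖Φ (algebraMap R₀ _ x)‖ = 1) {D N : Polynomial K}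
    {D₀ N₀ : Polynomial R₀} (hD : D₀.map R₀.subtype = D) (hN : N₀.map R₀.subtype = N)
    (hD0 : IsUnit (D₀.coeff 0)) {d : ℕ} (hDd : D.natDegree ≤ d) (hNd : N.natDegree ≤ d)
    (hpd : (d + 1) * (d + 2) + 1 < p) (hpnum : pnum p (D₀.map π) (N₀.map π) ≠ 0) {f : K⟦X⟧}
    (hf : (D : K⟦X⟧) * d⁄dX K f = N * f) (hf0 : coeff 0 f ≠ 0) {a : ℕ} {g : K⟦X⟧}
    (hg : ∀ n, ∃ c : ℕ, c ≠ 0 ∧ (∀ q e : ℕ, q.Prime → q ^ e ∣ c → q ^ e ≤ (n + 1) ^ a) ∧
      (c : K) * coeff n g ∈ R₀) : FinAP {n | coeff n (g * f) = 0} := by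
  classical
  have hinj : Function.Injective R₀.subtype := Subtype.val_injective
  have hK₀ : CharZero (FractionRing R₀) := ⟨fun a b h => by
    have := congrArg j h
    rw [map_natCast, map_natCast] at this
    exact Nat.cast_injective this⟩
  have hp1 : ‖(p : k)‖ < 1 := by
    rw [hpk]
    exact inv_lt_one_of_one_lt₀ (by exact_mod_cast hp.out.one_lt)
  obtain ⟨I, hI⟩ : ∃ I : R₀⟦X⟧, (D₀ : R₀⟦X⟧) * I = 1 := by
    have h1 : IsUnit (D₀ : R₀⟦X⟧) := by
      rw [PowerSeries.isUnit_iff_constantCoeff, ← coeff_zero_eq_constantCoeff_apply,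
        Polynomial.coeff_coe]
      exact hD0
    exact h1.exists_right_inv
  set r : R₀⟦X⟧ := I * N₀ with hr
  have hDr : (D₀ : R₀⟦X⟧) * r = N₀ := by rw [hr, ← mul_assoc, hI, one_mul]
  have hne : ∃ n, n ≤ d ∧ π (coeff (p * n + (p - 1)) r) ≠ π (coeff n r) ^ p := by
    by_contra hcon
    push Not at hcon
    refine hpnum (pnum_eq_zero (r := PowerSeries.map π r) ?_ (d := d) ?_ ?_ ?_)
    · have h1 := congrArg (PowerSeries.map π) hDr
      rw [map_mul, map_coe_poly, map_coe_poly] at h1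
      exact h1
    · refine (Polynomial.natDegree_map_le).trans ?_
      rw [← Polynomial.natDegree_map_eq_of_injective hinj, hD]
      exact hDd
    · refine (Polynomial.natDegree_map_le).trans ?_
      rw [← Polynomial.natDegree_map_eq_of_injective hinj, hN]
      exact hNd
    · intro n hn
      rw [coeff_map, coeff_map]
      exact hcon n hn
  have hs := Nat.find_spec hne
  have hmin := fun n hn => Nat.find_min hne (m := n) hn
  set s := Nat.find hne with hsdef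
  have hsd : s ≤ d := hs.1
  -- lifting `g`
  have hliftg : ∀ n, ∃ y : FractionRing R₀, j y = coeff n g ∧
      ‖Φ y‖ ≤ 1 * ((n + 1 : ℕ) : ℝ) ^ a := by
    intro n
    obtain ⟨c, hc, hc1, hc2⟩ := hg n
    have hcK : (c : K) ≠ 0 := Nat.cast_ne_zero.2 hc
    have hcK0 : (c : FractionRing R₀) ≠ 0 := Nat.cast_ne_zero.2 hc
    refine ⟨algebraMap R₀ _ ⟨_, hc2⟩ / c, ?_, ?_⟩
    · rw [map_div₀, map_natCast, hj]
      field_simp
    · rw [one_mul]
      have h1 := norm_le_of_denominator' (p := p) hpk (x := Φ (algebraMap R₀ _ ⟨_, hc2⟩ / c))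
        (M := (n + 1) ^ a) hc
        (fun e he => hc1 p e hp.out he) (by
          rw [← map_natCast Φ, ← map_mul, mul_div_cancel₀ _ hcK0]
          exact hΦ _)
      exact_mod_cast h1
  choose gv hgv hgv1 using hliftg
  have hgg : PowerSeries.map j (PowerSeries.mk gv) = g := by
    ext n
    rw [coeff_map, coeff_mk, hgv]
  have hjι : j.comp (algebraMap R₀ (FractionRing R₀)) = R₀.subtype := RingHom.ext hj
  have main := finAP_orderOne (p := p) hp1 (algebraMap R₀ (FractionRing R₀)) j Φ π hΦ hπ0 hπ1 r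
    (s := s) (fun n hn => ?_) hs.2 ?_ (f := f) ?_ hf0 (g := PowerSeries.mk gv) zero_le_one (A := a)
    (fun n => by rw [coeff_mk]; exact hgv1 n)
  · rwa [hgg] at main
  · have := hmin n hn
    push Not at this
    exact this (by omega)
  · refine lt_of_le_of_lt ?_ hpd
    have : (s + 1) * (s + 2) ≤ (d + 1) * (d + 2) := Nat.mul_le_mul (by omega) (by omega)
    omega
  · rw [hjι]
    have h1 := congrArg (PowerSeries.map R₀.subtype) hDr
    rw [map_mul, map_coe_poly, map_coe_poly, hD, hN] at h1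
    have hDne : (D : K⟦X⟧) ≠ 0 := by
      intro h0
      have h2 := congrArg (coeff 0) h0
      rw [Polynomial.coeff_coe, map_zero, ← hD, Polynomial.coeff_map] at h2
      exact hD0.ne_zero (hinj (by rw [h2, map_zero]))
    apply mul_left_cancel₀ hDne
    rw [hf, ← mul_assoc, h1]

end Pool.Agent.Lib.MP_1eeaa7_nt
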