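import Pool.Agent.Lib.MP_1eeaa7_nt.OrderAlg
import Pool.Agent.Lib.MP_1eeaa7_nt.OrderPlace

/-!
# First order equations over `ℂ`: all transcendental solutions
-/

set_option autoImplicit false

namespace Pool.Agent.Lib.MP_1eeaa7_nt

open PowerSeries Finset

/-- a shift of a finite union of progressions, with the initial segment added -/
theorem FinAP.shift {S : Set ℕ} (hS : FinAP S) (k : ℕ) :
    FinAP {n | n < k ∨ ∃ m ∈ S, n = k + m} := by
  classical
  obtain ⟨F, rfl⟩ := hS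
  refine ⟨F.image (fun ad => (k + ad.1, ad.2)) ∪ (range k).image fun n => (n, 0), ?_⟩
  ext n
  simp only [Set.mem_iUnion, Set.mem_ofPred_eq, exists_prop, mem_union, mem_image, mem_range]
  constructor
  · rintro (h | ⟨m, ⟨ad, had, l, hl⟩, hm⟩)
    · exact ⟨(n, 0), Or.inr ⟨n, h, rfl⟩, 0, by simp⟩
    · exact ⟨(k + ad.1, ad.2), Or.inl ⟨ad, had, rfl⟩, l, by rw [hm, hl]; ring⟩
  · rintro ⟨ad, (⟨ad', had', rfl⟩ | ⟨m, hm, rfl⟩), l, hl⟩
    · exact Or.inr ⟨ad'.1 + ad'.2 * l, ⟨ad', had', l, rfl⟩, by rw [hl]; ring⟩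
    · left
      simpa [hl] using hm

theorem orderOne_of_psi {K : Type} [Field K] [CharZero K] {R₀ : Subring K} {p : ℕ}
    [hp : Fact p.Prime] (ψ : R₀ →+* PadicAlgCl p) (hψ1 : Function.Injective ψ)
    (hψ2 : ∀ x, ψ x ∈ WOs (PadicAlgCl p) p) {lam : R₀} (hψ3 : ‖ψ lam ^ p - ψ lam‖ = 1)
    {D₀ N₀ : Polynomial R₀} {D N : Polynomial K}
    (hD : D₀.map R₀.subtype = D) (hN : N₀.map R₀.subtype = N) (hD0 : IsUnit (D₀.coeff 0)) {d : ℕ}
    (hDd : D.natDegree ≤ d) (hNd : N.natDegree ≤ d) (hpd : (d + 1) * (d + 2) + 1 < p)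
    (hcond : ∀ (κ : Type) [Field κ] [CharP κ p] (π : R₀ →+* κ), π lam ^ p ≠ π lam →
      pnum p (D₀.map π) (N₀.map π) ≠ 0)
    {f : K⟦X⟧} (hf : (D : K⟦X⟧) * d⁄dX K f = N * f) (hf0 : coeff 0 f ≠ 0) {a : ℕ} {g : K⟦X⟧}
    (hg : ∀ n, ∃ c : ℕ, c ≠ 0 ∧ (∀ q e : ℕ, q.Prime → q ^ e ∣ c → q ^ e ≤ (n + 1) ^ a) ∧
      (c : K) * coeff n g ∈ R₀) : FinAP {n | coeff n (g * f) = 0} := by
  have hch : CharP (IsLocalRing.ResidueField (Ok (PadicAlgCl p))) p := by
    rw [CharP.charP_iff_prime_eq_zero hp.out,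
      ← map_natCast (IsLocalRing.residue (Ok (PadicAlgCl p)))]
    rw [IsLocalRing.residue_eq_zero_iff, IsLocalRing.mem_maximalIdeal, mem_nonunits_Ok]
    push_cast
    exact norm_p_AlgCl_lt
  have hinj : Function.Injective R₀.subtype := Subtype.val_injective
  obtain ⟨ψO, hψO⟩ : ∃ ψO : R₀ →+* Ok (PadicAlgCl p), ∀ x, (ψO x : PadicAlgCl p) = ψ x :=
    ⟨ψ.codRestrict (Ok (PadicAlgCl p)) fun x => WOs.norm_le (hψ2 x), fun x => rfl⟩
  obtain ⟨π, hπ⟩ : ∃ π : R₀ →+* IsLocalRing.ResidueField (Ok (PadicAlgCl p)),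
      ∀ x, π x = 0 ↔ ‖ψ x‖ < 1 := by
    refine ⟨(IsLocalRing.residue _).comp ψO, fun x => ?_⟩
    rw [RingHom.comp_apply, IsLocalRing.residue_eq_zero_iff, IsLocalRing.mem_maximalIdeal,
      mem_nonunits_Ok, hψO]
  have hp0 : (p : PadicAlgCl p) ≠ 0 := Nat.cast_ne_zero.2 hp.out.ne_zero
  refine orderOne_of_place (κ := IsLocalRing.ResidueField (Ok (PadicAlgCl p)))
    (norm_p_AlgCl (p := p)) (IsFractionRing.lift hψ1) (IsFractionRing.lift hinj)
    (fun x => IsFractionRing.lift_algebraMap hinj x) π (fun x => ?_) (fun x hx => ?_)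
    (fun x hx => ?_) hD hN hD0 hDd hNd hpd ?_ hf hf0 hg
  · rw [IsFractionRing.lift_algebraMap]
    exact WOs.norm_le (hψ2 x)
  · rw [IsFractionRing.lift_algebraMap]
    exact WOs.norm_le_p hp0 (hψ2 x) ((hπ x).1 hx)
  · rw [IsFractionRing.lift_algebraMap]
    refine le_antisymm (WOs.norm_le (hψ2 x)) ?_
    by_contra h
    exact hx ((hπ x).2 (not_le.1 h))
  · refine hcond _ π ?_
    intro h
    have h1 : π (lam ^ p - lam) = 0 := by rw [map_sub, map_pow, h, sub_self]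
    rw [hπ, map_sub, map_pow, hψ3] at h1
    exact lt_irrefl _ h1

theorem orderOne_core {D N : Polynomial ℂ} (hD0 : D.coeff 0 ≠ 0) (T : Finset ℂ) {lam : ℂ}
    (hlam : ∀ q : ℚ, lam ≠ q)
    (hcond : ∀ (R₀ : Subring ℂ) (_ : ∀ x ∈ T, x ∈ R₀) (_ : (D.coeff 0)⁻¹ ∈ R₀) (hl : lam ∈ R₀)
      (D₀ N₀ : Polynomial R₀), D₀.map R₀.subtype = D → N₀.map R₀.subtype = N →
      ∀ (p : ℕ) (_ : p.Prime) (κ : Type) [Field κ] [CharP κ p] (π : R₀ →+* κ),
        π ⟨lam, hl⟩ ^ p ≠ π ⟨lam, hl⟩ → pnum p (D₀.map π) (N₀.map π) ≠ 0)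
    {S : Set ℂ} (hS : S.Finite) {f : ℂ⟦X⟧} (hf : (D : ℂ⟦X⟧) * d⁄dX ℂ f = N * f)
    (hf0 : coeff 0 f ≠ 0) {a : ℕ} {g : ℂ⟦X⟧}
    (hg : ∀ n, ∃ c : ℕ, c ≠ 0 ∧ (∀ q e : ℕ, q.Prime → q ^ e ∣ c → q ^ e ≤ (n + 1) ^ a) ∧
      (c : ℂ) * coeff n g ∈ Subring.closure S) : FinAP {n | coeff n (g * f) = 0} := by
  classical
  obtain ⟨T', hT', hDT, hNT, hlT, hDi⟩ : ∃ T' : Finset ℂ, (∀ x ∈ T, x ∈ T') ∧
      (∀ i ∈ D.support, D.coeff i ∈ T') ∧ (∀ i ∈ N.support, N.coeff i ∈ T') ∧ lam ∈ T' ∧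
      (D.coeff 0)⁻¹ ∈ T' :=
    ⟨T ∪ D.support.image D.coeff ∪ N.support.image N.coeff ∪ {lam, (D.coeff 0)⁻¹},
      fun x hx => by simp [hx], fun i hi => by
        simp only [mem_union, mem_image]
        exact Or.inl (Or.inl (Or.inr ⟨i, hi, rfl⟩)), fun i hi => by
        simp only [mem_union, mem_image]
        exact Or.inl (Or.inr ⟨i, hi, rfl⟩), by simp, by simp⟩
  have hS'f : (S ∪ (T' : Set ℂ)).Finite := hS.union (Finset.finite_toSet _)
  have hmem : ∀ x ∈ T', x ∈ Subring.closure (S ∪ (T' : Set ℂ)) := fun x hx =>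
    Subring.subset_closure (Or.inr hx)
  obtain ⟨d, hDd, hNd⟩ : ∃ d, D.natDegree ≤ d ∧ N.natDegree ≤ d :=
    ⟨max D.natDegree N.natDegree, le_max_left _ _, le_max_right _ _⟩
  obtain ⟨p, hp, hpN, ψ, hψ1, hψ2, hψ3⟩ :=
    exists_place (S ∪ (T' : Set ℂ)) hS'f (hmem lam hlT) hlam ((d + 1) * (d + 2) + 1)
  obtain ⟨D₀, hD₀⟩ := exists_lift_poly' (Subring.closure (S ∪ (T' : Set ℂ))) (P := D) fun n => by
    by_cases hn : n ∈ D.support
    · exact hmem _ (hDT n hn)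
    · rw [Polynomial.notMem_support_iff.1 hn]
      exact Subring.zero_mem _
  obtain ⟨N₀, hN₀⟩ := exists_lift_poly' (Subring.closure (S ∪ (T' : Set ℂ))) (P := N) fun n => by
    by_cases hn : n ∈ N.support
    · exact hmem _ (hNT n hn)
    · rw [Polynomial.notMem_support_iff.1 hn]
      exact Subring.zero_mem _
  refine orderOne_of_psi ψ hψ1 hψ2 hψ3 hD₀ hN₀ ?_ hDd hNd hpN ?_ hf hf0 (a := a) fun n => ?_
  · refine isUnit_iff_exists_inv.2 ⟨⟨(D.coeff 0)⁻¹, hmem _ hDi⟩, Subtype.ext ?_⟩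
    rw [Subring.coe_mul, Subring.coe_one]
    have h1 : ((D₀.coeff 0 : Subring.closure (S ∪ (T' : Set ℂ))) : ℂ) = D.coeff 0 := by
      rw [← hD₀, Polynomial.coeff_map]
      rfl
    rw [h1]
    exact mul_inv_cancel₀ hD0
  · intro κ _ _ π hπ
    exact hcond _ (fun x hx => hmem _ (hT' x hx)) (hmem _ hDi) (hmem _ hlT) D₀ N₀ hD₀ hN₀ p hp.out κ
      π hπ
  · obtain ⟨c, hc, hc1, hc2⟩ := hg n
    exact ⟨c, hc, hc1, Subring.closure_mono Set.subset_union_left hc2⟩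

theorem I_irrational (q : ℚ) : Complex.I ≠ q := by
  intro h
  have h1 := congrArg Complex.im h
  simp at h1

theorem unit_of_inv_mem {R₀ : Subring ℂ} {x : ℂ} (hx : x ∈ R₀) (hx' : x⁻¹ ∈ R₀) (h0 : x ≠ 0) :
    IsUnit (⟨x, hx⟩ : R₀) :=
  isUnit_iff_exists_inv.2 ⟨⟨x⁻¹, hx'⟩, Subtype.ext (mul_inv_cancel₀ h0)⟩

theorem finAP_orderOne_coprime {D N : Polynomial ℂ} (hcop : IsCoprime D N) (hD0 : D.eval 0 ≠ 0)
    {S : Set ℂ} (hS : S.Finite) {f : ℂ⟦X⟧} (hf : (D : ℂ⟦X⟧) * d⁄dX ℂ f = N * f)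
    (hf0 : coeff 0 f ≠ 0) (htr : ¬ IsAlgebraic (Polynomial ℂ) f) {a : ℕ} {g : ℂ⟦X⟧}
    (hg : ∀ n, ∃ c : ℕ, c ≠ 0 ∧ (∀ q e : ℕ, q.Prime → q ^ e ∣ c → q ^ e ≤ (n + 1) ^ a) ∧
      (c : ℂ) * coeff n g ∈ Subring.closure S) : FinAP {n | coeff n (g * f) = 0} := by
  classical
  have hD0' : D.coeff 0 ≠ 0 := by rwa [Polynomial.coeff_zero_eq_eval_zero]
  have hDne : D ≠ 0 := fun h => hD0 (by rw [h, Polynomial.eval_zero])
  have hev : ∀ (R₀ : Subring ℂ) (Q : Polynomial R₀) (x : R₀),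
      ((Q.eval x : R₀) : ℂ) = (Q.map R₀.subtype).eval (x : ℂ) := by
    intro R₀ Q x
    rw [Polynomial.eval_map]
    exact Polynomial.hom_eval₂ Q (RingHom.id _) R₀.subtype x
  have hev' : ∀ (R₀ : Subring ℂ) (κ : Type) [Field κ] (π : R₀ →+* κ) (Q : Polynomial R₀) (x : R₀),
      (Q.map π).eval (π x) = π (Q.eval x) := by
    intro R₀ κ _ π Q x
    rw [Polynomial.eval_map]
    exact (Polynomial.hom_eval₂ Q (RingHom.id _) π x).symm
  have hmapinj : ∀ R₀ : Subring ℂ, Function.Injective (Polynomial.map R₀.subtype) := fun R₀ =>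
    Polynomial.map_injective _ Subtype.val_injective
  by_cases hdeg : N.degree < D.degree
  swap
  · -- pole at infinity
    have hDN : D.natDegree ≤ N.natDegree := Polynomial.natDegree_le_natDegree (not_lt.1 hdeg)
    have hN0 : N ≠ 0 := by
      rintro rfl
      rw [Polynomial.degree_zero] at hdeg
      exact hdeg (bot_lt_iff_ne_bot.2 fun h => hDne (Polynomial.degree_eq_bot.1 h))
    refine orderOne_core hD0' {N.leadingCoeff⁻¹} I_irrational ?_ hS hf hf0 hg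
    intro R₀ hT hDi hI D₀ N₀ hD₀ hN₀ p hp κ _ _ π _
    have hpF : Fact p.Prime := ⟨hp⟩
    have hlc : ((N₀.coeff N.natDegree : R₀) : ℂ) = N.leadingCoeff := by
      rw [Polynomial.leadingCoeff, ← hN₀, Polynomial.coeff_map]
      rfl
    have hu : IsUnit (N₀.coeff N.natDegree) := by
      have h1 := unit_of_inv_mem (x := N.leadingCoeff) (hlc ▸ (N₀.coeff N.natDegree).2)
        (hT _ (mem_singleton_self _)) (Polynomial.leadingCoeff_ne_zero.2 hN0)
      convert h1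
    have hu' : (N₀.map π).coeff N.natDegree ≠ 0 := by
      rw [Polynomial.coeff_map]
      exact (hu.map π).ne_zero
    have hDu : (D₀.map π).coeff 0 ≠ 0 := by
      have hlc : ((D₀.coeff 0 : R₀) : ℂ) = D.coeff 0 := by
        rw [← hD₀, Polynomial.coeff_map]
        rfl
      have h1 := unit_of_inv_mem (x := D.coeff 0) (hlc ▸ (D₀.coeff 0).2) hDi hD0'
      rw [Polynomial.coeff_map]
      have h2 : IsUnit (D₀.coeff 0) := by convert h1
      exact (h2.map π).ne_zero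
    refine pnum_ne_zero_of_degree (fun h => hu' (by rw [h, Polynomial.coeff_zero]))
      (fun h => hDu (by rw [h, Polynomial.coeff_zero])) ?_
    calc (D₀.map π).natDegree ≤ D₀.natDegree := Polynomial.natDegree_map_le
      _ = D.natDegree := by
        rw [← hD₀, Polynomial.natDegree_map_eq_of_injective Subtype.val_injective]
      _ ≤ N.natDegree := hDN
      _ ≤ (N₀.map π).natDegree := Polynomial.le_natDegree_of_ne_zero hu'
  by_cases hsq : Squarefree D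
  swap
  · -- a multiple pole
    obtain ⟨α, E, hE⟩ : ∃ α : ℂ, (Polynomial.X - Polynomial.C α) ^ 2 ∣ D := by
      rw [Squarefree] at hsq
      push Not at hsq
      obtain ⟨x, hx, hxu⟩ := hsq
      have hx0 : x ≠ 0 := by
        rintro rfl
        rw [zero_mul, zero_dvd_iff] at hx
        exact hDne hx
      obtain ⟨α, hα⟩ := IsAlgClosed.exists_root x (fun h => hxu (Polynomial.isUnit_iff_degree_eq_zero.2 h))
      refine ⟨α, ?_⟩
      rw [sq]
      exact (mul_dvd_mul (Polynomial.dvd_iff_isRoot.2 hα) (Polynomial.dvd_iff_isRoot.2 hα)).trans hx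
    have hNα : N.eval α ≠ 0 := by
      intro h
      obtain ⟨u, v, huv⟩ := hcop
      have h1 := congrArg (Polynomial.eval α) huv
      rw [hE, Polynomial.eval_add, Polynomial.eval_mul, Polynomial.eval_mul, Polynomial.eval_mul,
        Polynomial.eval_pow, Polynomial.eval_sub, Polynomial.eval_X, Polynomial.eval_C, sub_self, h,
        Polynomial.eval_one] at h1
      simp at h1
    refine orderOne_core hD0' ({α, (N.eval α)⁻¹} ∪ E.support.image E.coeff) I_irrational ?_ hS hf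
      hf0 hg
    intro R₀ hT hDi hI D₀ N₀ hD₀ hN₀ p hp κ _ _ π _
    have hpF : Fact p.Prime := ⟨hp⟩
    have hαR : α ∈ R₀ := hT _ (by simp)
    obtain ⟨E₀, hE₀⟩ := exists_lift_poly' R₀ (P := E) fun n => by
      by_cases hn : n ∈ E.support
      · exact hT _ (mem_union_right _ (mem_image_of_mem _ hn))
      · rw [Polynomial.notMem_support_iff.1 hn]
        exact Subring.zero_mem _
    have hDE : D₀ = (Polynomial.X - Polynomial.C ⟨α, hαR⟩) ^ 2 * E₀ := by
      apply hmapinj R₀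
      rw [hD₀, Polynomial.map_mul, Polynomial.map_pow, Polynomial.map_sub, Polynomial.map_X,
        Polynomial.map_C, hE₀]
      exact hE
    have hNe : ((N₀.eval ⟨α, hαR⟩ : R₀) : ℂ) = N.eval α := by rw [hev, hN₀]
    have hu : IsUnit (N₀.eval ⟨α, hαR⟩) := by
      have h1 := unit_of_inv_mem (x := N.eval α) (hNe ▸ (N₀.eval ⟨α, hαR⟩).2) (hT _ (by simp)) hNα
      convert h1
    refine pnum_ne_zero_of_sq (α := π ⟨α, hαR⟩) ?_ ?_
    · rw [hDE, Polynomial.map_mul, Polynomial.map_pow, Polynomial.map_sub, Polynomial.map_X,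
        Polynomial.map_C]
      exact dvd_mul_right _ _
    · rw [hev']
      exact (hu.map π).ne_zero
  by_cases hres : ∀ α : ℂ, D.eval α = 0 → ∃ q : ℚ, N.eval α = q * D.derivative.eval α
  · -- algebraic
    obtain ⟨M, hM, V, U, hV, hVU⟩ := pow_mul_of_rational_residues hsq hD0 hdeg hres hf
    exact absurd (isAlgebraic_of_pow_mul hM hV hVU) htr
  · push Not at hres
    obtain ⟨α, hα, hq⟩ := hres
    obtain ⟨E, hE⟩ := Polynomial.dvd_iff_isRoot.2 hα
    have hEα : D.derivative.eval α = E.eval α := by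
      have h1 : (Polynomial.X - Polynomial.C α : Polynomial ℂ).eval α = 0 := by simp
      rw [hE, Polynomial.derivative_mul, Polynomial.eval_add, Polynomial.eval_mul,
        Polynomial.eval_mul, h1, zero_mul, add_zero, Polynomial.derivative_sub,
        Polynomial.derivative_X, Polynomial.derivative_C, sub_zero, Polynomial.eval_one, one_mul]
    have hE0 : E.eval α ≠ 0 := by
      intro h
      obtain ⟨E', hE'⟩ := Polynomial.dvd_iff_isRoot.2 (show E.IsRoot α from h)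
      have h1 := hsq (Polynomial.X - Polynomial.C α) ⟨E', by rw [hE, mul_assoc, ← hE']⟩
      exact Polynomial.not_isUnit_X_sub_C α h1
    refine orderOne_core (lam := N.eval α / E.eval α) hD0'
      ({α, (E.eval α)⁻¹} ∪ E.support.image E.coeff) ?_ ?_ hS hf hf0 hg
    · intro q h
      exact hq q (by rw [hEα, ← h, div_mul_cancel₀ _ hE0])
    intro R₀ hT hDi hI D₀ N₀ hD₀ hN₀ p hp κ _ _ π hπ
    have hpF : Fact p.Prime := ⟨hp⟩
    have hαR : α ∈ R₀ := hT _ (by simp)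
    obtain ⟨E₀, hE₀⟩ := exists_lift_poly' R₀ (P := E) fun n => by
      by_cases hn : n ∈ E.support
      · exact hT _ (mem_union_right _ (mem_image_of_mem _ hn))
      · rw [Polynomial.notMem_support_iff.1 hn]
        exact Subring.zero_mem _
    have hDE : D₀ = (Polynomial.X - Polynomial.C ⟨α, hαR⟩) * E₀ := by
      apply hmapinj R₀
      rw [hD₀, Polynomial.map_mul, Polynomial.map_sub, Polynomial.map_X,
        Polynomial.map_C, hE₀]
      exact hE
    have hNe : ((N₀.eval ⟨α, hαR⟩ : R₀) : ℂ) = N.eval α := by rw [hev, hN₀]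
    have hEe : ((E₀.eval ⟨α, hαR⟩ : R₀) : ℂ) = E.eval α := by rw [hev, hE₀]
    have hu : IsUnit (E₀.eval ⟨α, hαR⟩) := by
      have h1 := unit_of_inv_mem (x := E.eval α) (hEe ▸ (E₀.eval ⟨α, hαR⟩).2) (hT _ (by simp)) hE0
      convert h1
    have hN1 : N₀.eval ⟨α, hαR⟩ = ⟨N.eval α / E.eval α, hI⟩ * E₀.eval ⟨α, hαR⟩ := by
      apply Subtype.ext
      rw [Subring.coe_mul, hNe, hEe, div_mul_cancel₀ _ hE0]
    have hEu : π (E₀.eval ⟨α, hαR⟩) ≠ 0 := (hu.map π).ne_zero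
    refine pnum_ne_zero_of_residue (α := π ⟨α, hαR⟩) (E := E₀.map π) ?_ ?_
    · rw [hDE, Polynomial.map_mul, Polynomial.map_sub, Polynomial.map_X, Polynomial.map_C]
    · rw [hev', hev', hN1, map_mul, mul_pow]
      intro h
      obtain ⟨m, hm⟩ : ∃ m, p = m + 1 := ⟨p - 1, by have := hp.pos; omega⟩
      apply hπ
      have h2 : π (E₀.eval ⟨α, hαR⟩) ^ p ≠ 0 := pow_ne_zero _ hEu
      apply mul_right_cancel₀ h2
      rw [h]
      rw [hm, Nat.add_sub_cancel]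
      ring

/-- **First order equations**: transcendental solutions over `ℂ`. -/
theorem finAP_orderOne_transcendental {P Q : Polynomial ℂ} (hP : P ≠ 0) {f : ℂ⟦X⟧}
    (hf : (P : ℂ⟦X⟧) * d⁄dX ℂ f = Q * f) (htr : ¬ IsAlgebraic (Polynomial ℂ) f) {S : Set ℂ}
    (hS : S.Finite) {a : ℕ} {g : ℂ⟦X⟧}
    (hg : ∀ n, ∃ c : ℕ, c ≠ 0 ∧ (∀ q e : ℕ, q.Prime → q ^ e ∣ c → q ^ e ≤ (n + 1) ^ a) ∧
      (c : ℂ) * coeff n g ∈ Subring.closure S) : FinAP {n | coeff n (g * f) = 0} := by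
  classical
  have hfne : f ≠ 0 := by
    rintro rfl
    exact htr isAlgebraic_zero
  obtain ⟨k, f₁, hff, hf1⟩ : ∃ (k : ℕ) (f₁ : ℂ⟦X⟧), f = X ^ k * f₁ ∧ coeff 0 f₁ ≠ 0 := by
    refine ⟨f.order.toNat, f.divXPowOrder, X_pow_order_mul_divXPowOrder.symm, ?_⟩
    rw [coeff_zero_eq_constantCoeff_apply]
    exact fun h => hfne (constantCoeff_divXPowOrder_eq_zero_iff.1 h)
  set A : Polynomial ℂ := Polynomial.X * P with hA
  set B : Polynomial ℂ := Polynomial.X * Q - Polynomial.C (k : ℂ) * P with hB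
  have hA0 : A ≠ 0 := mul_ne_zero Polynomial.X_ne_zero hP
  have hXk : (X : ℂ⟦X⟧) ^ k ≠ 0 := pow_ne_zero _ X_ne_zero
  have hAB : (A : ℂ⟦X⟧) * d⁄dX ℂ f₁ = B * f₁ := by
    have h1 : (X : ℂ⟦X⟧) * d⁄dX ℂ ((X : ℂ⟦X⟧) ^ k) = PowerSeries.C (k : ℂ) * X ^ k := by
      rcases Nat.eq_zero_or_pos k with rfl | hk
      · simp
      · obtain ⟨l, rfl⟩ : ∃ l, k = l + 1 := ⟨k - 1, by omega⟩
        rw [Derivation.leibniz_pow, Nat.add_sub_cancel, smul_eq_mul, nsmul_eq_mul, derivative_X,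
          mul_one, map_natCast]
        ring
    have h2 := hf
    rw [hff, Derivation.leibniz, smul_eq_mul, smul_eq_mul] at h2
    apply mul_left_cancel₀ hXk
    simp only [hA, hB, Polynomial.coe_mul, Polynomial.coe_sub, Polynomial.coe_X, Polynomial.coe_C]
    linear_combination X * h2 - (P : ℂ⟦X⟧) * f₁ * h1
  set G := EuclideanDomain.gcd A B with hG
  have hG0 : G ≠ 0 := fun h => hA0 (EuclideanDomain.gcd_eq_zero_iff.1 h).1
  obtain ⟨D, hD⟩ := EuclideanDomain.gcd_dvd_left A B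
  obtain ⟨N, hN⟩ := EuclideanDomain.gcd_dvd_right A B
  rw [← hG] at hD hN
  have hcop : IsCoprime D N := by
    refine ⟨EuclideanDomain.gcdA A B, EuclideanDomain.gcdB A B, ?_⟩
    have h1 := EuclideanDomain.gcd_eq_gcd_ab A B
    rw [← hG] at h1
    apply mul_left_cancel₀ hG0
    linear_combination (-1 : Polynomial ℂ) * h1 - EuclideanDomain.gcdA A B * hD -
      EuclideanDomain.gcdB A B * hN
  have hGc : (G : ℂ⟦X⟧) ≠ 0 := by
    intro h
    exact hG0 (Polynomial.coe_injective ℂ (by rw [h, Polynomial.coe_zero]))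
  have hDN : (D : ℂ⟦X⟧) * d⁄dX ℂ f₁ = N * f₁ := by
    apply mul_left_cancel₀ hGc
    rw [← mul_assoc, ← mul_assoc, ← Polynomial.coe_mul, ← Polynomial.coe_mul, ← hD, ← hN]
    exact hAB
  have hD0 : D.eval 0 ≠ 0 := by
    intro h
    have h1 := congrArg (coeff 0) hDN
    rw [coeff_zero_eq_constantCoeff_apply, coeff_zero_eq_constantCoeff_apply, map_mul, map_mul,
      ← coeff_zero_eq_constantCoeff_apply, ← coeff_zero_eq_constantCoeff_apply,
      ← coeff_zero_eq_constantCoeff_apply, ← coeff_zero_eq_constantCoeff_apply,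
      Polynomial.coeff_coe, Polynomial.coeff_coe,
      Polynomial.coeff_zero_eq_eval_zero, h, zero_mul] at h1
    have h2 : N.eval 0 = 0 := by
      rw [← Polynomial.coeff_zero_eq_eval_zero]
      exact (mul_eq_zero.1 h1.symm).resolve_right hf1
    obtain ⟨u, v, huv⟩ := hcop
    have h3 := congrArg (Polynomial.eval 0) huv
    rw [Polynomial.eval_add, Polynomial.eval_mul, Polynomial.eval_mul, h, h2, Polynomial.eval_one,
      mul_zero, mul_zero, add_zero] at h3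
    exact zero_ne_one h3
  have htr1 : ¬ IsAlgebraic (Polynomial ℂ) f₁ := by
    intro h
    apply htr
    rw [hff]
    refine IsAlgebraic.mul ?_ h
    have h1 := isAlgebraic_algebraMap (R := Polynomial ℂ) (A := ℂ⟦X⟧) (Polynomial.X ^ k)
    have h2 : algebraMap (Polynomial ℂ) ℂ⟦X⟧ (Polynomial.X ^ k) = X ^ k := by
      rw [map_pow]
      congr 1
      exact Polynomial.coe_X
    rwa [h2] at h1
  have hmain := (finAP_orderOne_coprime hcop hD0 hS hDN hf1 htr1 hg).shift k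
  have hset : {n | coeff n (g * f) = 0} =
      {n | n < k ∨ ∃ m ∈ {n | coeff n (g * f₁) = 0}, n = k + m} := by
    ext n
    have h1 : g * f = X ^ k * (g * f₁) := by rw [hff]; ring
    rw [Set.mem_ofPred_eq, Set.mem_ofPred_eq, h1, coeff_X_pow_mul']
    constructor
    · intro h
      rcases lt_or_ge n k with hn | hn
      · exact Or.inl hn
      · rw [if_pos hn] at h
        exact Or.inr ⟨n - k, h, by omega⟩
    · rintro (h | ⟨m, hm, rfl⟩)
      · rw [if_neg (by omega)]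
      · rw [if_pos (by omega), Nat.add_sub_cancel_left]
        exact hm
  rw [hset]
  exact hmain

end Pool.Agent.Lib.MP_1eeaa7_nt
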