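import Pool.Agent.Lib.MP_1eeaa7_nt.EmbedW
import Pool.Agent.Lib.MP_1eeaa7_nt.Decay
import Pool.Agent.Lib.MP_1eeaa7_nt.NonSplit

/-!
# Places at which a given irrational number has residue outside the prime field
-/

set_option autoImplicit false

namespace Pool.Agent.Lib.MP_1eeaa7_nt

open Polynomial

theorem norm_int_of_not_dvd {p : ℕ} [hp : Fact p.Prime] {n : ℤ} (hn : ¬ (p : ℤ) ∣ n) :
    ‖(n : PadicAlgCl p)‖ = 1 := by
  have h1 : ‖((n.natAbs : ℕ) : PadicAlgCl p)‖ = 1 :=
    norm_nat_of_not_dvd hp.out norm_p_AlgCl_lt fun h => hn (Int.natCast_dvd.2 h)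
  rcases Int.natAbs_eq n with h | h
  · rw [h, Int.cast_natCast]; exact h1
  · rw [h, Int.cast_neg, norm_neg, Int.cast_natCast]; exact h1

theorem norm_int_le' {p : ℕ} [hp : Fact p.Prime] (n : ℤ) : ‖(n : PadicAlgCl p)‖ ≤ 1 :=
  IsUltrametricDist.norm_intCast_le_one _ n

theorem norm_int_dvd {p : ℕ} [hp : Fact p.Prime] {n : ℤ} (hn : (p : ℤ) ∣ n) :
    ‖(n : PadicAlgCl p)‖ < 1 := by
  obtain ⟨c, rfl⟩ := hn
  push_cast
  rw [norm_mul]
  exact mul_lt_one_of_nonneg_of_lt_one_left (norm_nonneg _) norm_p_AlgCl_lt (norm_int_le' c)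

theorem intPoly_countable : Countable ℤ[X] := by
  rw [← Cardinal.mk_le_aleph0_iff]
  refine (Polynomial.cardinalMk_le_max (R := ℤ)).trans ?_
  simp

theorem exists_place_transcendental {K : Type} [Field K] [CharZero K] (S : Set K) (hS : S.Finite)
    {lam : K} (hlS : lam ∈ Subring.closure S)
    (htr : ∀ g : ℤ[X], eval₂ (Int.castRingHom K) lam g = 0 → g = 0) (N₀ : ℕ) :
    ∃ p : ℕ, ∃ _ : Fact p.Prime, N₀ < p ∧ ∃ ψ : Subring.closure S →+* PadicAlgCl p,
      Function.Injective ψ ∧ (∀ x, ψ x ∈ WOs (PadicAlgCl p) p) ∧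
        ‖ψ ⟨lam, hlS⟩ ^ p - ψ ⟨lam, hlS⟩‖ = 1 := by
  classical
  have hcount := intPoly_countable
  set i₁ : ℤ[X] →+* K := eval₂RingHom (Int.castRingHom K) lam with hi₁
  have hinj : Function.Injective i₁ := by
    rw [injective_iff_map_eq_zero]
    exact htr
  have hBS : ∀ x, i₁ x ∈ Subring.closure S := by
    intro x
    rw [hi₁, coe_eval₂RingHom, eval₂_eq_sum_range]
    exact Subring.sum_mem _ fun l _ => Subring.mul_mem _ (_root_.intCast_mem _ _)
      (Subring.pow_mem _ hlS _)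
  obtain ⟨b, hb0, hb⟩ := exists_embedding_over i₁ hinj S hS hBS
  -- the prime
  obtain ⟨p, hpN, hp⟩ := Nat.exists_infinite_primes (max N₀ b.leadingCoeff.natAbs + 1)
  have hfact : Fact p.Prime := ⟨hp⟩
  have hpb : ¬ (p : ℤ) ∣ b.leadingCoeff := fun h => by
    have h1 := Nat.le_of_dvd (Int.natAbs_pos.2 (leadingCoeff_ne_zero.2 hb0)) (Int.natCast_dvd.1 h)
    have := le_max_right N₀ b.leadingCoeff.natAbs
    omega
  have hN : N₀ < p := by have := le_max_left N₀ b.leadingCoeff.natAbs; omega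
  set PZ : ℤ[X] := b * (X ^ p - X) with hPZ
  have hlead : PZ.coeff (b.natDegree + p) = b.leadingCoeff := by
    have h1 : (X ^ p - X : ℤ[X]).Monic := by
      refine monic_X_pow_sub ?_
      rw [degree_X]
      exact_mod_cast hp.one_lt
    have h2 : (X ^ p - X : ℤ[X]).natDegree = p := by
      rw [natDegree_sub_eq_left_of_natDegree_lt]
      · exact natDegree_X_pow p
      · rw [natDegree_X, natDegree_X_pow]; exact hp.one_lt
    have h3 : PZ.natDegree = b.natDegree + p := by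
      rw [hPZ, natDegree_mul hb0 h1.ne_zero, h2]
    rw [← h3, coeff_natDegree, hPZ, leadingCoeff_mul, h1.leadingCoeff, mul_one]
  set bad : Set (PadicAlgCl p) := ⋃ g : {g : ℤ[X] // g ≠ 0},
    {x | ((g.1).map (Int.castRingHom (PadicAlgCl p))).IsRoot x} with hbad
  have hbadc : bad.Countable := by
    refine Set.countable_iUnion fun g => ?_
    have hg0 : (g.1).map (Int.castRingHom (PadicAlgCl p)) ≠ 0 := fun h =>
      g.2 (Polynomial.map_injective _ (RingHom.injective_int _) (by rw [h, Polynomial.map_zero]))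
    exact (Set.Finite.subset ((g.1).map (Int.castRingHom (PadicAlgCl p))).roots.toFinset.finite_toSet
      fun x hx => by
        rw [Finset.mem_coe, Multiset.mem_toFinset, mem_roots hg0]
        exact hx).countable
  obtain ⟨t, htW, ht1, ht2⟩ := exists_point_one (P := PZ.map (Int.castRingHom (PadicAlgCl p)))
    (fun i => by rw [coeff_map]; exact norm_int_le' _) (j := b.natDegree + p)
    (by rw [coeff_map, hlead]; exact norm_int_of_not_dvd hpb) hbadc
  set η : ℤ[X] →+* PadicAlgCl p := eval₂RingHom (Int.castRingHom _) t with hη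
  have hηW : ∀ x, η x ∈ WOs (PadicAlgCl p) p := by
    intro x
    rw [hη, coe_eval₂RingHom, eval₂_eq_sum_range]
    exact Subring.sum_mem _ fun l _ => Subring.mul_mem _ (_root_.intCast_mem _ _)
      (Subring.pow_mem _ htW _)
  have hηinj : Function.Injective η := by
    rw [injective_iff_map_eq_zero]
    intro g hg
    by_contra hne
    refine ht2 (Set.mem_iUnion.2 ⟨⟨g, hne⟩, ?_⟩)
    show ((g).map (Int.castRingHom (PadicAlgCl p))).eval t = 0
    rw [eval_map]
    exact hg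
  rw [hPZ, Polynomial.map_mul, eval_mul, norm_mul] at ht1
  have h1 : ‖η b‖ ≤ 1 := WOs.norm_le (hηW b)
  have h2 : ‖t ^ p - t‖ ≤ 1 := WOs.norm_le ((WOs _ p).sub_mem ((WOs _ p).pow_mem htW p) htW)
  have h3 : (b.map (Int.castRingHom (PadicAlgCl p))).eval t = η b := by rw [eval_map]; rfl
  have h4 : ((X ^ p - X : ℤ[X]).map (Int.castRingHom (PadicAlgCl p))).eval t = t ^ p - t := by
    simp
  rw [h3, h4] at ht1
  have h5 : ‖η b‖ = 1 := by
    refine le_antisymm h1 ?_
    by_contra hcon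
    push Not at hcon
    have := mul_lt_one_of_nonneg_of_lt_one_left (norm_nonneg _) hcon h2
    linarith
  have h6 : ‖t ^ p - t‖ = 1 := by rw [h5, one_mul] at ht1; exact ht1
  obtain ⟨ψ, hψ1, hψ2, hψ3⟩ := hb p η hηinj hηW h5
  refine ⟨p, hfact, hN, ψ, hψ1, hψ2, ?_⟩
  have h7 : ψ ⟨lam, hlS⟩ = t := by
    have h8 := hψ3 X
    have h10 : i₁ X = lam := by rw [hi₁, coe_eval₂RingHom, eval₂_X]
    have h9 : (⟨i₁ X, hBS X⟩ : Subring.closure S) = ⟨lam, hlS⟩ := Subtype.ext h10
    have h11 : η X = t := by rw [hη, coe_eval₂RingHom, eval₂_X]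
    rw [h9, h11] at h8
    exact h8
  rw [h7]
  exact h6

end Pool.Agent.Lib.MP_1eeaa7_nt
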