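import Pool.Agent.Lib.MP_1eeaa7_nt.WPoint

/-!
# The residue field of the algebraic closure of `ℚ_p` is algebraic over `𝔽_p`; roots stay in `W`
-/

set_option autoImplicit false

namespace Pool.Agent.Lib.MP_1eeaa7_nt

open Finset

variable {p : ℕ} [hp : Fact p.Prime]

theorem norm_pow_sub_pow_lt {k : Type*} [NormedField k] [IsUltrametricDist k] {x y : k}
    (hx : ‖x‖ ≤ 1) (hy : ‖y‖ ≤ 1) (h : ‖x - y‖ < 1) (n : ℕ) : ‖x ^ n - y ^ n‖ < 1 := by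
  obtain ⟨c, hc⟩ := sub_dvd_pow_sub_pow (⟨x, hx⟩ : Ok k) ⟨y, hy⟩ n
  have h1 := congrArg Subtype.val hc
  push_cast at h1
  rw [h1, norm_mul]
  exact mul_lt_one_of_nonneg_of_lt_one_left (norm_nonneg _) h c.2

theorem exists_frob_close_one {β : PadicAlgCl p} (hβ : ‖β‖ ≤ 1) :
    ∃ f : ℕ, 1 ≤ f ∧ ‖β ^ (p ^ f) - β‖ < 1 := by
  have hint : IsIntegral ℚ_[p] β := (PadicAlgCl.isAlgebraic p).isAlgebraic β |>.isIntegral
  set V : Submodule ℚ_[p] (PadicAlgCl p) :=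
    Subalgebra.toSubmodule (Algebra.adjoin ℚ_[p] {β}) with hV
  have hfd : FiniteDimensional ℚ_[p] V := .of_fg hint.fg_adjoin_singleton
  have hproper : ProperSpace V := FiniteDimensional.proper ℚ_[p] V
  have hmem : ∀ n : ℕ, β ^ n ∈ V := fun n =>
    (Algebra.adjoin ℚ_[p] {β}).pow_mem (Algebra.subset_adjoin rfl) n
  set u : ℕ → V := fun n => ⟨β ^ (p ^ n), hmem _⟩ with hu
  have hu1 : ∀ n, u n ∈ Metric.closedBall (0 : V) 1 := by
    intro n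
    rw [Metric.mem_closedBall, dist_zero_right]
    show ‖β ^ (p ^ n)‖ ≤ 1
    rw [norm_pow]
    exact pow_le_one₀ (norm_nonneg _) hβ
  obtain ⟨a, _, φ, hφ, hlim⟩ := (isCompact_closedBall (0 : V) 1).tendsto_subseq hu1
  obtain ⟨N, hN⟩ := (Metric.tendsto_atTop.1 hlim) (1 / 2) (by norm_num)
  have h1 : dist (u (φ (N + 1))) (u (φ N)) < 1 := by
    calc dist (u (φ (N + 1))) (u (φ N)) ≤ dist (u (φ (N + 1))) a + dist (u (φ N)) a :=
          dist_triangle_right _ _ _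
      _ < 1 / 2 + 1 / 2 := add_lt_add (hN (N + 1) (by omega)) (hN N le_rfl)
      _ = 1 := by norm_num
  have h2 : ‖β ^ (p ^ φ (N + 1)) - β ^ (p ^ φ N)‖ < 1 := by
    rw [dist_eq_norm] at h1
    exact h1
  have hlt : φ N < φ (N + 1) := hφ (Nat.lt_succ_self N)
  set i := φ N with hi
  obtain ⟨f, hf, hf'⟩ : ∃ f, 1 ≤ f ∧ φ (N + 1) = f + i := ⟨φ (N + 1) - i, by omega, by omega⟩
  refine ⟨f, hf, ?_⟩
  rw [hf', pow_add, pow_mul] at h2
  set x : PadicAlgCl p := β ^ (p ^ f) with hx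
  have hx1 : ‖x‖ ≤ 1 := by rw [hx, norm_pow]; exact pow_le_one₀ (norm_nonneg _) hβ
  have hxb : ‖x - β‖ ≤ 1 := (Ok (PadicAlgCl p)).sub_mem hx1 hβ
  have h3 := add_pow_sub hp.out (⟨x - β, hxb⟩ : Ok (PadicAlgCl p)) ⟨β, hβ⟩ i
  rw [natCast_dvd_Ok (Nat.cast_ne_zero.2 hp.out.ne_zero)] at h3
  push_cast at h3
  rw [sub_add_cancel] at h3
  have h4 : ‖(x - β) ^ (p ^ i)‖ < 1 := by
    have h5 : (x - β) ^ (p ^ i) = (x ^ (p ^ i) - β ^ (p ^ i)) +
        -(x ^ (p ^ i) - ((x - β) ^ (p ^ i) + β ^ (p ^ i))) := by ring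
    rw [h5]
    refine (IsUltrametricDist.norm_add_le_max _ _).trans_lt (max_lt h2 ?_)
    rw [norm_neg]
    exact h3.trans_lt norm_p_AlgCl_lt
  rw [norm_pow] at h4
  by_contra hcon
  push Not at hcon
  exact absurd (one_le_pow₀ hcon (n := p ^ i)) (not_le.2 h4)

theorem exists_frob_close {β : PadicAlgCl p} (hβ : ‖β‖ ≤ 1) :
    ∃ f : ℕ, 1 ≤ f ∧ ∀ n : ℕ, ‖β ^ (p ^ (f * n)) - β‖ < 1 := by
  obtain ⟨f, hf, h⟩ := exists_frob_close_one hβ
  refine ⟨f, hf, fun n => ?_⟩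
  induction n with
  | zero => simp
  | succ n ih =>
    have hb : ‖β ^ (p ^ (f * n))‖ ≤ 1 := by rw [norm_pow]; exact pow_le_one₀ (norm_nonneg _) hβ
    have h1 := norm_pow_sub_pow_lt hb hβ ih (p ^ f)
    have h2 : β ^ (p ^ (f * (n + 1))) - β = ((β ^ (p ^ (f * n))) ^ (p ^ f) - β ^ (p ^ f)) +
        (β ^ (p ^ f) - β) := by
      rw [← pow_mul, ← pow_add, mul_add, mul_one]
      ring
    rw [h2]
    exact (IsUltrametricDist.norm_add_le_max _ _).trans_lt (max_lt h1 h)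

theorem exists_lift_poly' {K : Type*} [Field K] (R₀ : Subring K) {P : Polynomial K}
    (h : ∀ n, P.coeff n ∈ R₀) : ∃ P₀ : Polynomial R₀, P₀.map R₀.subtype = P := by
  have h1 : P ∈ Polynomial.lifts R₀.subtype := by
    rw [Polynomial.lifts_iff_coeff_lifts]
    exact fun n => ⟨⟨_, h n⟩, rfl⟩
  exact (Polynomial.mem_lifts _).1 h1

theorem WOs.root {m : Polynomial (PadicAlgCl p)} (hm : ∀ i, m.coeff i ∈ WOs (PadicAlgCl p) p)
    {β : PadicAlgCl p} (hβ : ‖β‖ ≤ 1) (h0 : m.eval β = 0) (h1 : ‖m.derivative.eval β‖ = 1) :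
    β ∈ WOs (PadicAlgCl p) p := by
  obtain ⟨m₀, hm₀⟩ := exists_lift_poly' (Ok (PadicAlgCl p)) (P := m) (fun n => (hm n).1)
  obtain ⟨f, hf, hfr⟩ := exists_frob_close hβ
  have hev : ∀ P : Polynomial (Ok (PadicAlgCl p)), ((P.eval ⟨β, hβ⟩ : Ok (PadicAlgCl p)) :
      PadicAlgCl p) = (P.map (Ok (PadicAlgCl p)).subtype).eval β := by
    intro P
    rw [Polynomial.eval_map]
    exact Polynomial.hom_eval₂ P (RingHom.id _) (Ok (PadicAlgCl p)).subtype ⟨β, hβ⟩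
  refine ⟨hβ, IsW.root hp.out (m := m₀) (fun i => ?_) ?_ ?_ hf fun n _ => ?_⟩
  · have h2 : (m₀.coeff i : PadicAlgCl p) = m.coeff i := by
      rw [← hm₀, Polynomial.coeff_map]; rfl
    obtain ⟨h3, h4⟩ := hm i
    have h5 : m₀.coeff i = ⟨m.coeff i, h3⟩ := Subtype.ext h2
    rw [h5]
    exact h4
  · apply Subtype.ext
    rw [hev, hm₀, h0]
    rfl
  · rw [isUnit_Ok, hev, ← Polynomial.derivative_map, hm₀]
    exact h1
  · rw [mem_nonunits_Ok]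
    push_cast
    exact hfr n

end Pool.Agent.Lib.MP_1eeaa7_nt
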