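import Mathlib

/-!
# A bound of Strassmann type for Newton series

`G N = ∑_j (N)_j d_j` with `d_j` in an ultrametric field of characteristic zero: if
`‖d_j‖ < ‖d_K‖` for all `j > K`, then `G` has at most `K` zeros in `ℕ`.
-/

set_option autoImplicit false

namespace Pool.Agent.Lib.MP_1eeaa7_nt

open Polynomial Finset

variable {k : Type*} [NormedField k] [IsUltrametricDist k] [CharZero k]

/-- The Newton series with coefficients `d` in the falling factorial basis. -/
def newton (d : ℕ → k) (N : ℕ) : k := ∑ j ∈ range (N + 1), (N.descFactorial j : k) * d j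

omit [IsUltrametricDist k] [CharZero k] in
theorem newton_eq {d : ℕ → k} {N M : ℕ} (h : N ≤ M) :
    newton d N = ∑ j ∈ range (M + 1), (N.descFactorial j : k) * d j := by
  refine sum_subset (range_subset_range.2 (by omega)) fun j _ hj => ?_
  rw [mem_range, not_lt] at hj
  rw [Nat.descFactorial_eq_zero_iff_lt.2 (by omega), Nat.cast_zero, zero_mul]

omit [CharZero k] in
theorem norm_int_le (n : ℤ) : ‖(n : k)‖ ≤ 1 := IsUltrametricDist.norm_intCast_le_one k n

theorem strassmann {d : ℕ → k} {K : ℕ} (hK : ∀ j, K < j → ‖d j‖ < ‖d K‖) (s : Finset ℕ)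
    (hs : ∀ n ∈ s, newton d n = 0) : s.card ≤ K := by
  classical
  by_contra hcon
  push Not at hcon
  obtain ⟨t, hts, htc⟩ := exists_subset_card_eq (s := s) (n := K + 1) hcon
  have ht : ∀ n ∈ t, newton d n = 0 := fun n hn => hs n (hts hn)
  set W : ℤ[X] := ∏ n ∈ t, (X - C (n : ℤ)) with hW
  have hWm : W.Monic := monic_prod_of_monic _ _ fun n _ => monic_X_sub_C _
  have hWd : W.natDegree = K + 1 := by
    rw [hW, natDegree_prod_of_monic _ _ fun n _ => monic_X_sub_C _]
    simp only [natDegree_X_sub_C, sum_const, smul_eq_mul, mul_one, htc]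
  have hW1 : W ≠ 1 := fun h => by rw [h, natDegree_one] at hWd; omega
  set r : ℕ → ℤ[X] := fun j => descPochhammer ℤ j %ₘ W with hr
  have hrd : ∀ j, (r j).natDegree < K + 1 := fun j => by
    rw [← hWd]; exact natDegree_modByMonic_lt _ hWm hW1
  have hreval : ∀ j, ∀ n ∈ t, (r j).eval (n : ℤ) = n.descFactorial j := by
    intro j n hn
    have h1 : W.eval (n : ℤ) = 0 := by
      rw [hW, eval_prod]
      exact prod_eq_zero hn (by simp)
    have h2 : descPochhammer ℤ j %ₘ W + W * (descPochhammer ℤ j /ₘ W) = descPochhammer ℤ j :=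
      modByMonic_add_div _ _
    have h3 := congrArg (eval (n : ℤ)) h2
    rw [eval_add, eval_mul, h1, zero_mul, add_zero, descPochhammer_eval_eq_descFactorial] at h3
    exact h3
  set M : ℕ := t.sup id with hM
  have hnM : ∀ n ∈ t, n ≤ M := fun n hn => le_sup (f := id) hn
  have hKM : K ≤ M := by
    by_contra hlt
    push Not at hlt
    have h1 : t ⊆ range (M + 1) := fun n hn => mem_range.2 (Nat.lt_succ_of_le (hnM n hn))
    have h2 := card_le_card h1
    rw [card_range, htc] at h2
    omega
  set T : k[X] := ∑ j ∈ range (M + 1), C (d j) * (r j).map (Int.castRingHom k) with hT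
  have hTd : T.natDegree < t.card := by
    rw [htc]
    refine Nat.lt_succ_of_le (natDegree_sum_le_of_forall_le _ _ fun j _ => ?_)
    refine (natDegree_C_mul_le _ _).trans ?_
    refine (natDegree_map_le).trans ?_
    have := hrd j
    omega
  have hTeval : ∀ n ∈ t, T.eval (n : k) = 0 := by
    intro n hn
    rw [hT, eval_finsetSum, ← ht n hn, newton_eq (hnM n hn)]
    refine sum_congr rfl fun j _ => ?_
    rw [eval_mul, eval_C]
    have h1 : (Polynomial.map (Int.castRingHom k) (r j)).eval (n : k) =
        (((r j).eval (n : ℤ) : ℤ) : k) := by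
      have h2 := eval_intCast_map (Int.castRingHom k) (r j) (n : ℤ)
      simp only [Int.cast_natCast, eq_intCast] at h2
      exact h2
    rw [h1, hreval j n hn]
    push_cast
    ring
  have hT0 : T = 0 := by
    refine eq_zero_of_natDegree_lt_card_of_eval_eq_zero' T (t.image (fun n : ℕ => (n : k))) ?_ ?_
    · intro x hx
      obtain ⟨n, hn, rfl⟩ := mem_image.1 hx
      exact hTeval n hn
    · rwa [card_image_of_injective _ Nat.cast_injective]
  have hcoef : ∀ j, ((C (d j) * (r j).map (Int.castRingHom k)).coeff K) =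
      d j * (((r j).coeff K : ℤ) : k) := by
    intro j
    rw [coeff_C_mul, coeff_map]
    rfl
  have h0 : ∑ j ∈ range (M + 1), d j * (((r j).coeff K : ℤ) : k) = 0 := by
    have := congrArg (fun q : k[X] => q.coeff K) hT0
    simp only [hT, finsetSum_coeff, coeff_zero] at this
    rw [← this]
    exact sum_congr rfl fun j _ => (hcoef j).symm
  have hrsmall : ∀ j, j ≤ K → r j = descPochhammer ℤ j := by
    intro j hj
    refine (modByMonic_eq_self_iff hWm).2 ?_
    rw [degree_eq_natDegree (monic_descPochhammer ℤ j).ne_zero, degree_eq_natDegree hWm.ne_zero,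
      descPochhammer_natDegree, hWd]
    exact_mod_cast Nat.lt_succ_of_le hj
  have hlow : ∀ j, j < K → (r j).coeff K = 0 := by
    intro j hj
    rw [hrsmall j hj.le]
    exact coeff_eq_zero_of_natDegree_lt (by rwa [descPochhammer_natDegree])
  have hmid : (r K).coeff K = 1 := by
    rw [hrsmall K le_rfl]
    have := (monic_descPochhammer ℤ K).coeff_natDegree
    rwa [descPochhammer_natDegree] at this
  have hsplit : d K = - ∑ j ∈ (range (M + 1)).erase K, d j * (((r j).coeff K : ℤ) : k) := by
    have hKr : K ∈ range (M + 1) := mem_range.2 (by omega)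
    rw [← add_sum_erase _ _ hKr, hmid, Int.cast_one, mul_one] at h0
    exact eq_neg_of_add_eq_zero_left h0
  have hpos : 0 < ‖d K‖ := (norm_nonneg _).trans_lt (hK (K + 1) (by omega))
  have hbound : ‖∑ j ∈ (range (M + 1)).erase K, d j * (((r j).coeff K : ℤ) : k)‖ < ‖d K‖ := by
    rcases ((range (M + 1)).erase K).eq_empty_or_nonempty with he | hne
    · rw [he, sum_empty, norm_zero]; exact hpos
    · obtain ⟨j, hj, hle⟩ := IsUltrametricDist.exists_norm_finsetSum_le_of_nonempty hne
        (fun j => d j * (((r j).coeff K : ℤ) : k))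
      refine hle.trans_lt ?_
      rw [mem_erase] at hj
      rcases lt_or_gt_of_ne hj.1 with h | h
      · rw [hlow j h]
        simpa using hpos
      · rw [norm_mul]
        calc ‖d j‖ * ‖(((r j).coeff K : ℤ) : k)‖ ≤ ‖d j‖ * 1 :=
              mul_le_mul_of_nonneg_left (norm_int_le _) (norm_nonneg _)
          _ < ‖d K‖ := by rw [mul_one]; exact hK j h
  rw [hsplit, norm_neg] at hbound
  exact absurd hbound (by rw [← norm_neg (∑ j ∈ (range (M + 1)).erase K, _), ← hsplit]; exact lt_irrefl _)

/-- Newton series with coefficients tending to zero: identically zero or finitely many zeros. -/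
theorem newton_dichotomy {d : ℕ → k} (hd : Filter.Tendsto d Filter.atTop (nhds 0)) :
    (∀ N, newton d N = 0) ∨ {N | newton d N = 0}.Finite := by
  by_cases h0 : ∀ j, d j = 0
  · left
    intro N
    exact sum_eq_zero fun j _ => by rw [h0 j, mul_zero]
  · right
    push Not at h0
    obtain ⟨j0, hj0⟩ := h0
    have hpos : 0 < ‖d j0‖ := norm_pos_iff.2 hj0
    have hev : ∀ᶠ j in Filter.atTop, ‖d j‖ < ‖d j0‖ := by
      have := hd.norm
      rw [norm_zero] at this
      exact this.eventually_lt_const hpos
    obtain ⟨J, hJ⟩ := Filter.eventually_atTop.1 hev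
    -- the largest index where the maximum is attained
    set S : Finset ℕ := range (J + 1) with hS
    have hj0S : j0 ∈ S := by
      rw [hS, mem_range]
      by_contra hcon
      exact lt_irrefl _ (hJ j0 (by omega))
    obtain ⟨m, hmS, hmmax⟩ := exists_max_image S (fun j => ‖d j‖) ⟨j0, hj0S⟩
    have hne : (S.filter fun j => ‖d j‖ = ‖d m‖).Nonempty := ⟨m, by simp [hmS]⟩
    set K := (S.filter fun j => ‖d j‖ = ‖d m‖).max' hne with hKdef
    have hKmem := Finset.max'_mem _ hne
    rw [← hKdef, mem_filter] at hKmem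
    have hK : ∀ j, K < j → ‖d j‖ < ‖d K‖ := by
      intro j hj
      rw [hKmem.2]
      by_cases hjS : j ∈ S
      · refine lt_of_le_of_ne (hmmax j hjS) fun heq => ?_
        have h1 : j ∈ S.filter fun j => ‖d j‖ = ‖d m‖ := by
          rw [mem_filter]; exact ⟨hjS, heq⟩
        have := Finset.le_max' _ j h1
        rw [← hKdef] at this
        omega
      · rw [hS, mem_range, not_lt] at hjS
        exact (hJ j (by omega)).trans_le (hmmax j0 hj0S)
    by_contra hinf
    obtain ⟨s, hs, hsc⟩ := (Set.not_finite.1 hinf : Set.Infinite _).exists_subset_card_eq (K + 1)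
    have := strassmann hK s fun n hn => hs hn
    omega

end Pool.Agent.Lib.MP_1eeaa7_nt
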