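import Pool.Agent.Lib.MP_1eeaa7_nt.Filt

/-!
# Operators attached to a system `x Y' = B Y`
-/

set_option autoImplicit false

namespace Pool.Agent.Lib.MP_1eeaa7_nt

open Finset PowerSeries

section Ops

variable {κ : Type*} [CommRing κ] {m : ℕ}

/-- multiplication by `x` -/
noncomputable def xE (κ : Type*) [CommRing κ] (m : ℕ) : Module.End κ (Fin m → κ⟦X⟧) where
  toFun w := fun i => X * w i
  map_add' w w' := by funext i; simp only [Pi.add_apply]; ring
  map_smul' a w := by funext i; simp

/-- the operator `w ↦ x w' + w B` on row vectors -/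
noncomputable def thE (B : Matrix (Fin m) (Fin m) κ⟦X⟧) : Module.End κ (Fin m → κ⟦X⟧) where
  toFun w := fun i => X * d⁄dX κ (w i) + ∑ j, w j * B j i
  map_add' w w' := by
    funext i
    simp only [Pi.add_apply, map_add, add_mul, sum_add_distrib]
    ring
  map_smul' a w := by
    funext i
    simp only [Pi.smul_apply, RingHom.id_apply, smul_add, smul_sum, smul_mul_assoc]
    rw [Derivation.map_smul, mul_smul_comm]

/-- division by `x`, discarding the constant term -/
noncomputable def shE (κ : Type*) [CommRing κ] (m : ℕ) : Module.End κ (Fin m → κ⟦X⟧) where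
  toFun w := fun i => PowerSeries.mk fun n => coeff (n + 1) (w i)
  map_add' w w' := by funext i; ext n; simp
  map_smul' a w := by funext i; ext n; simp

/-- the lowering operator `x⁻¹ Q(θ)` -/
noncomputable def dE (B : Matrix (Fin m) (Fin m) κ⟦X⟧) (Q : Polynomial κ) :
    Module.End κ (Fin m → κ⟦X⟧) := shE κ m * Polynomial.aeval (thE B) Q

theorem sh_mul_x : shE κ m * xE κ m = 1 := by
  ext w i n
  simp [shE, xE]

theorem x_mul_sh {w : Fin m → κ⟦X⟧} (hw : ∀ i, constantCoeff (w i) = 0) :
    xE κ m (shE κ m w) = w := by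
  funext i
  ext n
  rcases n with _ | n
  · show coeff 0 (X * (PowerSeries.mk fun n => coeff (n + 1) (w i))) = _
    rw [coeff_zero_X_mul, coeff_zero_eq_constantCoeff_apply, hw i]
  · show coeff (n + 1) (X * (PowerSeries.mk fun n => coeff (n + 1) (w i))) = _
    rw [coeff_succ_X_mul, coeff_mk]

theorem th_x (B : Matrix (Fin m) (Fin m) κ⟦X⟧) :
    thE B * xE κ m = xE κ m * (thE B + 1) := by
  refine LinearMap.ext fun w => funext fun i => ?_
  show X * d⁄dX κ (X * w i) + ∑ j, X * w j * B j i =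
    X * ((X * d⁄dX κ (w i) + ∑ j, w j * B j i) + w i)
  rw [Derivation.leibniz, derivative_X]
  simp only [smul_eq_mul, mul_one, mul_add, mul_sum, mul_assoc]
  ring

/-- evaluation at `0` -/
noncomputable def ev0 (w : Fin m → κ⟦X⟧) : Fin m → κ := fun i => constantCoeff (w i)

theorem ev0_th (B : Matrix (Fin m) (Fin m) κ⟦X⟧) (w : Fin m → κ⟦X⟧) :
    ev0 (thE B w) = Matrix.vecMul (ev0 w) (B.map constantCoeff) := by
  funext i
  show constantCoeff (X * d⁄dX κ (w i) + ∑ j, w j * B j i) = _
  rw [map_add, map_mul, constantCoeff_X, zero_mul, zero_add, map_sum]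
  simp only [Matrix.vecMul, dotProduct, map_mul]
  rfl

theorem ev0_th_pow (B : Matrix (Fin m) (Fin m) κ⟦X⟧) (n : ℕ) (w : Fin m → κ⟦X⟧) :
    ev0 ((thE B ^ n) w) = Matrix.vecMul (ev0 w) ((B.map constantCoeff) ^ n) := by
  induction n generalizing w with
  | zero => simp
  | succ n ih => rw [pow_succ, Module.End.mul_apply, ih, ev0_th, Matrix.vecMul_vecMul, ← pow_succ']

theorem ev0_add (w w' : Fin m → κ⟦X⟧) : ev0 (w + w') = ev0 w + ev0 w' := by
  funext i; simp [ev0]

theorem ev0_smul (a : κ) (w : Fin m → κ⟦X⟧) : ev0 (a • w) = a • ev0 w := by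
  funext i; simp [ev0]

theorem ev0_aeval (B : Matrix (Fin m) (Fin m) κ⟦X⟧) (Q : Polynomial κ) (w : Fin m → κ⟦X⟧) :
    ev0 ((Polynomial.aeval (thE B) Q) w) =
      Matrix.vecMul (ev0 w) (Polynomial.aeval (B.map constantCoeff) Q) := by
  induction Q using Polynomial.induction_on' with
  | add P Q hP hQ =>
    rw [map_add, map_add, LinearMap.add_apply, ev0_add, hP, hQ, Matrix.vecMul_add]
  | monomial n a =>
    rw [Polynomial.aeval_monomial, Polynomial.aeval_monomial, ← Algebra.smul_def,
      ← Algebra.smul_def, LinearMap.smul_apply, ev0_smul, ev0_th_pow, Matrix.vecMul_smul]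

theorem x_d {B : Matrix (Fin m) (Fin m) κ⟦X⟧} {Q : Polynomial κ}
    (hQB : Polynomial.aeval (B.map constantCoeff) Q = 0) :
    xE κ m * dE B Q = Polynomial.aeval (thE B) Q := by
  refine LinearMap.ext fun w => ?_
  rw [dE, Module.End.mul_apply, Module.End.mul_apply]
  refine x_mul_sh fun i => ?_
  have h1 := congrFun (ev0_aeval B Q w) i
  rw [hQB, Matrix.vecMul_zero] at h1
  exact h1

theorem d_x (B : Matrix (Fin m) (Fin m) κ⟦X⟧) (Q : Polynomial κ) :
    dE B Q * xE κ m = Polynomial.aeval (thE B + 1) Q := by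
  have h1 : SemiconjBy (xE κ m) (thE B + 1) (thE B) := (th_x B).symm
  rw [dE, mul_assoc, ← (semiconj_aeval h1 Q).eq, ← mul_assoc, sh_mul_x, one_mul]

theorem d_th {B : Matrix (Fin m) (Fin m) κ⟦X⟧} {Q : Polynomial κ}
    (hQB : Polynomial.aeval (B.map constantCoeff) Q = 0) :
    dE B Q * thE B = (thE B + 1) * dE B Q := by
  have h1 : xE κ m * (dE B Q * thE B) = xE κ m * ((thE B + 1) * dE B Q) := by
    rw [← mul_assoc, x_d hQB, ← mul_assoc, ← th_x, mul_assoc, x_d hQB]
    have h3 := congrArg (Polynomial.aeval (thE B)) (Polynomial.X_mul (p := Q))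
    rw [map_mul, map_mul, Polynomial.aeval_X] at h3
    exact h3.symm
  have h2 := congrArg (fun z => shE κ m * z) h1
  simp only [← mul_assoc, sh_mul_x, one_mul] at h2
  exact h2

end Ops

end Pool.Agent.Lib.MP_1eeaa7_nt
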