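import Pool.Agent.Lib.MP_1eeaa7_nt.System

/-!
# Decay for systems over a nonarchimedean field
-/

set_option autoImplicit false

namespace Pool.Agent.Lib.MP_1eeaa7_nt

open Finset PowerSeries

variable {k : Type*} [NormedField k] [IsUltrametricDist k] {m : ℕ}

/-- the lattice of vectors of series with integral coefficients -/
def Lat (k : Type*) [NormedField k] [IsUltrametricDist k] (m : ℕ) : AddSubgroup (Fin m → k⟦X⟧) where
  carrier := {w | ∀ i n, ‖coeff n (w i)‖ ≤ 1}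
  zero_mem' := fun i n => by simp
  add_mem' := fun {a b} ha hb i n => by
    rw [Pi.add_apply, map_add]
    exact (IsUltrametricDist.norm_add_le_max _ _).trans (max_le (ha i n) (hb i n))
  neg_mem' := fun {a} ha i n => by
    rw [Pi.neg_apply, map_neg, norm_neg]
    exact ha i n

theorem mem_Lat {w : Fin m → k⟦X⟧} : w ∈ Lat k m ↔ ∀ i n, ‖coeff n (w i)‖ ≤ 1 := Iff.rfl

theorem Lat_smul (a : k) (ha : ‖a‖ ≤ 1) : ∀ w ∈ Lat k m, a • w ∈ Lat k m := fun w hw i n => by
  rw [Pi.smul_apply, coeff_smul, smul_eq_mul, norm_mul]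
  exact mul_le_one₀ ha (norm_nonneg _) (hw i n)

theorem Lat_x : ∀ w ∈ Lat k m, xE k m w ∈ Lat k m := fun w hw i n => by
  show ‖coeff n (X * w i)‖ ≤ 1
  rcases n with _ | n
  · rw [coeff_zero_X_mul, norm_zero]; exact zero_le_one
  · rw [coeff_succ_X_mul]; exact hw i n

theorem Lat_sh : ∀ w ∈ Lat k m, shE k m w ∈ Lat k m := fun w hw i n => by
  show ‖coeff n (PowerSeries.mk fun n => coeff (n + 1) (w i))‖ ≤ 1
  rw [coeff_mk]
  exact hw i _

variable {B : Matrix (Fin m) (Fin m) k⟦X⟧} {Q : Polynomial k}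

theorem Lat_th (hB : ∀ i j n, ‖coeff n (B i j)‖ ≤ 1) : ∀ w ∈ Lat k m, thE B w ∈ Lat k m :=
    fun w hw i n => by
  show ‖coeff n (X * d⁄dX k (w i) + ∑ j, w j * B j i)‖ ≤ 1
  rw [map_add, map_sum]
  refine (IsUltrametricDist.norm_add_le_max _ _).trans (max_le ?_ ?_)
  · rcases n with _ | n
    · rw [coeff_zero_X_mul, norm_zero]; exact zero_le_one
    · rw [coeff_succ_X_mul, coeff_derivative, norm_mul]
      have h1 : ((n : k) + 1) = ((n + 1 : ℕ) : k) := by push_cast; rfl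
      rw [h1]
      exact mul_le_one₀ (hw i _) (norm_nonneg _) (norm_nat_le _)
  · refine IsUltrametricDist.norm_sum_le_of_forall_le_of_nonneg zero_le_one fun j _ => ?_
    rw [coeff_mul]
    refine IsUltrametricDist.norm_sum_le_of_forall_le_of_nonneg zero_le_one fun x _ => ?_
    rw [norm_mul]
    exact mul_le_one₀ (hw j _) (norm_nonneg _) (hB j i _)

theorem Lat_aeval (hB : ∀ i j n, ‖coeff n (B i j)‖ ≤ 1) (hQ : ∀ n, ‖Q.coeff n‖ ≤ 1) :
    ∀ w ∈ Lat k m, (Polynomial.aeval (thE B) Q) w ∈ Lat k m := by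
  intro w hw
  rw [Polynomial.aeval_eq_sum_range, LinearMap.sum_apply]
  refine AddSubgroup.sum_mem _ fun i _ => ?_
  rw [LinearMap.smul_apply]
  exact Lat_smul _ (hQ i) _ (Setup.pow_mem (Lat_th hB) i w hw)

theorem setup_system (hB : ∀ i j n, ‖coeff n (B i j)‖ ≤ 1) (hQ : ∀ n, ‖Q.coeff n‖ ≤ 1)
    (hQB : Polynomial.aeval (B.map constantCoeff) Q = 0) {p : ℕ} (hp : p ≠ 0) {ε : ℝ} (h0 : 0 < ε)
    (h1 : ε < 1) (hpk : ‖(p : k)‖ ≤ ε) :
    Setup (Lat k m) (xE k m) (dE B Q) (thE B) p ε Q where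
  h0 := h0
  h1 := h1
  hp := hpk
  hpos := hp
  smul := Lat_smul
  mx := Lat_x
  md := fun w hw => Lat_sh _ (Lat_aeval hB hQ w hw)
  mt := Lat_th hB
  r1 := th_x B
  r2 := d_x B Q
  r2' := x_d hQB
  r3 := d_th hQB
  hQ := hQ

omit [IsUltrametricDist k] in
/-- constant vectors -/
noncomputable def cst (v : Fin m → k) : Fin m → k⟦X⟧ := fun i => PowerSeries.C (v i)

theorem cst_mem {v : Fin m → k} (hv : ∀ i, ‖v i‖ ≤ 1) : cst v ∈ Lat k m := fun i n => by
  rw [cst, coeff_C]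
  split_ifs
  · exact hv i
  · rw [norm_zero]; exact zero_le_one

omit [IsUltrametricDist k] in
theorem ev0_cst (v : Fin m → k) : ev0 (cst v) = v := by
  funext i; simp [ev0, cst]

omit [IsUltrametricDist k] in
theorem cst_eq_sum (v : Fin m → k) : cst v = ∑ i, v i • cst (Pi.single i (1 : k)) := by
  funext j
  rw [Finset.sum_apply]
  ext n
  rw [map_sum]
  simp only [cst, Pi.smul_apply, coeff_smul, coeff_C, smul_eq_mul]
  by_cases hn : n = 0
  · simp [hn, Pi.single_apply]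
  · simp [hn]

theorem sub_cst_mem {p : ℕ} {ε : ℝ} {w : Fin m → k⟦X⟧} (hw : w ∈ Lat k m) :
    w - cst (ev0 w) ∈ Fil (Lat k m) (xE k m) p ε 1 := by
  have h1 : w - cst (ev0 w) = xE k m (shE k m w) := by
    funext i
    ext n
    show coeff n (w i - PowerSeries.C (constantCoeff (w i))) =
      coeff n (X * (PowerSeries.mk fun n => coeff (n + 1) (w i)))
    rcases n with _ | n
    · rw [map_sub, coeff_zero_X_mul]; simp
    · rw [map_sub, coeff_succ_X_mul, coeff_mk, coeff_C, if_neg (Nat.succ_ne_zero n), sub_zero]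
  rw [h1]
  have h2 := mem_Fil (x := xE k m) (p := p) (ε := ε) (n := 1) (c := 0) (b := 1) (a := (1 : k))
    (Lat_sh w hw) (by omega) (by simp)
  simpa using h2

/-- the matrix of `δ ^ n` at `0` -/
noncomputable def mat0 {κ : Type*} [CommRing κ] (B : Matrix (Fin m) (Fin m) κ⟦X⟧)
    (Q : Polynomial κ) (n : ℕ) : Matrix (Fin m) (Fin m) κ :=
  Matrix.of fun i j => ev0 ((dE B Q ^ n) (fun l => PowerSeries.C (Pi.single (M := fun _ => κ) i 1 l))) j

omit [IsUltrametricDist k] in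
theorem ev0_d_cst (n : ℕ) (v : Fin m → k) :
    ev0 ((dE B Q ^ n) (cst v)) = Matrix.vecMul v (mat0 B Q n) := by
  rw [cst_eq_sum, map_sum]
  funext j
  have h1 : ∀ s : Finset (Fin m), ∀ f : Fin m → (Fin m → k⟦X⟧),
      ev0 (∑ i ∈ s, f i) = ∑ i ∈ s, ev0 (f i) := by
    intro s f
    induction s using Finset.induction_on with
    | empty => funext i; simp [ev0]
    | insert a s ha ih => rw [sum_insert ha, sum_insert ha, ev0_add, ih]
  rw [h1, Finset.sum_apply, Matrix.vecMul, dotProduct]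
  refine sum_congr rfl fun i _ => ?_
  rw [map_smul, ev0_smul, Pi.smul_apply, smul_eq_mul]
  rfl

theorem H2_system (hB : ∀ i j n, ‖coeff n (B i j)‖ ≤ 1) (hQ : ∀ n, ‖Q.coeff n‖ ≤ 1)
    (hQB : Polynomial.aeval (B.map constantCoeff) Q = 0) {p : ℕ} (hp : p ≠ 0) {ε : ℝ} (h0 : 0 < ε)
    (h1 : ε < 1) (hpk : ‖(p : k)‖ ≤ ε) {L : ℕ}
    (hL : ∀ i j, ‖((mat0 B Q p) ^ L - 1) i j‖ ≤ ε) :
    ∀ w ∈ Lat k m, ((dE B Q) ^ (p * L)) w - w ∈ Fil (Lat k m) (xE k m) p ε 1 := by
  have S := setup_system hB hQ hQB hp h0 h1 hpk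
  set M₀ := mat0 B Q p with hM₀
  -- integrality of the matrix
  have hM₀int : ∀ i j, ‖M₀ i j‖ ≤ 1 := by
    intro i j
    have h2 : (dE B Q ^ p) (cst (Pi.single i (1 : k))) ∈ Lat k m :=
      Setup.pow_mem S.md p _ (cst_mem fun l => by
        rw [Pi.single_apply]
        split_ifs
        · exact norm_one.le
        · rw [norm_zero]; exact zero_le_one)
    have h3 := mem_Lat.1 h2 j 0
    rwa [coeff_zero_eq_constantCoeff_apply] at h3
  have hvec : ∀ v : Fin m → k, (∀ i, ‖v i‖ ≤ 1) → ∀ i, ‖Matrix.vecMul v M₀ i‖ ≤ 1 := by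
    intro v hv i
    rw [Matrix.vecMul, dotProduct]
    refine IsUltrametricDist.norm_sum_le_of_forall_le_of_nonneg zero_le_one fun j _ => ?_
    rw [norm_mul]
    exact mul_le_one₀ (hv j) (norm_nonneg _) (hM₀int j i)
  have hvecn : ∀ n, ∀ v : Fin m → k, (∀ i, ‖v i‖ ≤ 1) → ∀ i, ‖Matrix.vecMul v (M₀ ^ n) i‖ ≤ 1 := by
    intro n
    induction n with
    | zero => intro v hv i; simpa using hv i
    | succ n ih =>
      intro v hv i
      rw [pow_succ, ← Matrix.vecMul_vecMul]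
      exact hvec _ (ih v hv) i
  have hT : ∀ v : Fin m → k, (∀ i, ‖v i‖ ≤ 1) → (dE B Q ^ p) (cst v) - cst (Matrix.vecMul v M₀) ∈
      Fil (Lat k m) (xE k m) p ε 1 := by
    intro v hv
    have h2 : (dE B Q ^ p) (cst v) ∈ Lat k m := Setup.pow_mem S.md p _ (cst_mem hv)
    have h3 := sub_cst_mem (p := p) (ε := ε) h2
    rwa [ev0_d_cst] at h3
  have hTn : ∀ n, ∀ v : Fin m → k, (∀ i, ‖v i‖ ≤ 1) →
      (dE B Q ^ (p * n)) (cst v) - cst (Matrix.vecMul v (M₀ ^ n)) ∈
        Fil (Lat k m) (xE k m) p ε 1 := by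
    intro n
    induction n with
    | zero =>
      intro v _
      simp only [mul_zero, pow_zero, Module.End.one_apply, Matrix.vecMul_one, sub_self]
      exact AddSubgroup.zero_mem _
    | succ n ih =>
      intro v hv
      have e : dE B Q ^ (p * (n + 1)) = dE B Q ^ p * dE B Q ^ (p * n) := by
        rw [← pow_add]; congr 1; ring
      have h2 := S.T_Fil _ (ih v hv)
      rw [map_sub] at h2
      have h3 := hT _ (hvecn n v hv)
      rw [Matrix.vecMul_vecMul, ← pow_succ] at h3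
      rw [e, Module.End.mul_apply]
      have h4 := AddSubgroup.add_mem _ h2 h3
      rwa [sub_add_sub_cancel] at h4
  intro w hw
  have hv : ∀ i, ‖ev0 w i‖ ≤ 1 := fun i => by
    have := mem_Lat.1 hw i 0
    rwa [coeff_zero_eq_constantCoeff_apply] at this
  have h2 := sub_cst_mem (p := p) (ε := ε) hw
  have h3 : (dE B Q ^ (p * L)) (w - cst (ev0 w)) ∈ Fil (Lat k m) (xE k m) p ε 1 := by
    have : ∀ n, ∀ z ∈ Fil (Lat k m) (xE k m) p ε 1, (dE B Q ^ (p * n)) z ∈
        Fil (Lat k m) (xE k m) p ε 1 := by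
      intro n
      induction n with
      | zero => intro z hz; simpa using hz
      | succ n ih =>
        intro z hz
        have e : dE B Q ^ (p * (n + 1)) = dE B Q ^ p * dE B Q ^ (p * n) := by
          rw [← pow_add]; congr 1; ring
        rw [e, Module.End.mul_apply]
        exact S.T_Fil _ (ih z hz)
    exact this L _ h2
  have h4 := hTn L (ev0 w) hv
  -- the constant part
  have h5 : cst (Matrix.vecMul (ev0 w) (M₀ ^ L)) - cst (ev0 w) ∈
      Fil (Lat k m) (xE k m) p ε 1 := by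
    have e : cst (Matrix.vecMul (ev0 w) (M₀ ^ L)) - cst (ev0 w) =
        ∑ i, (Matrix.vecMul (ev0 w) (M₀ ^ L - 1)) i • cst (Pi.single i (1 : k)) := by
      rw [← cst_eq_sum, Matrix.vecMul_sub, Matrix.vecMul_one]
      funext i
      simp [cst]
    rw [e]
    refine AddSubgroup.sum_mem _ fun i _ => ?_
    have h6 : ‖(Matrix.vecMul (ev0 w) (M₀ ^ L - 1)) i‖ ≤ ε := by
      rw [Matrix.vecMul, dotProduct]
      refine IsUltrametricDist.norm_sum_le_of_forall_le_of_nonneg h0.le fun j _ => ?_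
      rw [norm_mul]
      calc ‖ev0 w j‖ * ‖(M₀ ^ L - 1) j i‖ ≤ 1 * ε :=
            mul_le_mul (hv j) (hL j i) (norm_nonneg _) zero_le_one
        _ = ε := one_mul ε
    have h7 := mem_Fil (x := xE k m) (p := p) (ε := ε) (n := 1) (c := 1) (b := 0)
      (a := (Matrix.vecMul (ev0 w) (M₀ ^ L - 1)) i) (Λ := Lat k m)
      (w := cst (Pi.single i (1 : k))) (cst_mem fun l => by
        rw [Pi.single_apply]
        split_ifs
        · exact norm_one.le
        · rw [norm_zero]; exact zero_le_one) (by omega) (by rw [pow_one]; exact h6)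
    simpa using h7
  have h8 := AddSubgroup.sub_mem _ (AddSubgroup.add_mem _ (AddSubgroup.add_mem _ h3 h4) h5) h2
  rw [map_sub] at h8
  have e : (dE B Q ^ (p * L)) w - (dE B Q ^ (p * L)) (cst (ev0 w)) +
      ((dE B Q ^ (p * L)) (cst (ev0 w)) - cst (Matrix.vecMul (ev0 w) (M₀ ^ L))) +
      (cst (Matrix.vecMul (ev0 w) (M₀ ^ L)) - cst (ev0 w)) - (w - cst (ev0 w)) =
      (dE B Q ^ (p * L)) w - w := by abel
  rwa [e] at h8

end Pool.Agent.Lib.MP_1eeaa7_nt
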