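import Pool.Agent.Lib.MP_1eeaa7_nt.System2

/-!
# Zero sets for systems `x Y' = B Y`
-/

set_option autoImplicit false

namespace Pool.Agent.Lib.MP_1eeaa7_nt

open Finset PowerSeries

section Decay

variable {k : Type*} [NormedField k] [IsUltrametricDist k] {m : ℕ}
variable {B : Matrix (Fin m) (Fin m) k⟦X⟧} {Q : Polynomial k}

theorem xE_pow {κ : Type*} [CommRing κ] (j : ℕ) (w : Fin m → κ⟦X⟧) (i : Fin m) :
    (xE κ m ^ j) w i = X ^ j * w i := by
  induction j generalizing w with
  | zero => simp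
  | succ j ih =>
    rw [pow_succ, Module.End.mul_apply, ih]
    show X ^ j * (X * w i) = _
    ring

/-- the constant coefficient of the component `i` -/
noncomputable def ellE (k : Type*) [NormedField k] {m : ℕ} (i : Fin m) :
    (Fin m → k⟦X⟧) →ₗ[k] k where
  toFun w := ev0 w i
  map_add' w w' := by rw [ev0_add]; rfl
  map_smul' a w := by rw [ev0_smul]; rfl

theorem decay_system (hB : ∀ i j n, ‖coeff n (B i j)‖ ≤ 1) (hQ : ∀ n, ‖Q.coeff n‖ ≤ 1)
    (hQB : Polynomial.aeval (B.map constantCoeff) Q = 0) {p : ℕ} (hp : p ≠ 0) {ε : ℝ} (h0 : 0 < ε)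
    (h1 : ε < 1) (hpk : ‖(p : k)‖ ≤ ε) {L : ℕ}
    (hL : ∀ i j, ‖((mat0 B Q p) ^ L - 1) i j‖ ≤ ε) {g : Fin m → k⟦X⟧} {C : ℝ} (hC : 0 ≤ C) {A : ℕ}
    (hg : ∀ i n, ‖coeff n (g i)‖ ≤ C * ((n + 1 : ℕ) : ℝ) ^ A) (c : ℕ) (i : Fin m) :
    Decay (fun t => ev0 ((dE B Q ^ (c + p * L * t)) g) i) := by
  have S := setup_system hB hQ hQB hp h0 h1 hpk
  have H2 := H2_system hB hQ hQB hp h0 h1 hpk hL
  have hsingle : ∀ l : Fin m, cst (Pi.single l (1 : k)) ∈ Lat k m := fun l => cst_mem fun i => by
    rw [Pi.single_apply]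
    split_ifs
    · exact norm_one.le
    · rw [norm_zero]; exact zero_le_one
  have hcomp : ∀ l : Fin m, Decay (fun t => ellE k i ((dE B Q ^ (c + p * L * t))
      (Pi.single l (g l)))) := by
    intro l
    refine S.decay H2 (ℓ := ellE k i) (fun w hw => ?_) (fun w => ?_) (a := fun j => coeff j (g l))
      (w := fun _ => cst (Pi.single l (1 : k))) (fun _ => hsingle l) hC (hg l) (fun J => ?_) c
    · have := mem_Lat.1 hw i 0
      rwa [coeff_zero_eq_constantCoeff_apply] at this
    · show constantCoeff (X * w i) = 0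
      rw [map_mul, constantCoeff_X, zero_mul]
    · refine ⟨Pi.single l (PowerSeries.mk fun n => coeff (n + J) (g l)), ?_⟩
      funext r
      rw [Pi.add_apply, Finset.sum_apply, xE_pow]
      simp only [Pi.smul_apply, xE_pow, cst]
      by_cases hr : r = l
      · subst hr
        simp only [Pi.single_eq_same]
        ext n
        rw [map_add, map_sum, coeff_X_pow_mul']
        simp only [coeff_smul, map_one, mul_one, coeff_X_pow, smul_eq_mul, mul_ite, mul_zero]
        rw [sum_ite_eq]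
        by_cases hn : n < J
        · rw [if_pos (mem_range.2 hn), if_neg (by omega), add_zero]
        · rw [if_neg (by rwa [mem_range]), if_pos (by omega), zero_add, coeff_mk,
            Nat.sub_add_cancel (by omega)]
      · simp [hr]
  have hsum := Decay.sum Finset.univ (fun l _ => hcomp l)
  refine Eq.mp (congrArg Decay ?_) hsum
  funext t
  rw [Finset.sum_apply, ← map_sum, ← map_sum]
  have e : ∑ l, Pi.single l (g l) = g := by
    funext r
    rw [Finset.sum_apply]
    simp [Pi.single_apply]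
  rw [e]
  rfl

end Decay

section Natural

variable {κ κ' : Type*} [CommRing κ] [CommRing κ'] (φ : κ →+* κ') {m : ℕ}

/-- apply a ring homomorphism to a vector of series -/
noncomputable def mapV (w : Fin m → κ⟦X⟧) : Fin m → κ'⟦X⟧ := fun i => PowerSeries.map φ (w i)

theorem mapV_th (B : Matrix (Fin m) (Fin m) κ⟦X⟧) (w : Fin m → κ⟦X⟧) :
    mapV φ (thE B w) = thE (B.map (PowerSeries.map φ)) (mapV φ w) := by
  funext i
  show PowerSeries.map φ (X * d⁄dX κ (w i) + ∑ j, w j * B j i) =
    X * d⁄dX κ' (PowerSeries.map φ (w i)) + ∑ j, PowerSeries.map φ (w j) *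
      PowerSeries.map φ (B j i)
  rw [map_add, map_mul, map_sum, map_X]
  simp only [map_mul]
  congr 2
  ext n
  rw [coeff_map, coeff_derivative, coeff_derivative, map_mul, coeff_map, map_add, map_natCast,
    map_one]

theorem mapV_add (w w' : Fin m → κ⟦X⟧) : mapV φ (w + w') = mapV φ w + mapV φ w' := by
  funext i; simp [mapV]

theorem mapV_smul (a : κ) (w : Fin m → κ⟦X⟧) : mapV φ (a • w) = φ a • mapV φ w := by
  funext i; ext n; simp [mapV]

theorem mapV_th_pow (B : Matrix (Fin m) (Fin m) κ⟦X⟧) (n : ℕ) (w : Fin m → κ⟦X⟧) :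
    mapV φ ((thE B ^ n) w) = (thE (B.map (PowerSeries.map φ)) ^ n) (mapV φ w) := by
  induction n generalizing w with
  | zero => simp
  | succ n ih => rw [pow_succ, Module.End.mul_apply, ih, mapV_th, pow_succ, Module.End.mul_apply]

theorem mapV_aeval (B : Matrix (Fin m) (Fin m) κ⟦X⟧) (Q : Polynomial κ) (w : Fin m → κ⟦X⟧) :
    mapV φ ((Polynomial.aeval (thE B) Q) w) =
      (Polynomial.aeval (thE (B.map (PowerSeries.map φ))) (Q.map φ)) (mapV φ w) := by
  induction Q using Polynomial.induction_on' with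
  | add P Q hP hQ =>
    rw [map_add, LinearMap.add_apply, mapV_add, hP, hQ, Polynomial.map_add, map_add,
      LinearMap.add_apply]
  | monomial n a =>
    rw [Polynomial.map_monomial, Polynomial.aeval_monomial, Polynomial.aeval_monomial,
      ← Algebra.smul_def, ← Algebra.smul_def, LinearMap.smul_apply, LinearMap.smul_apply,
      mapV_smul, mapV_th_pow]

theorem mapV_sh (w : Fin m → κ⟦X⟧) : mapV φ (shE κ m w) = shE κ' m (mapV φ w) := by
  funext i; ext n
  show coeff n (PowerSeries.map φ (PowerSeries.mk fun n => coeff (n + 1) (w i))) =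
    coeff n (PowerSeries.mk fun n => coeff (n + 1) (PowerSeries.map φ (w i)))
  rw [coeff_map, coeff_mk, coeff_mk, coeff_map]

theorem mapV_d (B : Matrix (Fin m) (Fin m) κ⟦X⟧) (Q : Polynomial κ) (w : Fin m → κ⟦X⟧) :
    mapV φ (dE B Q w) = dE (B.map (PowerSeries.map φ)) (Q.map φ) (mapV φ w) := by
  rw [dE, Module.End.mul_apply, mapV_sh, mapV_aeval]
  rfl

theorem mapV_d_pow (B : Matrix (Fin m) (Fin m) κ⟦X⟧) (Q : Polynomial κ) (n : ℕ)
    (w : Fin m → κ⟦X⟧) : mapV φ ((dE B Q ^ n) w) =
      (dE (B.map (PowerSeries.map φ)) (Q.map φ) ^ n) (mapV φ w) := by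
  induction n generalizing w with
  | zero => simp
  | succ n ih => rw [pow_succ, Module.End.mul_apply, ih, mapV_d, pow_succ, Module.End.mul_apply]

theorem ev0_mapV (w : Fin m → κ⟦X⟧) (i : Fin m) : ev0 (mapV φ w) i = φ (ev0 w i) := by
  show constantCoeff (PowerSeries.map φ (w i)) = φ (constantCoeff (w i))
  rw [← coeff_zero_eq_constantCoeff_apply, ← coeff_zero_eq_constantCoeff_apply, coeff_map]

theorem map_constantCoeff_map (B : Matrix (Fin m) (Fin m) κ⟦X⟧) :
    (B.map (PowerSeries.map φ)).map constantCoeff = (B.map constantCoeff).map φ := by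
  ext i j
  show constantCoeff (PowerSeries.map φ (B i j)) = φ (constantCoeff (B i j))
  rw [← coeff_zero_eq_constantCoeff_apply, ← coeff_zero_eq_constantCoeff_apply, coeff_map]

theorem aeval_map_matrix (M : Matrix (Fin m) (Fin m) κ) (Q : Polynomial κ) :
    Polynomial.aeval (M.map φ) (Q.map φ) = (Polynomial.aeval M Q).map φ := by
  induction Q using Polynomial.induction_on' with
  | add P Q hP hQ =>
    rw [Polynomial.map_add, map_add, map_add, hP, hQ]
    ext i j; simp
  | monomial n a =>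
    rw [Polynomial.map_monomial, Polynomial.aeval_monomial, Polynomial.aeval_monomial,
      ← Algebra.smul_def, ← Algebra.smul_def]
    have h1 : (M.map φ) ^ n = (M ^ n).map φ := by
      have := map_pow (φ.mapMatrix (m := Fin m)) M n
      simpa [RingHom.mapMatrix_apply] using this.symm
    rw [h1]
    ext i j; simp

theorem mat0_map (B : Matrix (Fin m) (Fin m) κ⟦X⟧) (Q : Polynomial κ) (n : ℕ) :
    mat0 (B.map (PowerSeries.map φ)) (Q.map φ) n = (mat0 B Q n).map φ := by
  ext i j
  show ev0 ((dE (B.map (PowerSeries.map φ)) (Q.map φ) ^ n)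
    (fun l => PowerSeries.C (Pi.single (M := fun _ => κ') i 1 l))) j =
    φ (ev0 ((dE B Q ^ n) (fun l => PowerSeries.C (Pi.single (M := fun _ => κ) i 1 l))) j)
  rw [← ev0_mapV, mapV_d_pow]
  congr 3
  funext l
  show PowerSeries.C (Pi.single (M := fun _ => κ') i 1 l) =
    PowerSeries.map φ (PowerSeries.C (Pi.single (M := fun _ => κ) i 1 l))
  rw [map_C]
  congr 1
  rw [Pi.single_apply, Pi.single_apply]
  split_ifs <;> simp

end Natural

section Pairing

variable {K : Type*} [Field K] {m : ℕ} {B : Matrix (Fin m) (Fin m) K⟦X⟧} {Q : Polynomial K}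
  {Y : Fin m → K⟦X⟧}

/-- the pairing of a row vector with the column `Y` -/
noncomputable def pair (w Y : Fin m → K⟦X⟧) : K⟦X⟧ := ∑ i, w i * Y i

theorem pair_th (hY : ∀ i, X * d⁄dX K (Y i) = ∑ j, B i j * Y j) (w : Fin m → K⟦X⟧) :
    pair (thE B w) Y = X * d⁄dX K (pair w Y) := by
  have h1 : pair (thE B w) Y = ∑ i, X * d⁄dX K (w i) * Y i + ∑ i, ∑ j, w j * B j i * Y i := by
    rw [pair, ← sum_add_distrib]
    refine sum_congr rfl fun i _ => ?_
    show (X * d⁄dX K (w i) + ∑ j, w j * B j i) * Y i = _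
    rw [add_mul, sum_mul]
  rw [h1, pair, map_sum, mul_sum, sum_comm, ← sum_add_distrib]
  refine sum_congr rfl fun i _ => ?_
  rw [Derivation.leibniz, smul_eq_mul, smul_eq_mul, mul_add]
  have h2 : X * (w i * d⁄dX K (Y i)) = w i * ∑ j, B i j * Y j := by rw [← hY i]; ring
  rw [h2, mul_sum, add_comm]
  congr 1
  · exact sum_congr rfl fun j _ => mul_assoc _ _ _
  · ring

theorem coeff_pair_th (hY : ∀ i, X * d⁄dX K (Y i) = ∑ j, B i j * Y j) (w : Fin m → K⟦X⟧) (n : ℕ) :
    coeff n (pair (thE B w) Y) = (n : K) * coeff n (pair w Y) := by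
  rw [pair_th hY]
  rcases n with _ | n
  · rw [coeff_zero_X_mul]; simp
  · rw [coeff_succ_X_mul, coeff_derivative]
    push_cast
    ring

theorem pair_add (w w' : Fin m → K⟦X⟧) : pair (w + w') Y = pair w Y + pair w' Y := by
  simp only [pair, Pi.add_apply, add_mul, sum_add_distrib]

theorem pair_smul (a : K) (w : Fin m → K⟦X⟧) : pair (a • w) Y = a • pair w Y := by
  simp only [pair, Pi.smul_apply, smul_mul_assoc, smul_sum]

theorem coeff_pair_th_pow (hY : ∀ i, X * d⁄dX K (Y i) = ∑ j, B i j * Y j) (r : ℕ)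
    (w : Fin m → K⟦X⟧) (n : ℕ) :
    coeff n (pair ((thE B ^ r) w) Y) = (n : K) ^ r * coeff n (pair w Y) := by
  induction r generalizing w with
  | zero => simp
  | succ r ih => rw [pow_succ, Module.End.mul_apply, ih, coeff_pair_th hY, pow_succ, mul_assoc]

theorem coeff_pair_aeval (hY : ∀ i, X * d⁄dX K (Y i) = ∑ j, B i j * Y j) (Q : Polynomial K)
    (w : Fin m → K⟦X⟧) (n : ℕ) :
    coeff n (pair ((Polynomial.aeval (thE B) Q) w) Y) = Q.eval (n : K) * coeff n (pair w Y) := by
  induction Q using Polynomial.induction_on' with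
  | add P Q hP hQ =>
    rw [map_add, LinearMap.add_apply, pair_add, map_add, hP, hQ, Polynomial.eval_add]
    ring
  | monomial r a =>
    rw [Polynomial.aeval_monomial, ← Algebra.smul_def, LinearMap.smul_apply, pair_smul,
      coeff_smul, smul_eq_mul, coeff_pair_th_pow hY, Polynomial.eval_monomial]
    ring

theorem coeff_pair_d (hY : ∀ i, X * d⁄dX K (Y i) = ∑ j, B i j * Y j)
    (hQB : Polynomial.aeval (B.map constantCoeff) Q = 0) (w : Fin m → K⟦X⟧) (n : ℕ) :
    coeff n (pair (dE B Q w) Y) = Q.eval ((n : K) + 1) * coeff (n + 1) (pair w Y) := by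
  have h1 := coeff_pair_aeval hY Q w (n + 1)
  rw [← x_d hQB, Module.End.mul_apply] at h1
  have h2 : pair (xE K m (dE B Q w)) Y = X * pair (dE B Q w) Y := by
    rw [pair, pair, mul_sum]
    refine sum_congr rfl fun i _ => ?_
    show X * (dE B Q w i) * Y i = _
    ring
  rw [h2, coeff_succ_X_mul] at h1
  rw [h1]
  push_cast
  rfl

theorem coeff_pair_d_pow (hY : ∀ i, X * d⁄dX K (Y i) = ∑ j, B i j * Y j)
    (hQB : Polynomial.aeval (B.map constantCoeff) Q = 0) (n : ℕ) (w : Fin m → K⟦X⟧) (r : ℕ) :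
    coeff r (pair ((dE B Q ^ n) w) Y) =
      (∏ l ∈ range n, Q.eval ((r + l : ℕ) + 1 : K)) * coeff (r + n) (pair w Y) := by
  induction n generalizing w with
  | zero => simp
  | succ n ih =>
    rw [pow_succ, Module.End.mul_apply, ih, coeff_pair_d hY hQB, prod_range_succ, ← mul_assoc,
      add_assoc]

end Pairing

end Pool.Agent.Lib.MP_1eeaa7_nt
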