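import Pool.Agent.Lib.MP_1eeaa7_nt.Wring

/-!
# Points with coordinates in `W` at which a polynomial is a unit and countably many do not vanish
-/

set_option autoImplicit false

namespace Pool.Agent.Lib.MP_1eeaa7_nt

open Finset

section General

variable (k : Type*) [NormedField k] [IsUltrametricDist k] (p : ℕ) [hp : Fact p.Prime]

/-- the subring of the integers congruent to their `p^f`-th power modulo `p` -/
def WOs : Subring k where
  carrier := {x | ∃ h : x ∈ Ok k, IsW p (⟨x, h⟩ : Ok k)}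
  mul_mem' := fun ⟨ha, ha'⟩ ⟨hb, hb'⟩ => ⟨(Ok k).mul_mem ha hb, ha'.mul hb'⟩
  one_mem' := ⟨(Ok k).one_mem, IsW.one⟩
  add_mem' := fun ⟨ha, ha'⟩ ⟨hb, hb'⟩ => ⟨(Ok k).add_mem ha hb, ha'.add hp.out hb'⟩
  zero_mem' := ⟨(Ok k).zero_mem, IsW.zero hp.out⟩
  neg_mem' := fun ⟨ha, ha'⟩ => ⟨(Ok k).neg_mem ha, ha'.neg hp.out⟩

variable {k p}

theorem WOs.norm_le {x : k} (h : x ∈ WOs k p) : ‖x‖ ≤ 1 := h.1

theorem WOs.norm_le_p (hp0 : (p : k) ≠ 0) {x : k} (h : x ∈ WOs k p) (h1 : ‖x‖ < 1) :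
    ‖x‖ ≤ ‖(p : k)‖ :=
  IsW.norm_le hp.out hp0 h.2 h1

theorem WOs.inv {x : k} (h : x ∈ WOs k p) (h1 : ‖x‖ = 1) : x⁻¹ ∈ WOs k p := by
  have h0 : x ≠ 0 := fun h0 => by rw [h0, norm_zero] at h1; exact zero_ne_one h1
  have h2 : ‖x⁻¹‖ ≤ 1 := by rw [norm_inv, h1, inv_one]
  exact ⟨h2, h.2.inv (Subtype.ext (mul_inv_cancel₀ h0))⟩

theorem WOs.p_mul {x : k} (h : ‖x‖ ≤ 1) : (p : k) * x ∈ WOs k p := by
  have h2 : ‖(p : k) * x‖ ≤ 1 := by
    rw [norm_mul]
    exact mul_le_one₀ (IsUltrametricDist.norm_natCast_le_one k p) (norm_nonneg _) h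
  refine ⟨h2, IsW.of_dvd hp.out ⟨⟨x, h⟩, Subtype.ext ?_⟩⟩
  rw [Subring.coe_mul, Subring.coe_natCast]

theorem WOs.root_unity {ζ : k} {n : ℕ} (hn : 0 < n) (hnp : p.Coprime n) (h : ζ ^ n = 1) :
    ζ ∈ WOs k p := by
  have h1 : ‖ζ‖ = 1 := by
    have h2 := congrArg norm h
    rw [norm_pow, norm_one] at h2
    exact (pow_eq_one_iff_of_nonneg (norm_nonneg _) hn.ne').1 h2
  refine ⟨h1.le, n.totient, Nat.totient_pos.2 hn, ?_⟩
  have h3 : ζ ^ (p ^ n.totient) = ζ := by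
    have h4 := Nat.ModEq.pow_totient hnp
    have h5 : n ∣ p ^ n.totient - 1 := (Nat.modEq_iff_dvd' (Nat.one_le_pow _ _ hp.out.pos)).1 h4.symm
    obtain ⟨c, hc⟩ := h5
    have h6 : p ^ n.totient = n * c + 1 := by
      have := Nat.one_le_pow n.totient p hp.out.pos
      omega
    rw [h6, pow_succ, pow_mul, h, one_pow, one_mul]
  have h4 : (⟨ζ, h1.le⟩ : Ok k) ^ (p ^ n.totient) - ⟨ζ, h1.le⟩ = 0 := by
    rw [sub_eq_zero]
    exact Subtype.ext h3
  rw [h4]
  exact dvd_zero _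

omit [IsUltrametricDist k] in
theorem geom_zero {ω : k} {n : ℕ} (h : ω ^ n = 1) (h1 : ω ≠ 1) : ∑ i ∈ range n, ω ^ i = 0 := by
  have h2 := mul_geom_sum ω n
  rw [h, sub_self] at h2
  exact (mul_eq_zero.1 h2).resolve_left (sub_ne_zero.2 h1)

theorem exists_root_unity_eval [CharZero k] [IsAlgClosed k] (hpk : ‖(p : k)‖ < 1)
    {P : Polynomial k} (hP : ∀ i, ‖P.coeff i‖ ≤ 1) {j : ℕ} (hj : ‖P.coeff j‖ = 1) :
    ∃ ζ ∈ WOs k p, ‖P.eval ζ‖ = 1 := by
  classical
  set n : ℕ := p * (P.natDegree + 1) + 1 with hn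
  have hdn : P.natDegree < n := by
    have := Nat.le_mul_of_pos_left (P.natDegree + 1) hp.out.pos
    omega
  have hjn : j < n := by
    refine lt_of_le_of_lt (Polynomial.le_natDegree_of_ne_zero fun h0 => ?_) hdn
    rw [h0, norm_zero] at hj
    exact zero_ne_one hj
  have hpn : p.Coprime n := by
    rw [hn, mul_comm]
    exact (Nat.coprime_mul_right_add_right p 1 (P.natDegree + 1)).2 (Nat.coprime_one_right p)
  have hn0 : (n : k) ≠ 0 := Nat.cast_ne_zero.2 (by omega)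
  have hnz : NeZero (n : k) := ⟨hn0⟩
  have hnz' : NeZero n := ⟨by omega⟩
  obtain ⟨ζ, hζ⟩ := HasEnoughRootsOfUnity.exists_primitiveRoot k n
  have hnorm : ‖(n : k)‖ = 1 := by
    refine le_antisymm (IsUltrametricDist.norm_natCast_le_one k n) ?_
    have h1 : (1 : k) = n + -((p : k) * ((P.natDegree + 1 : ℕ) : k)) := by
      rw [hn]; push_cast; ring
    by_contra hcon
    push Not at hcon
    have h2 : ‖(p : k) * ((P.natDegree + 1 : ℕ) : k)‖ < 1 := by
      rw [norm_mul]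
      exact mul_lt_one_of_nonneg_of_lt_one_left (norm_nonneg _) hpk
        (IsUltrametricDist.norm_natCast_le_one k _)
    have h3 := IsUltrametricDist.norm_add_le_max (n : k) (-((p : k) * ((P.natDegree + 1 : ℕ) : k)))
    rw [← h1, norm_one, norm_neg] at h3
    exact absurd h3 (not_le.2 (max_lt hcon h2))
  have hsum : ∑ i ∈ range n, (ζ ^ i) ^ (n - j) * P.eval (ζ ^ i) = n * P.coeff j := by
    have h1 : ∀ i ∈ range n, (ζ ^ i) ^ (n - j) * P.eval (ζ ^ i) =
        ∑ l ∈ range (P.natDegree + 1), P.coeff l * (ζ ^ (n - j + l)) ^ i := by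
      intro i _
      rw [Polynomial.eval_eq_sum_range, mul_sum]
      refine sum_congr rfl fun l _ => ?_
      rw [← pow_mul, ← pow_mul, ← pow_mul, mul_left_comm, ← pow_add]
      ring_nf
    rw [sum_congr rfl h1, sum_comm]
    have h2 : ∀ l ∈ range (P.natDegree + 1), ∑ i ∈ range n, P.coeff l * (ζ ^ (n - j + l)) ^ i =
        if l = j then n * P.coeff j else 0 := by
      intro l hl
      rw [mem_range] at hl
      rw [← mul_sum]
      split_ifs with h
      · rw [h, Nat.sub_add_cancel hjn.le, hζ.pow_eq_one]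
        simp [mul_comm]
      · rw [geom_zero, mul_zero]
        · rw [← pow_mul, mul_comm, pow_mul, hζ.pow_eq_one, one_pow]
        · intro h3
          have h4 := (hζ.pow_eq_one_iff_dvd _).1 h3
          obtain ⟨c, hc⟩ := h4
          rcases c with _ | _ | c
          · omega
          · omega
          · have : n * (c + 1 + 1) = n * c + 2 * n := by ring
            omega
    rw [sum_congr rfl h2, sum_ite_eq']
    rw [if_pos]
    rw [mem_range]
    have : j ≤ P.natDegree := Polynomial.le_natDegree_of_ne_zero fun h0 => by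
      rw [h0, norm_zero] at hj
      exact zero_ne_one hj
    omega
  have hζ1 : ‖ζ‖ = 1 := by
    have h2 := congrArg norm hζ.pow_eq_one
    rw [norm_pow, norm_one] at h2
    exact (pow_eq_one_iff_of_nonneg (norm_nonneg _) (by omega)).1 h2
  have hPi : ∀ i, ‖P.eval (ζ ^ i)‖ ≤ 1 := by
    intro i
    rw [Polynomial.eval_eq_sum_range]
    refine IsUltrametricDist.norm_sum_le_of_forall_le_of_nonneg zero_le_one fun l _ => ?_
    rw [norm_mul, norm_pow, norm_pow, hζ1, one_pow, one_pow, mul_one]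
    exact hP l
  obtain ⟨i, _, hi⟩ := IsUltrametricDist.exists_norm_finsetSum_le_of_nonempty
    (⟨0, mem_range.2 (by omega)⟩ : (range n).Nonempty)
    (fun i => (ζ ^ i) ^ (n - j) * P.eval (ζ ^ i))
  rw [hsum, norm_mul, hnorm, hj, one_mul, norm_mul, norm_pow, norm_pow, hζ1, one_pow, one_pow,
    one_mul] at hi
  refine ⟨ζ ^ i, ?_, le_antisymm (hPi i) hi⟩
  refine WOs.root_unity (n := n) (by omega) hpn ?_
  rw [← pow_mul, mul_comm, pow_mul, hζ.pow_eq_one, one_pow]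

theorem eval_sub_eval_le {P : Polynomial k} (hP : ∀ i, ‖P.coeff i‖ ≤ 1) {x y : k} (hx : ‖x‖ ≤ 1)
    (hy : ‖y‖ ≤ 1) : ‖P.eval x - P.eval y‖ ≤ ‖x - y‖ := by
  rw [Polynomial.eval_eq_sum_range, Polynomial.eval_eq_sum_range, ← sum_sub_distrib]
  refine IsUltrametricDist.norm_sum_le_of_forall_le_of_nonneg (norm_nonneg _) fun i _ => ?_
  rw [← mul_sub, norm_mul]
  obtain ⟨c, hc⟩ := sub_dvd_pow_sub_pow (⟨x, hx⟩ : Ok k) ⟨y, hy⟩ i
  have h1 := congrArg Subtype.val hc
  push_cast at h1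
  rw [h1, norm_mul]
  calc ‖P.coeff i‖ * (‖x - y‖ * ‖(c : k)‖) ≤ 1 * (‖x - y‖ * 1) := by
        refine mul_le_mul (hP i) ?_ (by positivity) zero_le_one
        exact mul_le_mul_of_nonneg_left c.2 (norm_nonneg _)
    _ = ‖x - y‖ := by ring

end General

section Points

variable {p : ℕ} [hp : Fact p.Prime]

theorem norm_p_AlgCl : ‖(p : PadicAlgCl p)‖ = (p : ℝ)⁻¹ := by
  have h1 := PadicAlgCl.norm_extends p (p : ℚ_[p])
  rw [map_natCast] at h1
  rw [h1, Padic.norm_p]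

theorem norm_p_AlgCl_lt : ‖(p : PadicAlgCl p)‖ < 1 := by
  rw [norm_p_AlgCl]
  exact inv_lt_one_of_one_lt₀ (by exact_mod_cast hp.out.one_lt)

/-- one-variable step -/
theorem exists_point_one {P : Polynomial (PadicAlgCl p)} (hP : ∀ i, ‖P.coeff i‖ ≤ 1) {j : ℕ}
    (hj : ‖P.coeff j‖ = 1) {bad : Set (PadicAlgCl p)} (hbad : bad.Countable) :
    ∃ t ∈ WOs (PadicAlgCl p) p, ‖P.eval t‖ = 1 ∧ t ∉ bad := by
  obtain ⟨ζ, hζ, h1⟩ := exists_root_unity_eval (p := p) norm_p_AlgCl_lt hP hj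
  have hp0 : (p : PadicAlgCl p) ≠ 0 := Nat.cast_ne_zero.2 hp.out.ne_zero
  have hinj : Function.Injective (fun y : ℚ_[p] => ζ + (p : PadicAlgCl p) * (y : PadicAlgCl p)) := by
    intro y y' h
    have h2 := mul_left_cancel₀ hp0 (add_left_cancel h)
    exact (algebraMap ℚ_[p] (PadicAlgCl p)).injective h2
  have hc : ((fun y : ℚ_[p] => ζ + (p : PadicAlgCl p) * (y : PadicAlgCl p)) ⁻¹' bad).Countable :=
    hbad.preimage hinj
  obtain ⟨y, hy1, hy2⟩ := (hc.dense_compl ℚ_[p]).exists_mem_open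
      (Metric.isOpen_ball (x := (0 : ℚ_[p])) (ε := 1)) ⟨_, Metric.mem_ball_self one_pos⟩
  rw [Metric.mem_ball, dist_zero_right] at hy2
  have hy3 : ‖(y : PadicAlgCl p)‖ ≤ 1 := by
    rw [PadicAlgCl.norm_extends]
    exact hy2.le
  refine ⟨ζ + (p : PadicAlgCl p) * (y : PadicAlgCl p), ?_, ?_, hy1⟩
  · exact (WOs _ p).add_mem hζ (WOs.p_mul hy3)
  · have ht : ζ + (p : PadicAlgCl p) * (y : PadicAlgCl p) ∈ WOs (PadicAlgCl p) p :=
      (WOs _ p).add_mem hζ (WOs.p_mul hy3)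
    have h2 := eval_sub_eval_le hP (WOs.norm_le ht) (WOs.norm_le hζ)
    rw [add_sub_cancel_left, norm_mul] at h2
    have h3 : ‖P.eval (ζ + (p : PadicAlgCl p) * (y : PadicAlgCl p)) - P.eval ζ‖ < 1 :=
      h2.trans_lt (mul_lt_one_of_nonneg_of_lt_one_left (norm_nonneg _) norm_p_AlgCl_lt hy3)
    refine le_antisymm ?_ ?_
    · have h4 : P.eval (ζ + (p : PadicAlgCl p) * (y : PadicAlgCl p)) =
          (P.eval (ζ + (p : PadicAlgCl p) * (y : PadicAlgCl p)) - P.eval ζ) + P.eval ζ := by ring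
      rw [h4]
      exact (IsUltrametricDist.norm_add_le_max _ _).trans (max_le h3.le h1.le)
    · by_contra hcon
      push Not at hcon
      have h4 : P.eval ζ = P.eval (ζ + (p : PadicAlgCl p) * (y : PadicAlgCl p)) +
          -(P.eval (ζ + (p : PadicAlgCl p) * (y : PadicAlgCl p)) - P.eval ζ) := by ring
      have h5 := IsUltrametricDist.norm_add_le_max
        (P.eval (ζ + (p : PadicAlgCl p) * (y : PadicAlgCl p)))
        (-(P.eval (ζ + (p : PadicAlgCl p) * (y : PadicAlgCl p)) - P.eval ζ))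
      rw [← h4, h1, norm_neg] at h5
      exact absurd h5 (not_le.2 (max_lt hcon h3))

theorem norm_mvEval_le {s : ℕ} {w : MvPolynomial (Fin s) (PadicAlgCl p)}
    (hw : ∀ c, ‖w.coeff c‖ ≤ 1) {τ : Fin s → PadicAlgCl p} (hτ : ∀ i, ‖τ i‖ ≤ 1) :
    ‖MvPolynomial.eval τ w‖ ≤ 1 := by
  rw [MvPolynomial.eval_eq]
  refine IsUltrametricDist.norm_sum_le_of_forall_le_of_nonneg zero_le_one fun c _ => ?_
  rw [norm_mul, norm_prod]
  refine mul_le_one₀ (hw c) (by positivity) ?_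
  refine Finset.prod_le_one (fun _ _ => norm_nonneg _) fun i _ => ?_
  rw [norm_pow]
  exact pow_le_one₀ (norm_nonneg _) (hτ i)

theorem exists_point {ι : Type*} [Countable ι] : ∀ (s : ℕ)
    (w : MvPolynomial (Fin s) (PadicAlgCl p)) (_ : ∀ c, ‖w.coeff c‖ ≤ 1)
    (c₀ : Fin s →₀ ℕ) (_ : ‖w.coeff c₀‖ = 1)
    (F : ι → MvPolynomial (Fin s) (PadicAlgCl p)) (_ : ∀ i, F i ≠ 0),
    ∃ τ : Fin s → PadicAlgCl p, (∀ i, τ i ∈ WOs (PadicAlgCl p) p) ∧
      ‖MvPolynomial.eval τ w‖ = 1 ∧ ∀ i, MvPolynomial.eval τ (F i) ≠ 0 := by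
  classical
  intro s
  induction s with
  | zero =>
    intro w _ c₀ hc₀ F hF
    refine ⟨fun i => i.elim0, fun i => i.elim0, ?_, fun i h => hF i ?_⟩
    · have h1 := MvPolynomial.eq_C_of_isEmpty w
      rw [h1, MvPolynomial.eval_C]
      rwa [Subsingleton.elim c₀ 0] at hc₀
    · rw [MvPolynomial.eq_C_of_isEmpty (F i), MvPolynomial.eval_C] at h
      rw [MvPolynomial.eq_C_of_isEmpty (F i), h, map_zero]
  | succ s ih =>
    intro w hw c₀ hc₀ F hF
    set w' := MvPolynomial.finSuccEquiv (PadicAlgCl p) s w with hw'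
    have h1 : ∀ i, MvPolynomial.finSuccEquiv (PadicAlgCl p) s (F i) ≠ 0 := fun i h =>
      hF i ((MvPolynomial.finSuccEquiv (PadicAlgCl p) s).injective (by rw [h, map_zero]))
    have hwc : ∀ i c, ‖(w'.coeff i).coeff c‖ ≤ 1 := by
      intro i c
      rw [hw', MvPolynomial.finSuccEquiv_coeff_coeff]
      exact hw _
    obtain ⟨τ, hτ, hτ1, hτ2⟩ := ih (w'.coeff (c₀ 0)) (hwc _) c₀.tail (by
        rw [hw', MvPolynomial.finSuccEquiv_coeff_coeff, Finsupp.cons_tail]
        exact hc₀)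
      (fun i => (MvPolynomial.finSuccEquiv (PadicAlgCl p) s (F i)).leadingCoeff)
      (fun i => Polynomial.leadingCoeff_ne_zero.2 (h1 i))
    set G : ι → Polynomial (PadicAlgCl p) := fun i =>
      (MvPolynomial.finSuccEquiv (PadicAlgCl p) s (F i)).map (MvPolynomial.eval τ) with hG
    have hG0 : ∀ i, G i ≠ 0 := by
      intro i h
      have h2 : (G i).coeff (MvPolynomial.finSuccEquiv (PadicAlgCl p) s (F i)).natDegree = 0 := by
        rw [h, Polynomial.coeff_zero]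
      rw [hG] at h2
      simp only [Polynomial.coeff_map] at h2
      exact hτ2 i h2
    have hbad : (⋃ i, {x : PadicAlgCl p | (G i).IsRoot x}).Countable := by
      refine Set.countable_iUnion fun i => ?_
      exact (Set.Finite.subset (G i).roots.toFinset.finite_toSet fun x hx => by
        rw [Finset.mem_coe, Multiset.mem_toFinset, Polynomial.mem_roots (hG0 i)]
        exact hx).countable
    obtain ⟨t, ht, ht1, ht2⟩ := exists_point_one (P := w'.map (MvPolynomial.eval τ))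
      (fun i => by
        rw [Polynomial.coeff_map]
        exact norm_mvEval_le (hwc i) fun i => WOs.norm_le (hτ i)) (j := c₀ 0)
      (by rw [Polynomial.coeff_map]; exact hτ1) hbad
    refine ⟨Fin.cons t τ, fun i => ?_, ?_, fun i h => ?_⟩
    · refine Fin.cases ?_ (fun j => ?_) i
      · rw [Fin.cons_zero]; exact ht
      · rw [Fin.cons_succ]; exact hτ j
    · rw [MvPolynomial.eval_eq_eval_mv_eval']
      exact ht1
    · rw [MvPolynomial.eval_eq_eval_mv_eval'] at h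
      exact ht2 (Set.mem_iUnion.2 ⟨i, h⟩)

end Points

end Pool.Agent.Lib.MP_1eeaa7_nt
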