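import Mathlib

/-!
# Elements congruent to their own `p^f`-th power modulo `p`

`WO k p` is the set of elements `x` of norm at most one of an ultrametric field such that
`x ^ (p ^ f) ≡ x` modulo `p` for some `f ≥ 1`. It is closed under the ring operations, contains the
Teichmüller elements and is closed under Hensel lifting. On it, norm `< 1` implies norm `≤ ‖p‖`.
-/

set_option autoImplicit false

namespace Pool.Agent.Lib.MP_1eeaa7_nt

open Finset

section Ring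

variable {O : Type*} [CommRing O] {p : ℕ}

/-- elements congruent to their `p^f`-th power for some `f ≥ 1` -/
def IsW (p : ℕ) (x : O) : Prop := ∃ f : ℕ, 1 ≤ f ∧ (p : O) ∣ x ^ (p ^ f) - x

theorem dvd_pow_sub_pow {x y : O} (h : (p : O) ∣ x - y) (n : ℕ) : (p : O) ∣ x ^ n - y ^ n :=
  h.trans (sub_dvd_pow_sub_pow x y n)

theorem iter_w {x : O} {f : ℕ} (h : (p : O) ∣ x ^ (p ^ f) - x) (n : ℕ) :
    (p : O) ∣ x ^ (p ^ (f * n)) - x := by
  induction n with
  | zero => simp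
  | succ n ih =>
    have h1 : x ^ (p ^ (f * (n + 1))) - x = ((x ^ (p ^ (f * n))) ^ (p ^ f) - x ^ (p ^ f)) +
        (x ^ (p ^ f) - x) := by
      rw [← pow_mul, ← pow_add, mul_add, mul_one]
      ring
    rw [h1]
    exact dvd_add (dvd_pow_sub_pow ih _) h

theorem add_pow_sub (hp : p.Prime) (x y : O) (f : ℕ) :
    (p : O) ∣ (x + y) ^ (p ^ f) - (x ^ (p ^ f) + y ^ (p ^ f)) := by
  obtain ⟨r, hr⟩ := exists_add_pow_prime_pow_eq hp x y f
  rw [hr, add_sub_cancel_left]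
  exact ⟨x * y * r, by ring⟩

theorem IsW.common {x y : O} (hx : IsW p x) (hy : IsW p y) :
    ∃ f : ℕ, 1 ≤ f ∧ (p : O) ∣ x ^ (p ^ f) - x ∧ (p : O) ∣ y ^ (p ^ f) - y := by
  obtain ⟨f, hf, hfx⟩ := hx
  obtain ⟨g, hg, hgy⟩ := hy
  refine ⟨f * g, Nat.mul_pos hf hg, iter_w hfx g, ?_⟩
  rw [mul_comm]
  exact iter_w hgy f

theorem IsW.common_finset {ι : Type*} (s : Finset ι) {x : ι → O} (h : ∀ i ∈ s, IsW p (x i)) :
    ∃ f : ℕ, 1 ≤ f ∧ ∀ i ∈ s, (p : O) ∣ x i ^ (p ^ f) - x i := by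
  classical
  induction s using Finset.induction_on with
  | empty => exact ⟨1, le_rfl, by simp⟩
  | insert a s ha ih =>
    obtain ⟨f, hf, hs⟩ := ih fun i hi => h i (mem_insert_of_mem hi)
    obtain ⟨g, hg, hag⟩ := h a (mem_insert_self a s)
    refine ⟨f * g, Nat.mul_pos hf hg, fun i hi => ?_⟩
    rcases mem_insert.1 hi with rfl | hi
    · rw [mul_comm]
      exact iter_w hag f
    · exact iter_w (hs i hi) g

theorem IsW.add (hp : p.Prime) {x y : O} (hx : IsW p x) (hy : IsW p y) : IsW p (x + y) := by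
  obtain ⟨f, hf, h1, h2⟩ := hx.common hy
  refine ⟨f, hf, ?_⟩
  have h3 : (x + y) ^ (p ^ f) - (x + y) = ((x + y) ^ (p ^ f) - (x ^ (p ^ f) + y ^ (p ^ f))) +
      (x ^ (p ^ f) - x) + (y ^ (p ^ f) - y) := by ring
  rw [h3]
  exact dvd_add (dvd_add (add_pow_sub hp x y f) h1) h2

theorem IsW.mul {x y : O} (hx : IsW p x) (hy : IsW p y) : IsW p (x * y) := by
  obtain ⟨f, hf, h1, h2⟩ := hx.common hy
  refine ⟨f, hf, ?_⟩
  have h3 : (x * y) ^ (p ^ f) - x * y = (x ^ (p ^ f) - x) * y ^ (p ^ f) +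
      x * (y ^ (p ^ f) - y) := by ring
  rw [h3]
  exact dvd_add (h1.mul_right _) (h2.mul_left _)

theorem IsW.one : IsW p (1 : O) := ⟨1, le_rfl, by simp⟩

theorem IsW.zero (hp : p.Prime) : IsW p (0 : O) :=
  ⟨1, le_rfl, by rw [zero_pow (pow_ne_zero _ hp.ne_zero), sub_zero]; exact dvd_zero _⟩

theorem IsW.neg_one (hp : p.Prime) : IsW p (-1 : O) := by
  refine ⟨1, le_rfl, ?_⟩
  rw [pow_one]
  rcases hp.eq_two_or_odd' with rfl | h
  · norm_num
  · rw [h.neg_one_pow, sub_self]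
    exact dvd_zero _

theorem IsW.neg (hp : p.Prime) {x : O} (hx : IsW p x) : IsW p (-x) := by
  have := (IsW.neg_one hp).mul hx
  rwa [neg_one_mul] at this

theorem IsW.of_dvd (hp : p.Prime) {x : O} (hx : (p : O) ∣ x) : IsW p x := by
  refine ⟨1, le_rfl, dvd_sub ?_ hx⟩
  exact hx.trans (dvd_pow_self x (pow_ne_zero _ hp.ne_zero))

theorem IsW.inv {x y : O} (hx : IsW p x) (hxy : x * y = 1) : IsW p y := by
  obtain ⟨f, hf, h⟩ := hx
  refine ⟨f, hf, ?_⟩
  have h1 : y ^ (p ^ f) - y = -(y ^ (p ^ f) * y) * (x ^ (p ^ f) - x) := by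
    have h2 : x ^ (p ^ f) * y ^ (p ^ f) = 1 := by rw [← mul_pow, hxy, one_pow]
    linear_combination y * h2 - y ^ (p ^ f) * hxy
  rw [h1]
  exact h.mul_left _

theorem IsW.sum {ι : Type*} (hp : p.Prime) (s : Finset ι) {x : ι → O} (h : ∀ i ∈ s, IsW p (x i)) :
    IsW p (∑ i ∈ s, x i) := by
  classical
  induction s using Finset.induction_on with
  | empty => rw [sum_empty]; exact IsW.zero hp
  | insert a s ha ih =>
    rw [sum_insert ha]
    exact (h a (mem_insert_self a s)).add hp (ih fun i hi => h i (mem_insert_of_mem hi))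

theorem IsW.pow {x : O} (hx : IsW p x) (n : ℕ) : IsW p (x ^ n) := by
  induction n with
  | zero => rw [pow_zero]; exact IsW.one
  | succ n ih => rw [pow_succ]; exact ih.mul hx

theorem IsW.map {O' : Type*} [CommRing O'] (φ : O →+* O') {x : O} (hx : IsW p x) :
    IsW p (φ x) := by
  obtain ⟨f, hf, c, hc⟩ := hx
  refine ⟨f, hf, φ c, ?_⟩
  rw [← map_pow, ← map_sub, hc, map_mul, map_natCast]

theorem sum_pow_sub {ι : Type*} (hp : p.Prime) (f : ℕ) (s : Finset ι) (x : ι → O) :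
    (p : O) ∣ (∑ i ∈ s, x i) ^ (p ^ f) - ∑ i ∈ s, x i ^ (p ^ f) := by
  classical
  induction s using Finset.induction_on with
  | empty =>
    rw [sum_empty, sum_empty, zero_pow (pow_ne_zero _ hp.ne_zero), sub_zero]
    exact dvd_zero _
  | insert a s ha ih =>
    rw [sum_insert ha, sum_insert ha]
    have h1 : (x a + ∑ i ∈ s, x i) ^ (p ^ f) - (x a ^ (p ^ f) + ∑ i ∈ s, x i ^ (p ^ f)) =
        ((x a + ∑ i ∈ s, x i) ^ (p ^ f) - (x a ^ (p ^ f) + (∑ i ∈ s, x i) ^ (p ^ f))) +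
        ((∑ i ∈ s, x i) ^ (p ^ f) - ∑ i ∈ s, x i ^ (p ^ f)) := by ring
    rw [h1]
    exact dvd_add (add_pow_sub hp _ _ f) ih

/-- Hensel lifting stays inside -/
theorem IsW.root [IsLocalRing O] (hp : p.Prime) {m : Polynomial O} (hm : ∀ i, IsW p (m.coeff i))
    {β : O} (h0 : m.eval β = 0) (h1 : IsUnit (m.derivative.eval β)) {f₀ : ℕ} (hf₀ : 1 ≤ f₀)
    (hβ : ∀ n : ℕ, 1 ≤ n → β ^ (p ^ (f₀ * n)) - β ∈ nonunits O) : IsW p β := by
  obtain ⟨f, hf, h⟩ := IsW.common_finset (range (m.natDegree + 1)) (fun i _ => hm i)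
  refine ⟨f₀ * f, Nat.mul_pos hf₀ hf, ?_⟩
  set q := p ^ (f₀ * f) with hq
  have hc : ∀ i ∈ range (m.natDegree + 1), (p : O) ∣ m.coeff i ^ q - m.coeff i := fun i hi => by
    rw [hq, mul_comm]
    exact iter_w (h i hi) f₀
  have h2 : (p : O) ∣ m.eval (β ^ q) := by
    have h3 : m.eval (β ^ q) = -((∑ i ∈ range (m.natDegree + 1), m.coeff i * β ^ i) ^ q -
        ∑ i ∈ range (m.natDegree + 1), (m.coeff i * β ^ i) ^ q) -
        ∑ i ∈ range (m.natDegree + 1), (m.coeff i ^ q - m.coeff i) * (β ^ q) ^ i := by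
      rw [← Polynomial.eval_eq_sum_range, h0, Polynomial.eval_eq_sum_range,
        zero_pow (pow_ne_zero _ hp.ne_zero)]
      simp only [mul_pow, sub_mul, sum_sub_distrib]
      have h4 : ∑ i ∈ range (m.natDegree + 1), m.coeff i ^ q * (β ^ i) ^ q =
          ∑ i ∈ range (m.natDegree + 1), m.coeff i ^ q * (β ^ q) ^ i :=
        sum_congr rfl fun i _ => by rw [← pow_mul, ← pow_mul, mul_comm i]
      rw [h4]
      ring
    rw [h3]
    exact dvd_sub ((dvd_neg).2 (sum_pow_sub hp _ _ _)) (dvd_sum fun i hi => (hc i hi).mul_right _)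
  obtain ⟨k, hk⟩ := m.binomExpansion β (β ^ q - β)
  rw [add_sub_cancel, h0, zero_add] at hk
  have h5 : IsUnit (m.derivative.eval β + k * (β ^ q - β)) := by
    by_contra hcon
    have h6 : m.derivative.eval β + k * (β ^ q - β) ∈ IsLocalRing.maximalIdeal O := hcon
    have h7 : k * (β ^ q - β) ∈ IsLocalRing.maximalIdeal O :=
      Ideal.mul_mem_left _ _ (hβ f hf)
    have h8 := (Ideal.add_mem_iff_left _ h7).1 h6
    exact h8 h1
  have h6 : m.eval (β ^ q) = (β ^ q - β) * (m.derivative.eval β + k * (β ^ q - β)) := by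
    rw [hk]; ring
  rw [h6] at h2
  exact (h5.dvd_mul_right).1 h2

end Ring

section Norm

variable (k : Type*) [NormedField k] [IsUltrametricDist k]

/-- the ring of integers -/
def Ok : Subring k where
  carrier := {x | ‖x‖ ≤ 1}
  mul_mem' := fun {a b} ha hb => by
    show ‖a * b‖ ≤ 1
    rw [norm_mul]
    exact mul_le_one₀ ha (norm_nonneg _) hb
  one_mem' := by show ‖(1 : k)‖ ≤ 1; rw [norm_one]
  add_mem' := fun {a b} ha hb => (IsUltrametricDist.norm_add_le_max a b).trans (max_le ha hb)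
  zero_mem' := by show ‖(0 : k)‖ ≤ 1; rw [norm_zero]; exact zero_le_one
  neg_mem' := fun {a} ha => by
    show ‖-a‖ ≤ 1
    rw [norm_neg]
    exact ha

variable {k}

theorem mem_Ok {x : k} : x ∈ Ok k ↔ ‖x‖ ≤ 1 := Iff.rfl

theorem isUnit_Ok {x : Ok k} : IsUnit x ↔ ‖(x : k)‖ = 1 := by
  constructor
  · rintro ⟨u, rfl⟩
    have h1 : ‖((u : Ok k) : k)‖ * ‖((u⁻¹ : (Ok k)ˣ) : Ok k).1‖ = 1 := by
      rw [← norm_mul, ← Subring.coe_mul, Units.mul_inv, Subring.coe_one, norm_one]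
    have h2 : ‖((u : Ok k) : k)‖ ≤ 1 := (u : Ok k).2
    have h3 : ‖((u⁻¹ : (Ok k)ˣ) : Ok k).1‖ ≤ 1 := ((u⁻¹ : (Ok k)ˣ) : Ok k).2
    refine le_antisymm h2 ?_
    by_contra hcon
    push Not at hcon
    have : ‖((u : Ok k) : k)‖ * ‖((u⁻¹ : (Ok k)ˣ) : Ok k).1‖ < 1 :=
      mul_lt_one_of_nonneg_of_lt_one_left (norm_nonneg _) hcon h3
    linarith
  · intro h
    have h0 : (x : k) ≠ 0 := fun h0 => by rw [h0, norm_zero] at h; exact zero_ne_one h
    refine IsUnit.of_mul_eq_one ⟨(x : k)⁻¹, ?_⟩ (Subtype.ext (mul_inv_cancel₀ h0))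
    show ‖(x : k)⁻¹‖ ≤ 1
    rw [norm_inv, h, inv_one]

instance : IsLocalRing (Ok k) := by
  refine IsLocalRing.of_nonunits_add fun a b ha hb => ?_
  rw [mem_nonunits_iff, isUnit_Ok] at ha hb ⊢
  have ha' : ‖(a : k)‖ < 1 := lt_of_le_of_ne a.2 ha
  have hb' : ‖(b : k)‖ < 1 := lt_of_le_of_ne b.2 hb
  rw [Subring.coe_add]
  exact ((IsUltrametricDist.norm_add_le_max _ _).trans_lt (max_lt ha' hb')).ne

theorem mem_nonunits_Ok {x : Ok k} : x ∈ nonunits (Ok k) ↔ ‖(x : k)‖ < 1 := by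
  rw [mem_nonunits_iff, isUnit_Ok]
  exact ⟨fun h => lt_of_le_of_ne x.2 h, fun h => h.ne⟩

theorem natCast_dvd_Ok {p : ℕ} (hp0 : (p : k) ≠ 0) {x : Ok k} :
    (p : Ok k) ∣ x ↔ ‖(x : k)‖ ≤ ‖(p : k)‖ := by
  constructor
  · rintro ⟨c, rfl⟩
    rw [Subring.coe_mul, norm_mul, Subring.coe_natCast]
    exact mul_le_of_le_one_right (norm_nonneg _) c.2
  · intro h
    refine ⟨⟨(x : k) / p, ?_⟩, Subtype.ext ?_⟩
    · show ‖(x : k) / p‖ ≤ 1
      rw [norm_div]
      exact div_le_one_of_le₀ h (norm_nonneg _)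
    · rw [Subring.coe_mul, Subring.coe_natCast]
      show (x : k) = p * (x / p)
      rw [mul_div_cancel₀ _ hp0]

/-- On `W` a norm less than one is at most `‖p‖`. -/
theorem IsW.norm_le {p : ℕ} (hp : p.Prime) (hp0 : (p : k) ≠ 0) {x : Ok k} (hx : IsW p x)
    (h1 : ‖(x : k)‖ < 1) : ‖(x : k)‖ ≤ ‖(p : k)‖ := by
  obtain ⟨f, hf, h⟩ := hx
  rw [natCast_dvd_Ok hp0] at h
  push_cast at h
  rcases eq_or_ne (x : k) 0 with h0 | h0
  · rw [h0, norm_zero]; exact norm_nonneg _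
  · have h2 : ‖(x : k) ^ (p ^ f)‖ < ‖(x : k)‖ := by
      rw [norm_pow]
      have h3 : 1 < p ^ f := Nat.one_lt_pow (by omega) hp.one_lt
      calc ‖(x : k)‖ ^ (p ^ f) < ‖(x : k)‖ ^ 1 :=
            pow_lt_pow_right_of_lt_one₀ (norm_pos_iff.2 h0) h1 h3
        _ = ‖(x : k)‖ := pow_one _
    have h4 : ‖(x : k)‖ ≤ max ‖(x : k) ^ (p ^ f)‖ ‖(x : k) ^ (p ^ f) - x‖ := by
      have h5 : (x : k) = (x : k) ^ (p ^ f) + -((x : k) ^ (p ^ f) - x) := by ring
      calc ‖(x : k)‖ = ‖(x : k) ^ (p ^ f) + -((x : k) ^ (p ^ f) - x)‖ := by rw [← h5]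
        _ ≤ max ‖(x : k) ^ (p ^ f)‖ ‖-((x : k) ^ (p ^ f) - x)‖ :=
            IsUltrametricDist.norm_add_le_max _ _
        _ = _ := by rw [norm_neg]
    rcases le_max_iff.1 h4 with h5 | h5
    · exact absurd h5 (not_le.2 h2)
    · exact h5.trans h

end Norm

end Pool.Agent.Lib.MP_1eeaa7_nt
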